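import Pool.Agent.Run7.h919.Ra8

/-!
Rational characters: the final structure theorem.
-/

set_option linter.unusedSectionVars false

namespace Run7.h919.Ra

open Finset Pool.Agent.H916R2
open Run7.h365.TD (Ar)

/-- The degree `m` has at most two odd prime factors, or it is not divisible by four and the number
`N` is less than the product of the numbers `(p - 1) / 2` for any four odd prime factors (`2 * N` if `m`
is even). -/
def FewFactors (m N : ℕ) : Prop :=
  (m.primeFactors.erase 2).card ≤ 2 ∨ (¬ 4 ∣ m ∧ FourBound m N)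

/-- **The structure theorem.** -/
theorem generated_few {m R : ℕ} [NeZero m] (hR : ¬ 2 ∣ R) {s : Multiset (ZMod m)}
    (hF : FewFactors m (Multiset.card s)) (hs : IsHodge m s) (hne : s ≠ 0) (hA : Ar R m s) :
    Generated m (fun _ => False) s := by
  rcases hF with h | ⟨h4, h⟩
  · by_cases h4 : 4 ∣ m
    · exact generated_four h4 h hR hs hne hA
    · exact generated_of_ar h4 hR (fourBound_of_card (by omega)) hs hne hA
  · exact generated_of_ar h4 hR h hs hne hA

theorem fourBound_of_dvd {m M N : ℕ} (hm : m ≠ 0) (hM : M ∣ m) (h : FourBound m N) :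
    FourBound M N := by
  intro T hT hTc
  have h1 := h T (hT.trans (erase_subset_erase 2 (Nat.primeFactors_mono hM hm))) hTc
  refine lt_of_le_of_lt ?_ h1
  by_cases h2 : 2 ∣ M
  · rw [if_pos h2, if_pos (h2.trans hM)]
  · rw [if_neg h2]
    split_ifs <;> omega

theorem fewFactors_of_dvd {m M N : ℕ} (hm : m ≠ 0) (hM : M ∣ m) (h : FewFactors m N) :
    FewFactors M N := by
  rcases h with h | ⟨h4, h⟩
  · exact Or.inl ((card_le_card (erase_subset_erase 2 (Nat.primeFactors_mono hM hm))).trans h)
  · exact Or.inr ⟨fun h5 => h4 (h5.trans hM), fourBound_of_dvd hm hM h⟩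

/-- odd degrees and at most 29 entries; twice odd degrees and at most 14 entries -/
theorem fewFactors_of_lt {m N : ℕ} (h4 : ¬ 4 ∣ m) (hN : (if 2 ∣ m then 2 else 1) * N < 30) :
    FewFactors m N := Or.inr ⟨h4, fourBound_of_lt hN⟩

/-- at most three odd primes -/
theorem fewFactors_of_card {m N : ℕ} (h4 : ¬ 4 ∣ m) (h : (m.primeFactors.erase 2).card ≤ 3) :
    FewFactors m N := Or.inr ⟨h4, fourBound_of_card h⟩

end Run7.h919.Ra
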