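import Mathlib

/-!
# The bound on the pairs of prime divisors of the degree
-/

namespace Run7.h919

/-- The condition on the prime divisors of the degree `m`, for characters with `N` entries, i.e. for
Fermat varieties of dimension `N - 2`. If `m` is odd: `4 * N < (p - 1) * (q - 1)` for all primes
`p < q` which divide `m`. If `m` is even: `8 * N < (p - 1) * (q - 1)` for all odd primes `p < q` which
divide `m`; and, if `4` divides `m`, `2 * N < q - 1` for all odd primes `q` which divide `m`. -/
def PairBound (m N : ℕ) : Prop :=
  ∀ p q : ℕ, p.Prime → q.Prime → p ∣ m → q ∣ m → p < q →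
    (¬ 2 ∣ m → 4 * N < (p - 1) * (q - 1)) ∧
    (2 ∣ m → p ≠ 2 → 8 * N < (p - 1) * (q - 1)) ∧
    (4 ∣ m → p = 2 → 2 * N < q - 1)

end Run7.h919
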