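import Pool.Agent.Run7.h919.Phase
import Pool.Agent.Run7.h919.Bound
import Pool.Agent.H916R2.Closure

/-!
Hodge characters with few entries are generated by pairs and standard characters.
-/

namespace Run7.h919

open Finset Pool.Agent.H916R2

lemma odd_of_bound {m N : ℕ} (h : PairBound m N) (hodd : ¬ 2 ∣ m) : OddPairs m (2 * N) := by
  intro p q hp hq hpm hqm hpq _
  have h1 := (h p q hp hq hpm hqm hpq).1 hodd
  have h2 : ((4 * N : ℕ) : ℤ) < (((p - 1) * (q - 1) : ℕ) : ℤ) := by exact_mod_cast h1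
  push_cast [hp.one_le, hq.one_le] at h2
  linarith

lemma even_of_bound {m N : ℕ} (h : PairBound m N) (heven : 2 ∣ m) : OddPairs m (2 * (2 * N)) := by
  intro p q hp hq hpm hqm hpq hp2
  have h1 := (h p q hp hq hpm hqm hpq).2.1 heven hp2
  have h2 : ((8 * N : ℕ) : ℤ) < (((p - 1) * (q - 1) : ℕ) : ℤ) := by exact_mod_cast h1
  push_cast [hp.one_le, hq.one_le] at h2
  linarith

lemma two_of_bound {m N : ℕ} (h : PairBound m N) (h4 : 4 ∣ m) : TwoPairs m (2 * N) := by
  intro q hq hqm hq2
  have h2q : 2 < q := lt_of_le_of_ne hq.two_le (Ne.symm hq2)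
  have h1 := (h 2 q Nat.prime_two hq ((by norm_num : 2 ∣ 4).trans h4) hqm h2q).2.2 h4 rfl
  have h2 : ((2 * N : ℕ) : ℤ) < ((q - 1 : ℕ) : ℤ) := by exact_mod_cast h1
  push_cast [hq.one_le] at h2
  linarith

/-- All odd distributions vanish on the Hodge characters with few entries. -/
theorem kill {m : ℕ} (hm : 0 < m) {s : Multiset (ZMod m)} (hs : IsHodge m s)
    (h : PairBound m (Multiset.card s)) {Q : Type} [AddCommGroup Q] {c : ZMod m → Q}
    (hc : OddDist c) : (s.map c).sum = 0 := by
  have hNm : NeZero m := ⟨hm.ne'⟩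
  rw [← sum_count s c]
  by_cases heven : 2 ∣ m
  · exact zero_even heven (even_of_bound h heven) (two_of_bound h) hs.rel (nm_count s) hc
  · exact zero_odd heven (odd_of_bound h heven) hs.rel (nm_count s) hc

/-- **Pairs and standard characters.** -/
theorem main_pairs {m : ℕ} (hm : 0 < m) {s : Multiset (ZMod m)} (hs : IsHodge m s) (hne : s ≠ 0)
    (h : PairBound m (Multiset.card s)) : Generated m (fun _ => False) s := by
  have hNm : NeZero m := ⟨hm.ne'⟩
  have h2 := kill hm hs h (cQ_oddDist (m := m) (base := fun _ => False))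
  rw [cQ_sum, QuotientAddGroup.eq_zero_iff] at h2
  exact generated_of_mem_LL (fun _ h => h.elim) (fun _ h => h.elim) hs.1 hs.2.1 hne h2

end Run7.h919
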