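import Pool.Agent.Run7.h919.Line
import Pool.Agent.Y2.Star

/-!
Extension of distributions to higher levels; the maximal levels of a relation.
-/

namespace Run7.h919

open Finset Pool.Agent.H916R2

/-- Integral odd distributions, as functions on the natural numbers. -/
structure ND (m : ℕ) (C : ℕ → ℤ) : Prop where
  per : ∀ x y, x ≡ y [MOD m] → C x = C y
  odd : ∀ x y, m ∣ x + y → C y = - C x
  dist : ∀ p, p.Prime → p ∣ m → ∀ n, ∑ i ∈ range p, C (n + i * (m / p)) = C (p * n)

lemma cancel_mod {p m1 a b : ℕ} (hp : 0 < p) (h : p * a ≡ p * b [MOD p * m1]) :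
    a ≡ b [MOD m1] := Nat.ModEq.mul_left_cancel' hp.ne' h

/-- extension by one prime dividing the level -/
lemma ext_ram {m1 p : ℕ} (hp : p.Prime) (hm1 : m1 ≠ 0) (hpm : p ∣ m1) {h : ℕ → ℤ}
    (hh : ND m1 h) : ND (p * m1) (fun n => if p ∣ n then (p : ℤ) * h (n / p) else h n) := by
  have hpp := hp.pos
  constructor
  · intro x y hxy
    have h1 : p ∣ x ↔ p ∣ y := (hxy.of_dvd (dvd_mul_right p m1)).dvd_iff dvd_rfl
    by_cases hx : p ∣ x
    · have hy := h1.mp hx
      simp only [if_pos hx, if_pos hy]
      obtain ⟨a, rfl⟩ := hx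
      obtain ⟨b, rfl⟩ := hy
      rw [Nat.mul_div_cancel_left _ hpp, Nat.mul_div_cancel_left _ hpp,
        hh.per a b (cancel_mod hpp hxy)]
    · have hy := fun h => hx (h1.mpr h)
      simp only [if_neg hx, if_neg hy]
      exact hh.per x y (hxy.of_dvd (dvd_mul_left m1 p))
  · intro x y hxy
    have hpxy : p ∣ x + y := dvd_trans (dvd_mul_right p m1) hxy
    by_cases hx : p ∣ x
    · have hy : p ∣ y := (Nat.dvd_add_right hx).mp hpxy
      simp only [if_pos hx, if_pos hy]
      obtain ⟨a, rfl⟩ := hx
      obtain ⟨b, rfl⟩ := hy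
      rw [Nat.mul_div_cancel_left _ hpp, Nat.mul_div_cancel_left _ hpp, hh.odd a b]
      · ring
      · rw [← mul_add] at hxy
        exact Nat.dvd_of_mul_dvd_mul_left hpp hxy
    · have hy : ¬ p ∣ y := fun h => hx ((Nat.dvd_add_left h).mp hpxy)
      simp only [if_neg hx, if_neg hy]
      exact hh.odd x y (dvd_trans (dvd_mul_left m1 p) hxy)
  · intro q hq hqm n
    by_cases hqp : q = p
    · subst hqp
      rw [Nat.mul_div_cancel_left _ hpp]
      have e1 : (if q ∣ q * n then (q : ℤ) * h (q * n / q) else h (q * n)) = q * h n := by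
        rw [if_pos (dvd_mul_right q n), Nat.mul_div_cancel_left _ hpp]
      rw [e1]
      by_cases hn : q ∣ n
      · obtain ⟨a, rfl⟩ := hn
        obtain ⟨m', rfl⟩ := hpm
        have e2 : ∀ i ∈ range q, (if q ∣ q * a + i * (q * m') then
            (q : ℤ) * h ((q * a + i * (q * m')) / q) else h (q * a + i * (q * m'))) =
            q * h (a + i * m') := by
          intro i _
          rw [show q * a + i * (q * m') = q * (a + i * m') by ring, if_pos (dvd_mul_right _ _),
            Nat.mul_div_cancel_left _ hpp]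
        rw [sum_congr rfl e2, ← mul_sum]
        have h3 := hh.dist q hq (dvd_mul_right q m') a
        rw [Nat.mul_div_cancel_left _ hpp] at h3
        rw [h3]
      · have e2 : ∀ i ∈ range q, (if q ∣ n + i * m1 then
            (q : ℤ) * h ((n + i * m1) / q) else h (n + i * m1)) = h n := by
          intro i _
          rw [if_neg (fun h => hn ((Nat.dvd_add_iff_left (hpm.mul_left i)).mpr h))]
          apply hh.per
          have : n + i * m1 ≡ n + 0 [MOD m1] :=
            Nat.ModEq.add_left n ((Nat.modEq_zero_iff_dvd).mpr (dvd_mul_left m1 i))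
          simpa using this
        rw [sum_congr rfl e2, sum_const, card_range, nsmul_eq_mul]
    · have hqm1 : q ∣ m1 := by
        rcases hq.dvd_mul.mp hqm with h | h
        · exact absurd ((Nat.prime_dvd_prime_iff_eq hq hp).mp h) hqp
        · exact h
      have hcop : Nat.Coprime p q := (Nat.coprime_primes hp hq).mpr (Ne.symm hqp)
      have hdiv : p * m1 / q = p * (m1 / q) := Nat.mul_div_assoc _ hqm1
      rw [hdiv]
      have hpq : p ∣ q * n ↔ p ∣ n := by
        constructor
        · intro h; exact hcop.dvd_of_dvd_mul_left h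
        · intro h; exact h.mul_left q
      by_cases hn : p ∣ n
      · rw [if_pos (hpq.mpr hn)]
        obtain ⟨a, rfl⟩ := hn
        have e2 : ∀ i ∈ range q, (if p ∣ p * a + i * (p * (m1 / q)) then
            (p : ℤ) * h ((p * a + i * (p * (m1 / q))) / p) else
              h (p * a + i * (p * (m1 / q)))) = p * h (a + i * (m1 / q)) := by
          intro i _
          rw [show p * a + i * (p * (m1 / q)) = p * (a + i * (m1 / q)) by ring,
            if_pos (dvd_mul_right _ _), Nat.mul_div_cancel_left _ hpp]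
        rw [sum_congr rfl e2, ← mul_sum, hh.dist q hq hqm1 a,
          show q * (p * a) = p * (q * a) by ring, Nat.mul_div_cancel_left _ hpp]
      · rw [if_neg (fun h => hn (hpq.mp h))]
        have e2 : ∀ i ∈ range q, (if p ∣ n + i * (p * (m1 / q)) then
            (p : ℤ) * h ((n + i * (p * (m1 / q))) / p) else h (n + i * (p * (m1 / q)))) =
            h (n + p * i * (m1 / q)) := by
          intro i _
          rw [if_neg (fun h => hn ((Nat.dvd_add_iff_left
            (((dvd_mul_right p (m1 / q))).mul_left i)).mpr h))]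
          congr 1; ring
        rw [sum_congr rfl e2,
          Pool.Agent.Y2.coset_mul hq.pos (Nat.mul_div_cancel' hqm1) hh.per hcop n,
          hh.dist q hq hqm1 n]

/-- extension by one prime not dividing the level -/
lemma ext_unr {m1 p u : ℕ} (hp : p.Prime) (hm1 : m1 ≠ 0) (hpm : ¬ p ∣ m1) (hu : p * u ≡ 1 [MOD m1])
    {h : ℕ → ℤ} (hh : ND m1 h) :
    ND (p * m1) (fun n => if p ∣ n then ((p : ℤ) - 1) * h (n / p) else h n - h (u * n)) := by
  have hpp := hp.pos
  constructor
  · intro x y hxy
    have h1 : p ∣ x ↔ p ∣ y := (hxy.of_dvd (dvd_mul_right p m1)).dvd_iff dvd_rfl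
    by_cases hx : p ∣ x
    · have hy := h1.mp hx
      simp only [if_pos hx, if_pos hy]
      obtain ⟨a, rfl⟩ := hx
      obtain ⟨b, rfl⟩ := hy
      rw [Nat.mul_div_cancel_left _ hpp, Nat.mul_div_cancel_left _ hpp,
        hh.per a b (cancel_mod hpp hxy)]
    · have hy := fun h => hx (h1.mpr h)
      simp only [if_neg hx, if_neg hy]
      have h2 := hxy.of_dvd (dvd_mul_left m1 p)
      rw [hh.per x y h2, hh.per (u * x) (u * y) (h2.mul_left u)]
  · intro x y hxy
    have hpxy : p ∣ x + y := dvd_trans (dvd_mul_right p m1) hxy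
    have hmxy : m1 ∣ x + y := dvd_trans (dvd_mul_left m1 p) hxy
    by_cases hx : p ∣ x
    · have hy : p ∣ y := (Nat.dvd_add_right hx).mp hpxy
      simp only [if_pos hx, if_pos hy]
      obtain ⟨a, rfl⟩ := hx
      obtain ⟨b, rfl⟩ := hy
      rw [Nat.mul_div_cancel_left _ hpp, Nat.mul_div_cancel_left _ hpp, hh.odd a b]
      · ring
      · rw [← mul_add] at hxy
        exact Nat.dvd_of_mul_dvd_mul_left hpp hxy
    · have hy : ¬ p ∣ y := fun h => hx ((Nat.dvd_add_left h).mp hpxy)
      simp only [if_neg hx, if_neg hy]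
      rw [hh.odd x y hmxy, hh.odd (u * x) (u * y) (by rw [← mul_add]; exact hmxy.mul_left u)]
      ring
  · intro q hq hqm n
    by_cases hqp : q = p
    · subst hqp
      rw [Nat.mul_div_cancel_left _ hpp]
      have e1 : (if q ∣ q * n then ((q : ℤ) - 1) * h (q * n / q) else h (q * n) - h (u * (q * n))) =
          (q - 1) * h n := by
        rw [if_pos (dvd_mul_right q n), Nat.mul_div_cancel_left _ hpp]
      rw [e1]
      have e2 : ∀ i ∈ range q, (if q ∣ n + i * m1 then ((q : ℤ) - 1) * h ((n + i * m1) / q) else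
          h (n + i * m1) - h (u * (n + i * m1))) =
          if ¬ q ∣ n + i * m1 then h n - h (u * n) else ((q : ℤ) - 1) * h (u * n) := by
        intro i _
        have h0 : n + i * m1 ≡ n [MOD m1] := by
          have : n + i * m1 ≡ n + 0 [MOD m1] :=
            Nat.ModEq.add_left n ((Nat.modEq_zero_iff_dvd).mpr (dvd_mul_left m1 i))
          simpa using this
        by_cases hd : q ∣ n + i * m1
        · rw [if_pos hd, if_neg (not_not.mpr hd)]
          obtain ⟨b, hb⟩ := hd
          rw [hb, Nat.mul_div_cancel_left _ hpp]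
          congr 1
          apply hh.per
          have h2 : u * n ≡ u * (q * b) [MOD m1] := by rw [← hb]; exact (h0.mul_left u).symm
          have h3 : u * (q * b) ≡ b [MOD m1] := by
            have := hu.mul_right b
            rw [one_mul] at this
            rwa [show q * u * b = u * (q * b) by ring] at this
          exact (h2.trans h3).symm
        · rw [if_neg hd, if_pos hd, hh.per _ _ h0, hh.per _ _ (h0.mul_left u)]
      rw [sum_congr rfl e2, sum_ite, sum_const, sum_const, nsmul_eq_mul, nsmul_eq_mul]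
      have hc1 := Pool.Agent.Y2.card_not_dvd hq hpm n
      have hc2 : ((range q).filter (fun i => ¬ ¬ q ∣ n + i * m1)).card = 1 := by
        have := Finset.card_filter_add_card_filter_not (s := range q) (fun i => ¬ q ∣ n + i * m1)
        rw [card_range, hc1] at this
        have := hq.two_le
        omega
      rw [hc1, hc2]
      push_cast [Nat.cast_sub hq.one_le]
      ring
    · have hqm1 : q ∣ m1 := by
        rcases hq.dvd_mul.mp hqm with h | h
        · exact absurd ((Nat.prime_dvd_prime_iff_eq hq hp).mp h) hqp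
        · exact h
      have hcop : Nat.Coprime p q := (Nat.coprime_primes hp hq).mpr (Ne.symm hqp)
      have hcopu : Nat.Coprime (u * p) q := by
        have h1 : p * u ≡ 1 [MOD q] := hu.of_dvd hqm1
        rw [mul_comm u p, Nat.Coprime, h1.gcd_eq]
        exact Nat.gcd_one_left q
      have hdiv : p * m1 / q = p * (m1 / q) := Nat.mul_div_assoc _ hqm1
      rw [hdiv]
      have hpq : p ∣ q * n ↔ p ∣ n := by
        constructor
        · intro h; exact hcop.dvd_of_dvd_mul_left h
        · intro h; exact h.mul_left q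
      by_cases hn : p ∣ n
      · rw [if_pos (hpq.mpr hn)]
        obtain ⟨a, rfl⟩ := hn
        have e2 : ∀ i ∈ range q, (if p ∣ p * a + i * (p * (m1 / q)) then
            ((p : ℤ) - 1) * h ((p * a + i * (p * (m1 / q))) / p) else
              h (p * a + i * (p * (m1 / q))) - h (u * (p * a + i * (p * (m1 / q))))) =
              ((p : ℤ) - 1) * h (a + i * (m1 / q)) := by
          intro i _
          rw [show p * a + i * (p * (m1 / q)) = p * (a + i * (m1 / q)) by ring,
            if_pos (dvd_mul_right _ _), Nat.mul_div_cancel_left _ hpp]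
        rw [sum_congr rfl e2, ← mul_sum, hh.dist q hq hqm1 a,
          show q * (p * a) = p * (q * a) by ring, Nat.mul_div_cancel_left _ hpp]
      · rw [if_neg (fun h => hn (hpq.mp h))]
        have e2 : ∀ i ∈ range q, (if p ∣ n + i * (p * (m1 / q)) then
            ((p : ℤ) - 1) * h ((n + i * (p * (m1 / q))) / p) else
              h (n + i * (p * (m1 / q))) - h (u * (n + i * (p * (m1 / q))))) =
            h (n + p * i * (m1 / q)) - h (u * n + u * p * i * (m1 / q)) := by
          intro i _
          rw [if_neg (fun h => hn ((Nat.dvd_add_iff_left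
            (((dvd_mul_right p (m1 / q))).mul_left i)).mpr h))]
          congr 2 <;> ring
        rw [sum_congr rfl e2, sum_sub_distrib,
          Pool.Agent.Y2.coset_mul hq.pos (Nat.mul_div_cancel' hqm1) hh.per hcop n,
          Pool.Agent.Y2.coset_mul hq.pos (Nat.mul_div_cancel' hqm1) hh.per hcopu (u * n),
          hh.dist q hq hqm1 n, hh.dist q hq hqm1 (u * n)]
        congr 2; ring

/-- extension to a multiple of the level -/
theorem extend {d : ℕ} (hd : d ≠ 0) {C : ℕ → ℤ} (hC : ND d C)
    (hs : ∀ n, C n ≠ 0 → Nat.Coprime n d) : ∀ k : ℕ, k ≠ 0 →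
    ∃ c : ℤ, c ≠ 0 ∧ ∃ g : ℕ → ℤ, ND (k * d) g ∧ (∀ n, g (k * n) = c * C n) ∧
      ∀ n, g n ≠ 0 → Nat.gcd n (k * d) ∣ k := by
  intro k
  induction k using Nat.strong_induction_on with
  | _ k ih =>
  intro hk
  by_cases hk1 : k = 1
  · subst hk1
    refine ⟨1, one_ne_zero, C, by rwa [one_mul], fun n => by rw [one_mul, one_mul], ?_⟩
    intro n hn
    have := hs n hn
    rw [one_mul, Nat.dvd_one]
    exact this
  · have hp := Nat.minFac_prime hk1
    set p := k.minFac with hpdef
    obtain ⟨k1, hk1'⟩ : p ∣ k := Nat.minFac_dvd k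
    have hk10 : k1 ≠ 0 := by rintro rfl; rw [mul_zero] at hk1'; exact hk hk1'
    have hlt : k1 < k := by
      rw [hk1']
      have := hp.two_le
      have : 0 < k1 := Nat.pos_of_ne_zero hk10
      nlinarith
    obtain ⟨c, hc, g, hg, hgk, hgs⟩ := ih k1 hlt hk10
    have hm1 : k1 * d ≠ 0 := Nat.mul_ne_zero hk10 hd
    have hkd : k * d = p * (k1 * d) := by rw [hk1']; ring
    have hgcd1 : ∀ n, ¬ p ∣ n → Nat.gcd n (k1 * d) ∣ k1 → Nat.gcd n (p * (k1 * d)) ∣ k := by
      intro n hn h
      have hcop : Nat.Coprime n p := (Nat.coprime_comm).mp ((Nat.Prime.coprime_iff_not_dvd hp).mpr hn)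
      rw [Nat.Coprime.gcd_mul_left_cancel_right _ hcop.symm]
      exact dvd_trans h (Dvd.intro_left p hk1'.symm)
    have hgcdp : ∀ n, Nat.gcd n (k1 * d) ∣ k1 → Nat.gcd (p * n) (p * (k1 * d)) ∣ k := by
      intro n h
      rw [Nat.gcd_mul_left, hk1']
      exact Nat.mul_dvd_mul_left p h
    by_cases hpm : p ∣ k1 * d
    · refine ⟨p * c, mul_ne_zero (by exact_mod_cast hp.ne_zero) hc, _, by
        rw [hkd]; exact ext_ram hp hm1 hpm hg, ?_, ?_⟩
      · intro n
        rw [hk1', mul_assoc, if_pos (dvd_mul_right p _), Nat.mul_div_cancel_left _ hp.pos, hgk]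
        ring
      · intro n hn
        rw [hkd]
        by_cases hpn : p ∣ n
        · rw [if_pos hpn] at hn
          obtain ⟨a, rfl⟩ := hpn
          rw [Nat.mul_div_cancel_left _ hp.pos] at hn
          exact hgcdp a (hgs a (right_ne_zero_of_mul hn))
        · rw [if_neg hpn] at hn
          exact hgcd1 n hpn (hgs n hn)
    · have hcop : Nat.Coprime p (k1 * d) := (Nat.Prime.coprime_iff_not_dvd hp).mpr hpm
      have hM : NeZero (k1 * d) := ⟨hm1⟩
      obtain ⟨u, hu⟩ : ∃ u, p * u ≡ 1 [MOD k1 * d] := by
        refine ⟨((p : ZMod (k1 * d))⁻¹).val, ?_⟩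
        rw [← ZMod.natCast_eq_natCast_iff]
        push_cast
        rw [ZMod.natCast_zmod_val]
        exact ZMod.coe_mul_inv_eq_one p hcop
      have hucop : Nat.Coprime u (k1 * d) := by
        have h1 : Nat.Coprime (p * u) (k1 * d) := by
          rw [Nat.Coprime, hu.gcd_eq]
          exact Nat.gcd_one_left _
        exact Nat.Coprime.coprime_mul_left h1
      refine ⟨(p - 1) * c, mul_ne_zero ?_ hc, _, by
        rw [hkd]; exact ext_unr hp hm1 hpm hu hg, ?_, ?_⟩
      · have : (2 : ℤ) ≤ p := by exact_mod_cast hp.two_le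
        omega
      · intro n
        rw [hk1', mul_assoc, if_pos (dvd_mul_right p _), Nat.mul_div_cancel_left _ hp.pos, hgk]
        ring
      · intro n hn
        rw [hkd]
        by_cases hpn : p ∣ n
        · rw [if_pos hpn] at hn
          obtain ⟨a, rfl⟩ := hpn
          rw [Nat.mul_div_cancel_left _ hp.pos] at hn
          exact hgcdp a (hgs a (right_ne_zero_of_mul hn))
        · rw [if_neg hpn] at hn
          by_cases h0 : g n = 0
          · have h1 : g (u * n) ≠ 0 := by
              intro h
              rw [h0, h, sub_self] at hn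
              exact hn rfl
            have h2 := hgs _ h1
            rw [Nat.Coprime.gcd_mul_left_cancel _ hucop] at h2
            exact hgcd1 n hpn h2
          · exact hgcd1 n hpn (hgs n h0)

variable {m : ℕ} [NeZero m]

lemma saw_odd (t : (ZMod m)ˣ) : OddDist (fun a : ZMod m => saw ((t : ZMod m) * a)) where
  neg := fun a => by rw [mul_neg, saw_neg]
  half := fun a ha => saw_half (by rw [← mul_add, ha, mul_zero])
  dist := fun p d _ hpd a => saw_dist_unit hpd t a

lemma Eqv.rel {y y' : ZMod m → ℤ} (h : Eqv y y') (hy : Rel y) : Rel y' := by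
  intro t
  have h1 := h ℤ _ (saw_odd t)
  simp only [smul_eq_mul] at h1
  rw [← h1]
  exact hy t

lemma iota_val {k d : ℕ} [NeZero d] (hkd : k * d = m) (b : ZMod d) :
    (iota k b : ZMod m).val = k * b.val := by
  have hk : 0 < k := Nat.pos_of_ne_zero (by rintro rfl; rw [zero_mul] at hkd; exact NeZero.ne m hkd.symm)
  unfold iota
  rw [ZMod.val_natCast, Nat.mod_eq_of_lt]
  rw [← hkd]
  exact Nat.mul_lt_mul_of_pos_left (ZMod.val_lt b) hk

lemma iota_inj {k d : ℕ} [NeZero d] (hkd : k * d = m) :
    Function.Injective (fun b : ZMod d => (iota k b : ZMod m)) := by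
  intro b b' h
  have hk : 0 < k := Nat.pos_of_ne_zero (by rintro rfl; rw [zero_mul] at hkd; exact NeZero.ne m hkd.symm)
  have h1 := congrArg ZMod.val h
  simp only [iota_val hkd] at h1
  exact ZMod.val_injective d (Nat.eq_of_mul_eq_mul_left hk h1)

lemma exists_iota {k d : ℕ} [NeZero d] (hkd : k * d = m) {z : ZMod m} (hz : k ∣ z.val) :
    ∃ b : ZMod d, iota k b = z := by
  obtain ⟨n, hn⟩ := hz
  refine ⟨(n : ZMod d), ?_⟩
  rw [iota_natCast hkd, ← hn, ZMod.natCast_zmod_val]

lemma od_iota {k d : ℕ} [NeZero d] (hkd : k * d = m) (y : ZMod m → ℤ) (b : ZMod d) :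
    od (fun b : ZMod d => y (iota k b)) b = od y (iota k b) := by
  simp only [od, iota_neg hkd]

/-- **The maximal levels of a relation.** -/
theorem orth_level {k d : ℕ} [NeZero d] (hkd : k * d = m) {y : ZMod m → ℤ} (hy : Rel y)
    (hs : ∀ z : ZMod m, Nat.gcd z.val m ∣ k → Nat.gcd z.val m ≠ k → od y z = 0) :
    Orth (fun b : ZMod d => y (iota k b)) := by
  classical
  have hm := NeZero.ne m
  have hd := NeZero.ne d
  have hk : k ≠ 0 := by rintro rfl; rw [zero_mul] at hkd; exact hm hkd.symm
  intro C hC hCs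
  have hND : ND d (fun n => C (n : ZMod d)) := by
    constructor
    · intro x z hxz
      have : (x : ZMod d) = (z : ZMod d) := (ZMod.natCast_eq_natCast_iff _ _ _).mpr hxz
      simp only [this]
    · intro x z hxz
      have h1 : (x : ZMod d) + (z : ZMod d) = 0 := by
        rw [← Nat.cast_add, ZMod.natCast_eq_zero_iff]; exact hxz
      have h2 : (z : ZMod d) = - (x : ZMod d) := (neg_eq_of_add_eq_zero_right h1).symm
      simp only [h2, hC.neg]
    · intro p hp hpd n
      have h1 := hC.dist p (d / p) hp (Nat.mul_div_cancel' hpd) (n : ZMod d)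
      push_cast
      exact h1
  obtain ⟨c, hc, g, hg, hgk, hgs⟩ := extend hd hND (fun n hn => by
    by_contra h
    exact hn (hCs _ (fun h' => h ((ZMod.isUnit_iff_coprime n d).mp h')))) k hk
  rw [hkd] at hg hgs
  have h0 : ∑ z : ZMod m, y z * g z.val = 0 := by
    apply Pool.Agent.Y2.rel_nat hm univ y (fun z => z.val) _ g hg.per hg.odd hg.dist
    intro t ht
    have h1 := hy (ZMod.unitOfCoprime t ht)
    rw [← h1]
    refine sum_congr rfl fun z _ => ?_
    rw [ZMod.coe_unitOfCoprime]
    push_cast
    rw [ZMod.natCast_zmod_val]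
  have hodd : ∀ z : ZMod m, g (-z).val = - g z.val := by
    intro z
    apply hg.odd
    rw [← ZMod.natCast_eq_zero_iff]
    push_cast
    rw [ZMod.natCast_zmod_val, ZMod.natCast_zmod_val, add_neg_cancel]
  have h1 : ∑ z : ZMod m, od y z * g z.val = 0 := by
    unfold od
    simp only [sub_mul, sum_sub_distrib, h0]
    have h2 : ∑ z : ZMod m, y (-z) * g z.val = ∑ z : ZMod m, y z * g (-z).val :=
      Fintype.sum_equiv (Equiv.neg _) _ _ fun z => by simp
    rw [h2]
    have h3 : ∑ z : ZMod m, y z * g (-z).val = - ∑ z : ZMod m, y z * g z.val := by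
      rw [← sum_neg_distrib]
      exact sum_congr rfl fun z _ => by rw [hodd z]; ring
    rw [h3, h0]; rfl
  have h2 : ∑ z : ZMod m, od y z * g z.val =
      ∑ b : ZMod d, od y (iota k b) * g (iota k b : ZMod m).val := by
    rw [← sum_image (s := univ) (f := fun z => od y z * g z.val)
      (g := fun b : ZMod d => (iota k b : ZMod m)) (fun b _ b' _ h => iota_inj hkd h)]
    symm
    apply sum_subset (subset_univ _)
    intro z _ hz
    by_contra hne
    have hg0 : g z.val ≠ 0 := right_ne_zero_of_mul hne
    have hy0 : od y z ≠ 0 := left_ne_zero_of_mul hne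
    have h3 := hgs _ hg0
    have h4 : Nat.gcd z.val m = k := by
      by_contra h
      exact hy0 (hs z h3 h)
    obtain ⟨b, hb⟩ := exists_iota hkd (h4 ▸ Nat.gcd_dvd_left z.val m : k ∣ z.val)
    exact hz (mem_image.mpr ⟨b, mem_univ b, hb⟩)
  rw [h2] at h1
  have h3 : c * ∑ b : ZMod d, od y (iota k b) * C b = 0 := by
    rw [mul_sum, ← h1]
    refine sum_congr rfl fun b _ => ?_
    rw [iota_val hkd, hgk, ZMod.natCast_zmod_val]
    ring
  have h4 : ∑ b : ZMod d, od y (iota k b) * C b = 0 := (mul_eq_zero.mp h3).resolve_left hc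
  have h5 : ∑ b : ZMod d, od y (iota k b) * C b = 2 * ∑ b : ZMod d, y (iota k b) * C b := by
    have h6 : ∀ b : ZMod d, od y (iota k b) * C b =
        y (iota k b) * C b - y (iota k (-b)) * C b := by
      intro b
      rw [iota_neg hkd]
      unfold od; ring
    rw [sum_congr rfl fun b _ => h6 b, sum_sub_distrib]
    have h7 : ∑ b : ZMod d, y (iota k (-b)) * C b = ∑ b : ZMod d, y (iota k b) * C (-b) :=
      Fintype.sum_equiv (Equiv.neg _) _ _ fun b => by simp
    rw [h7]
    have h8 : ∑ b : ZMod d, y (iota k b) * C (-b) = - ∑ b : ZMod d, y (iota k b) * C b := by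
      rw [← sum_neg_distrib]
      exact sum_congr rfl fun b _ => by rw [hC.neg b]; ring
    rw [h8]; ring
  rw [h5] at h4
  exact (mul_eq_zero.mp h4).resolve_left two_ne_zero

end Run7.h919
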