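import Pool.Agent.Run7.h919.Lp7

/-!
Hodge characters with few entries: reduction to the small prime factors of the degree.
-/

namespace Run7.h919

open Finset Pool.Agent.H916R2 Pool.Agent.N992 Pool.Agent.N993

set_option linter.unusedSectionVars false

/-- **Removing the large primes and the multiplicities of the other ones.** -/
theorem drop_red : ∀ (n k m m0 : ℕ) [NeZero m] [NeZero m0], k = n → k * m0 = m →
    (4 ∣ m → 4 ∣ m0) → ∀ (y : ZMod m → ℤ) (M : ℤ), Rel y → nm y ≤ M →
    (∀ p : ℕ, p.Prime → p ∣ m → ¬ p ∣ m0 → p ≠ 2 ∧ (if 2 ∣ m then 2 else 1) * M < (p : ℤ) - 1) →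
    ∀ (Q : Type) [AddCommGroup Q] (c : ZMod m → Q), OddDist c →
    ∃ y0 : ZMod m0 → ℤ, Rel y0 ∧ ∑ a, y a • c a = ∑ b : ZMod m0, y0 b • c (iota k b) := by
  intro n
  induction n using Nat.strong_induction_on with
  | _ n ih =>
  intro k m m0 _ _ hkn hkm h4 y M hy hM hbig Q _ c hc
  have hm : m ≠ 0 := NeZero.ne m
  have hm0 : m0 ≠ 0 := NeZero.ne m0
  have hk0 : k ≠ 0 := by rintro rfl; rw [zero_mul] at hkm; exact hm hkm.symm
  by_cases hall : ∀ p : ℕ, p.Prime → p ∣ m → p ∣ m0
  · exact red_exists k m m0 k rfl hkm hall h4 Q c hc y hy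
  · push Not at hall
    obtain ⟨p, hp, hpm, hpm0⟩ := hall
    obtain ⟨hp2, hp3⟩ := hbig p hp hpm hpm0
    have hpk : p ∣ k := by
      rw [← hkm] at hpm
      exact (hp.dvd_mul.mp hpm).resolve_right hpm0
    obtain ⟨k', hk'⟩ := hpk
    have hk'0 : k' ≠ 0 := by rintro rfl; rw [mul_zero] at hk'; exact hk0 hk'
    have hNZ : NeZero (k' * m0) := ⟨Nat.mul_ne_zero hk'0 hm0⟩
    have hpd : p * (k' * m0) = m := by rw [← hkm, hk']; ring
    have hM0 : 0 ≤ M := le_trans (sum_nonneg fun _ _ => abs_nonneg _) hM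
    have hN : (if 2 ∣ m then 2 else 1) * nm y < (p : ℤ) - 1 := by
      refine lt_of_le_of_lt ?_ hp3
      exact mul_le_mul_of_nonneg_left hM (by split_ifs <;> norm_num)
    obtain ⟨h1, h2⟩ := drop_one hp hp2 hpd hy hN
    have hk'lt : k' < n := by
      rw [← hkn, hk']
      have := hp.two_le
      have : 0 < k' := Nat.pos_of_ne_zero hk'0
      nlinarith
    obtain ⟨y0, h3, h5⟩ := ih k' hk'lt k' (k' * m0) m0 rfl rfl (fun h => h4 (by
      rw [← hpd]; exact h.mul_left p)) (fun b => y (iota p b)) M h1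
      ((nm_iota_le hpd y).trans hM) (by
        intro q hq hqk hqm0
        obtain ⟨h5, h6⟩ := hbig q hq (by rw [← hpd]; exact hqk.mul_left p) hqm0
        refine ⟨h5, lt_of_le_of_lt ?_ h6⟩
        apply mul_le_mul_of_nonneg_right _ hM0
        by_cases h7 : 2 ∣ k' * m0
        · rw [if_pos h7, if_pos (by rw [← hpd]; exact h7.mul_left p)]
        · rw [if_neg h7]
          split_ifs <;> norm_num) Q _ (hc.comp_iota hpd)
    refine ⟨y0, h3, ?_⟩
    rw [h2 Q c hc, h5]
    refine sum_congr rfl fun b _ => ?_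
    rw [iota_comp hpd, ← hk']

/-- The condition on a divisor of the degree, for characters with at most `N` entries. -/
structure SmallPart (m m0 N : ℕ) : Prop where
  dvd : m0 ∣ m
  four : 4 ∣ m → 4 ∣ m0
  large : ∀ p : ℕ, p.Prime → p ∣ m → ¬ p ∣ m0 → (if 2 ∣ m then 4 else 2) * N + 1 < p

/-- **Killing.** -/
theorem kill_small {m m0 k N : ℕ} [NeZero m] [NeZero m0] (hk : k * m0 = m) (h : SmallPart m m0 N)
    {s : Multiset (ZMod m)} (hs : IsHodge m s) (hN : Multiset.card s ≤ N)
    {Q : Type} [AddCommGroup Q] {c : ZMod m → Q} (hc : OddDist c)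
    (h0 : ∀ s0 : Multiset (ZMod m0), IsHodge m0 s0 → s0 ≠ 0 →
      (s0.map (fun b => c (iota k b))).sum = 0) : (s.map c).sum = 0 := by
  classical
  by_cases hne : s = 0
  · rw [hne, Multiset.map_zero, Multiset.sum_zero]
  have hcard : 1 ≤ N := by
    have := Multiset.card_pos.mpr hne
    omega
  set y : ZMod m → ℤ := fun a => ((s.count a : ℕ) : ℤ) with hy
  have hnm : nm y ≤ 2 * N := by
    refine (nm_count s).trans ?_
    have : ((Multiset.card s : ℕ) : ℤ) ≤ N := by exact_mod_cast hN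
    omega
  obtain ⟨y0, hy0, he⟩ := drop_red k k m m0 rfl hk h.four y (2 * N) hs.rel hnm (by
    intro p hp hpm hpm0
    have h1 := h.large p hp hpm hpm0
    constructor
    · rintro rfl
      split_ifs at h1 <;> omega
    · split_ifs at h1 ⊢ <;> omega) Q c hc
  rw [← sum_count s c, he]
  obtain ⟨s0, hs0, he0⟩ := exists_hodge y0 hy0
  rw [he0 Q _ (hc.comp_iota hk)]
  by_cases hs00 : s0 = 0
  · rw [hs00, Multiset.map_zero, Multiset.sum_zero]
  · exact h0 s0 hs0 hs00

/-- **The reduction.** -/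
theorem from_level {m m0 N : ℕ} [NeZero m] (h : SmallPart m m0 N)
    {s : Multiset (ZMod m)} (hs : IsHodge m s) (hne : s ≠ 0) (hN : Multiset.card s ≤ N) :
    Generated m (FromLevel m m0) s := by
  have hm : m ≠ 0 := NeZero.ne m
  have hm0 : m0 ≠ 0 := by rintro rfl; exact hm (Nat.eq_zero_of_zero_dvd h.dvd)
  have hNZ : NeZero m0 := ⟨hm0⟩
  have hk : m / m0 * m0 = m := Nat.div_mul_cancel h.dvd
  have h1 := kill_small hk h hs hN (c := cQ m (FromLevel m m0)) cQ_oddDist (by
    intro s0 hs0 _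
    have h2 := cQ_sum_eq_zero (Generated.ofBase (m := m) (base := FromLevel m m0)
      (s0.map (iota (m / m0) : ZMod m0 → ZMod m)) ⟨s0, hs0, rfl⟩)
    rw [Multiset.map_map] at h2
    exact h2)
  rw [cQ_sum, QuotientAddGroup.eq_zero_iff] at h1
  refine generated_of_mem_LL ?_ ?_ hs.1 hs.2.1 hne h1
  · rintro t ⟨s0, hs0, rfl⟩
    have := hs0.iota (m := m) hk
    exact ⟨this.1, this.2.1⟩
  · rintro t ⟨s0, hs0, rfl⟩
    refine ⟨s0.map Neg.neg, hs0.neg, ?_⟩
    rw [Multiset.map_map, Multiset.map_map]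
    refine Multiset.map_congr rfl fun b _ => ?_
    exact (iota_neg hk b).symm

/-- The transfer for a family of bases. -/
theorem transfer_family {m m0 N : ℕ} [NeZero m] [NeZero m0] (h : SmallPart m m0 N)
    {B : ∀ M : ℕ, NeZero M → Multiset (ZMod M) → Prop}
    (hBg : ∀ M (h : NeZero M) s, B M h s → (0 : ZMod M) ∉ s ∧ Even (Multiset.card s))
    (hBn : ∀ M (h : NeZero M) s, B M h s → B M h (s.map Neg.neg))
    (hBl : ∀ M M' (h : NeZero M) (h' : NeZero M') (j : ℕ), j * M = M' → ∀ s, B M h s →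
      B M' h' (s.map (iota j : ZMod M → ZMod M')))
    {l : ℕ} (hl0 : NeZero (l * m0)) (hlm : NeZero (l * m))
    (hgen : ∀ s : Multiset (ZMod m0), IsHodge m0 s → s ≠ 0 →
      Generated (l * m0) (B (l * m0) hl0) (s.map (iota l : ZMod m0 → ZMod (l * m0))))
    {s : Multiset (ZMod m)} (hs : IsHodge m s) (hne : s ≠ 0) (hN : Multiset.card s ≤ N) :
    Generated (l * m) (B (l * m) hlm) (s.map (iota l : ZMod m → ZMod (l * m))) := by
  classical
  have hk : m / m0 * m0 = m := Nat.div_mul_cancel h.dvd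
  set k := m / m0 with hkd
  have hkN : k * (l * m0) = l * m := by rw [← hk]; ring
  set c := cQ (l * m) (B (l * m) hlm) with hc
  have hcD : OddDist c := cQ_oddDist
  have hsl : IsHodge (l * m) (s.map (iota l : ZMod m → ZMod (l * m))) := hs.iota rfl
  have hcD0 : OddDist (fun d : ZMod (l * m0) => c (iota k d)) := hcD.comp_iota hkN
  have h5 : (s.map (fun b : ZMod m => c (iota l b))).sum = 0 := by
    refine kill_small hk h hs hN (hcD.comp_iota rfl) fun s0 hs0 h0 => ?_
    have h5 := gen_sum hcD0 (B := B (l * m0) hl0) (by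
      intro s1 hs1
      have h6 := cQ_sum_eq_zero (Generated.ofBase (m := l * m) (base := B (l * m) hlm) _
        (hBl (l * m0) (l * m) hl0 hlm k hkN s1 hs1))
      rw [Multiset.map_map] at h6
      exact h6) (hgen s0 hs0 h0)
    rw [Multiset.map_map] at h5
    rw [← h5]
    congr 1
    refine Multiset.map_congr rfl fun b _ => ?_
    change c (iota l (iota k b : ZMod m)) = c (iota k (iota l b : ZMod (l * m0)))
    rw [iota_comp rfl, iota_comp hkN, mul_comm l k]
  have h6 : ((s.map (iota l : ZMod m → ZMod (l * m))).map c).sum = 0 := by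
    rw [Multiset.map_map]; exact h5
  rw [hc, cQ_sum, QuotientAddGroup.eq_zero_iff] at h6
  refine generated_of_mem_LL (hBg _ hlm) (hBn _ hlm) hsl.1 hsl.2.1 ?_ h6
  intro h7
  exact hne (Multiset.map_eq_zero.mp h7)

/-- **The characters with few entries.** -/
theorem main_small (m m0 N : ℕ) [NeZero m] (h : SmallPart m m0 N) :
    (∀ s : Multiset (ZMod m), IsHodge m s → s ≠ 0 → Multiset.card s ≤ N →
      Generated m (FromLevel m m0) s) ∧
    (MutualSquares m0 → ∃ l : ℕ, ∃ _ : NeZero (l * m),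
      ((∀ p : ℕ, p.Prime → p ∣ m0 → p % 4 ≠ 1) → l = 1) ∧
      ∀ s : Multiset (ZMod m), IsHodge m s → s ≠ 0 → Multiset.card s ≤ N →
        Generated (l * m) (ModularCharacter (l * m))
          (s.map fun a => ((l * a.val : ℕ) : ZMod (l * m)))) ∧
    (ThreePrimes m0 ∨ m0 ≤ 86 → ∃ l : ℕ, ∃ _ : NeZero (l * m),
      ∀ s : Multiset (ZMod m), IsHodge m s → s ≠ 0 → Multiset.card s ≤ N →
        Generated (l * m) (FourBase (l * m))
          (s.map fun a => ((l * a.val : ℕ) : ZMod (l * m)))) := by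
  have hm : m ≠ 0 := NeZero.ne m
  have hm0 : m0 ≠ 0 := by rintro rfl; exact hm (Nat.eq_zero_of_zero_dvd h.dvd)
  have hNZ : NeZero m0 := ⟨hm0⟩
  refine ⟨fun s hs hne hN => from_level h hs hne hN, fun hsq => ?_, fun h3 => ?_⟩
  · obtain ⟨l, hl, hl1, hgen⟩ := Pool.Agent.N993.main m0 hsq
    have hl0 : l ≠ 0 := by rintro rfl; exact hl.out (zero_mul m0)
    have hlm : NeZero (l * m) := ⟨Nat.mul_ne_zero hl0 hm⟩
    refine ⟨l, hlm, hl1, fun s hs hne hN => ?_⟩
    exact transfer_family h (B := fun M hM => @ModularCharacter M hM)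
      (fun M hM s hs => ⟨hs.1.1, hs.1.2.1⟩) (fun M hM s hs => hs.neg)
      (fun M M' hM hM' j hj s hs => hs.lift hj) hl hlm hgen hs hne hN
  · have h3' : ThreePrimes m0 := by
      rcases h3 with h3 | h3
      · exact h3
      · exact threePrimes_of_le hm0 h3
    obtain ⟨l, hl, hgen⟩ := Pool.Agent.N993.main3 m0 h3'
    have hl0 : l ≠ 0 := by rintro rfl; exact hl.out (zero_mul m0)
    have hlm : NeZero (l * m) := ⟨Nat.mul_ne_zero hl0 hm⟩
    refine ⟨l, hlm, fun s hs hne hN => ?_⟩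
    exact transfer_family h (B := fun M hM => @FourBase M hM)
      (fun M hM s hs => by
        rcases hs with hs | hs
        · exact Pool.Agent.Y2.Cv.base_good s hs
        · exact ⟨hs.1.1, hs.1.2.1⟩)
      (fun M hM s hs => by
        rcases hs with hs | hs
        · exact Or.inl (Pool.Agent.Y2.Cv.base_neg s hs)
        · exact Or.inr hs.neg)
      (fun M M' hM hM' j hj s hs => FourBase.lift hj hs) hl hlm hgen hs hne hN

end Run7.h919
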