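import Pool.Agent.Run7.h919.Tw9
import Pool.Agent.Run7.h919.Lp8

/-!
Hodge characters with few entries: the final theorem.
-/

set_option linter.unusedSectionVars false

namespace Run7.h919

open Finset Pool.Agent.H916R2 Pool.Agent.N992 Pool.Agent.N993 Run7.h919.Tw

/-- A prime factor of the degree `m` is small, for characters with at most `N` entries, if it is at
most `2 * N + 1` (`4 * N + 1` for even `m`). -/
def SmallPrime (m N p : ℕ) : Prop :=
  p.Prime ∧ p ∣ m ∧ p ≤ (if 2 ∣ m then 4 else 2) * N + 1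

/-- All other odd small primes are squares modulo `p`, and so is 2 if `4` divides `m`. -/
def SeesSmall (m N p : ℕ) : Prop :=
  (∀ q : ℕ, SmallPrime m N q → q ≠ 2 → q ≠ p → IsSquare (q : ZMod p)) ∧ (4 ∣ m → p % 8 = 1)

/-- The conditions on the degree `m` and the number `N`. -/
def Covered (m N : ℕ) : Prop :=
  (∀ p : ℕ, SmallPrime m N p → p % 4 = 1 → SeesSmall m N p) ∨
  ((∀ p : ℕ, SmallPrime m N p → p % 4 = 1 → SeesSmall m N p ∨ p = 5 ∨ p = 13 ∨ p = 17) ∧
    ∃ S : Finset ℕ, (∀ p : ℕ, SmallPrime m N p → p ≠ 2 → p ∈ S) ∧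
      S.card + (if 4 ∣ m then 1 else 0) ≤ 3) ∨
  (¬ 4 ∣ m ∧ (if 2 ∣ m then 2 else 1) * N < 30 ∧
    ∀ p q : ℕ, SmallPrime m N p → SmallPrime m N q → q ≠ 2 → q ≠ p → p % 4 = 1 →
      ¬ IsSquare (q : ZMod p) →
      p = 5 ∨ p = 13 ∨ p = 17 ∨ 16 * ((if 2 ∣ m then 2 else 1) * N) < (p - 1) * (q - 1))

/-! ### Few entries -/

/-- The sets of odd primes are good or large. -/
lemma good_or_big {m' N : ℕ} (hodd : m' % 2 = 1) (hN : N < 30)
    (h : ∀ p q : ℕ, p.Prime → p ∣ m' → p ≤ 2 * N + 1 → q.Prime → q ∣ m' → q ≤ 2 * N + 1 →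
      q ≠ p → p % 4 = 1 → ¬ IsSquare (q : ZMod p) →
      p = 5 ∨ p = 13 ∨ p = 17 ∨ 16 * N < (p - 1) * (q - 1)) :
    ∀ T ⊆ m'.primeFactors, Even T.card → T.Nonempty → Good T ∨ Big N m'.primeFactors T := by
  intro T hT hTe hTn
  have hS : ∀ p ∈ m'.primeFactors, p.Prime ∧ p % 2 = 1 := by
    intro x hx
    have h1 := Nat.prime_of_mem_primeFactors hx
    have h2 := Nat.dvd_of_mem_primeFactors hx
    refine ⟨h1, ?_⟩
    rw [← Nat.odd_iff] at hodd ⊢
    exact hodd.of_dvd_nat h2
  by_cases hlarge : ∃ P ∈ T, 2 * N + 1 < P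
  · obtain ⟨P, hP, hP'⟩ := hlarge
    right
    exact big_large hS hP hP'
  push Not at hlarge
  by_cases h4 : 4 ≤ T.card
  · right
    exact big_four hS hN h4
  have h2 : T.card = 2 := by
    obtain ⟨r, hr⟩ := hTe
    have := card_pos.mpr hTn
    omega
  obtain ⟨x, y, hxy, rfl⟩ := card_eq_two.mp h2
  have hx := hT (mem_insert_self _ _)
  have hy := hT (mem_insert_of_mem (mem_singleton_self _))
  have hxN := hlarge x (mem_insert_self _ _)
  have hyN := hlarge y (mem_insert_of_mem (mem_singleton_self _))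
  by_cases hb : 16 * N < (x - 1) * (y - 1)
  · right
    exact big_pair hS hxy hb
  left
  refine good_pair hxy ⟨?_, ?_⟩
  · intro z hz
    left
    exact hS z (hT hz)
  · intro p hp hp4
    have key : ∀ a b : ℕ, a ∈ m'.primeFactors → b ∈ m'.primeFactors → a ≤ 2 * N + 1 →
        b ≤ 2 * N + 1 → b ≠ a → ¬ 16 * N < (a - 1) * (b - 1) → a % 4 = 1 →
        ((∀ j ∈ ({a, b} : Finset ℕ), j ≠ a → IsSquare ((j : ℕ) : ZMod a)) ∧
          (4 ∈ ({a, b} : Finset ℕ) → IsSquare ((2 : ℕ) : ZMod a))) ∨ a = 5 ∨ a = 13 ∨ a = 17 := by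
      intro a b ha hb haN hbN hba hab ha4
      by_cases hsq : IsSquare (b : ZMod a)
      · left
        refine ⟨fun j hj hja => ?_, fun h4' => ?_⟩
        · rw [mem_insert, mem_singleton] at hj
          rcases hj with h5 | h5
          · exact absurd h5 hja
          · rw [h5]; exact hsq
        · exfalso
          rw [mem_insert, mem_singleton] at h4'
          have h5 := (hS a ha).2
          have h6 := (hS b hb).2
          omega
      · right
        rcases h a b (hS a ha).1 (Nat.dvd_of_mem_primeFactors ha) haN (hS b hb).1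
          (Nat.dvd_of_mem_primeFactors hb) hbN hba ha4 hsq with h5 | h5 | h5 | h5
        · left; exact h5
        · right; left; exact h5
        · right; right; exact h5
        · exact absurd h5 hab
    rw [mem_insert, mem_singleton] at hp
    rcases hp with h5 | h5
    · rw [h5] at hp4 ⊢
      exact key x y hx hy hxN hyN hxy.symm hb hp4
    · rw [h5] at hp4 ⊢
      rw [pair_comm]
      exact key y x hy hx hyN hxN hxy (by rw [mul_comm (y - 1)]; exact hb) hp4

/-- **Few entries, degrees not divisible by four.** -/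
theorem main_few30 (m N : ℕ) [NeZero m] (h4 : ¬ 4 ∣ m) (hN : (if 2 ∣ m then 2 else 1) * N < 30)
    (h : ∀ p q : ℕ, SmallPrime m N p → SmallPrime m N q → q ≠ 2 → q ≠ p → p % 4 = 1 →
      ¬ IsSquare (q : ZMod p) →
      p = 5 ∨ p = 13 ∨ p = 17 ∨ 16 * ((if 2 ∣ m then 2 else 1) * N) < (p - 1) * (q - 1)) :
    ∃ l : ℕ, ∃ _ : NeZero (l * m), ∀ s : Multiset (ZMod m), IsHodge m s → s ≠ 0 →
      Multiset.card s ≤ N →
      Generated (l * m) (FourBase (l * m)) (s.map fun a => ((l * a.val : ℕ) : ZMod (l * m))) := by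
  by_cases h2 : 2 ∣ m
  · obtain ⟨m', rfl⟩ := h2
    have hm : 2 * m' ≠ 0 := NeZero.ne _
    have hm' : m' ≠ 0 := by rintro rfl; exact hm rfl
    have hNZ : NeZero m' := ⟨hm'⟩
    have hodd : m' % 2 = 1 := by
      by_contra h5
      apply h4
      obtain ⟨e, he⟩ : 2 ∣ m' := by omega
      exact ⟨e, by omega⟩
    rw [if_pos (dvd_mul_right 2 m')] at hN
    unfold SmallPrime at h
    simp only [if_pos (dvd_mul_right 2 m')] at h
    obtain ⟨l, hl0, hl⟩ := kill_few (N := 2 * N) hodd (good_or_big hodd hN (by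
      intro p q hp hpm hpN hq hqm hqN hqp hp4 hsq
      refine h p q ⟨hp, hpm.mul_left 2, by omega⟩ ⟨hq, hqm.mul_left 2, by omega⟩ ?_ hqp hp4 hsq
      rintro rfl
      omega))
    refine ⟨l, gen_of_kill hl0 ?_⟩
    intro M _ hM Q _ c hc hk s hs hcard
    have h1 := hl M 2 (by rw [← hM]; ring) Q c hc hk _ (ev2_rel hodd hs.rel)
      (ev2_card (card_count_le hcard))
    have hc1 : OddDist (fun a : ZMod (2 * m') => c (iota l a)) := hc.comp_iota hM
    have h3 := ev2_sum hodd hc1 (fun a => ((s.count a : ℕ) : ℤ))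
    rw [← sum_count s (fun a => c (iota l a)), ← h3, ← h1]
    refine sum_congr rfl fun b _ => ?_
    rw [iota_comp hM, mul_comm l 2]
  · have hodd : m % 2 = 1 := by omega
    have hm : m ≠ 0 := NeZero.ne m
    rw [if_neg h2, one_mul] at hN
    unfold SmallPrime at h
    simp only [if_neg h2, one_mul] at h
    exact main_sets hodd (good_or_big hodd hN (by
      intro p q hp hpm hpN hq hqm hqN hqp hp4 hsq
      refine h p q ⟨hp, hpm, hpN⟩ ⟨hq, hqm, hqN⟩ ?_ hqp hp4 hsq
      rintro rfl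
      exact h2 hqm))

/-! ### The small part of the degree -/

/-- the product of the small primes, with 4 if it divides the degree -/
noncomputable def smallPart (m N : ℕ) : ℕ := by
  classical
  exact (∏ p ∈ m.primeFactors.filter (fun p => SmallPrime m N p), p) * (if 4 ∣ m then 2 else 1)

lemma smallPart_spec (m N : ℕ) [NeZero m] (hN : N ≠ 0) : SmallPart m (smallPart m N) N ∧
    (∀ p : ℕ, p.Prime → (p ∣ smallPart m N ↔ SmallPrime m N p)) := by
  classical
  have hm : m ≠ 0 := NeZero.ne m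
  set F := m.primeFactors.filter (fun p => SmallPrime m N p) with hF
  have hF1 : ∀ p ∈ F, p.Prime ∧ p ∣ m := fun p hp =>
    ⟨Nat.prime_of_mem_primeFactors (mem_filter.mp hp).1,
      Nat.dvd_of_mem_primeFactors (mem_filter.mp hp).1⟩
  have hmem : ∀ p, SmallPrime m N p → p ∈ F := fun p hp =>
    mem_filter.mpr ⟨Nat.mem_primeFactors.mpr ⟨hp.1, hp.2.1, hm⟩, hp⟩
  have h2 : 2 ∣ m → SmallPrime m N 2 := fun h => ⟨Nat.prime_two, h, by rw [if_pos h]; omega⟩
  have hsp : smallPart m N = (∏ p ∈ F, p) * (if 4 ∣ m then 2 else 1) := rfl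
  have hprime : ∀ p : ℕ, p.Prime → (p ∣ smallPart m N ↔ SmallPrime m N p) := by
    intro p hp
    rw [hsp]
    constructor
    · intro hd
      rcases hp.dvd_mul.mp hd with h | h
      · obtain ⟨q, hq, hpq⟩ := (Nat.Prime.prime hp).exists_mem_finset_dvd h
        rw [(Nat.prime_dvd_prime_iff_eq hp (hF1 q hq).1).mp hpq]
        exact (mem_filter.mp hq).2
      · by_cases h4 : 4 ∣ m
        · rw [if_pos h4] at h
          rw [(Nat.prime_dvd_prime_iff_eq hp Nat.prime_two).mp h]
          exact h2 (dvd_trans (by norm_num) h4)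
        · rw [if_neg h4] at h
          exact absurd (Nat.dvd_one.mp h) hp.ne_one
    · intro hs
      exact (dvd_prod_of_mem (fun p => p) (hmem p hs)).mul_right _
  have hprodF : ∀ G : Finset ℕ, (∀ p ∈ G, p.Prime ∧ p ∣ m) → ∏ p ∈ G, p ∣ m := by
    intro G hG
    apply Finset.prod_dvd_of_isRelPrime
    · intro a ha b hb hab
      exact Nat.coprime_iff_isRelPrime.mp
        ((Nat.coprime_primes (hG a ha).1 (hG b hb).1).mpr hab)
    · intro x hx; exact (hG x hx).2
  refine ⟨⟨?_, ?_, ?_⟩, hprime⟩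
  · rw [hsp]
    by_cases h4 : 4 ∣ m
    · rw [if_pos h4]
      have h2F : 2 ∈ F := hmem 2 (h2 (dvd_trans (by norm_num) h4))
      rw [← mul_prod_erase F (fun p => p) h2F]
      have h5 : 2 * (∏ p ∈ F.erase 2, p) * 2 = 4 * ∏ p ∈ F.erase 2, p := by ring
      rw [h5]
      refine Nat.Coprime.mul_dvd_of_dvd_of_dvd ?_ h4
        (hprodF _ fun p hp => hF1 p (mem_of_mem_erase hp))
      apply Nat.Coprime.prod_right
      intro p hp
      have h6 := hF1 p (mem_of_mem_erase hp)
      have h7 : Nat.Coprime (2 ^ 2) p := by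
        apply Nat.Coprime.pow_left
        exact (Nat.coprime_primes Nat.prime_two h6.1).mpr (ne_of_mem_erase hp).symm
      exact h7
    · rw [if_neg h4, mul_one]
      exact hprodF F hF1
  · intro h4
    rw [hsp, if_pos h4]
    have h2F : 2 ∈ F := hmem 2 (h2 (dvd_trans (by norm_num) h4))
    obtain ⟨e, he⟩ := dvd_prod_of_mem (fun p => p) h2F
    rw [he]
    exact ⟨e, by ring⟩
  · intro p hp hpm hp0
    by_contra hle
    apply hp0
    rw [hprime p hp]
    exact ⟨hp, hpm, by omega⟩

/-- **The final theorem.** -/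
theorem main_covered (m N : ℕ) [NeZero m] (h : Covered m N) :
    ∃ l : ℕ, ∃ _ : NeZero (l * m), ∀ s : Multiset (ZMod m), IsHodge m s → s ≠ 0 →
      Multiset.card s ≤ N →
      Generated (l * m) (FourBase (l * m)) (s.map fun a => ((l * a.val : ℕ) : ZMod (l * m))) := by
  classical
  by_cases hN : N = 0
  · refine ⟨1, ⟨Nat.mul_ne_zero one_ne_zero (NeZero.ne m)⟩, fun s _ hne hcard => ?_⟩
    exact absurd (Multiset.card_eq_zero.mp (by omega)) hne
  obtain ⟨hsp, hpr⟩ := smallPart_spec m N hN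
  have h4 : 4 ∣ smallPart m N → 4 ∣ m := fun h => h.trans hsp.dvd
  have hsees : ∀ p, SmallPrime m N p → SeesSmall m N p → SeesSquares (smallPart m N) p := by
    intro p _ h1
    exact ⟨fun q hq hqm hq2 hqp => h1.1 q ((hpr q hq).mp hqm) hq2 hqp, fun h5 => h1.2 (h4 h5)⟩
  rcases h with h | ⟨h1, S, hS, hcard⟩ | ⟨h1, h2, h3⟩
  · obtain ⟨_, h2, _⟩ := main_small m (smallPart m N) N hsp
    obtain ⟨l, hl, _, h5⟩ := h2 (by
      intro p hp hpm hp4
      have h6 := (hpr p hp).mp hpm
      exact hsees p h6 (h p h6 hp4))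
    exact ⟨l, hl, fun s hs hne hN =>
      Pool.Agent.N993.Generated.mono (fun _ h => Or.inr h) (h5 s hs hne hN)⟩
  · obtain ⟨_, _, h3⟩ := main_small m (smallPart m N) N hsp
    refine h3 (Or.inl ⟨?_, ?_⟩)
    · have h5 : (smallPart m N).primeFactors.erase 2 ⊆ S := by
        intro p hp
        have h6 := mem_of_mem_erase hp
        have h7 := Nat.prime_of_mem_primeFactors h6
        exact hS p ((hpr p h7).mp (Nat.dvd_of_mem_primeFactors h6)) (ne_of_mem_erase hp)
      have h6 := card_le_card h5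
      have h7 : (if 4 ∣ smallPart m N then 1 else 0) ≤ (if 4 ∣ m then 1 else 0) := by
        by_cases h8 : 4 ∣ smallPart m N
        · rw [if_pos h8, if_pos (h4 h8)]
        · rw [if_neg h8]; exact Nat.zero_le _
      omega
    · intro p hp hpm hp4
      have h6 := (hpr p hp).mp hpm
      rcases h1 p h6 hp4 with h5 | h5
      · left; exact hsees p h6 h5
      · right; exact h5
  · exact main_few30 m N h1 h2 h3

/-- Odd degrees and at most twelve entries. -/
theorem covered_of_odd {m N : ℕ} (hm : Odd m) (hN : N ≤ 12) : Covered m N := by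
  have h2 : ¬ 2 ∣ m := by
    rw [Nat.odd_iff] at hm
    omega
  right; right
  refine ⟨fun h => h2 (dvd_trans (by norm_num) h), ?_, ?_⟩
  · rw [if_neg h2]; omega
  · intro p q hp _ _ _ hp4 _
    obtain ⟨hp1, _, hp3⟩ := hp
    rw [if_neg h2] at hp3
    have h3 : p ≤ 25 := by omega
    have h5 : p = 1 ∨ p = 5 ∨ p = 9 ∨ p = 13 ∨ p = 17 ∨ p = 21 ∨ p = 25 := by omega
    rcases h5 with h | h | h | h | h | h | h
    · exact absurd hp1 (by rw [h]; norm_num)
    · left; exact h
    · exact absurd hp1 (by rw [h]; norm_num)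
    · right; left; exact h
    · right; right; left; exact h
    · exact absurd hp1 (by rw [h]; norm_num)
    · exact absurd hp1 (by rw [h]; norm_num)

end Run7.h919
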