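import Mathlib

/-!
Sparse functions on a grid which are sums of functions constant along the lines of one direction.

A function on the box `∏ range n_k` is given as a function of the list of coordinates. `VV L F`: all
the mixed differences of `F` in all directions vanish. The main lemma `lines_or_split`: if the
`L1`-norm of `F` is small compared with the products of the side lengths, then either `F` has a line
on which a majority of the values has one sign, or the differences in the last directions already
vanish.
-/

namespace Run7.h919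

open Finset

/-- `L1`-norm on the box. -/
def nrm : List ℕ → (List ℕ → ℤ) → ℤ
  | [], F => |F []|
  | n :: L, F => ∑ i ∈ range n, nrm L (fun v => F (i :: v))

/-- All mixed differences vanish. -/
def VV : List ℕ → (List ℕ → ℤ) → Prop
  | [], F => F [] = 0
  | n :: L, F => ∀ i < n, ∀ j < n, VV L (fun v => F (i :: v) - F (j :: v))

/-- `F` vanishes on the box. -/
def Zr : List ℕ → (List ℕ → ℤ) → Prop
  | [], F => F [] = 0
  | n :: L, F => ∀ i < n, Zr L (fun v => F (i :: v))

/-- The points of the box. -/
def bx : List ℕ → List ℕ → Prop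
  | [], v => v = []
  | n :: L, v => ∃ i < n, ∃ w, bx L w ∧ v = i :: w

/-- A majority of the values has the same sign. -/
def Maj (n : ℕ) (φ : ℕ → ℤ) : Prop :=
  ∃ e : ℤ, (e = 1 ∨ e = -1) ∧ n < 2 * ((range n).filter (fun i => 0 < e * φ i)).card

/-- There is a line in one of the first directions with a majority. -/
def HM : List ℕ → List ℕ → (List ℕ → ℤ) → Prop
  | [], _, _ => False
  | n :: L1, L2, F => (∃ i < n, HM L1 L2 (fun v => F (i :: v))) ∨
      ∃ v, bx (L1 ++ L2) v ∧ Maj n (fun i => F (i :: v))

/-- The conditions on the side lengths. -/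
def Pw : List ℕ → List ℕ → ℤ → Prop
  | [], _, _ => True
  | n :: L1, L2, N => 0 < n ∧ (∀ b ∈ L1 ++ L2, 2 * N < (n : ℤ) * b) ∧ Pw L1 L2 N

lemma nrm_nonneg : ∀ (L : List ℕ) (F : List ℕ → ℤ), 0 ≤ nrm L F
  | [], F => abs_nonneg _
  | n :: L, F => sum_nonneg fun i _ => nrm_nonneg L _

lemma Zr_iff : ∀ (L : List ℕ) (F : List ℕ → ℤ), Zr L F ↔ nrm L F = 0
  | [], F => by simp [Zr, nrm]
  | n :: L, F => by
    simp only [Zr, nrm]
    rw [sum_eq_zero_iff_of_nonneg fun i _ => nrm_nonneg L _]
    simp only [mem_range]
    exact forall_congr' fun i => forall_congr' fun _ => Zr_iff L _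

lemma nrm_sub_le : ∀ (L : List ℕ) (F G : List ℕ → ℤ),
    nrm L (fun v => F v - G v) ≤ nrm L F + nrm L G
  | [], F, G => abs_sub _ _
  | n :: L, F, G => by
    simp only [nrm]
    rw [← sum_add_distrib]
    exact sum_le_sum fun i _ => nrm_sub_le L _ _

lemma Zr_add : ∀ (L : List ℕ) (F G : List ℕ → ℤ), Zr L F → Zr L G → Zr L (fun v => F v + G v)
  | [], F, G, hF, hG => by simp only [Zr] at *; rw [hF, hG]; rfl
  | n :: L, F, G, hF, hG => fun i hi => Zr_add L _ _ (hF i hi) (hG i hi)

lemma Zr_neg : ∀ (L : List ℕ) (F : List ℕ → ℤ), Zr L F → Zr L (fun v => - F v)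
  | [], F, hF => by simp only [Zr] at *; rw [hF]; rfl
  | n :: L, F, hF => fun i hi => Zr_neg L _ (hF i hi)

lemma VV_zero : ∀ (L : List ℕ) (F : List ℕ → ℤ), Zr L F → VV L F
  | [], _, h => h
  | n :: L, F, h => fun i hi j hj => by
    have h1 := Zr_add L _ _ (h i hi) (Zr_neg L _ (h j hj))
    have h2 := VV_zero L _ h1
    simpa only [← sub_eq_add_neg] using h2

lemma VV_add : ∀ (L : List ℕ) (F G : List ℕ → ℤ), VV L F → VV L G → VV L (fun v => F v + G v)
  | [], F, G, hF, hG => by simp only [VV] at *; rw [hF, hG]; rfl
  | n :: L, F, G, hF, hG => fun i hi j hj => by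
    have h1 := VV_add L _ _ (hF i hi j hj) (hG i hi j hj)
    have e : (fun v => F (i :: v) + G (i :: v) - (F (j :: v) + G (j :: v))) =
        fun v => F (i :: v) - F (j :: v) + (G (i :: v) - G (j :: v)) := by
      funext v; ring
    rw [e]; exact h1

/-- values on the box -/
lemma Zr_apply : ∀ (L : List ℕ) (F : List ℕ → ℤ), Zr L F → ∀ v, bx L v → F v = 0
  | [], F, h, v, hv => by
    have : v = [] := hv
    rw [this]; exact h
  | n :: L, F, h, v, hv => by
    obtain ⟨i, hi, w, hw, rfl⟩ := hv
    exact Zr_apply L _ (h i hi) w hw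

lemma exists_ne : ∀ (L : List ℕ) (F : List ℕ → ℤ), ¬ Zr L F → ∃ v, bx L v ∧ F v ≠ 0
  | [], F, h => ⟨[], rfl, h⟩
  | n :: L, F, h => by
    simp only [Zr, not_forall] at h
    obtain ⟨i, hi, h⟩ := h
    obtain ⟨w, hw, hne⟩ := exists_ne L _ h
    exact ⟨i :: w, ⟨i, hi, w, hw, rfl⟩, hne⟩

/-- Lower bound for the support. -/
theorem min_weight : ∀ (L : List ℕ) (F : List ℕ → ℤ), VV L F → (∀ b ∈ L, nrm L F < b) → Zr L F
  | [], _, h, _ => h
  | n :: L, F, hV, hb => by
    have hn : nrm (n :: L) F < n := hb n (by simp)
    have hex : ∃ i0 < n, nrm L (fun v => F (i0 :: v)) = 0 := by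
      by_contra hcon
      push Not at hcon
      have h1 : (n : ℤ) ≤ nrm (n :: L) F := by
        simp only [nrm]
        calc (n : ℤ) = ∑ i ∈ range n, (1 : ℤ) := by simp
          _ ≤ _ := sum_le_sum fun i hi => by
            have h2 := hcon i (mem_range.mp hi)
            have h3 := nrm_nonneg L (fun v => F (i :: v))
            omega
      omega
    obtain ⟨i0, hi0, h0⟩ := hex
    intro i hi
    have hi' : nrm L (fun v => F (i :: v)) ≤ nrm (n :: L) F := by
      simp only [nrm]
      exact single_le_sum (f := fun i => nrm L (fun v => F (i :: v)))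
        (fun j _ => nrm_nonneg L _) (mem_range.mpr hi)
    have h1 : Zr L (fun v => F (i :: v) - F (i0 :: v)) := by
      apply min_weight L _ (hV i hi i0 hi0)
      intro b hbL
      have h2 := nrm_sub_le L (fun v => F (i :: v)) (fun v => F (i0 :: v))
      have h3 := hb b (by simp [hbL])
      omega
    have h2 : Zr L (fun v => F (i0 :: v)) := (Zr_iff L _).mpr h0
    have h3 := Zr_add L _ _ h1 h2
    simpa using h3

lemma Pw_mono : ∀ (L1 L2 : List ℕ) (N M : ℤ), M ≤ N → Pw L1 L2 N → Pw L1 L2 M
  | [], _, _, _, _, _ => trivial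
  | n :: L1, L2, N, M, h, hP => ⟨hP.1, fun b hb => by have := hP.2.1 b hb; omega,
      Pw_mono L1 L2 N M h hP.2.2⟩

lemma exists_min_mem : ∀ (R : List ℕ), R ≠ [] → ∃ k ∈ R, ∀ b ∈ R, k ≤ b
  | [], h => absurd rfl h
  | [a], _ => ⟨a, by simp, by simp⟩
  | a :: c :: R, _ => by
    obtain ⟨k, hk, hmin⟩ := exists_min_mem (c :: R) (by simp)
    by_cases hak : a ≤ k
    · refine ⟨a, by simp, fun b hb => ?_⟩
      rcases List.mem_cons.mp hb with rfl | hb
      · exact le_rfl
      · exact le_trans hak (hmin b hb)
    · refine ⟨k, List.mem_cons_of_mem _ hk, fun b hb => ?_⟩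
      rcases List.mem_cons.mp hb with rfl | hb
      · omega
      · exact hmin b hb

/-- **Main lemma.** -/
theorem lines_or_split : ∀ (L1 L2 : List ℕ) (F : List ℕ → ℤ), VV (L1 ++ L2) F →
    Pw L1 L2 (nrm (L1 ++ L2) F) →
    (∀ v, bx L1 v → VV L2 (fun w => F (v ++ w))) ∨ HM L1 L2 F
  | [], L2, F, hV, _ => by
    left
    intro v hv
    have : v = [] := hv
    subst this
    exact hV
  | n :: L1, L2, F, hV, hP => by
    classical
    by_cases hHM : HM (n :: L1) L2 F
    · right; exact hHM
    left
    simp only [HM, not_or, not_exists, not_and] at hHM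
    obtain ⟨hM1, hM2⟩ := hHM
    obtain ⟨hn, hpair, hP'⟩ := hP
    have hV' : ∀ i < n, ∀ j < n, VV (L1 ++ L2) (fun v => F (i :: v) - F (j :: v)) := hV
    set R := L1 ++ L2 with hR
    have hN : nrm (n :: L1 ++ L2) F = ∑ i ∈ range n, nrm R (fun v => F (i :: v)) := rfl
    set N := nrm (n :: L1 ++ L2) F with hNdef
    obtain ⟨i0, hi0, hmin⟩ := exists_min_image (range n) (fun i => nrm R (fun v => F (i :: v)))
      ⟨0, mem_range.mpr hn⟩
    have hi0n := mem_range.mp hi0
    set a := nrm R (fun v => F (i0 :: v)) with ha
    have ha0 : 0 ≤ a := nrm_nonneg _ _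
    have hna : (n : ℤ) * a ≤ N := by
      rw [hN]
      calc (n : ℤ) * a = ∑ i ∈ range n, a := by simp
        _ ≤ _ := sum_le_sum fun i hi => hmin i hi
    have hnz : (0 : ℤ) < n := by exact_mod_cast hn
    have hlight : ∀ b ∈ R, 2 * a < b := by
      intro b hb
      have h1 := hpair b hb
      by_contra hcon
      push Not at hcon
      have h2 : (n : ℤ) * b ≤ n * (2 * a) := mul_le_mul_of_nonneg_left hcon hnz.le
      linarith
    have hslice : ∀ i < n, nrm R (fun v => F (i :: v)) ≤ N := by
      intro i hi
      rw [hN]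
      exact single_le_sum (f := fun i => nrm R (fun v => F (i :: v)))
        (fun j _ => nrm_nonneg R _) (mem_range.mpr hi)
    have hg : Zr R (fun v => F (i0 :: v)) := by
      by_contra hg
      set E := (range n).filter (fun i => Zr R (fun v => F (i :: v) - F (i0 :: v))) with hE
      set E' := (range n).filter (fun i => ¬ Zr R (fun v => F (i :: v) - F (i0 :: v))) with hE'
      have hcard : E.card + E'.card = n := by
        rw [hE, hE', Finset.card_filter_add_card_filter_not, card_range]
      have hmaj : n < 2 * E.card := by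
        by_cases hE0 : E' = ∅
        · rw [hE0, card_empty] at hcard
          omega
        · have hRne : R ≠ [] := by
            intro h0
            obtain ⟨j, hj⟩ := nonempty_iff_ne_empty.mpr hE0
            rw [hE', mem_filter, mem_range] at hj
            apply hj.2
            have h1 := hV' j hj.1 i0 hi0n
            rw [h0] at h1 ⊢
            exact h1
          obtain ⟨k, hkR, hkmin⟩ := exists_min_mem R hRne
          have hE'b : ∀ j ∈ E', (k : ℤ) - a ≤ nrm R (fun v => F (j :: v)) := by
            intro j hj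
            rw [hE', mem_filter, mem_range] at hj
            by_contra hcon
            push Not at hcon
            apply hj.2
            apply min_weight R _ (hV' j hj.1 i0 hi0n)
            intro b hb
            have h1 := nrm_sub_le R (fun v => F (j :: v)) (fun v => F (i0 :: v))
            have h2 : (k : ℤ) ≤ b := by exact_mod_cast hkmin b hb
            omega
          have hsum : (E.card : ℤ) * a + E'.card * (k - a) ≤ N := by
            rw [hN, ← Finset.sum_filter_add_sum_filter_not (range n)
              (fun i => Zr R (fun v => F (i :: v) - F (i0 :: v)))]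
            apply add_le_add
            · rw [← hE, ← nsmul_eq_mul]
              exact card_nsmul_le_sum _ _ _ fun i hi => hmin i (mem_of_mem_filter i hi)
            · rw [← hE', ← nsmul_eq_mul]
              exact card_nsmul_le_sum _ _ _ fun i hi => hE'b i hi
          have hk := hpair k hkR
          have hka := hlight k hkR
          have hcz : (E.card : ℤ) + E'.card = n := by exact_mod_cast hcard
          have h1 : ((k : ℤ) - 2 * a) * E'.card < (k - 2 * a) * E.card := by
            have h2 : 2 * N < ((E.card : ℤ) + E'.card) * k := by rw [hcz]; exact hk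
            nlinarith
          have h2 : (0 : ℤ) < k - 2 * a := by omega
          have h3 : (E'.card : ℤ) < E.card := lt_of_mul_lt_mul_left h1 h2.le
          have h4 : E'.card < E.card := by exact_mod_cast h3
          omega
      obtain ⟨v, hv, hne⟩ := exists_ne R _ hg
      apply hM2 v hv
      have hEv : ∀ i ∈ E, F (i :: v) = F (i0 :: v) := by
        intro i hi
        rw [hE, mem_filter] at hi
        have := Zr_apply R _ hi.2 v hv
        omega
      rcases lt_or_gt_of_ne hne with h | h
      · refine ⟨-1, Or.inr rfl, lt_of_lt_of_le hmaj (Nat.mul_le_mul_left 2 (card_le_card ?_))⟩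
        intro i hi
        rw [mem_filter]
        refine ⟨mem_of_mem_filter i hi, ?_⟩
        simp only
        rw [hEv i hi]; omega
      · refine ⟨1, Or.inl rfl, lt_of_lt_of_le hmaj (Nat.mul_le_mul_left 2 (card_le_card ?_))⟩
        intro i hi
        rw [mem_filter]
        refine ⟨mem_of_mem_filter i hi, ?_⟩
        simp only
        rw [hEv i hi]; omega
    rintro v ⟨i, hi, w, hw, rfl⟩
    have hVi : VV R (fun v => F (i :: v)) := by
      have h1 := VV_add R _ _ (hV' i hi i0 hi0n) (VV_zero R _ hg)
      simpa using h1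
    rcases lines_or_split L1 L2 (fun v => F (i :: v)) hVi
      (Pw_mono L1 L2 _ _ (hslice i hi) hP') with h | h
    · exact h w hw
    · exact absurd h (hM1 i hi)

end Run7.h919
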