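import Pool.Agent.Run7.h919.Orth

/-!
Removing the top level of a relation.
-/

namespace Run7.h919

open Finset Pool.Agent.H916R2

/-- A line with a majority gives a line of residues. -/
lemma HM_line {m : ℕ} (hm : m ≠ 0) (P2 : List ℕ) (H : ℕ → ℤ) : ∀ (P1 : List ℕ),
    (∀ l ∈ P1 ++ P2, l.Prime ∧ l ∣ m) → (P1 ++ P2).Nodup → ∀ a, GB m (P1 ++ P2) a →
    HM (P1.map (sz m)) (P2.map (sz m)) (fun v => H (pt m (P1 ++ P2) a v)) →
    ∃ l ∈ P1, ∃ b, (∀ i < sz m l, Nat.Coprime (b + i * (m / l)) m) ∧ cd m l b ∧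
      Maj (sz m l) (fun i => H (b + i * (m / l)))
  | [], _, _, _, _, h => absurd h (by simp [HM])
  | l :: P1, hP, hnd, a, hG, h => by
    have hl := hP l (by simp)
    have hnd' := hnd
    rw [List.cons_append, List.nodup_cons] at hnd'
    rcases h with ⟨i, hi, h⟩ | ⟨v, hv, h⟩
    · have hG' := GB_step hm (P := P1 ++ P2) hl.1 hl.2 hnd'.1 hG hi
      obtain ⟨l', hl', b, h1, h2, h3⟩ := HM_line hm P2 H P1 (fun l hl => hP l (by simp at hl ⊢; tauto))
        hnd'.2 (a + i * (m / l)) hG' h
      exact ⟨l', by simp [hl'], b, h1, h2, h3⟩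
    · rw [← List.map_append] at hv
      refine ⟨l, by simp, pt m (P1 ++ P2) a v, ?_, ?_, ?_⟩
      · intro i hi
        rw [← pt_add]
        exact coprime_pt hm (P1 ++ P2) (fun l hl => hP l (by simp at hl ⊢; tauto)) hnd'.2 _
          (GB_step hm (P := P1 ++ P2) hl.1 hl.2 hnd'.1 hG hi) v hv
      · have hcd := (hG l hl.1 hl.2).1 (by simp)
        have h4 := fun t => pt_dvd hl.1 hl.2 (P1 ++ P2) (fun l hl => hP l (by simp at hl ⊢; tauto))
          hnd'.1 a t v
        refine ⟨fun h5 h6 => hcd.1 h5 ?_, fun h5 => (h4 _).mpr (hcd.2 h5)⟩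
        have := (h4 0).mp (by simpa using h6)
        simpa using this
      · have e : (fun i => H (pt m (P1 ++ P2) a v + i * (m / l))) =
            fun i => H (pt m (l :: P1 ++ P2) a (i :: v)) := by
          funext i
          simp only [List.cons_append, pt, pt_add]
        rw [e]
        exact h

variable {m : ℕ} [NeZero m]

/-- Equal values under all odd distributions. -/
def Eqv (y y' : ZMod m → ℤ) : Prop :=
  ∀ (Q : Type) [AddCommGroup Q] (c : ZMod m → Q), OddDist c →
    ∑ a, y a • c a = ∑ a, y' a • c a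

lemma Eqv.refl (y : ZMod m → ℤ) : Eqv y y := fun _ _ _ _ => rfl

lemma Eqv.trans {y y' y'' : ZMod m → ℤ} (h : Eqv y y') (h' : Eqv y' y'') : Eqv y y'' :=
  fun Q _ c hc => (h Q c hc).trans (h' Q c hc)

lemma Eqv.orth {y y' : ZMod m → ℤ} (h : Eqv y y') (ho : Orth y) : Orth y' := by
  intro C hC hs
  have h1 := h ℤ C hC
  simp only [smul_eq_mul] at h1
  rw [← h1]
  exact ho C hC hs

/-- The norm of the odd part. -/
def nm (y : ZMod m → ℤ) : ℤ := ∑ z, |od y z|

/-- The norm of the odd part on the units. -/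
def um (y : ZMod m → ℤ) : ℤ := by
  classical
  exact ∑ z, if IsUnit z then |od y z| else 0

lemma od_neg (y : ZMod m → ℤ) (z : ZMod m) : od y (-z) = - od y z := by unfold od; simp

/-- a signed point -/
def sg (t z : ZMod m) : ℤ := (if z = t then 1 else 0) - (if z = -t then 1 else 0)

lemma sum_abs_sg (t : ZMod m) : ∑ z, |sg t z| ≤ 2 := by
  unfold sg
  calc ∑ z, |(if z = t then (1 : ℤ) else 0) - (if z = -t then 1 else 0)|
      ≤ ∑ z, ((if z = t then (1 : ℤ) else 0) + (if z = -t then 1 else 0)) := by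
        apply sum_le_sum
        intro z _
        split_ifs <;> simp
    _ = 2 := by simp [sum_add_distrib]

lemma od_point (w : ℤ) (t z : ZMod m) :
    od (fun z => if z = t then w else 0) z = w * sg t z := by
  unfold od sg
  have : (-z = t) ↔ (z = -t) := by
    constructor
    · intro h; rw [← h, neg_neg]
    · intro h; rw [h, neg_neg]
  simp only [this]
  split_ifs <;> ring

lemma od_comb {ι : Type*} (S : Finset ι) (q : ι → ZMod m) (u : ι → ℤ) (z : ZMod m) :
    (∑ i ∈ S, if z = q i then u i else 0) - (∑ i ∈ S, if -z = q i then u i else 0) =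
      ∑ i ∈ S, u i * sg (q i) z := by
  rw [← sum_sub_distrib]
  refine sum_congr rfl fun i _ => ?_
  exact od_point (u i) (q i) z

lemma sum_comb {ι : Type*} (S : Finset ι) (q : ι → ZMod m) (u : ι → ℤ) {Q : Type*}
    [AddCommGroup Q] (c : ZMod m → Q) :
    ∑ z, (∑ i ∈ S, if z = q i then u i else 0) • c z = ∑ i ∈ S, u i • c (q i) := by
  simp only [sum_smul]
  rw [sum_comm]
  refine sum_congr rfl fun i _ => ?_
  rw [Finset.sum_eq_single (q i)]
  · rw [if_pos rfl]
  · intro z _ hz
    rw [if_neg hz, zero_smul]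
  · intro h; exact absurd (mem_univ _) h

/-- **Replacement.** -/
theorem replace {ι κ : Type*} (I : Finset ι) (K : Finset κ) (p : ι → ZMod m) (w : ι → ℤ)
    (t : κ → ZMod m) (v : κ → ℤ) (y : ZMod m → ℤ)
    (hrel : ∀ (Q : Type) [AddCommGroup Q] (c : ZMod m → Q), OddDist c →
      ∑ i ∈ I, w i • c (p i) = ∑ k ∈ K, v k • c (t k))
    (hinj : Set.InjOn p I) (hu : ∀ i ∈ I, IsUnit (p i)) (hdis : ∀ i ∈ I, ∀ j ∈ I, p i ≠ - p j)
    (ht : ∀ k ∈ K, ¬ IsUnit (t k))
    (hgain : ∑ k ∈ K, |v k| ≤ ∑ i ∈ I, (|od y (p i)| - |od y (p i) - w i|))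
    (hpos : 0 < ∑ i ∈ I, (|od y (p i)| - |od y (p i) - w i|)) :
    ∃ y' : ZMod m → ℤ, Eqv y y' ∧ nm y' ≤ nm y ∧ um y' < um y := by
  classical
  set G := ∑ i ∈ I, (|od y (p i)| - |od y (p i) - w i|) with hG
  let U : ZMod m → ℤ := fun z => ∑ i ∈ I, w i * sg (p i) z
  let L : ZMod m → ℤ := fun z => ∑ k ∈ K, v k * sg (t k) z
  let y' : ZMod m → ℤ := fun z => y z - (∑ i ∈ I, if z = p i then w i else 0) +
    ∑ k ∈ K, if z = t k then v k else 0
  have hod : ∀ z, od y' z = od y z - U z + L z := by
    intro z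
    have h2 := od_comb I p w z
    have h3 := od_comb K t v z
    simp only [od, y', U, L]
    rw [← h2, ← h3]
    ring
  -- the norm of `od y - U`
  have hU0 : ∀ z, (∀ i ∈ I, z ≠ p i ∧ z ≠ - p i) → U z = 0 := by
    intro z hz
    apply sum_eq_zero
    intro i hi
    obtain ⟨h1, h2⟩ := hz i hi
    simp [sg, h1, h2]
  have hUp : ∀ i ∈ I, U (p i) = w i := by
    intro i hi
    simp only [U]
    rw [Finset.sum_eq_single i]
    · simp [sg, hdis i hi i hi]
    · intro j hj hji
      have h1 : p i ≠ p j := fun h => hji (hinj hj hi h.symm)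
      simp [sg, h1, hdis i hi j hj]
    · intro h; exact absurd hi h
  have hUn : ∀ i ∈ I, U (- p i) = - w i := by
    intro i hi
    simp only [U]
    rw [Finset.sum_eq_single i]
    · have h2 : - p i ≠ p i := fun h => hdis i hi i hi h.symm
      simp [sg, h2]
    · intro j hj hji
      have h1 : - p i ≠ - p j := fun h => hji (hinj hj hi (neg_injective h).symm)
      have h2 : - p i ≠ p j := fun h => hdis j hj i hi h.symm
      simp only [sg, h1, h2, if_false, sub_zero, mul_zero]
    · intro h; exact absurd hi h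
  have hδ : ∀ φ : ZMod m → ℤ, (∀ z, (∀ i ∈ I, z ≠ p i ∧ z ≠ - p i) → φ z = 0) →
      ∑ z, φ z = ∑ i ∈ I, (φ (p i) + φ (- p i)) := by
    intro φ hφ
    have hinj2 : Set.InjOn (fun i => - p i) (I : Set ι) :=
      fun i hi j hj h => hinj hi hj (neg_injective h)
    rw [sum_add_distrib, ← sum_image (f := φ) (g := p) hinj,
      ← sum_image (f := φ) (g := fun i => - p i) hinj2, ← sum_union]
    · symm
      apply sum_subset (subset_univ _)
      intro z _ hz
      apply hφ
      intro i hi
      rw [mem_union, not_or, mem_image, mem_image] at hz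
      push Not at hz
      exact ⟨fun h => hz.1 i hi h.symm, fun h => hz.2 i hi h.symm⟩
    · rw [disjoint_left]
      intro z h1 h2
      obtain ⟨i, hi, rfl⟩ := mem_image.mp h1
      obtain ⟨j, hj, h3⟩ := mem_image.mp h2
      exact hdis i hi j hj h3.symm
  have hgainU : ∀ i ∈ I, |od y (- p i)| - |od y (- p i) - U (- p i)| =
      |od y (p i)| - |od y (p i) - w i| := by
    intro i hi
    rw [hUn i hi, od_neg, abs_neg]
    congr 1
    rw [show - od y (p i) - - w i = - (od y (p i) - w i) by ring, abs_neg]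
  have hnormU : ∑ z, (|od y z| - |od y z - U z|) = 2 * G := by
    rw [hδ (fun z => |od y z| - |od y z - U z|) (fun z hz => by
      simp only [hU0 z hz, sub_zero, sub_self])]
    rw [hG, mul_sum]
    refine sum_congr rfl fun i hi => ?_
    rw [hgainU i hi, hUp i hi]
    ring
  have hnormL : ∑ z, |L z| ≤ 2 * ∑ k ∈ K, |v k| := by
    calc ∑ z, |L z| ≤ ∑ z, ∑ k ∈ K, |v k| * |sg (t k) z| := by
          apply sum_le_sum
          intro z _
          refine (abs_sum_le_sum_abs _ _).trans (le_of_eq ?_)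
          exact sum_congr rfl fun k _ => abs_mul _ _
      _ = ∑ k ∈ K, |v k| * ∑ z, |sg (t k) z| := by
          rw [sum_comm]
          exact sum_congr rfl fun k _ => (mul_sum _ _ _).symm
      _ ≤ ∑ k ∈ K, |v k| * 2 := sum_le_sum fun k _ =>
          mul_le_mul_of_nonneg_left (sum_abs_sg _) (abs_nonneg _)
      _ = 2 * ∑ k ∈ K, |v k| := by rw [mul_sum]; exact sum_congr rfl fun k _ => mul_comm _ _
  refine ⟨y', ?_, ?_, ?_⟩
  · intro Q _ c hc
    simp only [y', add_smul, sub_smul, sum_add_distrib, sum_sub_distrib]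
    rw [sum_comb I p w, sum_comb K t v, hrel Q c hc]
    abel
  · have h1 : nm y' ≤ ∑ z, |od y z - U z| + ∑ z, |L z| := by
      unfold nm
      rw [← sum_add_distrib]
      apply sum_le_sum
      intro z _
      rw [hod z]
      exact abs_add_le _ _
    have h2 : nm y = ∑ z, |od y z - U z| + 2 * G := by
      rw [← hnormU, sum_sub_distrib]
      unfold nm
      ring
    linarith
  · have hL0 : ∀ z, IsUnit z → L z = 0 := by
      intro z hz
      apply sum_eq_zero
      intro k hk
      have h1 : z ≠ t k := fun h => ht k hk (h ▸ hz)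
      have h2 : z ≠ - t k := fun h => ht k hk (by
        have := hz.neg
        rw [h, neg_neg] at this
        exact this)
      simp [sg, h1, h2]
    have h1 : um y - um y' = ∑ z, (|od y z| - |od y z - U z|) := by
      unfold um
      rw [← sum_sub_distrib]
      refine sum_congr rfl fun z _ => ?_
      by_cases hz : IsUnit z
      · rw [if_pos hz, if_pos hz, hod z, hL0 z hz, add_zero]
      · rw [if_neg hz, if_neg hz]
        have h2 : U z = 0 := by
          apply hU0
          intro i hi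
          refine ⟨fun h => hz (h ▸ hu i hi), fun h => hz ?_⟩
          rw [h]
          exact (hu i hi).neg
        rw [h2]; simp
    rw [hnormU] at h1
    linarith

end Run7.h919
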