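import Pool.Agent.Run7.h919.Level

/-!
Removing a line with a majority; the top level of a sparse relation.
-/

namespace Run7.h919

open Finset Pool.Agent.H916R2

variable {m : ℕ} [NeZero m]

lemma line_inj {l d b i j : ℕ} (hld : l * d = m) (hi : i < l) (hj : j < l)
    (h : ((b + i * d : ℕ) : ZMod m) = ((b + j * d : ℕ) : ZMod m)) : i = j := by
  rw [ZMod.natCast_eq_natCast_iff] at h
  have h1 := Nat.ModEq.add_left_cancel' b h
  have hd : d ≠ 0 := by rintro rfl; rw [mul_zero] at hld; exact NeZero.ne m hld.symm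
  rw [← hld] at h1
  have h2 : i ≡ j [MOD l] := Nat.ModEq.mul_right_cancel' hd h1
  exact Nat.ModEq.eq_of_lt_of_lt h2 hi hj

lemma sz_le (m l : ℕ) : sz m l ≤ l := by unfold sz; split_ifs <;> omega

lemma abs_gain {x e : ℤ} (he : e = 1 ∨ e = -1) :
    |x| - |x - e| = if 0 < e * x then 1 else -1 := by
  rcases he with rfl | rfl
  · split_ifs with h
    · have hx : 1 ≤ x := by omega
      rw [abs_of_nonneg (by omega), abs_of_nonneg (by omega)]; ring
    · have hx : x ≤ 0 := by omega
      rw [abs_of_nonpos (by omega), abs_of_nonpos (by omega)]; ring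
  · split_ifs with h
    · have hx : x ≤ -1 := by omega
      rw [abs_of_nonpos (by omega), abs_of_nonpos (by omega)]; ring
    · have hx : 0 ≤ x := by omega
      rw [abs_of_nonneg (by omega), abs_of_nonneg (by omega)]; ring

theorem line_step {l b : ℕ} (hl : l.Prime) (hlm : l ∣ m) (h4 : 2 ∣ m → 4 ∣ m)
    (hb : ∀ i < sz m l, Nat.Coprime (b + i * (m / l)) m) (hcd : cd m l b) (y : ZMod m → ℤ)
    (hmaj : Maj (sz m l) (fun i => od y ((b + i * (m / l) : ℕ) : ZMod m))) :
    ∃ y' : ZMod m → ℤ, Eqv y y' ∧ nm y' ≤ nm y ∧ um y' < um y := by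
  classical
  set d := m / l with hd
  have hld : l * d = m := Nat.mul_div_cancel' hlm
  set n := sz m l with hn
  obtain ⟨e, he, hmaj⟩ := hmaj
  let p : ℕ → ZMod m := fun i => ((b + i * d : ℕ) : ZMod m)
  set A := (range n).filter (fun i => 0 < e * od y (p i)) with hA
  have hAmaj : n < 2 * A.card := hmaj
  have hnl : n ≤ l := sz_le m l
  have hinj : Set.InjOn p (range n : Set ℕ) := by
    intro i hi j hj h
    have hi' : i < n := by simpa using hi
    have hj' : j < n := by simpa using hj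
    exact line_inj hld (lt_of_lt_of_le hi' hnl) (lt_of_lt_of_le hj' hnl) h
  have hu : ∀ i ∈ range n, IsUnit (p i) := fun i hi =>
    (ZMod.isUnit_iff_coprime _ m).mpr (hb i (mem_range.mp hi))
  have hnu : ∀ z : ℕ, l ∣ z → ¬ IsUnit ((z : ℕ) : ZMod m) := by
    intro z hz h
    rw [ZMod.isUnit_iff_coprime] at h
    have := Nat.dvd_gcd hz hlm
    rw [h] at this
    exact hl.one_lt.ne' (Nat.dvd_one.mp this)
  have hdis : ∀ i ∈ range n, ∀ j ∈ range n, p i ≠ - p j := by
    intro i0 hi0 j0 hj0 h0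
    have hi0' := mem_range.mp hi0
    have hj0' := mem_range.mp hj0
    let σ : ℕ → ℕ := fun i => (i0 + j0 + (l - i)) % l
    have hσ : ∀ i < l, p (σ i) = - p i := by
      intro i hi
      have h1 : ((b + i0 * d : ℕ) : ZMod m) + ((b + j0 * d : ℕ) : ZMod m) = 0 := by
        have : p i0 + p j0 = 0 := by rw [h0]; ring
        exact this
      have h2 : ((σ i * d : ℕ) : ZMod m) = (((i0 + j0 + (l - i)) * d : ℕ) : ZMod m) := by
        rw [ZMod.natCast_eq_natCast_iff]
        have h2 : σ i * d ≡ (i0 + j0 + (l - i)) * d [MOD l * d] :=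
          Nat.ModEq.mul_right' d (Nat.mod_modEq _ _)
        rwa [hld] at h2
      have h3 : ((l - i : ℕ) : ZMod m) = (l : ZMod m) - i := by
        rw [Nat.cast_sub hi.le]
      have h4 : (l : ZMod m) * (d : ZMod m) = 0 := by
        rw [← Nat.cast_mul, hld, ZMod.natCast_self]
      change ((b + σ i * d : ℕ) : ZMod m) = - ((b + i * d : ℕ) : ZMod m)
      rw [Nat.cast_add, h2]
      push_cast at h1 ⊢
      rw [h3]
      linear_combination h1 + h4
    have hσn : ∀ i < n, σ i < n := by
      intro i hi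
      have h1 : σ i < l := Nat.mod_lt _ hl.pos
      by_cases hll : l * l ∣ m
      · rw [hn, sz, if_pos hll]; exact h1
      · rw [hn, sz, if_neg hll]
        rw [hn, sz, if_neg hll] at hi
        by_contra hcon
        have h2 : σ i = l - 1 := by omega
        have h3 := hσ i (by omega)
        have h4 : IsUnit (p (σ i)) := by
          rw [h3]
          exact (hu i (by rw [mem_range, hn, sz, if_neg hll]; exact hi)).neg
        rw [h2] at h4
        exact hnu _ (hcd.2 hll) h4
    have hmaps : ∀ i ∈ A, σ i ∈ (range n) \ A := by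
      intro i hi
      rw [hA, mem_filter, mem_range] at hi
      rw [mem_sdiff, mem_range, hA, mem_filter]
      refine ⟨hσn i hi.1, fun h => ?_⟩
      have h1 := h.2
      rw [hσ i (by omega), od_neg] at h1
      have := hi.2
      have h5 : e * - od y (p i) = - (e * od y (p i)) := by ring
      omega
    have hinjσ : Set.InjOn σ (A : Set ℕ) := by
      intro i hi j hj h
      have hi' : i ∈ range n := mem_of_mem_filter i hi
      have hj' : j ∈ range n := mem_of_mem_filter j hj
      have h1 := hσ i (by rw [mem_range] at hi'; omega)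
      have h2 := hσ j (by rw [mem_range] at hj'; omega)
      rw [h, h2] at h1
      exact (hinj (by simpa using hj') (by simpa using hi') (neg_injective h1)).symm
    have hsub : A ⊆ range n := filter_subset _ _
    have h1 := card_le_card_of_injOn σ hmaps hinjσ
    rw [card_sdiff_of_subset hsub, card_range] at h1
    have h2 := card_le_card hsub
    rw [card_range] at h2
    omega
  have hgain : ∑ i ∈ range n, (|od y (p i)| - |od y (p i) - e|) = 2 * A.card - n := by
    rw [sum_congr rfl fun i _ => abs_gain he, sum_ite, sum_const, sum_const]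
    have h1 : ((range n).filter (fun i => ¬ 0 < e * od y (p i))).card = n - A.card := by
      have := Finset.card_filter_add_card_filter_not (s := range n) (fun i => 0 < e * od y (p i))
      rw [card_range, ← hA] at this
      omega
    have h2 : A.card ≤ n := by
      have := card_le_card (filter_subset (fun i => 0 < e * od y (p i)) (range n))
      rwa [card_range] at this
    rw [h1, ← hA]
    simp only [nsmul_eq_mul, mul_one]
    rw [Nat.cast_sub h2]
    ring
  have hdist : ∀ (Q : Type) [AddCommGroup Q] (c : ZMod m → Q), OddDist c →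
      ∑ i ∈ range l, c (p i) = c ((l * b : ℕ) : ZMod m) := by
    intro Q _ c hc
    have h1 := hc.dist l d hl hld (b : ZMod m)
    rw [Nat.cast_mul, ← h1]
    refine sum_congr rfl fun i _ => ?_
    simp only [p]
    push_cast; rfl
  by_cases hll : l * l ∣ m
  · have hnl' : n = l := by rw [hn, sz, if_pos hll]
    apply replace (range n) ({0} : Finset ℕ) p (fun _ => e) (fun _ => ((l * b : ℕ) : ZMod m))
      (fun _ => e) y
    · intro Q _ c hc
      rw [sum_singleton, ← smul_sum, hnl', hdist Q c hc]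
    · exact hinj
    · exact hu
    · exact hdis
    · intro k _
      exact hnu _ (dvd_mul_right l b)
    · rw [hgain, sum_singleton]
      have : |e| = 1 := by rcases he with rfl | rfl <;> rfl
      rw [this]
      omega
    · rw [hgain]; omega
  · have hnl' : n = l - 1 := by rw [hn, sz, if_neg hll]
    have hl2 : l ≠ 2 := by
      rintro rfl
      exact hll (h4 hlm)
    have hlodd : l % 2 = 1 := by
      rcases hl.eq_two_or_odd with h | h
      · exact absurd h hl2
      · exact h
    apply replace (range n) (range 2) p (fun _ => e)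
      (fun k => if k = 0 then ((l * b : ℕ) : ZMod m) else p (l - 1))
      (fun k => if k = 0 then e else -e) y
    · intro Q _ c hc
      rw [sum_range_succ, sum_range_one]
      simp only [if_true, one_ne_zero, if_false]
      rw [← hdist Q c hc, ← smul_sum]
      have : range l = range (n + 1) := by
        congr 1
        have := hl.pos
        omega
      rw [this, sum_range_succ, smul_add, ← hnl', neg_smul]
      abel
    · exact hinj
    · exact hu
    · exact hdis
    · intro k _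
      split_ifs
      · exact hnu _ (dvd_mul_right l b)
      · exact hnu _ (hcd.2 hll)
    · rw [hgain, sum_range_succ, sum_range_one]
      simp only [if_true, one_ne_zero, if_false]
      have : |e| = 1 := by rcases he with rfl | rfl <;> rfl
      rw [abs_neg, this]
      omega
    · rw [hgain]; omega

/-- The conditions on pairs of primes: `P1` against `P1` and `P2`. -/
def Pairs (m : ℕ) (P1 P2 : List ℕ) (N : ℤ) : Prop :=
  ∀ p ∈ P1, ∀ q ∈ P1 ++ P2, p ≠ q → 2 * N < (sz m p : ℤ) * sz m q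

lemma sz_pos {l : ℕ} (hl : l.Prime) (hlm : l ∣ m) (h4 : 2 ∣ m → 4 ∣ m) : 0 < sz m l := by
  unfold sz
  split_ifs with h
  · exact hl.pos
  · have : l ≠ 2 := by
      rintro rfl
      exact h (h4 hlm)
    have := hl.two_le
    omega

lemma Pw_of_pairs (P2 : List ℕ) (N : ℤ) : ∀ (P1 : List ℕ), (P1 ++ P2).Nodup →
    (∀ l ∈ P1, 0 < sz m l) → Pairs m P1 P2 N → Pw (P1.map (sz m)) (P2.map (sz m)) N
  | [], _, _, _ => trivial
  | l :: P1, hnd, hpos, h => by
    rw [List.cons_append, List.nodup_cons] at hnd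
    refine ⟨hpos l (by simp), ?_, ?_⟩
    · intro b hb
      rw [← List.map_append, List.mem_map] at hb
      obtain ⟨q, hq, rfl⟩ := hb
      exact h l (by simp) q (by simp at hq ⊢; tauto) (fun h' => hnd.1 (h' ▸ hq))
    · apply Pw_of_pairs P2 N P1 hnd.2 (fun l hl => hpos l (by simp [hl]))
      intro p hp q hq hpq
      exact h p (by simp [hp]) q (by simp at hq ⊢; tauto) hpq

lemma um_nonneg (y : ZMod m → ℤ) : 0 ≤ um y := by
  unfold um
  apply sum_nonneg
  intro z _
  split_ifs
  · exact abs_nonneg _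
  · exact le_rfl

/-- Iteration of the steps. -/
theorem iterate {N : ℤ} (hstep : ∀ y : ZMod m → ℤ, Orth y → nm y ≤ N →
      (∃ z, IsUnit z ∧ od y z ≠ 0) → ∃ y' : ZMod m → ℤ, Eqv y y' ∧ nm y' ≤ nm y ∧ um y' < um y) :
    ∀ (k : ℕ) (y : ZMod m → ℤ), (um y).toNat = k → Orth y → nm y ≤ N →
      ∃ y' : ZMod m → ℤ, Eqv y y' ∧ nm y' ≤ nm y ∧ ∀ z, IsUnit z → od y' z = 0 := by
  intro k
  induction k using Nat.strong_induction_on with
  | _ k ih =>
  intro y hk ho hN
  by_cases h : ∃ z, IsUnit z ∧ od y z ≠ 0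
  · obtain ⟨y1, h1, h2, h3⟩ := hstep y ho hN h
    have h4 := um_nonneg y1
    obtain ⟨y2, h5, h6, h7⟩ := ih (um y1).toNat (by omega) y1 rfl (h1.orth ho) (h2.trans hN)
    exact ⟨y2, h1.trans h5, h6.trans h2, h7⟩
  · push Not at h
    exact ⟨y, Eqv.refl y, le_rfl, h⟩

/-- The box as a finite set. -/
def bxs : List ℕ → Finset (List ℕ)
  | [] => {[]}
  | n :: L => (range n ×ˢ bxs L).image (fun q => q.1 :: q.2)

lemma mem_bxs : ∀ (L : List ℕ) (v : List ℕ), v ∈ bxs L ↔ bx L v
  | [], v => by simp [bxs, bx]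
  | n :: L, v => by
    simp only [bxs, bx, mem_image, mem_product, mem_range, Prod.exists]
    constructor
    · rintro ⟨i, w, ⟨hi, hw⟩, rfl⟩
      exact ⟨i, hi, w, (mem_bxs L w).mp hw, rfl⟩
    · rintro ⟨i, hi, w, hw, rfl⟩
      exact ⟨i, w, ⟨hi, (mem_bxs L w).mpr hw⟩, rfl⟩

lemma nrm_eq : ∀ (L : List ℕ) (F : List ℕ → ℤ), nrm L F = ∑ v ∈ bxs L, |F v|
  | [], F => by simp [bxs, nrm]
  | n :: L, F => by
    simp only [bxs, nrm]
    rw [sum_image, sum_product]
    · exact sum_congr rfl fun i _ => nrm_eq L _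
    · rintro ⟨i, v⟩ _ ⟨j, w⟩ _ h
      simp only [List.cons.injEq] at h
      exact Prod.ext h.1 h.2

lemma pt_mod_pow {l : ℕ} (hl : l.Prime) : ∀ (P : List ℕ), (∀ q ∈ P, q.Prime ∧ q ∣ m) → l ∉ P →
    ∀ (a : ℕ) (v : List ℕ), pt m P a v ≡ a [MOD l ^ (m.factorization l)]
  | [], _, _, a, v => by simp [pt, Nat.ModEq]
  | q :: P, _, _, a, [] => by simp [pt, Nat.ModEq]
  | q :: P, hP, hlP, a, i :: v => by
    simp only [pt]
    have hq := hP q (by simp)
    have hne : l ≠ q := fun h => hlP (by simp [h])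
    have h1 := pt_mod_pow hl P (fun q hq => hP q (by simp [hq])) (fun h => hlP (by simp [h]))
      (a + i * (m / q)) v
    refine h1.trans ?_
    have h2 : l ^ (m.factorization l) ∣ m / q := by
      have hc : Nat.Coprime (l ^ (m.factorization l)) q :=
        Nat.Coprime.pow_left _ ((Nat.coprime_primes hl hq.1).mpr hne)
      apply hc.dvd_of_dvd_mul_left
      rw [Nat.mul_div_cancel' hq.2]
      exact Nat.ordProj_dvd m l
    have h3 : i * (m / q) ≡ 0 [MOD l ^ (m.factorization l)] :=
      (Nat.modEq_zero_iff_dvd).mpr (h2.mul_left i)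
    simpa using Nat.ModEq.add_left a h3

lemma pt_inj : ∀ (P : List ℕ), (∀ q ∈ P, q.Prime ∧ q ∣ m) → P.Nodup → ∀ (a a' : ℕ)
    (v w : List ℕ), bx (P.map (sz m)) v → bx (P.map (sz m)) w → a ≡ a' [MOD m] →
    pt m P a v ≡ pt m P a' w [MOD m] → v = w
  | [], _, _, a, a', v, w, hv, hw, _, _ => by
    have h1 : v = [] := hv
    have h2 : w = [] := hw
    rw [h1, h2]
  | l :: P, hP, hnd, a, a', v, w, hv, hw, haa, h => by
    obtain ⟨i, hi, v, hv, rfl⟩ := hv
    obtain ⟨j, hj, w, hw, rfl⟩ := hw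
    have hl := hP l (by simp)
    have hnd' := List.nodup_cons.mp hnd
    have hP' : ∀ q ∈ P, q.Prime ∧ q ∣ m := fun q hq => hP q (by simp [hq])
    simp only [pt] at h
    have hm := NeZero.ne m
    have hf : 0 < m.factorization l := hl.1.factorization_pos_of_dvd hm hl.2
    have hdvd : l ^ (m.factorization l) ∣ m := Nat.ordProj_dvd m l
    have h1 := pt_mod_pow hl.1 P hP' hnd'.1 (a + i * (m / l)) v
    have h2 := pt_mod_pow hl.1 P hP' hnd'.1 (a' + j * (m / l)) w
    have h3 : a + i * (m / l) ≡ a' + j * (m / l) [MOD l ^ (m.factorization l)] :=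
      h1.symm.trans ((h.of_dvd hdvd).trans h2)
    have h4 : i * (m / l) ≡ j * (m / l) [MOD l ^ (m.factorization l)] :=
      Nat.ModEq.add_left_cancel (haa.of_dvd hdvd) h3
    have hij : i = j := by
      obtain ⟨e, he⟩ : ∃ e, m.factorization l = e + 1 := ⟨m.factorization l - 1, by omega⟩
      set u := m / l ^ (m.factorization l) with hu
      have hmu : l ^ (e + 1) * u = m := by
        rw [← he]; exact Nat.ordProj_mul_ordCompl_eq_self m l
      have hlu : ¬ l ∣ u := Nat.not_dvd_ordCompl hl.1 hm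
      have hml : m / l = l ^ e * u := by
        rw [← hmu, pow_succ', mul_assoc, Nat.mul_div_cancel_left _ hl.1.pos]
      rw [hml, he] at h4
      have h5 : l ^ e * (i * u) ≡ l ^ e * (j * u) [MOD l ^ e * l] := by
        rw [show l ^ e * (i * u) = i * (l ^ e * u) by ring,
          show l ^ e * (j * u) = j * (l ^ e * u) by ring, ← pow_succ]
        exact h4
      have h6 : i * u ≡ j * u [MOD l] :=
        Nat.ModEq.mul_left_cancel' (pow_pos hl.1.pos e).ne' h5
      have h7 : i ≡ j [MOD l] :=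
        Nat.ModEq.cancel_right_of_coprime ((Nat.Prime.coprime_iff_not_dvd hl.1).mpr hlu) h6
      exact Nat.ModEq.eq_of_lt_of_lt h7 (lt_of_lt_of_le hi (sz_le m l))
        (lt_of_lt_of_le hj (sz_le m l))
    subst hij
    rw [pt_inj P hP' hnd'.2 _ _ v w hv hw (haa.add_right _) h]

lemma nrm_le_nm {P : List ℕ} (hP : ∀ q ∈ P, q.Prime ∧ q ∣ m) (hnd : P.Nodup) (y : ZMod m → ℤ)
    (a : ℕ) : nrm (P.map (sz m)) (fun v => od y ((pt m P a v : ℕ) : ZMod m)) ≤ nm y := by
  classical
  rw [nrm_eq]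
  have hinj : Set.InjOn (fun v => ((pt m P a v : ℕ) : ZMod m)) (bxs (P.map (sz m)) : Set _) := by
    intro v hv w hw h
    exact pt_inj P hP hnd a a v w ((mem_bxs _ _).mp (by simpa using hv))
      ((mem_bxs _ _).mp (by simpa using hw)) (Nat.ModEq.refl _)
      ((ZMod.natCast_eq_natCast_iff _ _ _).mp h)
  rw [← sum_image (f := fun z => |od y z|) (g := fun v => ((pt m P a v : ℕ) : ZMod m)) hinj]
  unfold nm
  exact sum_le_sum_of_subset_of_nonneg (subset_univ _) fun _ _ _ => abs_nonneg _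

lemma bx_append : ∀ (L1 L2 v : List ℕ), bx (L1 ++ L2) v →
    ∃ v1 v2, bx L1 v1 ∧ bx L2 v2 ∧ v = v1 ++ v2
  | [], L2, v, h => ⟨[], v, rfl, h, rfl⟩
  | n :: L1, L2, v, h => by
    obtain ⟨i, hi, w, hw, rfl⟩ := h
    obtain ⟨v1, v2, h1, h2, rfl⟩ := bx_append L1 L2 w hw
    exact ⟨i :: v1, v2, ⟨i, hi, v1, h1, rfl⟩, h2, rfl⟩

lemma pt_append (P2 : List ℕ) : ∀ (P1 : List ℕ) (a : ℕ) (v w : List ℕ), bx (P1.map (sz m)) v →
    pt m (P1 ++ P2) a (v ++ w) = pt m P2 (pt m P1 a v) w
  | [], a, v, w, h => by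
    have : v = [] := h
    rw [this]; rfl
  | l :: P1, a, v, w, h => by
    obtain ⟨i, hi, v, hv, rfl⟩ := h
    simp only [List.cons_append, pt]
    exact pt_append P2 P1 _ v w hv

lemma GB_pt (P2 : List ℕ) : ∀ (P1 : List ℕ), (∀ l ∈ P1 ++ P2, l.Prime ∧ l ∣ m) →
    (P1 ++ P2).Nodup → ∀ (a : ℕ), GB m (P1 ++ P2) a → ∀ v, bx (P1.map (sz m)) v →
    GB m P2 (pt m P1 a v)
  | [], _, _, a, h, v, _ => by simpa [pt] using h
  | l :: P1, hP, hnd, a, h, v, hv => by
    obtain ⟨i, hi, v, hv, rfl⟩ := hv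
    have hl := hP l (by simp)
    rw [List.cons_append, List.nodup_cons] at hnd
    simp only [pt]
    exact GB_pt P2 P1 (fun l hl => hP l (by simp at hl ⊢; tauto)) hnd.2 _
      (GB_step (NeZero.ne m) (P := P1 ++ P2) hl.1 hl.2 hnd.1 h hi) v hv

/-- Either there is a step or the differences in the last directions vanish on some grid with a
nonzero value. -/
theorem step_or {P1 P2 : List ℕ} (hP : ∀ l ∈ P1 ++ P2, l.Prime ∧ l ∣ m)
    (hall : ∀ p, p.Prime → p ∣ m → p ∈ P1 ++ P2) (hnd : (P1 ++ P2).Nodup) (h4 : 2 ∣ m → 4 ∣ m)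
    {y : ZMod m → ℤ} (ho : Orth y) (hpairs : Pairs m P1 P2 (nm y)) {z : ZMod m} (hz : IsUnit z)
    (hne : od y z ≠ 0) :
    (∃ y' : ZMod m → ℤ, Eqv y y' ∧ nm y' ≤ nm y ∧ um y' < um y) ∨
    ∃ a, GB m P2 a ∧ VV (P2.map (sz m)) (fun w => od y ((pt m P2 a w : ℕ) : ZMod m)) ∧
      ¬ Zr (P2.map (sz m)) (fun w => od y ((pt m P2 a w : ℕ) : ZMod m)) := by
  have hm := NeZero.ne m
  have hr : Nat.Coprime z.val m := by
    have := (ZMod.isUnit_iff_coprime z.val m).mp (by rwa [ZMod.natCast_zmod_val])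
    exact this
  obtain ⟨a, v, hG, hv, hpt⟩ := exists_base hm hr (P1 ++ P2) hP hnd
  have hval : ((pt m (P1 ++ P2) a v : ℕ) : ZMod m) = z := by
    rw [(ZMod.natCast_eq_natCast_iff _ _ _).mpr hpt, ZMod.natCast_zmod_val]
  set F : List ℕ → ℤ := fun v => od y ((pt m (P1 ++ P2) a v : ℕ) : ZMod m) with hF
  have hV := VV_of_orth hP hall hnd ho hG
  have hN := nrm_le_nm hP hnd y a
  rw [List.map_append] at hV hN
  have hPw := Pw_mono _ _ _ _ hN (Pw_of_pairs P2 (nm y) P1 hnd
    (fun l hl => sz_pos (hP l (by simp [hl])).1 (hP l (by simp [hl])).2 h4) hpairs)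
  rcases lines_or_split _ _ _ hV hPw with h | h
  · right
    rw [List.map_append] at hv
    obtain ⟨v1, v2, h1, h2, rfl⟩ := bx_append _ _ _ hv
    have e : (fun w => od y ((pt m (P1 ++ P2) a (v1 ++ w) : ℕ) : ZMod m)) =
        fun w => od y ((pt m P2 (pt m P1 a v1) w : ℕ) : ZMod m) := by
      funext w
      rw [pt_append P2 P1 a v1 w h1]
    refine ⟨pt m P1 a v1, GB_pt P2 P1 hP hnd a hG v1 h1, ?_, ?_⟩
    · have h3 := h v1 h1
      rw [e] at h3
      exact h3
    · intro h3
      have h5 := Zr_apply _ _ h3 v2 h2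
      apply hne
      rw [← hval, pt_append P2 P1 a v1 v2 h1]
      exact h5
  · left
    obtain ⟨l, hl, b, h1, h2, h3⟩ := HM_line hm P2 (fun n => od y ((n : ℕ) : ZMod m)) P1 hP hnd a
      hG h
    have hlP := hP l (by simp [hl])
    exact line_step hlP.1 hlP.2 h4 h1 h2 y h3

/-- **Clearing the top level.** -/
theorem clear {P : List ℕ} (hP : ∀ l ∈ P, l.Prime ∧ l ∣ m) (hall : ∀ p, p.Prime → p ∣ m → p ∈ P)
    (hnd : P.Nodup) (h4 : 2 ∣ m → 4 ∣ m) {y : ZMod m → ℤ} (ho : Orth y)
    (hpairs : Pairs m P [] (nm y)) :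
    ∃ y' : ZMod m → ℤ, Eqv y y' ∧ nm y' ≤ nm y ∧ ∀ z, IsUnit z → od y' z = 0 := by
  refine iterate (N := nm y) ?_ _ y rfl ho le_rfl
  rintro y1 ho1 hN1 ⟨z, hz, hne⟩
  rcases step_or (P1 := P) (P2 := []) (by simpa using hP) (by simpa using hall) (by simpa using hnd)
    h4 ho1 (fun p hp q hq hpq => lt_of_le_of_lt (by linarith) (hpairs p hp q hq hpq)) hz hne with h | h
  · exact h
  · obtain ⟨a, _, h1, h2⟩ := h
    exact absurd h1 h2

end Run7.h919
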