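import Pool.Agent.Y2.TD
import Pool.Agent.Y2.Star

/-!
Functions which satisfy the distribution relations at some primes and vanish at the multiples of
others; the operator which adds the distribution relation at one prime.
-/

namespace Run7.h919

open Finset

/-- Functions modulo `M` with the distribution relations at the primes in `A`, which vanish at the
multiples of the primes in `V`. -/
structure WN (M : ℕ) (A V : ℕ → Prop) (C : ℕ → ℤ) : Prop where
  per : ∀ x y, x ≡ y [MOD M] → C x = C y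
  van : ∀ q, q.Prime → q ∣ M → V q → ∀ x, q ∣ x → C x = 0
  dist : ∀ q, q.Prime → q ∣ M → A q → ∀ n, ∑ i ∈ range q, C (n + i * (M / q)) = C (q * n)

lemma WN.mono {M : ℕ} {A V A' V' : ℕ → Prop} {C : ℕ → ℤ} (h : WN M A V C)
    (hA : ∀ q, q.Prime → q ∣ M → A' q → A q) (hV : ∀ q, q.Prime → q ∣ M → V' q → V q) :
    WN M A' V' C where
  per := h.per
  van := fun q hq hqM hv => h.van q hq hqM (hV q hq hqM hv)
  dist := fun q hq hqM ha => h.dist q hq hqM (hA q hq hqM ha)

/-- The operator at the prime `r`. -/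
def Tr (r M1 ρ : ℕ) (C : ℕ → ℤ) : ℕ → ℤ := fun n =>
  if r ∣ n then ∑ j ∈ range r, C (n / r + j * M1) else C n - C (ρ * n)

lemma Tr_mul {r M1 ρ : ℕ} (hr : 0 < r) (C : ℕ → ℤ) (n : ℕ) :
    Tr r M1 ρ C (r * n) = ∑ j ∈ range r, C (n + j * M1) := by
  unfold Tr
  rw [if_pos (dvd_mul_right r n), Nat.mul_div_cancel_left _ hr]

lemma Tr_sub {r M1 ρ : ℕ} (C D : ℕ → ℤ) (n : ℕ) :
    Tr r M1 ρ (fun n => C n - D n) n = Tr r M1 ρ C n - Tr r M1 ρ D n := by
  unfold Tr
  split_ifs
  · rw [sum_sub_distrib]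
  · ring

lemma coset_congr {r M1 : ℕ} (hr : 0 < r) {C : ℕ → ℤ}
    (hper : ∀ x y, x ≡ y [MOD r * M1] → C x = C y) {x x' : ℕ} (h : x ≡ x' [MOD M1]) :
    ∑ j ∈ range r, C (x + j * M1) = ∑ j ∈ range r, C (x' + j * M1) := by
  rcases le_total x x' with hle | hle
  · obtain ⟨t, ht⟩ := (Nat.modEq_iff_dvd' hle).mp h
    have e : x' = x + t * M1 := by rw [mul_comm t, ← ht]; omega
    rw [e]
    exact (Pool.Agent.Y2.coset_shift_mul (m := r * M1) hr rfl hper x t).symm
  · obtain ⟨t, ht⟩ := (Nat.modEq_iff_dvd' hle).mp h.symm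
    have e : x = x' + t * M1 := by rw [mul_comm t, ← ht]; omega
    rw [e]
    exact Pool.Agent.Y2.coset_shift_mul (m := r * M1) hr rfl hper x' t

lemma sum_range_prod (f : ℕ → ℤ) (a : ℕ) : ∀ b : ℕ,
    ∑ i ∈ range a, ∑ j ∈ range b, f (i + j * a) = ∑ t ∈ range (a * b), f t
  | 0 => by simp
  | b + 1 => by
    have h1 : ∀ i ∈ range a, ∑ j ∈ range (b + 1), f (i + j * a) =
        ∑ j ∈ range b, f (i + j * a) + f (i + b * a) := fun i _ => sum_range_succ _ _
    rw [sum_congr rfl h1, sum_add_distrib, sum_range_prod f a b, mul_add, mul_one,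
      Finset.sum_range_add]
    congr 1
    refine sum_congr rfl fun i _ => ?_
    congr 1; ring

lemma coprime_rho {r M1 ρ : ℕ} (h : r * ρ ≡ 1 [MOD M1]) {q : ℕ} (hq : q ∣ M1) : Nat.Coprime ρ q := by
  have h1 : Nat.Coprime (r * ρ) M1 := by
    rw [Nat.Coprime, h.gcd_eq]
    exact Nat.gcd_one_left _
  exact (Nat.Coprime.coprime_mul_left h1).coprime_dvd_right hq

lemma coprime_rho' {r ρ : ℕ} (h : ρ ≡ 1 [MOD r]) : Nat.Coprime ρ r := by
  rw [Nat.Coprime, h.gcd_eq]
  exact Nat.gcd_one_left _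

/-- exactly one element of a coset is divisible by `r` -/
lemma card_dvd {r M1 : ℕ} (hr : r.Prime) (hrM : ¬ r ∣ M1) (n : ℕ) :
    ((range r).filter (fun i => r ∣ n + i * M1)).card = 1 := by
  have h1 := Pool.Agent.Y2.card_not_dvd hr hrM n
  have h2 := Finset.card_filter_add_card_filter_not (s := range r) (fun i => r ∣ n + i * M1)
  rw [card_range, h1] at h2
  have := hr.two_le
  omega

/-- **The operator adds the distribution relation at `r`.** -/
theorem Tr_WN {r M1 ρ : ℕ} (hr : r.Prime) (hrM : ¬ r ∣ M1) (hM1 : M1 ≠ 0) (hρ1 : ρ ≡ 1 [MOD r])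
    (hρ2 : r * ρ ≡ 1 [MOD M1]) {A V : ℕ → Prop} {C : ℕ → ℤ} (h : WN (r * M1) A V C) (hV : V r) :
    WN (r * M1) (fun q => A q ∨ q = r) (fun q => V q ∧ q ≠ r) (Tr r M1 ρ C) := by
  have hrpos := hr.pos
  have hdiv : r * M1 / r = M1 := Nat.mul_div_cancel_left _ hrpos
  have hC0 : ∀ x, r ∣ x → C x = 0 := h.van r hr (dvd_mul_right r M1) hV
  constructor
  · intro x y hxy
    have h1 : r ∣ x ↔ r ∣ y := (hxy.of_dvd (dvd_mul_right r M1)).dvd_iff dvd_rfl
    unfold Tr
    by_cases hx : r ∣ x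
    · have hy := h1.mp hx
      rw [if_pos hx, if_pos hy]
      obtain ⟨a, rfl⟩ := hx
      obtain ⟨b, rfl⟩ := hy
      rw [Nat.mul_div_cancel_left _ hrpos, Nat.mul_div_cancel_left _ hrpos]
      exact coset_congr hrpos h.per (Nat.ModEq.mul_left_cancel' hrpos.ne' hxy)
    · have hy := fun h => hx (h1.mpr h)
      rw [if_neg hx, if_neg hy, h.per x y hxy, h.per (ρ * x) (ρ * y) (hxy.mul_left ρ)]
  · rintro q hq hqM ⟨hVq, hqr⟩ x hqx
    unfold Tr
    have hqM1 : q ∣ M1 := by
      rcases hq.dvd_mul.mp hqM with h | h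
      · exact absurd ((Nat.prime_dvd_prime_iff_eq hq hr).mp h) hqr
      · exact h
    split_ifs with hx
    · obtain ⟨a, rfl⟩ := hx
      have hqa : q ∣ a := by
        rcases hq.dvd_mul.mp hqx with h | h
        · exact absurd ((Nat.prime_dvd_prime_iff_eq hq hr).mp h) hqr
        · exact h
      rw [Nat.mul_div_cancel_left _ hrpos]
      exact sum_eq_zero fun j _ => h.van q hq hqM hVq _ (dvd_add hqa (hqM1.mul_left j))
    · rw [h.van q hq hqM hVq x hqx, h.van q hq hqM hVq _ (hqx.mul_left ρ), sub_zero]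
  · rintro q hq hqM hA n
    by_cases hqr : q = r
    · subst hqr
      rw [hdiv, Tr_mul hrpos]
      set S := ∑ j ∈ range q, C (ρ * n + j * M1) with hS
      have e1 : ∀ i ∈ range q, Tr q M1 ρ C (n + i * M1) =
          (if q ∣ n + i * M1 then S else 0) + (C (n + i * M1) - C (ρ * n + ρ * i * M1)) := by
        intro i _
        have e2 : ρ * (n + i * M1) = ρ * n + ρ * i * M1 := by ring
        unfold Tr
        by_cases hd : q ∣ n + i * M1
        · rw [if_pos hd, if_pos hd, hC0 _ hd, ← e2, hC0 _ (hd.mul_left ρ), sub_zero, add_zero, hS]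
          apply coset_congr hrpos h.per
          obtain ⟨b, hb⟩ := hd
          rw [hb, Nat.mul_div_cancel_left _ hrpos]
          have h0 : n + i * M1 ≡ n [MOD M1] := by
            have : n + i * M1 ≡ n + 0 [MOD M1] :=
              Nat.ModEq.add_left n ((Nat.modEq_zero_iff_dvd).mpr (dvd_mul_left M1 i))
            simpa using this
          have h2 : ρ * (q * b) ≡ ρ * n [MOD M1] := by rw [← hb]; exact h0.mul_left ρ
          have h3 : q * ρ * b ≡ b [MOD M1] := by simpa using hρ2.mul_right b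
          rw [show q * ρ * b = ρ * (q * b) by ring] at h3
          exact h3.symm.trans h2
        · rw [if_neg hd, if_neg hd, zero_add, e2]
      rw [sum_congr rfl e1, sum_add_distrib, sum_sub_distrib, sum_ite, sum_const, sum_const_zero,
        card_dvd hr hrM n, one_smul, add_zero,
        Pool.Agent.Y2.coset_mul (m := q * M1) hrpos rfl h.per (coprime_rho' hρ1) (ρ * n), ← hS]
      ring
    · have hAq : A q := hA.resolve_right hqr
      have hqM1 : q ∣ M1 := by
        rcases hq.dvd_mul.mp hqM with h | h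
        · exact absurd ((Nat.prime_dvd_prime_iff_eq hq hr).mp h) hqr
        · exact h
      have hdq : r * M1 / q = r * (M1 / q) := Nat.mul_div_assoc _ hqM1
      have hrd : r ∣ r * M1 / q := by rw [hdq]; exact dvd_mul_right r _
      have hqpos := hq.pos
      by_cases hn : r ∣ n
      · obtain ⟨a, rfl⟩ := hn
        have e1 : ∀ i ∈ range q, Tr r M1 ρ C (r * a + i * (r * M1 / q)) =
            ∑ j ∈ range r, C (a + i * (M1 / q) + j * M1) := by
          intro i _
          rw [hdq, show r * a + i * (r * (M1 / q)) = r * (a + i * (M1 / q)) by ring, Tr_mul hrpos]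
        rw [sum_congr rfl e1, show q * (r * a) = r * (q * a) by ring, Tr_mul hrpos]
        have hM : q * (M1 / q) = M1 := Nat.mul_div_cancel' hqM1
        set D := M1 / q with hD
        have e2 : ∑ i ∈ range q, ∑ j ∈ range r, C (a + i * D + j * M1) =
            ∑ t ∈ range (q * r), C (a + t * D) := by
          rw [← sum_range_prod (fun t => C (a + t * D)) q r]
          refine sum_congr rfl fun i _ => sum_congr rfl fun j _ => ?_
          congr 1
          rw [← hM]; ring
        have e3 : ∑ j ∈ range r, C (q * a + j * M1) = ∑ t ∈ range (q * r), C (a + t * D) := by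
          rw [mul_comm q r, ← sum_range_prod (fun t => C (a + t * D)) r q]
          refine sum_congr rfl fun j _ => ?_
          have h1 := h.dist q hq hqM hAq (a + j * D)
          rw [show q * a + j * M1 = q * (a + j * D) by rw [← hM]; ring, ← h1]
          refine sum_congr rfl fun i _ => ?_
          congr 1
          rw [hdq]; ring
        rw [e2, e3]
      · have hqn : ¬ r ∣ q * n := by
          intro h
          rcases hr.dvd_mul.mp h with h | h
          · exact hqr ((Nat.prime_dvd_prime_iff_eq hr hq).mp h).symm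
          · exact hn h
        have e1 : ∀ i ∈ range q, Tr r M1 ρ C (n + i * (r * M1 / q)) =
            C (n + i * (r * M1 / q)) - C (ρ * n + ρ * i * (r * M1 / q)) := by
          intro i _
          unfold Tr
          rw [if_neg (fun h => hn ((Nat.dvd_add_iff_left (hrd.mul_left i)).mpr h))]
          congr 2; ring
        have e2 : Tr r M1 ρ C (q * n) = C (q * n) - C (q * (ρ * n)) := by
          unfold Tr
          rw [if_neg hqn]
          congr 2; ring
        rw [sum_congr rfl e1, sum_sub_distrib, h.dist q hq hqM hAq n,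
          Pool.Agent.Y2.coset_mul (m := r * M1) hqpos (Nat.mul_div_cancel' hqM) h.per
            (coprime_rho hρ2 hqM1) (ρ * n), h.dist q hq hqM hAq (ρ * n), e2]

/-- The bound for a family. -/
theorem Tr_bd {r M1 ρ : ℕ} (hr : r.Prime) (hrM : ¬ r ∣ M1) {ι : Type} (s : Finset ι)
    (X : ι → ℕ → ℤ) {B : ℤ} (hX : ∀ i ∈ s, ∀ n, r ∣ n → X i n = 0)
    (hB : ∀ n, ∑ i ∈ s, |X i n| ≤ B) (n : ℕ) :
    ∑ i ∈ s, |Tr r M1 ρ (X i) n| ≤ (max 2 ((r : ℤ) - 1)) * B := by
  have hB0 : 0 ≤ B := le_trans (sum_nonneg fun _ _ => abs_nonneg _) (hB 0)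
  by_cases hn : r ∣ n
  · have h1 : ∀ i ∈ s, |Tr r M1 ρ (X i) n| ≤
        ∑ j ∈ (range r).filter (fun j => ¬ r ∣ n / r + j * M1), |X i (n / r + j * M1)| := by
      intro i hi
      unfold Tr
      rw [if_pos hn, ← Finset.sum_filter_add_sum_filter_not (range r)
        (fun j => r ∣ n / r + j * M1), sum_eq_zero (s := (range r).filter
        (fun j => r ∣ n / r + j * M1)) (fun j hj => hX i hi _ (mem_filter.mp hj).2), zero_add]
      exact abs_sum_le_sum_abs _ _
    refine (sum_le_sum h1).trans ?_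
    rw [sum_comm]
    have h2 : ∑ j ∈ (range r).filter (fun j => ¬ r ∣ n / r + j * M1),
        ∑ i ∈ s, |X i (n / r + j * M1)| ≤
        ((range r).filter (fun j => ¬ r ∣ n / r + j * M1)).card • B :=
      sum_le_card_nsmul _ _ _ fun j _ => hB _
    rw [Pool.Agent.Y2.card_not_dvd hr hrM] at h2
    refine h2.trans ?_
    rw [nsmul_eq_mul, Nat.cast_sub hr.one_le, Nat.cast_one]
    exact mul_le_mul_of_nonneg_right (le_max_right _ _) hB0
  · have h1 : ∀ i ∈ s, |Tr r M1 ρ (X i) n| ≤ |X i n| + |X i (ρ * n)| := by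
      intro i _
      unfold Tr
      rw [if_neg hn]
      exact abs_sub _ _
    refine (sum_le_sum h1).trans ?_
    rw [sum_add_distrib]
    have h2 := hB n
    have h3 := hB (ρ * n)
    have h4 : 2 * B ≤ (max 2 ((r : ℤ) - 1)) * B :=
      mul_le_mul_of_nonneg_right (le_max_left _ _) hB0
    linarith

/-- The support. -/
theorem Tr_sp {r M1 ρ k : ℕ} (hr : r.Prime) (hrM : ¬ r ∣ M1) (hM1 : M1 ≠ 0) (hρ1 : ρ ≡ 1 [MOD r])
    (hρ2 : r * ρ ≡ 1 [MOD M1]) {X : ℕ → ℤ} (hX : ∀ n, X n ≠ 0 → Nat.gcd n (r * M1) ∣ k)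
    (n : ℕ) (hn : Tr r M1 ρ X n ≠ 0) : Nat.gcd n (r * M1) ∣ r * k := by
  unfold Tr at hn
  split_ifs at hn with h
  · obtain ⟨a, rfl⟩ := h
    rw [Nat.mul_div_cancel_left _ hr.pos] at hn
    obtain ⟨j, _, hj⟩ := exists_ne_zero_of_sum_ne_zero hn
    have h1 := hX _ hj
    rw [Nat.gcd_mul_left]
    apply Nat.mul_dvd_mul_left
    refine dvd_trans ?_ h1
    have h2 : Nat.gcd (a + j * M1) M1 = Nat.gcd a M1 := Nat.gcd_add_mul_right_left M1 a j
    rw [← h2]
    exact Nat.dvd_gcd (Nat.gcd_dvd_left _ _) ((Nat.gcd_dvd_right _ _).mul_left r)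
  · have h1 : X n ≠ 0 ∨ X (ρ * n) ≠ 0 := by
      by_contra hcon
      push Not at hcon
      rw [hcon.1, hcon.2, sub_self] at hn
      exact hn rfl
    have hcop : Nat.Coprime ρ (r * M1) :=
      Nat.Coprime.mul_right (coprime_rho' hρ1) (coprime_rho hρ2 dvd_rfl)
    rcases h1 with h1 | h1
    · exact (hX n h1).mul_left r
    · have h2 := hX _ h1
      rw [Nat.Coprime.gcd_mul_left_cancel _ hcop] at h2
      exact h2.mul_left r

end Run7.h919
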