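import Pool.Agent.Run7.h919.Lp1

/-!
The extension operators.
-/

namespace Run7.h919

open Finset

/-- The operator which has added the distribution relations at the primes dividing `k`. -/
structure St (d K k : ℕ) (Op : (ℕ → ℤ) → ℕ → ℤ) (β : ℤ) : Prop where
  sub : ∀ C D n, Op (fun n => C n - D n) n = Op C n - Op D n
  wn : ∀ A V C, WN (d * K) A V C → (∀ q, q.Prime → q ∣ K → V q) →
    WN (d * K) (fun q => A q ∨ q ∣ k) (fun q => V q ∧ ¬ q ∣ k) (Op C)
  bd : ∀ (ι : Type) (s : Finset ι) (X : ι → ℕ → ℤ) (A V : ℕ → Prop) (B : ℤ),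
    (∀ i ∈ s, WN (d * K) A V (X i)) → (∀ q, q.Prime → q ∣ K → V q) →
    (∀ n, ∑ i ∈ s, |X i n| ≤ B) → ∀ n, ∑ i ∈ s, |Op (X i) n| ≤ β * B
  tr : ∀ (C : ℕ → ℤ) (t : ℕ), (∀ x y, x ≡ y [MOD d] → C x = C y) → ∀ n,
    Op (fun n => if n ≡ t [MOD K] then C n else 0) (k * n) = if n ≡ t [MOD K / k] then C n else 0
  sp : ∀ C, (∀ n, C n ≠ 0 → Nat.Coprime n (d * K)) → ∀ n, Op C n ≠ 0 → Nat.gcd n (d * K) ∣ k

lemma prime_dvd_one {q : ℕ} (hq : q.Prime) : ¬ q ∣ 1 := fun h =>
  hq.one_lt.ne' (Nat.dvd_one.mp h)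

lemma St.one (d K : ℕ) : St d K 1 (fun C => C) 1 where
  sub := fun _ _ _ => rfl
  wn := fun A V C h _ => h.mono (fun q hq _ h => h.resolve_right (prime_dvd_one hq))
    (fun q hq _ h => h.1)
  bd := fun ι s X A V B _ _ h n => by rw [one_mul]; exact h n
  tr := fun C t _ n => by rw [one_mul, Nat.div_one]
  sp := fun C h n hn => by
    have h1 := h n hn
    rw [Nat.dvd_one]
    exact h1

/-- exactly one element of the coset is congruent to `t` -/
lemma card_congr {r M1 : ℕ} (hr : r.Prime) (hrM : ¬ r ∣ M1) (n t : ℕ) :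
    ((range r).filter (fun i => n + i * M1 ≡ t [MOD r])).card = 1 := by
  have h := card_dvd hr hrM (n + (r - t % r))
  rw [← h]
  congr 1
  apply filter_congr
  intro i _
  have h1 : t % r < r := Nat.mod_lt _ hr.pos
  constructor
  · intro h2
    have h3 : (n + i * M1) + (r - t % r) ≡ t % r + (r - t % r) [MOD r] :=
      (h2.trans (Nat.mod_modEq t r).symm).add_right _
    rw [Nat.add_sub_cancel' h1.le] at h3
    have h4 : n + i * M1 + (r - t % r) ≡ 0 [MOD r] := h3.trans (by simp [Nat.ModEq])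
    rw [Nat.modEq_zero_iff_dvd] at h4
    rwa [show n + (r - t % r) + i * M1 = n + i * M1 + (r - t % r) by ring]
  · intro h2
    have h3 : n + i * M1 + (r - t % r) ≡ 0 [MOD r] := by
      rw [Nat.modEq_zero_iff_dvd]
      rwa [show n + i * M1 + (r - t % r) = n + (r - t % r) + i * M1 by ring]
    have h4 : n + i * M1 + (r - t % r) ≡ t + (r - t % r) [MOD r] := by
      refine h3.trans ?_
      have h5 : t + (r - t % r) ≡ t % r + (r - t % r) [MOD r] := (Nat.mod_modEq t r).symm.add_right _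
      rw [Nat.add_sub_cancel' h1.le] at h5
      exact (h5.trans (by simp [Nat.ModEq])).symm
    exact Nat.ModEq.add_right_cancel' _ h4

/-- **One more prime.** -/
theorem St.step {d K k r ρ M1 : ℕ} {Op : (ℕ → ℤ) → ℕ → ℤ} {β : ℤ} (h : St d K k Op β)
    (hr : r.Prime) (hM : r * M1 = d * K) (hrM : ¬ r ∣ M1) (hM1 : M1 ≠ 0) (hk : r * k ∣ K)
    (hrk : ¬ r ∣ k) (hρ1 : ρ ≡ 1 [MOD r]) (hρ2 : r * ρ ≡ 1 [MOD M1]) (hk0 : k ≠ 0) (hK0 : K ≠ 0) :
    St d K (r * k) (fun C => Tr r M1 ρ (Op C)) (max 2 ((r : ℤ) - 1) * β) where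
  sub := fun C D n => by
    have : Op (fun n => C n - D n) = fun n => Op C n - Op D n := funext fun n => h.sub C D n
    rw [this]
    exact Tr_sub _ _ n
  wn := fun A V C hC hV => by
    have h1 := h.wn A V C hC hV
    rw [← hM] at h1 ⊢
    have hVr : V r ∧ ¬ r ∣ k := ⟨hV r hr (dvd_trans (dvd_mul_right r k) hk), hrk⟩
    refine (Tr_WN hr hrM hM1 hρ1 hρ2 h1 hVr).mono ?_ ?_
    · rintro q hq _ (ha | ha)
      · exact Or.inl (Or.inl ha)
      · rcases hq.dvd_mul.mp ha with h2 | h2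
        · exact Or.inr ((Nat.prime_dvd_prime_iff_eq hq hr).mp h2)
        · exact Or.inl (Or.inr h2)
    · rintro q hq _ ⟨hv, hn⟩
      exact ⟨⟨hv, fun h2 => hn (h2.mul_left r)⟩, fun h2 => hn (h2 ▸ dvd_mul_right r k)⟩
  bd := fun ι s X A V B hX hV hB n => by
    have h1 := h.bd ι s X A V B hX hV hB
    have h2 := Tr_bd (r := r) (M1 := M1) (ρ := ρ) hr hrM s (fun i => Op (X i)) (fun i hi n hn => by
      have h3 := h.wn A V (X i) (hX i hi) hV
      exact h3.van r hr (by rw [← hM]; exact dvd_mul_right r M1)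
        ⟨hV r hr (dvd_trans (dvd_mul_right r k) hk), hrk⟩ n hn) h1 n
    rw [mul_assoc]
    exact h2
  tr := fun C t hC n => by
    obtain ⟨k'', hk''⟩ := hk
    have hk''0 : k'' ≠ 0 := by rintro rfl; rw [mul_zero] at hk''; exact hK0 hk''
    have hrpos := hr.pos
    have hKk : K / k = r * k'' := by
      rw [hk'', show r * k * k'' = k * (r * k'') by ring, Nat.mul_div_cancel_left _
        (Nat.pos_of_ne_zero hk0)]
    have hKrk : K / (r * k) = k'' := by
      rw [hk'', Nat.mul_div_cancel_left _ (Nat.mul_pos hrpos (Nat.pos_of_ne_zero hk0))]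
    have hM1' : M1 = k * (d * k'') := by
      have : r * M1 = r * (k * (d * k'')) := by rw [hM, hk'']; ring
      exact Nat.eq_of_mul_eq_mul_left hrpos this
    have hrd : ¬ r ∣ d * k'' := fun h => hrM (by rw [hM1']; exact h.mul_left k)
    rw [mul_assoc, Tr_mul hrpos, hKrk]
    have e1 : ∀ j ∈ range r, Op (fun n => if n ≡ t [MOD K] then C n else 0) (k * n + j * M1) =
        if n + j * (d * k'') ≡ t [MOD r * k''] then C n else 0 := by
      intro j _
      rw [hM1', show k * n + j * (k * (d * k'')) = k * (n + j * (d * k'')) by ring,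
        h.tr C t hC, hKk]
      have : C (n + j * (d * k'')) = C n := by
        apply hC
        have : n + j * (d * k'') ≡ n + 0 [MOD d] :=
          Nat.ModEq.add_left n ((Nat.modEq_zero_iff_dvd).mpr ((dvd_mul_right d k'').mul_left j))
        simpa using this
      rw [this]
    rw [sum_congr rfl e1]
    have hc : Nat.Coprime r k'' := (Nat.Prime.coprime_iff_not_dvd hr).mpr fun h =>
      hrd (h.mul_left d)
    have h0 : ∀ j, n + j * (d * k'') ≡ n [MOD k''] := by
      intro j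
      have : n + j * (d * k'') ≡ n + 0 [MOD k''] :=
        Nat.ModEq.add_left n ((Nat.modEq_zero_iff_dvd).mpr ((dvd_mul_left k'' d).mul_left j))
      simpa using this
    by_cases hn : n ≡ t [MOD k'']
    · rw [if_pos hn]
      have e2 : ∀ j ∈ range r, (if n + j * (d * k'') ≡ t [MOD r * k''] then C n else 0) =
          if n + j * (d * k'') ≡ t [MOD r] then C n else 0 := by
        intro j _
        have : (n + j * (d * k'') ≡ t [MOD r * k'']) ↔ (n + j * (d * k'') ≡ t [MOD r]) := by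
          constructor
          · intro h; exact h.of_dvd (dvd_mul_right r k'')
          · intro h
            exact (Nat.modEq_and_modEq_iff_modEq_mul hc).mp ⟨h, (h0 j).trans hn⟩
        simp only [this]
      rw [sum_congr rfl e2, sum_ite, sum_const, sum_const_zero, card_congr hr hrd n t]
      simp
    · rw [if_neg hn]
      apply sum_eq_zero
      intro j _
      rw [if_neg]
      intro h
      exact hn ((h0 j).symm.trans (h.of_dvd (dvd_mul_left k'' r)))
  sp := fun C hC n hn => by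
    have h1 := h.sp C hC
    rw [← hM] at h1 ⊢
    exact Tr_sp hr hrM hM1 hρ1 hρ2 h1 n hn

lemma exists_rho {r M1 : ℕ} (hr : r.Prime) (hrM : ¬ r ∣ M1) (hM1 : M1 ≠ 0) :
    ∃ ρ, ρ ≡ 1 [MOD r] ∧ r * ρ ≡ 1 [MOD M1] := by
  have hcop : Nat.Coprime r M1 := (Nat.Prime.coprime_iff_not_dvd hr).mpr hrM
  have hM : NeZero M1 := ⟨hM1⟩
  obtain ⟨u, hu⟩ : ∃ u, r * u ≡ 1 [MOD M1] := by
    refine ⟨((r : ZMod M1)⁻¹).val, ?_⟩
    rw [← ZMod.natCast_eq_natCast_iff]
    push_cast
    rw [ZMod.natCast_zmod_val]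
    exact ZMod.coe_mul_inv_eq_one r hcop
  obtain ⟨ρ, h1, h2⟩ := Nat.chineseRemainder hcop 1 u
  exact ⟨ρ, h1, (h2.mul_left r).trans hu⟩

/-- All the primes of a squarefree number prime to `d`. -/
theorem St.all {d : ℕ} (hd : d ≠ 0) (R : Finset ℕ) (hR : ∀ r ∈ R, r.Prime ∧ ¬ r ∣ d) :
    ∃ Op, St d (∏ r ∈ R, r) (∏ r ∈ R, r) Op (∏ r ∈ R, max 2 ((r : ℤ) - 1)) := by
  classical
  suffices h : ∀ S : Finset ℕ, S ⊆ R →
      ∃ Op, St d (∏ r ∈ R, r) (∏ r ∈ S, r) Op (∏ r ∈ S, max 2 ((r : ℤ) - 1)) from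
    h R (Subset.refl R)
  have hK0 : ∏ r ∈ R, r ≠ 0 := prod_ne_zero_iff.mpr fun r hr => (hR r hr).1.ne_zero
  intro S
  induction S using Finset.induction_on with
  | empty =>
    intro _
    rw [prod_empty, prod_empty]
    exact ⟨_, St.one d _⟩
  | insert r S hrS ih =>
    intro hS
    obtain ⟨Op, hOp⟩ := ih (fun x hx => hS (mem_insert_of_mem hx))
    have hrR := hS (mem_insert_self r S)
    obtain ⟨hr, hrd⟩ := hR r hrR
    have hnd : ∀ T : Finset ℕ, T ⊆ R → r ∉ T → ¬ r ∣ ∏ x ∈ T, x := by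
      intro T hT hrT h
      obtain ⟨x, hx, hrx⟩ := (hr.prime.dvd_finsetProd_iff _).mp h
      exact hrT (((Nat.prime_dvd_prime_iff_eq hr (hR x (hT hx)).1).mp hrx) ▸ hx)
    have hK : r * ∏ x ∈ R.erase r, x = ∏ x ∈ R, x := mul_prod_erase R (fun x => x) hrR
    have hM : r * (d * ∏ x ∈ R.erase r, x) = d * ∏ x ∈ R, x := by rw [← hK]; ring
    have hrM : ¬ r ∣ d * ∏ x ∈ R.erase r, x := by
      intro h
      rcases hr.dvd_mul.mp h with h | h
      · exact hrd h
      · exact hnd _ (erase_subset _ _) (notMem_erase r R) h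
    have hM1 : d * ∏ x ∈ R.erase r, x ≠ 0 := by
      intro h; rw [h, mul_zero] at hM
      exact (Nat.mul_ne_zero hd hK0) hM.symm
    obtain ⟨ρ, hρ1, hρ2⟩ := exists_rho hr hrM hM1
    have hk : r * ∏ x ∈ S, x ∣ ∏ x ∈ R, x := by
      have h1 := prod_insert (f := fun x => x) hrS
      rw [← h1]
      exact prod_dvd_prod_of_subset _ _ _ hS
    rw [prod_insert hrS, prod_insert hrS]
    exact ⟨_, hOp.step hr hM hrM hM1 hk (hnd S (fun x hx => hS (mem_insert_of_mem hx)) hrS) hρ1 hρ2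
      (prod_ne_zero_iff.mpr fun x hx => (hR x (hS (mem_insert_of_mem hx))).1.ne_zero) hK0⟩

/-- the ramified extension -/
def Rm (q : ℕ) (C : ℕ → ℤ) : ℕ → ℤ := fun n => if q ∣ n then (q : ℤ) * C (n / q) else C n

lemma Rm_WN {q M : ℕ} (hq : q.Prime) (hqM : q ∣ M) {A V : ℕ → Prop} {C : ℕ → ℤ} (h : WN M A V C)
    (hA : A q) (hV : ¬ V q) : WN (q * M) A V (Rm q C) := by
  have hqq := hq.pos
  constructor
  · intro x y hxy
    have h1 : q ∣ x ↔ q ∣ y := (hxy.of_dvd (dvd_mul_right q M)).dvd_iff dvd_rfl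
    unfold Rm
    by_cases hx : q ∣ x
    · have hy := h1.mp hx
      simp only [if_pos hx, if_pos hy]
      obtain ⟨a, rfl⟩ := hx
      obtain ⟨b, rfl⟩ := hy
      rw [Nat.mul_div_cancel_left _ hqq, Nat.mul_div_cancel_left _ hqq,
        h.per a b (Nat.ModEq.mul_left_cancel' hqq.ne' hxy)]
    · have hy := fun h => hx (h1.mpr h)
      simp only [if_neg hx, if_neg hy]
      exact h.per x y (hxy.of_dvd (dvd_mul_left M q))
  · intro s hs hsM hVs x hsx
    have hsq : s ≠ q := fun h => hV (h ▸ hVs)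
    have hsM' : s ∣ M := by
      rcases hs.dvd_mul.mp hsM with h | h
      · exact absurd ((Nat.prime_dvd_prime_iff_eq hs hq).mp h) hsq
      · exact h
    unfold Rm
    split_ifs with hx
    · obtain ⟨a, rfl⟩ := hx
      rw [Nat.mul_div_cancel_left _ hqq, h.van s hs hsM' hVs, mul_zero]
      rcases hs.dvd_mul.mp hsx with h | h
      · exact absurd ((Nat.prime_dvd_prime_iff_eq hs hq).mp h) hsq
      · exact h
    · exact h.van s hs hsM' hVs x hsx
  · intro s hs hsM hAs n
    unfold Rm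
    by_cases hsq : s = q
    · subst hsq
      rw [Nat.mul_div_cancel_left _ hqq]
      have e1 : (if s ∣ s * n then (s : ℤ) * C (s * n / s) else C (s * n)) = s * C n := by
        rw [if_pos (dvd_mul_right s n), Nat.mul_div_cancel_left _ hqq]
      rw [e1]
      by_cases hn : s ∣ n
      · obtain ⟨a, rfl⟩ := hn
        obtain ⟨m', rfl⟩ := hqM
        have e2 : ∀ i ∈ range s, (if s ∣ s * a + i * (s * m') then
            (s : ℤ) * C ((s * a + i * (s * m')) / s) else C (s * a + i * (s * m'))) =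
            s * C (a + i * m') := by
          intro i _
          rw [show s * a + i * (s * m') = s * (a + i * m') by ring, if_pos (dvd_mul_right _ _),
            Nat.mul_div_cancel_left _ hqq]
        rw [sum_congr rfl e2, ← mul_sum]
        have h3 := h.dist s hq (dvd_mul_right s m') hA a
        rw [Nat.mul_div_cancel_left _ hqq] at h3
        rw [h3]
      · have e2 : ∀ i ∈ range s, (if s ∣ n + i * M then
            (s : ℤ) * C ((n + i * M) / s) else C (n + i * M)) = C n := by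
          intro i _
          rw [if_neg (fun h => hn ((Nat.dvd_add_iff_left (hqM.mul_left i)).mpr h))]
          apply h.per
          have : n + i * M ≡ n + 0 [MOD M] :=
            Nat.ModEq.add_left n ((Nat.modEq_zero_iff_dvd).mpr (dvd_mul_left M i))
          simpa using this
        rw [sum_congr rfl e2, sum_const, card_range, nsmul_eq_mul]
    · have hsM' : s ∣ M := by
        rcases hs.dvd_mul.mp hsM with h | h
        · exact absurd ((Nat.prime_dvd_prime_iff_eq hs hq).mp h) hsq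
        · exact h
      have hcop : Nat.Coprime q s := (Nat.coprime_primes hq hs).mpr (Ne.symm hsq)
      have hdiv : q * M / s = q * (M / s) := Nat.mul_div_assoc _ hsM'
      rw [hdiv]
      have hpq : q ∣ s * n ↔ q ∣ n := by
        constructor
        · intro h; exact hcop.dvd_of_dvd_mul_left h
        · intro h; exact h.mul_left s
      by_cases hn : q ∣ n
      · rw [if_pos (hpq.mpr hn)]
        obtain ⟨a, rfl⟩ := hn
        have e2 : ∀ i ∈ range s, (if q ∣ q * a + i * (q * (M / s)) then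
            (q : ℤ) * C ((q * a + i * (q * (M / s))) / q) else
              C (q * a + i * (q * (M / s)))) = q * C (a + i * (M / s)) := by
          intro i _
          rw [show q * a + i * (q * (M / s)) = q * (a + i * (M / s)) by ring,
            if_pos (dvd_mul_right _ _), Nat.mul_div_cancel_left _ hqq]
        rw [sum_congr rfl e2, ← mul_sum, h.dist s hs hsM' hAs a,
          show s * (q * a) = q * (s * a) by ring, Nat.mul_div_cancel_left _ hqq]
      · rw [if_neg (fun h => hn (hpq.mp h))]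
        have e2 : ∀ i ∈ range s, (if q ∣ n + i * (q * (M / s)) then
            (q : ℤ) * C ((n + i * (q * (M / s))) / q) else C (n + i * (q * (M / s)))) =
            C (n + q * i * (M / s)) := by
          intro i _
          rw [if_neg (fun h => hn ((Nat.dvd_add_iff_left
            (((dvd_mul_right q (M / s))).mul_left i)).mpr h))]
          congr 1; ring
        rw [sum_congr rfl e2,
          Pool.Agent.Y2.coset_mul hs.pos (Nat.mul_div_cancel' hsM') h.per hcop n,
          h.dist s hs hsM' hAs n]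

/-- The extension operator from the level `d * K` to the level `m`; here `m = g * d`. -/
structure Fx (p d K g m : ℕ) (Op : (ℕ → ℤ) → ℕ → ℤ) (β w : ℤ) : Prop where
  sub : ∀ C D n, Op (fun n => C n - D n) n = Op C n - Op D n
  wn : ∀ A V C, WN (d * K) A V C → (∀ q, q.Prime → q ∣ K → V q) →
    (∀ q, q.Prime → q ∣ d → q ≠ p → A q ∧ ¬ V q) →
    WN m (fun q => A q ∨ q ∣ K) (fun q => V q ∧ ¬ q ∣ K) (Op C)
  bd : ∀ (ι : Type) (s : Finset ι) (X : ι → ℕ → ℤ) (A V : ℕ → Prop) (B : ℤ),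
    (∀ i ∈ s, WN (d * K) A V (X i)) → (∀ q, q.Prime → q ∣ K → V q) →
    (∀ n, ∑ i ∈ s, |X i n| ≤ B) → ∀ n, ∑ i ∈ s, |Op (X i) n| ≤ β * w * B
  tr : ∀ (C : ℕ → ℤ) (t : ℕ), (∀ x y, x ≡ y [MOD d] → C x = C y) → ∀ n,
    Op (fun n => if n ≡ t [MOD K] then C n else 0) (g * n) = w * C n
  sp : ∀ C, (∀ n, C n ≠ 0 → Nat.Coprime n (d * K)) → ∀ n, Op C n ≠ 0 → Nat.gcd n m ∣ g

lemma Fx.step {p d K g m q : ℕ} {Op : (ℕ → ℤ) → ℕ → ℤ} {β w : ℤ} (h : Fx p d K g m Op β w)
    (hβ : 0 ≤ β) (hw : 0 < w) (hq : q.Prime) (hqp : q ≠ p) (hqm : q ∣ m) (hqd : q ∣ d * K) :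
    Fx p d K (q * g) (q * m) (fun C => Rm q (Op C)) β (q * w) where
  sub := fun C D n => by
    unfold Rm
    split_ifs
    · rw [h.sub]; ring
    · exact h.sub C D n
  wn := fun A V C hC hV hA => by
    have h1 := h.wn A V C hC hV hA
    refine Rm_WN hq hqm h1 ?_ ?_
    · rcases hq.dvd_mul.mp hqd with h2 | h2
      · exact Or.inl (hA q hq h2 hqp).1
      · exact Or.inr h2
    · rintro ⟨h2, h3⟩
      rcases hq.dvd_mul.mp hqd with h4 | h4
      · exact (hA q hq h4 hqp).2 h2
      · exact h3 h4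
  bd := fun ι s X A V B hX hV hB n => by
    have h1 := h.bd ι s X A V B hX hV hB
    have hB0 : 0 ≤ B := le_trans (sum_nonneg fun _ _ => abs_nonneg _) (hB 0)
    have hq1 : (1 : ℤ) ≤ q := by exact_mod_cast hq.one_le
    unfold Rm
    by_cases hn : q ∣ n
    · simp only [if_pos hn, abs_mul]
      rw [← mul_sum, abs_of_nonneg (by omega : (0 : ℤ) ≤ q)]
      have h2 := mul_le_mul_of_nonneg_left (h1 (n / q)) (by omega : (0 : ℤ) ≤ q)
      calc (q : ℤ) * ∑ i ∈ s, |Op (X i) (n / q)| ≤ q * (β * w * B) := h2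
        _ = β * (q * w) * B := by ring
    · simp only [if_neg hn]
      have h2 : 0 ≤ β * w * B := mul_nonneg (mul_nonneg hβ hw.le) hB0
      calc ∑ i ∈ s, |Op (X i) n| ≤ β * w * B := h1 n
        _ ≤ q * (β * w * B) := by nlinarith
        _ = β * (q * w) * B := by ring
  tr := fun C t hC n => by
    unfold Rm
    rw [mul_assoc, if_pos (dvd_mul_right q _), Nat.mul_div_cancel_left _ hq.pos, h.tr C t hC n]
    ring
  sp := fun C hC n hn => by
    unfold Rm at hn
    by_cases hqn : q ∣ n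
    · rw [if_pos hqn] at hn
      obtain ⟨a, rfl⟩ := hqn
      rw [Nat.mul_div_cancel_left _ hq.pos] at hn
      rw [Nat.gcd_mul_left]
      exact Nat.mul_dvd_mul_left q (h.sp C hC a (right_ne_zero_of_mul hn))
    · rw [if_neg hqn] at hn
      have hcop : Nat.Coprime n q := (Nat.coprime_comm).mp ((Nat.Prime.coprime_iff_not_dvd hq).mpr hqn)
      rw [Nat.Coprime.gcd_mul_left_cancel_right _ hcop.symm]
      exact (h.sp C hC n hn).mul_left q

lemma Fx.base {p d K : ℕ} (hK : K ≠ 0) {Op : (ℕ → ℤ) → ℕ → ℤ} {β : ℤ} (h : St d K K Op β) :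
    Fx p d K K (d * K) Op β 1 where
  sub := h.sub
  wn := fun A V C hC hV _ => h.wn A V C hC hV
  bd := fun ι s X A V B hX hV hB n => by rw [mul_one]; exact h.bd ι s X A V B hX hV hB n
  tr := fun C t hC n => by
    rw [h.tr C t hC n, Nat.div_self (Nat.pos_of_ne_zero hK), if_pos (Nat.modEq_one), one_mul]
  sp := h.sp

/-- existence for all multiples -/
lemma Fx.mult {p d K : ℕ} (hd : d ≠ 0) (hK : K ≠ 0) {Op : (ℕ → ℤ) → ℕ → ℤ} {β : ℤ}
    (h : St d K K Op β) (hβ : 0 ≤ β) : ∀ k : ℕ, k ≠ 0 →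
    (∀ q, q.Prime → q ∣ k → q ∣ d * K ∧ q ≠ p) →
    ∃ Op' : (ℕ → ℤ) → ℕ → ℤ, ∃ w : ℤ, 0 < w ∧ Fx p d K (k * K) (k * (d * K)) Op' β w := by
  intro k
  induction k using Nat.strong_induction_on with
  | _ k ih =>
  intro hk hkq
  by_cases hk1 : k = 1
  · subst hk1
    rw [one_mul, one_mul]
    exact ⟨Op, 1, one_pos, Fx.base hK h⟩
  · have hq := Nat.minFac_prime hk1
    set q := k.minFac with hqdef
    obtain ⟨k1, hk1'⟩ : q ∣ k := Nat.minFac_dvd k
    have hk10 : k1 ≠ 0 := by rintro rfl; rw [mul_zero] at hk1'; exact hk hk1'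
    have hlt : k1 < k := by
      rw [hk1']
      have := hq.two_le
      have : 0 < k1 := Nat.pos_of_ne_zero hk10
      nlinarith
    have hqk : q ∣ k := by rw [hk1']; exact dvd_mul_right q k1
    obtain ⟨h1, h2⟩ := hkq q hq hqk
    obtain ⟨Op', w, hw, hF⟩ := ih k1 hlt hk10 (fun s hs hsk => hkq s hs (by
      rw [hk1']; exact hsk.mul_left q))
    refine ⟨fun C => Rm q (Op' C), q * w, mul_pos (by exact_mod_cast hq.pos) hw, ?_⟩
    have h3 := hF.step hβ hw hq h2 (h1.mul_left k1) h1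
    rw [hk1', mul_assoc, mul_assoc]
    exact h3

end Run7.h919
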