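import Pool.Agent.Run7.h919.Ext

/-!
Processing the levels of a relation from the top.
-/

namespace Run7.h919

open Finset Pool.Agent.H916R2

variable {m : ℕ} [NeZero m]

lemma gcd_neg_val (z : ZMod m) : Nat.gcd (-z).val m = Nat.gcd z.val m := by
  rw [ZMod.neg_val]
  split_ifs with h
  · rw [h, ZMod.val_zero]
  · have hz := (ZMod.val_lt z).le
    apply Nat.dvd_antisymm
    · apply Nat.dvd_gcd _ (Nat.gcd_dvd_right _ _)
      have h1 : Nat.gcd (m - z.val) m ∣ m - (m - z.val) :=
        Nat.dvd_sub (Nat.gcd_dvd_right _ _) (Nat.gcd_dvd_left _ _)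
      rwa [Nat.sub_sub_self hz] at h1
    · exact Nat.dvd_gcd (Nat.dvd_sub (Nat.gcd_dvd_right _ _) (Nat.gcd_dvd_left _ _))
        (Nat.gcd_dvd_right _ _)

lemma dvd_neg_val {k : ℕ} (hk : k ∣ m) (z : ZMod m) : k ∣ (-z).val ↔ k ∣ z.val := by
  have h : ∀ w : ZMod m, k ∣ w.val ↔ k ∣ Nat.gcd w.val m := fun w =>
    ⟨fun h => Nat.dvd_gcd h hk, fun h => h.trans (Nat.gcd_dvd_left _ _)⟩
  rw [h, h, gcd_neg_val]

/-- Splitting a sum according to divisibility. -/
lemma sum_split {k d : ℕ} [NeZero d] (hkd : k * d = m) {M : Type*} [AddCommMonoid M]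
    (F : ZMod m → M) :
    ∑ z, F z = ∑ b : ZMod d, F (iota k b) + ∑ z with ¬ k ∣ z.val, F z := by
  classical
  rw [← Finset.sum_filter_add_sum_filter_not univ (fun z : ZMod m => k ∣ z.val) F]
  congr 1
  rw [← sum_image (s := univ) (f := F) (g := fun b : ZMod d => (iota k b : ZMod m))
    (fun b _ b' _ h => iota_inj hkd h)]
  apply sum_congr _ fun _ _ => rfl
  ext z
  simp only [mem_filter, mem_univ, true_and, mem_image]
  constructor
  · intro h
    exact exists_iota hkd h
  · rintro ⟨b, rfl⟩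
    rw [iota_val hkd]
    exact dvd_mul_right k _

lemma nm_split {k d : ℕ} [NeZero d] (hkd : k * d = m) (y : ZMod m → ℤ) :
    nm y = nm (fun b : ZMod d => y (iota k b)) + ∑ z with ¬ k ∣ z.val, |od y z| := by
  unfold nm
  rw [sum_split hkd]
  congr 1
  refine sum_congr rfl fun b _ => ?_
  rw [od_iota hkd]

lemma nm_iota_le {k d : ℕ} [NeZero d] (hkd : k * d = m) (y : ZMod m → ℤ) :
    nm (fun b : ZMod d => y (iota k b)) ≤ nm y := by
  rw [nm_split hkd y]
  have : 0 ≤ ∑ z with ¬ k ∣ z.val, |od y z| := sum_nonneg fun _ _ => abs_nonneg _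
  omega

/-- Changing the values at the multiples of `k`. -/
theorem level_step {k d : ℕ} [NeZero d] (hkd : k * d = m) (y : ZMod m → ℤ) (g : ZMod d → ℤ)
    (hE : Eqv (fun b : ZMod d => y (iota k b)) g) (hn : nm g ≤ nm (fun b : ZMod d => y (iota k b))) :
    ∃ y' : ZMod m → ℤ, Eqv y y' ∧ nm y' ≤ nm y ∧ (∀ b : ZMod d, od y' (iota k b) = od g b) ∧
      ∀ z : ZMod m, ¬ k ∣ z.val → od y' z = od y z := by
  classical
  have hk : 0 < k := Nat.pos_of_ne_zero (by
    rintro rfl; rw [zero_mul] at hkd; exact NeZero.ne m hkd.symm)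
  let y' : ZMod m → ℤ := fun z => if k ∣ z.val then g ((z.val / k : ℕ) : ZMod d) else y z
  have h1 : ∀ b : ZMod d, y' (iota k b) = g b := by
    intro b
    simp only [y', iota_val hkd]
    rw [if_pos (dvd_mul_right k _), Nat.mul_div_cancel_left _ hk, ZMod.natCast_zmod_val]
  have h2 : ∀ z : ZMod m, ¬ k ∣ z.val → y' z = y z := by
    intro z hz
    simp only [y', if_neg hz]
  have h3 : ∀ z : ZMod m, ¬ k ∣ z.val → od y' z = od y z := by
    intro z hz
    unfold od
    rw [h2 z hz, h2 (-z) (by rwa [dvd_neg_val (Dvd.intro d hkd)])]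
  have h4 : (fun b : ZMod d => y' (iota k b)) = g := funext h1
  refine ⟨y', ?_, ?_, ?_, h3⟩
  · intro Q _ c hc
    have h5 := hE Q (fun b : ZMod d => c (iota k b)) (hc.comp_iota hkd)
    rw [sum_split hkd, sum_split hkd (F := fun z => y' z • c z)]
    simp only [h1]
    rw [h5]
    congr 1
    refine sum_congr rfl fun z hz => ?_
    rw [mem_filter] at hz
    rw [h2 z hz.2]
  · rw [nm_split hkd y, nm_split hkd y', h4]
    have : ∑ z with ¬ k ∣ z.val, |od y' z| = ∑ z with ¬ k ∣ z.val, |od y z| := by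
      refine sum_congr rfl fun z hz => ?_
      rw [mem_filter] at hz
      rw [h3 z hz.2]
    omega
  · intro b
    rw [← od_iota hkd, h4]

/-- **Processing the levels.** -/
theorem proc (A B : ℕ → Prop) (hA : ∀ k k', k ∣ k' → k' ∣ m → A k → A k')
    (hB : ∀ k k', k' ∣ k → k ∣ m → A k' → B k → B k') (N : ℤ)
    (hclear : ∀ k d, k * d = m → A k → B k → ∀ [NeZero d] (g : ZMod d → ℤ), Orth g → nm g ≤ N →
      ∃ g' : ZMod d → ℤ, Eqv g g' ∧ nm g' ≤ nm g ∧ ∀ z, IsUnit z → od g' z = 0)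
    (y : ZMod m → ℤ) (hy : Rel y) (hN : nm y ≤ N)
    (hyA : ∀ z : ZMod m, ¬ A (Nat.gcd z.val m) → od y z = 0) : ∀ K : ℕ,
    ∃ y' : ZMod m → ℤ, Eqv y y' ∧ nm y' ≤ nm y ∧
      (∀ z : ZMod m, ¬ A (Nat.gcd z.val m) → od y' z = 0) ∧
      ∀ z : ZMod m, Nat.gcd z.val m < K → B (Nat.gcd z.val m) → od y' z = 0
  | 0 => ⟨y, Eqv.refl y, le_rfl, hyA, fun z h => absurd h (by omega)⟩
  | K + 1 => by
    obtain ⟨y1, h1, h2, h3, h4⟩ := proc A B hA hB N hclear y hy hN hyA K
    have hm := NeZero.ne m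
    have hpos : ∀ z : ZMod m, 0 < Nat.gcd z.val m := fun z =>
      Nat.gcd_pos_of_pos_right _ (Nat.pos_of_ne_zero hm)
    by_cases hK : K ∣ m ∧ A K ∧ B K
    · obtain ⟨⟨d, hd⟩, hAK, hBK⟩ := hK
      have hkd : K * d = m := hd.symm
      have hd0 : NeZero d := ⟨by rintro rfl; rw [mul_zero] at hkd; exact hm hkd.symm⟩
      have hKm : K ∣ m := Dvd.intro d hkd
      have hO : Orth (fun b : ZMod d => y1 (iota K b)) := by
        apply orth_level hkd (h1.rel hy)
        intro z hz1 hz2
        by_cases hAz : A (Nat.gcd z.val m)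
        · apply h4 z
          · have hK0 : 0 < K := Nat.pos_of_ne_zero (by
              rintro rfl; rw [zero_mul] at hkd; exact hm hkd.symm)
            exact lt_of_le_of_ne (Nat.le_of_dvd hK0 hz1) hz2
          · exact hB K _ hz1 hKm hAz hBK
        · exact h3 z hAz
      obtain ⟨g, hg1, hg2, hg3⟩ := hclear K d hkd hAK hBK _ hO
        ((nm_iota_le hkd y1).trans (h2.trans hN))
      obtain ⟨y2, e1, e2, e3, e4⟩ := level_step hkd y1 g hg1 hg2
      refine ⟨y2, h1.trans e1, e2.trans h2, ?_, ?_⟩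
      · intro z hz
        have hnd : ¬ K ∣ z.val := by
          intro hdv
          exact hz (hA K _ (Nat.dvd_gcd hdv hKm) (Nat.gcd_dvd_right _ _) hAK)
        rw [e4 z hnd]
        exact h3 z hz
      · intro z hz1 hz2
        rcases Nat.lt_succ_iff_lt_or_eq.mp hz1 with h | h
        · have hnd : ¬ K ∣ z.val := by
            intro hdv
            have := Nat.le_of_dvd (hpos z) (Nat.dvd_gcd hdv hKm)
            omega
          rw [e4 z hnd]
          exact h4 z h hz2
        · obtain ⟨b, hb⟩ := exists_iota hkd (h ▸ Nat.gcd_dvd_left z.val m : K ∣ z.val)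
          rw [← hb, e3 b]
          apply hg3
          have hv : z.val = K * b.val := by rw [← hb, iota_val hkd]
          have hg : Nat.gcd (K * b.val) (K * d) = K := by rw [hkd, ← hv, h]
          rw [Nat.gcd_mul_left] at hg
          have hK0 : 0 < K := by
            have := hpos z
            omega
          have hg' : Nat.gcd b.val d = 1 := by
            have : K * Nat.gcd b.val d = K * 1 := by rw [hg, mul_one]
            exact Nat.eq_of_mul_eq_mul_left hK0 this
          have := (ZMod.isUnit_iff_coprime b.val d).mpr hg'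
          rwa [ZMod.natCast_zmod_val] at this
    · refine ⟨y1, h1, h2, h3, ?_⟩
      intro z hz1 hz2
      rcases Nat.lt_succ_iff_lt_or_eq.mp hz1 with h | h
      · exact h4 z h hz2
      · by_cases hAz : A (Nat.gcd z.val m)
        · exact absurd ⟨h ▸ Nat.gcd_dvd_right _ _, h ▸ hAz, h ▸ hz2⟩ hK
        · exact h3 z hAz

end Run7.h919
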