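import Pool.Agent.Run7.h919.Lp2
import Pool.Agent.Run7.h919.Line
import Pool.Agent.Run7.h919.Proc

/-!
The localised test functions.
-/

namespace Run7.h919

open Finset Pool.Agent.H916R2

/-- The primes of `m` which do not divide `d`. -/
def newp (m d : ℕ) : Finset ℕ := m.primeFactors.filter (fun r => ¬ r ∣ d)

/-- their product -/
def KK (m d : ℕ) : ℕ := ∏ r ∈ newp m d, r

/-- the bound -/
def BB (m d : ℕ) : ℤ := ∏ r ∈ newp m d, max 2 ((r : ℤ) - 1)

lemma mem_newp {m d r : ℕ} (hm : m ≠ 0) : r ∈ newp m d ↔ (r.Prime ∧ r ∣ m) ∧ ¬ r ∣ d := by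
  simp only [newp, mem_filter, Nat.mem_primeFactors]
  tauto

lemma KK_ne {m d : ℕ} (hm : m ≠ 0) : KK m d ≠ 0 :=
  prod_ne_zero_iff.mpr fun _ hr => ((mem_newp hm).mp hr).1.1.ne_zero

lemma dvd_KK {m d q : ℕ} (hm : m ≠ 0) (hq : q.Prime) (hqm : q ∣ m) (hqd : ¬ q ∣ d) : q ∣ KK m d :=
  dvd_prod_of_mem (fun x => x) ((mem_newp hm).mpr ⟨⟨hq, hqm⟩, hqd⟩)

lemma of_dvd_KK {m d q : ℕ} (hm : m ≠ 0) (hq : q.Prime) (h : q ∣ KK m d) : q ∣ m ∧ ¬ q ∣ d := by
  obtain ⟨r, hr, hqr⟩ := (hq.prime.dvd_finsetProd_iff _).mp h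
  have h1 := (mem_newp hm).mp hr
  rw [(Nat.prime_dvd_prime_iff_eq hq h1.1.1).mp hqr]
  exact ⟨h1.1.2, h1.2⟩

lemma KK_dvd {m d : ℕ} (hm : m ≠ 0) : KK m d ∣ m := by
  apply Finset.prod_dvd_of_isRelPrime
  · intro a ha b hb hab
    exact Nat.coprime_iff_isRelPrime.mp
      ((Nat.coprime_primes ((mem_newp hm).mp ha).1.1 ((mem_newp hm).mp hb).1.1).mpr hab)
  · intro x hx; exact ((mem_newp hm).mp hx).1.2

lemma KK_coprime {m d : ℕ} (hm : m ≠ 0) : Nat.Coprime (KK m d) d := by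
  by_contra hcon
  obtain ⟨q, hq, h1, h2⟩ := Nat.Prime.not_coprime_iff_dvd.mp hcon
  exact (of_dvd_KK hm hq h1).2 h2

lemma BB_nonneg (m d : ℕ) : 0 ≤ BB m d :=
  prod_nonneg fun _ _ => le_trans (by norm_num) (le_max_left _ _)

/-- existence of the extension operator -/
theorem exists_op {p m d g : ℕ} (hgd : g * d = m) (hm : m ≠ 0) (hpd : p ∣ d) (hpg : ¬ p ∣ g) :
    ∃ Op : (ℕ → ℤ) → ℕ → ℤ, ∃ w : ℤ, 0 < w ∧ Fx p d (KK m d) g m Op (BB m d) w := by
  have hd : d ≠ 0 := by rintro rfl; rw [mul_zero] at hgd; exact hm hgd.symm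
  have hg : g ≠ 0 := by rintro rfl; rw [zero_mul] at hgd; exact hm hgd.symm
  obtain ⟨Op, hOp⟩ := St.all hd (newp m d) (fun r hr =>
    ⟨((mem_newp hm).mp hr).1.1, ((mem_newp hm).mp hr).2⟩)
  have hKg : KK m d ∣ g := by
    have h1 : KK m d ∣ g * d := by rw [hgd]; exact KK_dvd hm
    exact (KK_coprime hm).dvd_of_dvd_mul_right h1
  obtain ⟨k, hk⟩ := hKg
  have hk0 : k ≠ 0 := by rintro rfl; rw [mul_zero] at hk; exact hg hk
  obtain ⟨Op', w, hw, hF⟩ := Fx.mult (p := p) hd (KK_ne hm) hOp (BB_nonneg m d) k hk0 (by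
    intro q hq hqk
    have hqg : q ∣ g := by rw [hk]; exact hqk.mul_left _
    refine ⟨?_, fun h => hpg (h ▸ hqg)⟩
    by_cases hqd : q ∣ d
    · exact hqd.mul_right _
    · exact (dvd_KK hm hq (hqg.trans (Dvd.intro d hgd)) hqd).mul_left d)
  refine ⟨Op', w, hw, ?_⟩
  have e1 : k * KK m d = g := by rw [mul_comm]; exact hk.symm
  have e2 : k * (d * KK m d) = m := by
    calc k * (d * KK m d) = k * KK m d * d := by ring
      _ = m := by rw [e1, hgd]
  rw [e1, e2] at hF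
  exact hF

/-- the product of the bounds -/
lemma BB_le {m d : ℕ} (hm : m ≠ 0) :
    BB m d ≤ (if 2 ∣ m then 2 else 1) * (Nat.totient (KK m d) : ℤ) := by
  classical
  have htot : ∀ S : Finset ℕ, (∀ r ∈ S, r.Prime) →
      (Nat.totient (∏ r ∈ S, r) : ℤ) = ∏ r ∈ S, ((r : ℤ) - 1) := by
    intro S
    induction S using Finset.induction_on with
    | empty => intro _; simp
    | insert r S hr ih =>
      intro hS
      have hrp := hS r (mem_insert_self r S)
      have hcop : Nat.Coprime r (∏ x ∈ S, x) := by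
        apply Nat.Coprime.prod_right
        intro x hx
        exact (Nat.coprime_primes hrp (hS x (mem_insert_of_mem hx))).mpr (fun h => hr (h ▸ hx))
      rw [prod_insert hr, prod_insert hr, Nat.totient_mul hcop, Nat.totient_prime hrp, ← ih
        (fun x hx => hS x (mem_insert_of_mem hx))]
      push_cast [hrp.one_le]
      ring
  have hprime : ∀ r ∈ newp m d, r.Prime := fun r hr => ((mem_newp hm).mp hr).1.1
  have hnn : ∀ S : Finset ℕ, (∀ r ∈ S, r.Prime) → 0 ≤ ∏ r ∈ S, ((r : ℤ) - 1) := by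
    intro S hS
    exact prod_nonneg fun r hr => by
      have := (hS r hr).one_le
      omega
  have hodd : ∀ S : Finset ℕ, (∀ r ∈ S, r.Prime) → 2 ∉ S →
      ∏ r ∈ S, max 2 ((r : ℤ) - 1) = ∏ r ∈ S, ((r : ℤ) - 1) := by
    intro S hS h2
    refine prod_congr rfl fun r hr => max_eq_right ?_
    have h1 := (hS r hr).two_le
    have h3 : r ≠ 2 := fun h => h2 (h ▸ hr)
    omega
  unfold BB KK
  rw [htot _ hprime]
  by_cases h2 : 2 ∈ newp m d
  · have h2m : 2 ∣ m := ((mem_newp hm).mp h2).1.2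
    rw [if_pos h2m, ← mul_prod_erase _ _ h2, ← mul_prod_erase _ _ h2,
      hodd _ (fun r hr => hprime r (mem_of_mem_erase hr)) (notMem_erase 2 _)]
    norm_num
  · rw [hodd _ hprime h2]
    split_ifs
    · have := hnn _ hprime
      linarith
    · rw [one_mul]

/-- mixed differences are bounded by the norm on the grid -/
lemma ED_le (m : ℕ) : ∀ (Q : List ℕ) (T : List (ℕ × ℕ × ℕ)) (H : ℕ → ℤ) (a : ℕ),
    T.map Prod.fst = Q → (∀ t ∈ T, t.2.1 < sz m t.1 ∧ t.2.2 < sz m t.1) →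
    |ED m T H a| ≤ nrm (Q.map (sz m)) (fun w => H (pt m Q a w))
  | [], [], H, a, _, _ => le_rfl
  | [], t :: T, _, _, h, _ => by simp at h
  | q :: Q, [], _, _, h, _ => by simp at h
  | q :: Q, t :: T, H, a, h, hd => by
    simp only [List.map_cons, List.cons.injEq] at h
    obtain ⟨h1, h2⟩ := h
    have h3 := hd t (by simp)
    have hd' : ∀ t ∈ T, t.2.1 < sz m t.1 ∧ t.2.2 < sz m t.1 := fun t h => hd t (by simp [h])
    have hstep : ∀ i, i < sz m q → |ED m T (fun y => H (y + i * (m / q))) a| ≤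
        nrm (Q.map (sz m)) (fun w => H (pt m (q :: Q) a (i :: w))) := by
      intro i _
      have h4 := ED_le m Q T (fun y => H (y + i * (m / q))) a h2 hd'
      refine h4.trans (le_of_eq ?_)
      congr 1
      funext w
      simp only [pt, pt_add]
    simp only [ED, List.map_cons, nrm]
    rw [ED_sub]
    by_cases hij : t.2.1 = t.2.2
    · rw [hij, sub_self, abs_zero]
      exact sum_nonneg fun i _ => nrm_nonneg _ _
    · rw [h1] at h3 ⊢
      have h5 : ∑ i ∈ ({t.2.1, t.2.2} : Finset ℕ), nrm (Q.map (sz m))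
          (fun w => H (pt m (q :: Q) a (i :: w))) ≤ ∑ i ∈ range (sz m q), nrm (Q.map (sz m))
          (fun w => H (pt m (q :: Q) a (i :: w))) := by
        apply sum_le_sum_of_subset_of_nonneg
        · intro i hi
          rw [mem_insert, mem_singleton] at hi
          rw [mem_range]
          rcases hi with rfl | rfl
          · exact h3.1
          · exact h3.2
        · intro _ _ _; exact nrm_nonneg _ _
      rw [sum_pair hij] at h5
      refine le_trans ?_ h5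
      refine (abs_sub _ _).trans (add_le_add (hstep _ h3.1) (hstep _ h3.2))

/-- a point mass has norm at most one on a grid -/
lemma nrm_point {m : ℕ} [NeZero m] {P : List ℕ} (hP : ∀ q ∈ P, q.Prime ∧ q ∣ m) (hnd : P.Nodup)
    (y : ZMod m) (a : ℕ) :
    nrm (P.map (sz m)) (fun v => if ((pt m P a v : ℕ) : ZMod m) = y then (1 : ℤ) else 0) ≤ 1 := by
  classical
  rw [nrm_eq]
  have h1 : ∀ v ∈ bxs (P.map (sz m)),
      |(if ((pt m P a v : ℕ) : ZMod m) = y then (1 : ℤ) else 0)| =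
        if ((pt m P a v : ℕ) : ZMod m) = y then 1 else 0 := by
    intro v _
    split_ifs <;> rfl
  rw [sum_congr rfl h1, Finset.sum_boole]
  have h2 : ((bxs (P.map (sz m))).filter (fun v => ((pt m P a v : ℕ) : ZMod m) = y)).card ≤ 1 := by
    rw [card_le_one]
    intro v hv w hw
    rw [mem_filter] at hv hw
    exact pt_inj P hP hnd a a v w ((mem_bxs _ _).mp hv.1) ((mem_bxs _ _).mp hw.1)
      (Nat.ModEq.refl _) ((ZMod.natCast_eq_natCast_iff _ _ _).mp (hv.2.trans hw.2.symm))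
  exact_mod_cast h2

variable {d : ℕ} [NeZero d]

/-- the test functions -/
def CC (d : ℕ) [NeZero d] (p : ℕ) (T : List (ℕ × ℕ × ℕ)) (a v : ℕ) : ℕ → ℤ := fun n =>
  tf T (a + v * (d / p)) ((n : ℕ) : ZMod d)

lemma CC_sum {p : ℕ} {Q : List ℕ} (hP : ∀ q ∈ p :: Q, q.Prime ∧ q ∣ d) (hnd : (p :: Q).Nodup)
    {T : List (ℕ × ℕ × ℕ)} (hT : T.map Prod.fst = Q)
    (hd : ∀ t ∈ T, t.2.1 < sz d t.1 ∧ t.2.2 < sz d t.1) (a n : ℕ) :
    ∑ v ∈ range (sz d p), |CC d p T a v n| ≤ 1 := by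
  have h1 := nrm_point hP hnd ((n : ℕ) : ZMod d) a
  refine le_trans ?_ h1
  simp only [List.map_cons, nrm]
  refine sum_le_sum fun v _ => ?_
  exact ED_le d Q T (fun z => if (z : ZMod d) = ((n : ℕ) : ZMod d) then 1 else 0)
    (a + v * (d / p)) hT hd

lemma CC_per {p : ℕ} (T : List (ℕ × ℕ × ℕ)) (a v x y : ℕ) (h : x ≡ y [MOD d]) :
    CC d p T a v x = CC d p T a v y := by
  unfold CC
  rw [(ZMod.natCast_eq_natCast_iff _ _ _).mpr h]

section family

variable {p : ℕ} {Q : List ℕ} (hP : ∀ q ∈ p :: Q, q.Prime ∧ q ∣ d) (hnd : (p :: Q).Nodup)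
  (hall : ∀ q, q.Prime → q ∣ d → q ∈ p :: Q) {T : List (ℕ × ℕ × ℕ)} (hT : T.map Prod.fst = Q)
  (hd : ∀ t ∈ T, t.2.1 < sz d t.1 ∧ t.2.2 < sz d t.1) {a : ℕ} (hG : GB d (p :: Q) a)

include hP hnd hT hd hG in
lemma CC_unit {v : ℕ} (hv : v < sz d p) {q n : ℕ} (hq : q.Prime) (hqd : q ∣ d) (hqn : q ∣ n) :
    CC d p T a v n = 0 := by
  have hnd' := List.nodup_cons.mp hnd
  unfold CC
  apply tf_unit (R := T) (a := a + v * (d / p))
  · intro l hl; rw [hT] at hl; exact hP l (by simp [hl])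
  · rw [hT]; exact hnd'.2
  · exact hd
  · rw [hT]; exact GB_step (NeZero.ne d) (hP p (by simp)).1 (hP p (by simp)).2 hnd'.1 hG hv
  · intro hu
    rw [ZMod.isUnit_iff_coprime] at hu
    exact prime_dvd_one hq (hu ▸ Nat.dvd_gcd hqn hqd)

include hall hT in
lemma CC_dist {v : ℕ} {q : ℕ} (hq : q.Prime) (hqd : q ∣ d) (hqp : q ≠ p) (n : ℕ) :
    ∑ i ∈ range q, CC d p T a v (n + i * (d / q)) = 0 := by
  have h1 := tf_sum (m := d) (R := T) (p := q) (d := d / q) hq.pos (Nat.mul_div_cancel' hqd)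
    (a + v * (d / p)) (by
      rw [hT]
      have := hall q hq hqd
      simpa [hqp] using this) ((n : ℕ) : ZMod d)
  rw [← h1]
  refine sum_congr rfl fun i _ => ?_
  unfold CC
  congr 1
  push_cast
  rfl

lemma CC_diff (v v' n : ℕ) : CC d p T a v n - CC d p T a v' n =
    tf ((p, v, v') :: T) a ((n : ℕ) : ZMod d) := by
  unfold CC tf
  simp only [ED]
  rw [ED_sub, ED_shift d T (fun z => if ((z : ℕ) : ZMod d) = ((n : ℕ) : ZMod d) then (1 : ℤ) else 0)
      a (v * (d / p)),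
    ED_shift d T (fun z => if ((z : ℕ) : ZMod d) = ((n : ℕ) : ZMod d) then (1 : ℤ) else 0)
      a (v' * (d / p))]

lemma CC_dist_p (v v' : ℕ) (hp : p.Prime) (hpd : p ∣ d) (n : ℕ) :
    ∑ i ∈ range p, (CC d p T a v (n + i * (d / p)) - CC d p T a v' (n + i * (d / p))) = 0 := by
  have h1 := tf_sum (m := d) (R := (p, v, v') :: T) (p := p) (d := d / p) hp.pos
    (Nat.mul_div_cancel' hpd) a (by simp) ((n : ℕ) : ZMod d)
  rw [← h1]
  refine sum_congr rfl fun i _ => ?_
  rw [CC_diff]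
  congr 1
  push_cast
  rfl

end family

omit [NeZero d] in
/-- lifting a function supported on the units -/
lemma WN_lift {K t : ℕ} (hK : Nat.Coprime K d) (ht : Nat.Coprime t K) {A : ℕ → Prop} {C : ℕ → ℤ}
    (hper : ∀ x y, x ≡ y [MOD d] → C x = C y)
    (hu : ∀ q, q.Prime → q ∣ d → ∀ n, q ∣ n → C n = 0)
    (hdist : ∀ q, q.Prime → q ∣ d → A q → ∀ n, ∑ i ∈ range q, C (n + i * (d / q)) = 0) :
    WN (d * K) (fun q => q ∣ d ∧ A q) (fun q => q ∣ d ∨ q ∣ K)
      (fun n => if n ≡ t [MOD K] then C n else 0) := by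
  constructor
  · intro x y hxy
    have h1 := hxy.of_dvd (dvd_mul_left K d)
    have h2 : x ≡ t [MOD K] ↔ y ≡ t [MOD K] := ⟨fun h => h1.symm.trans h, fun h => h1.trans h⟩
    simp only [h2, hper x y (hxy.of_dvd (dvd_mul_right d K))]
  · intro q hq _ hV x hx
    rcases hV with h | h
    · simp only [hu q hq h x hx]; split_ifs <;> rfl
    · rw [if_neg]
      intro hxt
      have h1 : q ∣ t := ((hxt.of_dvd h).dvd_iff dvd_rfl).mp hx
      exact prime_dvd_one hq (ht ▸ Nat.dvd_gcd h1 h)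
  · rintro q hq _ ⟨hqd, hA⟩ n
    have hKq : Nat.Coprime K q := hK.coprime_dvd_right hqd
    have hdiv : d * K / q = K * (d / q) := by
      rw [mul_comm d K]; exact Nat.mul_div_assoc _ hqd
    rw [hu q hq hqd (q * n) (dvd_mul_right q n)]
    have h0 : ∀ i, (n + i * (d * K / q) ≡ t [MOD K]) ↔ (n ≡ t [MOD K]) := by
      intro i
      have h1 : n + i * (d * K / q) ≡ n [MOD K] := by
        rw [hdiv]
        have : n + i * (K * (d / q)) ≡ n + 0 [MOD K] :=
          Nat.ModEq.add_left n ((Nat.modEq_zero_iff_dvd).mpr ((dvd_mul_right K _).mul_left i))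
        simpa using this
      exact ⟨fun h => h1.symm.trans h, fun h => h1.trans h⟩
    simp only [h0]
    by_cases hn : n ≡ t [MOD K]
    · simp only [if_pos hn]
      have h2 := Pool.Agent.Y2.coset_mul (m := d) hq.pos (Nat.mul_div_cancel' hqd) hper hKq n
      rw [hdist q hq hqd hA n] at h2
      rw [ite_self, ← h2]
      refine sum_congr rfl fun i _ => ?_
      congr 1
      rw [hdiv]; ring
    · simp only [if_neg hn, sum_const_zero, ite_self]

end Run7.h919
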