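import Pool.Agent.Run7.h919.Proc

/-!
Relations of small norm: odd levels, and the passage from even to odd levels.
-/

namespace Run7.h919

open Finset Pool.Agent.H916R2

variable {m : ℕ} [NeZero m]

lemma sum_cancel {S : Finset (ZMod m)} (hS : ∀ z ∈ S, -z ∈ S) {y : ZMod m → ℤ}
    (hy : ∀ z ∈ S, od y z = 0) {Q : Type*} [AddCommGroup Q] {c : ZMod m → Q} (hc : OddDist c) :
    ∑ z ∈ S, y z • c z = 0 := by
  refine Finset.sum_involution (fun z _ => -z) ?_ ?_ (fun z hz => hS z hz) (fun z _ => neg_neg z)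
  · intro z hz
    have h1 : y (-z) = y z := by
      have := hy z hz
      unfold od at this
      omega
    rw [h1, hc.neg, smul_neg, add_neg_cancel]
  · intro z _ hne h
    apply hne
    have h1 : z + z = 0 := by
      nth_rewrite 2 [← h]
      exact add_neg_cancel z
    rw [hc.half z h1, smul_zero]

lemma sum_zero_of_od {y : ZMod m → ℤ} (hy : ∀ z, od y z = 0) {Q : Type*} [AddCommGroup Q]
    {c : ZMod m → Q} (hc : OddDist c) : ∑ z, y z • c z = 0 :=
  sum_cancel (fun _ _ => mem_univ _) (fun z _ => hy z) hc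

lemma eqv_of_od {y y' : ZMod m → ℤ} (h : ∀ z, od y z = od y' z) : Eqv y y' := by
  intro Q _ c hc
  have h1 := sum_zero_of_od (y := fun z => y z - y' z) (fun z => by
    have := h z
    simp only [od] at this ⊢
    omega) hc
  simp only [sub_smul, sum_sub_distrib] at h1
  exact sub_eq_zero.mp h1

/-- `y` is equivalent to the image of `g`. -/
def Push {k d : ℕ} (_ : k * d = m) [NeZero d] (y : ZMod m → ℤ) (g : ZMod d → ℤ) : Prop :=
  ∀ (Q : Type) [AddCommGroup Q] (c : ZMod m → Q), OddDist c →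
    ∑ z, y z • c z = ∑ b : ZMod d, g b • c (iota k b)

lemma Push.rel {k d : ℕ} {hkd : k * d = m} [NeZero d] {y : ZMod m → ℤ} {g : ZMod d → ℤ}
    (h : Push hkd y g) (hy : Rel y) : Rel g := by
  intro t
  obtain ⟨t', rfl⟩ := ZMod.unitsMap_surjective (Dvd.intro_left k hkd : d ∣ m) t
  have h1 := h ℤ _ (saw_odd t')
  have hk : (k : ℤ) ≠ 0 := by
    have : k ≠ 0 := by rintro rfl; rw [zero_mul] at hkd; exact NeZero.ne m hkd.symm
    exact_mod_cast this
  have h2 : ∑ b : ZMod d, g b • saw ((t' : ZMod m) * iota k b) = k * ∑ b : ZMod d, g b *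
      saw (((ZMod.unitsMap (Dvd.intro_left k hkd : d ∣ m) t' : (ZMod d)ˣ) : ZMod d) * b) := by
    rw [mul_sum]
    refine sum_congr rfl fun b _ => ?_
    rw [unit_iota hkd, saw_iota hkd, smul_eq_mul]
    ring
  rw [h2] at h1
  simp only [smul_eq_mul] at h1
  rw [hy t'] at h1
  exact (mul_eq_zero.mp h1.symm).resolve_left hk

/-- Restriction to the multiples of `k`. -/
lemma push_restrict {k d : ℕ} (hkd : k * d = m) [NeZero d] {y : ZMod m → ℤ}
    (hy : ∀ z : ZMod m, ¬ k ∣ z.val → od y z = 0) : Push hkd y (fun b => y (iota k b)) := by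
  intro Q _ c hc
  rw [sum_split hkd, sum_cancel _ _ hc, add_zero]
  · intro z hz
    rw [mem_filter] at hz ⊢
    exact ⟨mem_univ _, by rw [dvd_neg_val (Dvd.intro d hkd)]; exact hz.2⟩
  · intro z hz
    rw [mem_filter] at hz
    exact hy z hz.2

/-- A representative with half of the norm. -/
lemma half_rep (y : ZMod m → ℤ) : ∃ y' : ZMod m → ℤ, (∀ z, od y' z = od y z) ∧
    2 * ∑ z, |y' z| = nm y := by
  classical
  let y' : ZMod m → ℤ := fun z => if z.val < (-z).val then od y z else 0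
  have h0 : ∀ z : ZMod m, z.val = (-z).val → od y z = 0 := by
    intro z hz
    have := ZMod.val_injective m hz
    unfold od
    rw [← this, sub_self]
  have h1 : ∀ z : ZMod m, |y' z| + |y' (-z)| = |od y z| := by
    intro z
    simp only [y', neg_neg, od_neg, abs_neg]
    rcases lt_trichotomy z.val (-z).val with h | h | h
    · rw [if_pos h, if_neg (by omega), abs_zero, add_zero]
    · rw [if_neg (by omega), if_neg (by omega), h0 z h]; simp
    · rw [if_neg (by omega), if_pos h, abs_zero, zero_add, abs_neg]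
  refine ⟨y', ?_, ?_⟩
  · intro z
    unfold od
    simp only [y', neg_neg]
    rcases lt_trichotomy z.val (-z).val with h | h | h
    · rw [if_pos h, if_neg (by omega), sub_zero]; rfl
    · have := h0 z h
      rw [if_neg (by omega), if_neg (by omega), sub_zero]
      exact this.symm
    · rw [if_neg (by omega), if_pos h]
      unfold od
      rw [neg_neg]; ring
  · unfold nm
    rw [← sum_congr rfl fun z _ => h1 z, sum_add_distrib, two_mul]
    congr 1
    exact (Fintype.sum_equiv (Equiv.neg _) _ _ fun z => by simp).symm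

lemma nm_add (y y' : ZMod m → ℤ) : nm (fun z => y z + y' z) ≤ nm y + nm y' := by
  unfold nm
  rw [← sum_add_distrib]
  refine sum_le_sum fun z _ => ?_
  have : od (fun z => y z + y' z) z = od y z + od y' z := by unfold od; ring
  rw [this]
  exact abs_add_le _ _

lemma nm_comb {ι : Type*} (S : Finset ι) (q : ι → ZMod m) (u : ι → ℤ) :
    nm (fun z => ∑ i ∈ S, if z = q i then u i else 0) ≤ 2 * ∑ i ∈ S, |u i| := by
  unfold nm
  calc ∑ z, |od (fun z => ∑ i ∈ S, if z = q i then u i else 0) z|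
      = ∑ z, |∑ i ∈ S, u i * sg (q i) z| := by
        refine sum_congr rfl fun z _ => ?_
        congr 1
        exact od_comb S q u z
    _ ≤ ∑ z, ∑ i ∈ S, |u i| * |sg (q i) z| := by
        refine sum_le_sum fun z _ => ?_
        refine (abs_sum_le_sum_abs _ _).trans (le_of_eq ?_)
        exact sum_congr rfl fun k _ => abs_mul _ _
    _ = ∑ i ∈ S, |u i| * ∑ z, |sg (q i) z| := by
        rw [sum_comm]
        exact sum_congr rfl fun k _ => (mul_sum _ _ _).symm
    _ ≤ ∑ i ∈ S, |u i| * 2 := sum_le_sum fun k _ =>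
        mul_le_mul_of_nonneg_left (sum_abs_sg _) (abs_nonneg _)
    _ = 2 * ∑ i ∈ S, |u i| := by rw [mul_sum]; exact sum_congr rfl fun k _ => mul_comm _ _

/-- From the level `2 * m1`, `m1` odd, to the level `m1`. -/
theorem push_two {m1 : ℕ} [NeZero m1] (h2 : 2 * m1 = m) (hodd : ¬ 2 ∣ m1) (y : ZMod m → ℤ) :
    ∃ g : ZMod m1 → ℤ, Push h2 y g ∧ nm g ≤ 2 * nm y := by
  classical
  obtain ⟨y', hy', hn⟩ := half_rep y
  let f1 : ZMod m → ZMod m1 := fun z => if 2 ∣ z.val then ((z.val / 2 : ℕ) : ZMod m1) else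
    ((z.val : ℕ) : ZMod m1)
  let f2 : ZMod m → ZMod m1 := fun z => (((z.val + m1) / 2 : ℕ) : ZMod m1)
  set O : Finset (ZMod m) := univ.filter (fun z => ¬ 2 ∣ z.val) with hO
  let g1 : ZMod m1 → ℤ := fun b => ∑ z ∈ univ, if b = f1 z then y' z else 0
  let g2 : ZMod m1 → ℤ := fun b => ∑ z ∈ O, if b = f2 z then - y' z else 0
  refine ⟨fun b => g1 b + g2 b, ?_, ?_⟩
  · intro Q _ c hc
    have e1 : ∑ z, y z • c z = ∑ z, y' z • c z := (eqv_of_od (fun z => (hy' z).symm)) Q c hc
    have e2 : ∑ b : ZMod m1, (g1 b + g2 b) • c (iota 2 b) =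
        ∑ z ∈ univ, y' z • c (iota 2 (f1 z)) + ∑ z ∈ O, (- y' z) • c (iota 2 (f2 z)) := by
      simp only [add_smul, sum_add_distrib]
      rw [sum_comb univ f1 y' (fun b => c (iota 2 b)),
        sum_comb O f2 (fun z => - y' z) (fun b => c (iota 2 b))]
    rw [e1, e2, ← Finset.sum_filter_not_add_sum_filter univ (fun z : ZMod m => ¬ 2 ∣ z.val),
      ← Finset.sum_filter_not_add_sum_filter univ (fun z : ZMod m => ¬ 2 ∣ z.val)
        (fun z => y' z • c (iota 2 (f1 z))), add_assoc, ← sum_add_distrib]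
    congr 1
    · refine sum_congr rfl fun z hz => ?_
      rw [mem_filter, not_not] at hz
      congr 2
      simp only [f1, if_pos hz.2]
      rw [iota_natCast h2, Nat.mul_div_cancel' hz.2, ZMod.natCast_zmod_val]
    · refine sum_congr rfl fun z hz => ?_
      rw [mem_filter] at hz
      have hz2 := hz.2
      have hs : 2 ∣ z.val + m1 := by omega
      simp only [f1, f2, if_neg hz.2]
      rw [iota_natCast h2, iota_natCast h2, Nat.mul_div_cancel' hs, neg_smul, ← smul_neg,
        ← smul_add]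
      congr 1
      have h3 := hc.dist 2 m1 Nat.prime_two h2 z
      rw [sum_range_succ, sum_range_one] at h3
      simp only [Nat.cast_zero, zero_mul, add_zero, Nat.cast_one, one_mul] at h3
      push_cast at h3 ⊢
      rw [ZMod.natCast_zmod_val]
      have h4 : (2 : ZMod m) = (((2 : ℕ)) : ZMod m) := by norm_cast
      rw [← h3]
      abel
  · have e3 : nm g1 ≤ 2 * ∑ z ∈ univ, |y' z| := nm_comb univ f1 y'
    have e4 : nm g2 ≤ 2 * ∑ z ∈ O, |- y' z| := nm_comb O f2 (fun z => - y' z)
    have e5 : ∑ z ∈ O, |- y' z| ≤ ∑ z ∈ univ, |y' z| := by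
      simp only [abs_neg]
      exact sum_le_sum_of_subset_of_nonneg (subset_univ _) fun _ _ _ => abs_nonneg _
    have e6 := nm_add g1 g2
    linarith

lemma sz_ge (m p : ℕ) : p - 1 ≤ sz m p := by unfold sz; split_ifs <;> omega

/-- The condition on the pairs of odd primes. -/
def OddPairs (m : ℕ) (N : ℤ) : Prop :=
  ∀ p q : ℕ, p.Prime → q.Prime → p ∣ m → q ∣ m → p < q → p ≠ 2 →
    2 * N < ((p : ℤ) - 1) * ((q : ℤ) - 1)

/-- The condition on the pairs with the prime `2`. -/
def TwoPairs (m : ℕ) (N : ℤ) : Prop :=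
  ∀ q : ℕ, q.Prime → q ∣ m → q ≠ 2 → N < (q : ℤ) - 1

lemma mul_sz {d p q : ℕ} (hp : p.Prime) (hq : q.Prime) :
    ((p : ℤ) - 1) * ((q : ℤ) - 1) ≤ (sz d p : ℤ) * sz d q := by
  have h1 := sz_ge d p
  have h2 := sz_ge d q
  have h3 := hp.one_le
  have h4 := hq.one_le
  have h5 : (p : ℤ) - 1 ≤ sz d p := by omega
  have h6 : (q : ℤ) - 1 ≤ sz d q := by omega
  exact mul_le_mul h5 h6 (by omega) (by omega)

/-- the levels without the prime `2`, or divisible by `4` -/
lemma clear_level {N : ℤ} (hN : OddPairs m N) (h2N : 2 ∣ m → TwoPairs m N) (h4 : 2 ∣ m → 4 ∣ m)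
    {g : ZMod m → ℤ} (ho : Orth g) (hg : nm g ≤ N) :
    ∃ g' : ZMod m → ℤ, Eqv g g' ∧ nm g' ≤ nm g ∧ ∀ z, IsUnit z → od g' z = 0 := by
  have hm := NeZero.ne m
  have hsz2 : 2 ∣ m → sz m 2 = 2 := by
    intro h
    unfold sz
    rw [if_pos (h4 h)]
  have key : ∀ p q : ℕ, p.Prime → q.Prime → p ∣ m → q ∣ m → p < q →
      2 * nm g < (sz m p : ℤ) * sz m q := by
    intro p q hp hq hpm hqm hpq
    by_cases hp2 : p = 2
    · subst hp2
      have h1 := h2N hpm q hq hqm (by omega)
      rw [hsz2 hpm]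
      have h2 := sz_ge m q
      have h3 := hq.one_le
      push_cast
      omega
    · have h1 := hN p q hp hq hpm hqm hpq hp2
      have h2 := mul_sz (d := m) hp hq
      linarith
  apply clear (P := m.primeFactors.toList) (fun l hl => ?_) (fun p hp hpm => ?_)
    (Finset.nodup_toList _) h4 ho
  · intro p hp q hq hpq
    simp only [List.append_nil, Finset.mem_toList, Nat.mem_primeFactors] at hp hq
    rcases lt_or_gt_of_ne hpq with h | h
    · exact key p q hp.1 hq.1 hp.2.1 hq.2.1 h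
    · rw [mul_comm (sz m p : ℤ)]
      exact key q p hq.1 hp.1 hq.2.1 hp.2.1 h
  · simp only [Finset.mem_toList, Nat.mem_primeFactors] at hl
    exact ⟨hl.1, hl.2.1⟩
  · simp only [Finset.mem_toList, Nat.mem_primeFactors]
    exact ⟨hp, hpm, hm⟩

/-- **Odd levels.** -/
theorem zero_odd {N : ℤ} (hodd : ¬ 2 ∣ m) (hN : OddPairs m N) {y : ZMod m → ℤ} (hy : Rel y)
    (hn : nm y ≤ N) {Q : Type} [AddCommGroup Q] {c : ZMod m → Q} (hc : OddDist c) :
    ∑ z, y z • c z = 0 := by
  have hm := NeZero.ne m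
  obtain ⟨y', h1, _, _, h4⟩ := proc (m := m) (fun _ => True) (fun _ => True)
    (fun _ _ _ _ _ => trivial) (fun _ _ _ _ _ _ => trivial) N
    (fun k d hkd _ _ _ g hg hgN => clear_level (fun p q hp hq hpd hqd =>
      hN p q hp hq (hpd.trans (Dvd.intro_left k hkd)) (hqd.trans (Dvd.intro_left k hkd)))
      (fun h => absurd (h.trans (Dvd.intro_left k hkd)) hodd)
      (fun h => absurd (h.trans (Dvd.intro_left k hkd)) hodd) hg hgN)
    y hy hn (fun z h => absurd trivial h) (m + 1)
  rw [h1 Q c hc]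
  apply sum_zero_of_od _ hc
  intro z
  apply h4 z _ trivial
  have := Nat.le_of_dvd (Nat.pos_of_ne_zero hm) (Nat.gcd_dvd_right z.val m)
  omega

/-- **Even levels.** -/
theorem zero_even {N : ℤ} (heven : 2 ∣ m) (hN : OddPairs m (2 * N)) (h4 : 4 ∣ m → TwoPairs m N)
    {y : ZMod m → ℤ} (hy : Rel y) (hn : nm y ≤ N) {Q : Type} [AddCommGroup Q] {c : ZMod m → Q}
    (hc : OddDist c) : ∑ z, y z • c z = 0 := by
  have hm := NeZero.ne m
  have hN0 : 0 ≤ N := le_trans (sum_nonneg fun _ _ => abs_nonneg _) hn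
  obtain ⟨y', h1, h2, _, h5⟩ := proc (m := m) (fun _ => True) (fun k => 4 ∣ m / k)
    (fun _ _ _ _ _ => trivial) (fun k k' hk hkm _ h => h.trans (Nat.div_dvd_div_left hkm hk)) N
    (fun k d hkd _ hB _ g hg hgN => by
      have hk0 : 0 < k := Nat.pos_of_ne_zero (by rintro rfl; rw [zero_mul] at hkd; exact hm hkd.symm)
      have hd : m / k = d := by rw [← hkd, Nat.mul_div_cancel_left _ hk0]
      rw [hd] at hB
      have hdm : d ∣ m := Dvd.intro_left k hkd
      have hT := h4 (hB.trans hdm)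
      refine clear_level (N := N) (fun p q hp hq hpd hqd hpq hp2 => ?_)
        (fun _ q hq hqd hq2 => hT q hq (hqd.trans hdm) hq2) (fun _ => hB) hg hgN
      have := hN p q hp hq (hpd.trans hdm) (hqd.trans hdm) hpq hp2
      linarith)
    y hy hn (fun z h => absurd trivial h) (m + 1)
  -- the power of two
  obtain ⟨v, hv⟩ : ∃ v, m.factorization 2 = v + 1 :=
    ⟨m.factorization 2 - 1, by
      have := Nat.prime_two.factorization_pos_of_dvd hm heven
      omega⟩
  set m1 := m / 2 ^ (m.factorization 2) with hm1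
  have hmm : 2 ^ (v + 1) * m1 = m := by
    rw [← hv]; exact Nat.ordProj_mul_ordCompl_eq_self m 2
  have hodd : ¬ 2 ∣ m1 := Nat.not_dvd_ordCompl Nat.prime_two hm
  have hm10 : m1 ≠ 0 := by rintro h; rw [h] at hodd; exact hodd (dvd_zero 2)
  have hNm1 : NeZero m1 := ⟨hm10⟩
  have hNm2 : NeZero (2 * m1) := ⟨by omega⟩
  have hkd : 2 ^ v * (2 * m1) = m := by rw [← hmm]; ring
  have hsupp : ∀ z : ZMod m, ¬ 2 ^ v ∣ z.val → od y' z = 0 := by
    intro z hz
    apply h5 z
    · have := Nat.le_of_dvd (Nat.pos_of_ne_zero hm) (Nat.gcd_dvd_right z.val m)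
      omega
    · set g := Nat.gcd z.val m with hg
      obtain ⟨w, hw⟩ : g ∣ m := Nat.gcd_dvd_right z.val m
      have hg0 : 0 < g := Nat.gcd_pos_of_pos_right _ (Nat.pos_of_ne_zero hm)
      have hdw : m / g = w := by
        rw [Nat.div_eq_iff_eq_mul_right hg0 (Dvd.intro w hw.symm)]
        exact hw
      rw [hdw]
      by_contra h4w
      apply hz
      refine dvd_trans ?_ (Nat.gcd_dvd_left z.val m)
      rw [← hg]
      have hpow : 2 ^ (v + 1) ∣ g * w := by rw [← hw]; exact Dvd.intro _ hmm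
      by_cases h2w : 2 ∣ w
      · obtain ⟨w', hw'⟩ := h2w
        have hw'2 : ¬ 2 ∣ w' := by
          intro h
          apply h4w
          rw [hw']
          exact Nat.mul_dvd_mul_left 2 h
        have h6 : 2 ^ v ∣ g * w' := by
          have : 2 * 2 ^ v ∣ 2 * (g * w') := by
            rw [← pow_succ']
            rw [hw'] at hpow
            rwa [show 2 * (g * w') = g * (2 * w') by ring]
          exact Nat.dvd_of_mul_dvd_mul_left (by norm_num) this
        exact (Nat.Coprime.pow_left v ((Nat.Prime.coprime_iff_not_dvd Nat.prime_two).mpr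
          hw'2)).dvd_of_dvd_mul_right h6
      · have h6 : 2 ^ v ∣ g * w := dvd_trans (pow_dvd_pow 2 (by omega)) hpow
        exact (Nat.Coprime.pow_left v ((Nat.Prime.coprime_iff_not_dvd Nat.prime_two).mpr
          h2w)).dvd_of_dvd_mul_right h6
  have hP := push_restrict hkd hsupp
  have hn1 : nm (fun b : ZMod (2 * m1) => y' (iota (2 ^ v) b)) ≤ N :=
    (nm_iota_le hkd y').trans (h2.trans hn)
  obtain ⟨g, hg1, hg2⟩ := push_two (m := 2 * m1) (m1 := m1) rfl hodd
    (fun b : ZMod (2 * m1) => y' (iota (2 ^ v) b))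
  have hc1 := hc.comp_iota hkd
  have hc2 := hc1.comp_iota (k := 2) (m0 := m1) (m := 2 * m1) rfl
  rw [h1 Q c hc, hP Q c hc, hg1 Q _ hc1]
  have hr1 := Push.rel hP (h1.rel hy)
  have hr2 := Push.rel hg1 hr1
  have hm1m : m1 ∣ m := Dvd.intro_left _ hmm
  exact zero_odd (N := 2 * N) hodd (fun p q hp hq hpd hqd =>
    hN p q hp hq (hpd.trans hm1m) (hqd.trans hm1m)) hr2 (by linarith) hc2

/-- The norm of the counting function of a multiset. -/
lemma nm_count (s : Multiset (ZMod m)) :
    nm (fun a : ZMod m => ((s.count a : ℕ) : ℤ)) ≤ 2 * Multiset.card s := by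
  classical
  have h1 : ∑ a : ZMod m, ((s.count a : ℕ) : ℤ) = Multiset.card s := by
    have := sum_count s (fun _ => (1 : ℤ))
    simpa using this
  have h2 : ∑ a : ZMod m, ((s.count (-a) : ℕ) : ℤ) = Multiset.card s := by
    rw [← h1]
    exact Fintype.sum_equiv (Equiv.neg _) _ _ fun z => by simp
  unfold nm
  calc ∑ z, |od (fun a : ZMod m => ((s.count a : ℕ) : ℤ)) z|
      ≤ ∑ z : ZMod m, (((s.count z : ℕ) : ℤ) + ((s.count (-z) : ℕ) : ℤ)) := by
        refine sum_le_sum fun z _ => ?_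
        simp only [od]
        rw [abs_le]
        constructor <;> omega
    _ = 2 * Multiset.card s := by rw [sum_add_distrib, h1, h2]; ring

end Run7.h919
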