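import Pool.Agent.Run7.h919.Lp3
import Pool.Agent.Run7.h919.Phase

/-!
The mixed differences of a relation at a level divisible by a large prime vanish.
-/

namespace Run7.h919

open Finset Pool.Agent.H916R2

variable {m : ℕ} [NeZero m]

/-- Odd functions with the distribution relations at the primes different from `p`, which vanish at
the multiples of `p`. -/
structure WD (p : ℕ) {Q : Type*} [AddCommGroup Q] (c : ZMod m → Q) : Prop where
  neg : ∀ a, c (-a) = - c a
  van : ∀ a, p ∣ a.val → c a = 0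
  dist : ∀ q d, q.Prime → q ≠ p → q * d = m → ∀ a,
    ∑ i ∈ range q, c (a + (i : ZMod m) * (d : ZMod m)) = c ((q : ZMod m) * a)

/-- Equal values under all these functions. -/
def Eqp (p : ℕ) (y y' : ZMod m → ℤ) : Prop :=
  ∀ (Q : Type) [AddCommGroup Q] (c : ZMod m → Q), WD p c → ∑ a, y a • c a = ∑ a, y' a • c a

/-- the pairing with the odd part -/
def PP (y : ZMod m → ℤ) (E : ℕ → ℤ) : ℤ := ∑ x : ZMod m, od y x * E x.val

lemma PP_eq (y : ZMod m → ℤ) (E : ℕ → ℤ) :
    PP y E = ∑ x : ZMod m, y x * (E x.val - E (-x).val) := by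
  unfold PP od
  simp only [sub_mul, mul_sub, sum_sub_distrib]
  congr 1
  exact Fintype.sum_equiv (Equiv.neg _) _ _ fun b => by simp

lemma PP_sub (y : ZMod m → ℤ) (E F : ℕ → ℤ) :
    PP y (fun n => E n - F n) = PP y E - PP y F := by
  unfold PP
  rw [← sum_sub_distrib]
  exact sum_congr rfl fun x _ => by ring

lemma val_natCast_modEq (n : ℕ) : ((n : ZMod m)).val ≡ n [MOD m] := by
  rw [ZMod.val_natCast]; exact Nat.mod_modEq n m

lemma val_eq_modEq {x : ZMod m} {n : ℕ} (h : x = (n : ZMod m)) : x.val ≡ n [MOD m] := by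
  rw [h]; exact val_natCast_modEq n

lemma cast_pred {q : ℕ} (hq : 0 < q) : (((q - 1 : ℕ)) : ZMod m) = (q : ZMod m) - 1 := by
  rw [Nat.cast_sub hq]; simp

lemma coprime_pred {q : ℕ} (hq : 0 < q) : Nat.Coprime (q - 1) q := by
  have h := Nat.coprime_self_add_right (m := q - 1) (n := 1)
  have e : q - 1 + 1 = q := by omega
  rw [e] at h
  exact h.mpr (Nat.coprime_one_right _)

lemma WD_of_WN {p : ℕ} (hpm : p ∣ m) (hp : p.Prime) {E : ℕ → ℤ}
    (h : WN m (fun q => q ≠ p) (fun q => q = p) E) :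
    WD p (fun x : ZMod m => E x.val - E (-x).val) where
  neg := fun a => by rw [neg_neg]; ring
  van := fun a ha => by
    rw [h.van p hp hpm rfl _ ha, h.van p hp hpm rfl _ ((dvd_neg_val hpm a).mpr ha), sub_zero]
  dist := fun q d hq hqp hqd a => by
    have hqm : q ∣ m := Dvd.intro d hqd
    have hdiv : m / q = d := by rw [← hqd, Nat.mul_div_cancel_left _ hq.pos]
    have h0 : (q : ZMod m) * (d : ZMod m) = 0 := by rw [← Nat.cast_mul, hqd, ZMod.natCast_self]
    have e1 : ∀ i ∈ range q, E (a + (i : ZMod m) * (d : ZMod m)).val -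
        E (-(a + (i : ZMod m) * (d : ZMod m))).val =
        E (a.val + i * d) - E ((-a).val + (q - 1) * i * d) := by
      intro i _
      congr 1
      · apply h.per
        apply val_eq_modEq
        push_cast
        rw [ZMod.natCast_zmod_val]
      · apply h.per
        apply val_eq_modEq
        push_cast [cast_pred (m := m) hq.pos]
        rw [ZMod.natCast_zmod_val]
        linear_combination - (i : ZMod m) * h0
    rw [sum_congr rfl e1, sum_sub_distrib]
    have h1 := h.dist q hq hqm hqp a.val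
    have h2 := h.dist q hq hqm hqp (-a).val
    rw [hdiv] at h1 h2
    rw [h1, Pool.Agent.Y2.coset_mul (m := m) hq.pos hqd h.per (coprime_pred hq.pos) (-a).val, h2]
    congr 1
    · apply h.per
      symm
      apply val_eq_modEq
      push_cast
      rw [ZMod.natCast_zmod_val]
    · apply h.per
      symm
      apply val_eq_modEq
      push_cast
      rw [ZMod.natCast_zmod_val]
      ring

lemma PP_zero {V : ℕ → Prop} {D : ℕ → ℤ} (h : WN m (fun _ => True) V D) {y : ZMod m → ℤ}
    (hy : Rel y) : PP y D = 0 := by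
  have hm := NeZero.ne m
  have hmpos : 0 < m := Nat.pos_of_ne_zero hm
  rw [PP_eq]
  have h1 := Pool.Agent.Y2.rel_nat hm univ y (fun z => z.val) (fun t ht => by
      have h1 := hy (ZMod.unitOfCoprime t ht)
      rw [← h1]
      refine sum_congr rfl fun z _ => ?_
      rw [ZMod.coe_unitOfCoprime]
      push_cast
      rw [ZMod.natCast_zmod_val])
    (fun n => D n - D ((m - 1) * n)) (fun x z hxz => by
      rw [h.per x z hxz, h.per _ _ (hxz.mul_left (m - 1))]) (fun x z hxz => by
      have h2 : ((x : ℕ) : ZMod m) + ((z : ℕ) : ZMod m) = 0 := by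
        rw [← Nat.cast_add, ZMod.natCast_eq_zero_iff]; exact hxz
      have h3 : z ≡ (m - 1) * x [MOD m] := by
        rw [← ZMod.natCast_eq_natCast_iff]
        push_cast [cast_pred (m := m) hmpos]
        rw [ZMod.natCast_self]
        linear_combination h2
      have h4 : (m - 1) * z ≡ x [MOD m] := by
        rw [← ZMod.natCast_eq_natCast_iff]
        push_cast [cast_pred (m := m) hmpos]
        rw [ZMod.natCast_self]
        linear_combination -h2
      rw [h.per _ _ h3, h.per _ _ h4]; ring) (fun q hq hqm n => by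
      have e1 : ∀ i ∈ range q, D (n + i * (m / q)) - D ((m - 1) * (n + i * (m / q))) =
          D (n + i * (m / q)) - D ((m - 1) * n + (m - 1) * i * (m / q)) := by
        intro i _
        congr 2; ring
      have hcop : Nat.Coprime (m - 1) q := (coprime_pred hmpos).coprime_dvd_right hqm
      rw [sum_congr rfl e1, sum_sub_distrib, h.dist q hq hqm trivial n,
        Pool.Agent.Y2.coset_mul (m := m) hq.pos (Nat.mul_div_cancel' hqm) h.per hcop ((m - 1) * n),
        h.dist q hq hqm trivial ((m - 1) * n)]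
      congr 2; ring)
  rw [← h1]
  refine sum_congr rfl fun x _ => ?_
  congr 2
  apply h.per
  apply val_eq_modEq
  push_cast [cast_pred (m := m) hmpos]
  rw [ZMod.natCast_self, ZMod.natCast_zmod_val]
  ring

/-- the pairing with a function supported at the multiples of a level -/
lemma PP_level {p g d : ℕ} [NeZero d] (hgd : g * d = m) (hpg : ¬ p ∣ g) (hpm : p ∣ m)
    {E C : ℕ → ℤ} {w : ℤ} (hvan : ∀ n, p ∣ n → E n = 0) (hsp : ∀ n, E n ≠ 0 → Nat.gcd n m ∣ g)
    (htr : ∀ n, E (g * n) = w * C n) {y : ZMod m → ℤ}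
    (hy : ∀ z : ZMod m, ¬ p ∣ z.val → Nat.gcd z.val m < g → od y z = 0) :
    PP y E = w * ∑ b : ZMod d, od y (iota g b) * C b.val := by
  classical
  have hm := NeZero.ne m
  unfold PP
  have h1 : ∑ z : ZMod m, od y z * E z.val =
      ∑ b : ZMod d, od y (iota g b) * E (iota g b : ZMod m).val := by
    rw [← sum_image (s := univ) (f := fun z => od y z * E z.val)
      (g := fun b : ZMod d => (iota g b : ZMod m)) (fun b _ b' _ h => iota_inj hgd h)]
    symm
    apply sum_subset (subset_univ _)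
    intro z _ hz
    by_contra hne
    have hE0 : E z.val ≠ 0 := right_ne_zero_of_mul hne
    have hy0 : od y z ≠ 0 := left_ne_zero_of_mul hne
    have h3 := hsp _ hE0
    have hpz : ¬ p ∣ z.val := fun h => hE0 (hvan _ h)
    have hg0 : 0 < g := Nat.pos_of_ne_zero (by rintro rfl; rw [zero_mul] at hgd; exact hm hgd.symm)
    have h4 : Nat.gcd z.val m = g := by
      by_contra h
      exact hy0 (hy z hpz (lt_of_le_of_ne (Nat.le_of_dvd hg0 h3) h))
    obtain ⟨b, hb⟩ := exists_iota hgd (h4 ▸ Nat.gcd_dvd_left z.val m : g ∣ z.val)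
    exact hz (mem_image.mpr ⟨b, mem_univ b, hb⟩)
  rw [h1, mul_sum]
  refine sum_congr rfl fun b _ => ?_
  rw [iota_val hgd, htr]
  ring

lemma ED_eq_sum {d : ℕ} [NeZero d] (T : List (ℕ × ℕ × ℕ)) (a : ℕ) (F : ZMod d → ℤ) :
    ED d T (fun z => F ((z : ℕ) : ZMod d)) a = ∑ b, F b * tf T a b := by
  have e : (fun z : ℕ => F ((z : ℕ) : ZMod d)) =
      fun z : ℕ => ∑ b : ZMod d, F b * (if (z : ZMod d) = b then 1 else 0) := by
    funext z
    simp
  rw [e, ED_sum]
  refine sum_congr rfl fun b _ => ?_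
  rw [ED_smul]
  rfl

/-- **The mixed differences vanish.** -/
theorem ED_zero_of {p : ℕ} (hp : p.Prime) {g d : ℕ} [NeZero d] (hgd : g * d = m) (hpd : p ∣ d)
    (hpg : ¬ p ∣ g) {Q : List ℕ} (hP : ∀ q ∈ p :: Q, q.Prime ∧ q ∣ d) (hnd : (p :: Q).Nodup)
    (hall : ∀ q, q.Prime → q ∣ d → q ∈ p :: Q) {T : List (ℕ × ℕ × ℕ)} (hT : T.map Prod.fst = Q)
    (hd : ∀ t ∈ T, t.2.1 < sz d t.1 ∧ t.2.2 < sz d t.1) {a : ℕ} (hG : GB d (p :: Q) a)
    {y y' : ZMod m → ℤ} (hy : Rel y) (hyy : Eqp p y y')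
    (hs : ∀ z : ZMod m, ¬ p ∣ z.val → Nat.gcd z.val m < g → od y' z = 0)
    (hN : (if 2 ∣ m then 2 else 1) * nm y < (p : ℤ) - 1) {v0 : ℕ} (hv0 : v0 < sz d p) :
    ED d T (fun z => od y' (iota g ((z : ℕ) : ZMod d))) (a + v0 * (d / p)) = 0 := by
  classical
  have hm := NeZero.ne m
  have hd0 := NeZero.ne d
  have hpm : p ∣ m := hpd.trans (Dvd.intro_left g hgd)
  obtain ⟨Op, w, hw, hF⟩ := exists_op hgd hm hpd hpg
  set K := KK m d with hK
  have hKd : Nat.Coprime K d := KK_coprime hm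
  have hpK : ¬ p ∣ K := fun h => (of_dvd_KK hm hp h).2 hpd
  -- the family
  let X : ℕ × ℕ → ℕ → ℤ := fun i n => if n ≡ i.2 [MOD K] then CC d p T a i.1 n else 0
  let S : Finset (ℕ × ℕ) := range (sz d p) ×ˢ (range K).filter (fun t => Nat.Coprime t K)
  have hS : ∀ i ∈ S, i.1 < sz d p ∧ i.2 < K ∧ Nat.Coprime i.2 K := by
    intro i hi
    simp only [S, mem_product, mem_range, mem_filter] at hi
    exact ⟨hi.1, hi.2.1, hi.2.2⟩
  have hXW : ∀ i ∈ S, WN (d * K) (fun q => q ∣ d ∧ q ≠ p) (fun q => q ∣ d ∨ q ∣ K) (X i) := by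
    intro i hi
    obtain ⟨h1, h2, h3⟩ := hS i hi
    exact WN_lift hKd h3 (A := fun q => q ≠ p) (fun x z h => CC_per T a i.1 x z h)
      (fun q hq hqd n hn => CC_unit hP hnd hT hd hG h1 hq hqd hn)
      (fun q hq hqd hqp n => CC_dist hall hT hq hqd hqp n)
  have hXD : ∀ i ∈ S, ∀ i' ∈ S, i.2 = i'.2 →
      WN (d * K) (fun q => q ∣ d ∧ True) (fun q => q ∣ d ∨ q ∣ K) (fun n => X i n - X i' n) := by
    intro i hi i' hi' hii
    obtain ⟨h1, h2, h3⟩ := hS i hi
    obtain ⟨h1', h2', h3'⟩ := hS i' hi'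
    have e : (fun n => X i n - X i' n) = fun n => if n ≡ i.2 [MOD K] then
        (CC d p T a i.1 n - CC d p T a i'.1 n) else 0 := by
      funext n
      simp only [X, ← hii]
      split_ifs <;> ring
    rw [e]
    refine WN_lift hKd h3 (A := fun _ => True)
      (C := fun n => CC d p T a i.1 n - CC d p T a i'.1 n)
      (fun x z h => by rw [CC_per T a i.1 x z h, CC_per T a i'.1 x z h])
      (fun q hq hqd n hn => by
        rw [CC_unit hP hnd hT hd hG h1 hq hqd hn, CC_unit hP hnd hT hd hG h1' hq hqd hn, sub_zero])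
      (fun q hq hqd _ n => ?_)
    by_cases hqp : q = p
    · subst hqp
      exact CC_dist_p i.1 i'.1 hq hqd n
    · rw [sum_sub_distrib, CC_dist hall hT hq hqd hqp n, CC_dist hall hT hq hqd hqp n, sub_zero]
  have hVK : ∀ q, q.Prime → q ∣ K → (q ∣ d ∨ q ∣ K) := fun q _ h => Or.inr h
  have hVK' : ∀ q, q.Prime → q ∣ K → (q = p ∨ q ∣ K) := fun q _ h => Or.inr h
  have hmono : ∀ {A : ℕ → Prop} {C : ℕ → ℤ}, WN (d * K) A (fun q => q ∣ d ∨ q ∣ K) C →
      WN (d * K) A (fun q => q = p ∨ q ∣ K) C := by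
    intro A C h
    refine h.mono (fun _ _ _ h => h) ?_
    rintro q _ _ (h | h)
    · exact Or.inl (h ▸ hpd)
    · exact Or.inr h
  have hqdK : ∀ q, q.Prime → q ∣ d → ¬ q ∣ K := fun q hq h h' => (of_dvd_KK hm hq h').2 h
  have hEW : ∀ i ∈ S, WN m (fun q => q ≠ p) (fun q => q = p) (Op (X i)) := by
    intro i hi
    refine (hF.wn _ _ _ (hmono (hXW i hi)) hVK' (fun q hq hqd hqp =>
      ⟨⟨hqd, hqp⟩, fun h => h.elim hqp (hqdK q hq hqd)⟩)).mono ?_ ?_
    · intro q hq hqm hqp
      by_cases hqd : q ∣ d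
      · exact Or.inl ⟨hqd, hqp⟩
      · exact Or.inr (dvd_KK hm hq hqm hqd)
    · rintro q hq _ rfl
      exact ⟨Or.inl rfl, hpK⟩
  have hED : ∀ i ∈ S, ∀ i' ∈ S, i.2 = i'.2 →
      WN m (fun _ => True) (fun q => q = p) (fun n => Op (X i) n - Op (X i') n) := by
    intro i hi i' hi' hii
    have e : (fun n => Op (X i) n - Op (X i') n) = Op (fun n => X i n - X i' n) :=
      funext fun n => (hF.sub _ _ n).symm
    rw [e]
    refine (hF.wn _ _ _ (hmono (hXD i hi i' hi' hii)) hVK' (fun q hq hqd hqp =>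
      ⟨⟨hqd, trivial⟩, fun h => h.elim hqp (hqdK q hq hqd)⟩)).mono ?_ ?_
    · intro q hq hqm _
      by_cases hqd : q ∣ d
      · exact Or.inl ⟨hqd, trivial⟩
      · exact Or.inr (dvd_KK hm hq hqm hqd)
    · rintro q hq _ rfl
      exact ⟨Or.inl rfl, hpK⟩
  -- the bound
  have hX1 : ∀ n, ∑ i ∈ S, |X i n| ≤ 1 := by
    intro n
    simp only [S, sum_product]
    refine le_trans (sum_le_sum fun v _ => ?_) (CC_sum hP hnd hT hd a n)
    have h1 : ∀ t ∈ (range K).filter (fun t => Nat.Coprime t K),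
        |X (v, t) n| = if n % K = t then |CC d p T a v n| else 0 := by
      intro t ht
      rw [mem_filter, mem_range] at ht
      have h2 : (n ≡ t [MOD K]) ↔ (n % K = t) := by
        unfold Nat.ModEq
        rw [Nat.mod_eq_of_lt ht.1]
      simp only [X, h2]
      split_ifs
      · rfl
      · exact abs_zero
    rw [sum_congr rfl h1, sum_ite_eq]
    split_ifs
    · exact le_rfl
    · exact abs_nonneg _
  have hbd := hF.bd (ℕ × ℕ) S X _ _ 1 hXW hVK hX1
  have hsum : ∑ i ∈ S, |PP y (Op (X i))| ≤ nm y * (BB m d * w) := by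
    calc ∑ i ∈ S, |PP y (Op (X i))| ≤ ∑ i ∈ S, ∑ x : ZMod m, |od y x| * |Op (X i) x.val| := by
          refine sum_le_sum fun i _ => ?_
          unfold PP
          refine (abs_sum_le_sum_abs _ _).trans (le_of_eq ?_)
          exact sum_congr rfl fun x _ => abs_mul _ _
      _ = ∑ x : ZMod m, |od y x| * ∑ i ∈ S, |Op (X i) x.val| := by
          rw [sum_comm]
          exact sum_congr rfl fun x _ => (mul_sum _ _ _).symm
      _ ≤ ∑ x : ZMod m, |od y x| * (BB m d * w) := by
          refine sum_le_sum fun x _ => mul_le_mul_of_nonneg_left ?_ (abs_nonneg _)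
          have := hbd x.val
          rwa [mul_one] at this
      _ = nm y * (BB m d * w) := by unfold nm; rw [sum_mul]
  -- the values
  set κ := fun v : ℕ => ED d T (fun z => od y' (iota g ((z : ℕ) : ZMod d))) (a + v * (d / p)) with hκ
  have hval : ∀ i ∈ S, PP y (Op (X i)) = w * κ i.1 := by
    intro i hi
    obtain ⟨h1, h2, h3⟩ := hS i hi
    have e1 : PP y (Op (X i)) = PP y' (Op (X i)) := by
      rw [PP_eq, PP_eq]
      have h4 := hyy ℤ _ (WD_of_WN hpm hp (hEW i hi))
      simpa only [smul_eq_mul] using h4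
    rw [e1, PP_level (C := CC d p T a i.1) (w := w) hgd hpg hpm
      ((hEW i hi).van p hp hpm rfl) (hF.sp _ (fun n hn => ?_))
      (hF.tr (CC d p T a i.1) i.2 (fun x z h => CC_per T a i.1 x z h)) hs]
    · congr 1
      simp only [hκ]
      rw [ED_eq_sum T (a + i.1 * (d / p)) (fun b : ZMod d => od y' (iota g b))]
      refine sum_congr rfl fun b _ => ?_
      unfold CC
      rw [ZMod.natCast_zmod_val]
    · by_contra hcon
      obtain ⟨q, hq, hq1, hq2⟩ := Nat.Prime.not_coprime_iff_dvd.mp hcon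
      apply hn
      have hqdK' : q ∣ d ∨ q ∣ K := hq.dvd_mul.mp hq2
      exact (hXW i hi).van q hq hq2 hqdK' n hq1
  have hK0 : 0 < K := Nat.pos_of_ne_zero (KK_ne hm)
  -- all values are equal
  have hconst : ∀ v < sz d p, κ v = κ v0 := by
    intro v hv
    obtain ⟨t, ht, htK⟩ : ∃ t, t < K ∧ Nat.Coprime t K := by
      by_cases h1 : K = 1
      · exact ⟨0, by omega, by rw [h1]; exact Nat.coprime_one_right 0⟩
      · exact ⟨1, by omega, Nat.coprime_one_left K⟩
    have hi : (v, t) ∈ S := by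
      simp only [S, mem_product, mem_range, mem_filter]
      exact ⟨hv, ht, htK⟩
    have hi' : (v0, t) ∈ S := by
      simp only [S, mem_product, mem_range, mem_filter]
      exact ⟨hv0, ht, htK⟩
    have h1 := PP_zero (hED _ hi _ hi' rfl) hy
    rw [PP_sub, hval _ hi, hval _ hi', ← mul_sub] at h1
    have h2 := (mul_eq_zero.mp h1).resolve_left hw.ne'
    exact sub_eq_zero.mp h2
  have hcard : ((range K).filter (fun t => Nat.Coprime t K)).card = Nat.totient K := by
    rw [Nat.totient_eq_card_coprime]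
    congr 1
    apply filter_congr
    intro t _
    exact Nat.coprime_comm
  have hsum2 : ∑ i ∈ S, |PP y (Op (X i))| = (sz d p : ℤ) * Nat.totient K * (w * |κ v0|) := by
    have h1 : ∀ i ∈ S, |PP y (Op (X i))| = w * |κ v0| := by
      intro i hi
      rw [hval i hi, hconst i.1 (hS i hi).1, abs_mul, abs_of_pos hw]
    rw [sum_congr rfl h1, sum_const, nsmul_eq_mul]
    congr 1
    simp only [S, card_product, card_range, hcard]
    push_cast
    rfl
  rw [hsum2] at hsum
  have hBB := BB_le (d := d) hm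
  have htot : (0 : ℤ) < Nat.totient K := by exact_mod_cast Nat.totient_pos.mpr hK0
  have hnm : 0 ≤ nm y := sum_nonneg fun _ _ => abs_nonneg _
  have hsz := sz_ge d p
  have hp1 := hp.one_le
  by_contra hne
  have hκ1 : 1 ≤ |κ v0| := Int.one_le_abs hne
  have h1 : (sz d p : ℤ) * Nat.totient K * (w * |κ v0|) ≤
      nm y * ((if 2 ∣ m then 2 else 1) * Nat.totient K * w) := by
    refine hsum.trans ?_
    apply mul_le_mul_of_nonneg_left _ hnm
    exact mul_le_mul_of_nonneg_right hBB hw.le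
  have h2 : (sz d p : ℤ) * (Nat.totient K * w) ≤ (sz d p : ℤ) * Nat.totient K * (w * |κ v0|) := by
    have h3 : (0 : ℤ) ≤ (sz d p : ℤ) * Nat.totient K * w := by positivity
    nlinarith
  have h3 : (sz d p : ℤ) * (Nat.totient K * w) ≤
      ((if 2 ∣ m then 2 else 1) * nm y) * (Nat.totient K * w) := by
    refine (h2.trans h1).trans (le_of_eq ?_)
    ring
  have h4 : (sz d p : ℤ) ≤ (if 2 ∣ m then 2 else 1) * nm y :=
    le_of_mul_le_mul_right h3 (mul_pos htot hw)
  have h5 : (p : ℤ) - 1 ≤ sz d p := by omega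
  linarith

end Run7.h919
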