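import Pool.Agent.Run7.h919.Lp4

/-!
Clearing a level by the distribution relations at the primes different from `p`.
-/

namespace Run7.h919

open Finset Pool.Agent.H916R2

lemma sum_bxs_cons {A : Type*} [AddCommMonoid A] (n : ℕ) (L : List ℕ) (f : List ℕ → A) :
    ∑ v ∈ bxs (n :: L), f v = ∑ i ∈ range n, ∑ w ∈ bxs L, f (i :: w) := by
  simp only [bxs]
  rw [sum_image, sum_product]
  rintro ⟨i, v⟩ _ ⟨j, w⟩ _ h
  simp only [List.cons.injEq] at h
  exact Prod.ext h.1 h.2

/-- the distribution relations at the primes different from `p` -/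
def DP (p : ℕ) {d : ℕ} {A : Type*} [AddCommGroup A] (c : ZMod d → A) : Prop :=
  ∀ q d', q.Prime → q ≠ p → q * d' = d → ∀ a,
    ∑ i ∈ range q, c (a + (i : ZMod d) * (d' : ZMod d)) = c ((q : ZMod d) * a)

section grid

variable {d : ℕ} [NeZero d]

omit [NeZero d] in
lemma line_sum {l : ℕ} (hl : l.Prime) {A : Type*} [AddCommGroup A] {c : ZMod d → A}
    (hc : ∀ a, ∑ i ∈ range l, c (a + (i : ZMod d) * ((d / l : ℕ) : ZMod d)) = c ((l : ZMod d) * a))
    (b : ℕ) : ∑ i ∈ range (sz d l), c ((b + i * (d / l) : ℕ) : ZMod d) =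
      c ((l * b : ℕ) : ZMod d) - (if l * l ∣ d then 0 else 1 : ℤ) •
        c ((b + (l - 1) * (d / l) : ℕ) : ZMod d) := by
  have h1 : ∑ i ∈ range l, c ((b + i * (d / l) : ℕ) : ZMod d) = c ((l * b : ℕ) : ZMod d) := by
    have h2 := hc ((b : ℕ) : ZMod d)
    rw [Nat.cast_mul, ← h2]
    refine sum_congr rfl fun i _ => ?_
    push_cast
    rfl
  by_cases hll : l * l ∣ d
  · rw [sz, if_pos hll, if_pos hll, zero_smul, sub_zero, h1]
  · rw [sz, if_neg hll, if_neg hll, one_smul, ← h1]
    have e : range l = range (l - 1 + 1) := by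
      congr 1
      have := hl.pos
      omega
    rw [e, sum_range_succ, add_sub_cancel_right]

/-- **A function on a grid whose mixed differences vanish is equivalent to a function on the
non-units.** -/
theorem grid_rel {p : ℕ} : ∀ (P : List ℕ), (∀ q ∈ P, (q.Prime ∧ q ∣ d) ∧ q ≠ p) → P.Nodup →
    ∀ (a : ℕ), (∀ q ∈ P, cd d q a) → ∀ (F : ℕ → ℤ), (∀ x y, x ≡ y [MOD d] → F x = F y) →
    VV (P.map (sz d)) (fun w => F (pt d P a w)) →
    ∃ G : ZMod d → ℤ, (∀ z, IsUnit z → G z = 0) ∧
      ∀ (A : Type) [AddCommGroup A] (c : ZMod d → A), DP p c →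
        ∑ w ∈ bxs (P.map (sz d)), F (pt d P a w) • c ((pt d P a w : ℕ) : ZMod d) =
          ∑ z, G z • c z
  | [], _, _, a, _, F, _, hV => by
    refine ⟨fun _ => 0, fun _ _ => rfl, fun A _ c _ => ?_⟩
    have hV' : F a = 0 := hV
    simp [bxs, pt, hV']
  | l :: P, hP, hnd, a, hcd, F, hF, hV => by
    classical
    have hl := (hP l (by simp)).1
    have hlp := (hP l (by simp)).2
    have hnd' := List.nodup_cons.mp hnd
    have hP' : ∀ q ∈ P, (q.Prime ∧ q ∣ d) ∧ q ≠ p := fun q hq => hP q (by simp [hq])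
    have hP'' : ∀ q ∈ P, q.Prime ∧ q ∣ d := fun q hq => (hP' q hq).1
    have hld : l * (d / l) = d := Nat.mul_div_cancel' hl.2
    have key : ∀ i < sz d l, ∃ G : ZMod d → ℤ, (∀ z, IsUnit z → G z = 0) ∧
        ∀ (A : Type) [AddCommGroup A] (c : ZMod d → A), DP p c →
        ∑ w ∈ bxs (P.map (sz d)), (F (pt d P (a + i * (d / l)) w) - F (pt d P a w)) •
          c ((pt d P (a + i * (d / l)) w : ℕ) : ZMod d) = ∑ z, G z • c z := by
      intro i hi
      have hil : i < l := lt_of_lt_of_le hi (sz_le d l)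
      have hcd' : ∀ q ∈ P, cd d q (a + i * (d / l)) := by
        intro q hq
        rw [cd_shift (hP'' q hq).1 hl.1 (hP'' q hq).2 hl.2 (fun h => hnd'.1 (h ▸ hq))]
        exact hcd q (by simp [hq])
      have e1 : ∀ w, F (pt d P (a + i * (d / l)) w + (l - i) * (d / l)) = F (pt d P a w) := by
        intro w
        apply hF
        rw [← pt_add, show a + i * (d / l) + (l - i) * (d / l) = a + d by
          rw [add_assoc, ← add_mul, Nat.add_sub_cancel' hil.le, hld], pt_add]
        have : pt d P a w + d ≡ pt d P a w + 0 [MOD d] := Nat.ModEq.add_left _ (by simp [Nat.ModEq])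
        rwa [add_zero] at this
      obtain ⟨G, hG1, hG2⟩ := grid_rel P hP' hnd'.2 (a + i * (d / l)) hcd'
        (fun x => F x - F (x + (l - i) * (d / l))) (fun x y h => by
          rw [hF x y h, hF _ _ (h.add_right _)]) (by
          have h1 := hV i hi 0 (by omega)
          have e2 : (fun w => F (pt d (l :: P) a (i :: w)) - F (pt d (l :: P) a (0 :: w))) =
              fun w => F (pt d P (a + i * (d / l)) w) -
                F (pt d P (a + i * (d / l)) w + (l - i) * (d / l)) := by
            funext w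
            rw [e1 w]
            simp only [pt, zero_mul, add_zero]
          rw [e2] at h1
          exact h1)
      refine ⟨G, hG1, fun A _ c hc => ?_⟩
      rw [← hG2 A c hc]
      refine sum_congr rfl fun w _ => ?_
      rw [e1 w]
    choose! G hG1 hG2 using key
    let e : ℤ := if l * l ∣ d then 0 else 1
    let G' : ZMod d → ℤ := fun z => ∑ i ∈ range (sz d l), G i z +
      ∑ w ∈ bxs (P.map (sz d)), F (pt d P a w) *
        ((if z = ((l * pt d P a w : ℕ) : ZMod d) then 1 else 0) -
          e * (if z = ((pt d P a w + (l - 1) * (d / l) : ℕ) : ZMod d) then 1 else 0))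
    have hnu : ∀ n : ℕ, l ∣ n → ¬ IsUnit ((n : ℕ) : ZMod d) := by
      intro n hn h
      rw [ZMod.isUnit_iff_coprime] at h
      exact prime_dvd_one hl.1 (h ▸ Nat.dvd_gcd hn hl.2)
    refine ⟨G', ?_, ?_⟩
    · intro z hz
      simp only [G']
      rw [sum_eq_zero fun i hi => hG1 i (mem_range.mp hi) z hz, zero_add]
      apply sum_eq_zero
      intro w _
      have h1 : z ≠ ((l * pt d P a w : ℕ) : ZMod d) := fun h =>
        hnu _ (dvd_mul_right l _) (h ▸ hz)
      rw [if_neg h1]
      by_cases hll : l * l ∣ d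
      · simp [e, hll]
      · have hdv : l ∣ pt d P a w + (l - 1) * (d / l) :=
          (pt_dvd hl.1 hl.2 P hP'' hnd'.1 a _ w).mpr ((hcd l (by simp)).2 hll)
        have h2 : z ≠ ((pt d P a w + (l - 1) * (d / l) : ℕ) : ZMod d) := fun h =>
          hnu _ hdv (h ▸ hz)
        rw [if_neg h2]
        simp
    · intro A _ c hc
      have hline : ∀ b : ℕ, ∑ i ∈ range (sz d l), c ((b + i * (d / l) : ℕ) : ZMod d) =
          c ((l * b : ℕ) : ZMod d) - e • c ((b + (l - 1) * (d / l) : ℕ) : ZMod d) :=
        line_sum hl.1 (c := c) (hc l (d / l) hl.1 hlp hld)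
      clear_value e
      rw [List.map_cons, sum_bxs_cons]
      have e1 : ∀ i ∈ range (sz d l), ∑ w ∈ bxs (P.map (sz d)),
          F (pt d (l :: P) a (i :: w)) • c ((pt d (l :: P) a (i :: w) : ℕ) : ZMod d) =
          ∑ z, G i z • c z + ∑ w ∈ bxs (P.map (sz d)), F (pt d P a w) •
            c ((pt d P a w + i * (d / l) : ℕ) : ZMod d) := by
        intro i hi
        rw [← hG2 i (mem_range.mp hi) A c hc, ← sum_add_distrib]
        refine sum_congr rfl fun w _ => ?_
        simp only [pt]
        rw [sub_smul, pt_add d P a (i * (d / l)) w]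
        abel
      rw [sum_congr rfl e1, sum_add_distrib]
      simp only [G', add_smul, sum_add_distrib, sum_smul]
      congr 1
      · rw [sum_comm]
      · rw [sum_comm]
        have e2 : ∀ w ∈ bxs (P.map (sz d)), ∑ i ∈ range (sz d l), F (pt d P a w) •
            c ((pt d P a w + i * (d / l) : ℕ) : ZMod d) =
            ∑ z, (F (pt d P a w) *
              ((if z = ((l * pt d P a w : ℕ) : ZMod d) then 1 else 0) -
              e * (if z = ((pt d P a w + (l - 1) * (d / l) : ℕ) : ZMod d) then 1 else 0))) • c z := by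
          intro w _
          rw [← smul_sum, hline]
          simp only [mul_smul, sub_smul, ← smul_sum, sum_sub_distrib, ite_smul, one_smul, zero_smul,
            sum_ite_eq', mem_univ, if_true]
        rw [sum_congr rfl e2, sum_comm]

end grid

end Run7.h919
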