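import Pool.Agent.Run7.h919.Lp5

/-!
Removing the entries which are prime to a large prime.
-/

namespace Run7.h919

open Finset Pool.Agent.H916R2

variable {m : ℕ} [NeZero m]

lemma Eqp.trans {p : ℕ} {y y' y'' : ZMod m → ℤ} (h : Eqp p y y') (h' : Eqp p y' y'') :
    Eqp p y y'' := fun Q _ c hc => (h Q c hc).trans (h' Q c hc)

/-- Changing the values at the multiples of `k`. -/
lemma level_chg {k d : ℕ} [NeZero d] (hkd : k * d = m) (y : ZMod m → ℤ) (h : ZMod d → ℤ) :
    ∃ y' : ZMod m → ℤ, (∀ (Q : Type) [AddCommGroup Q] (c : ZMod m → Q),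
        ∑ z, y' z • c z = ∑ z, y z • c z + ∑ b : ZMod d, h b • c (iota k b)) ∧
      (∀ b : ZMod d, od y' (iota k b) = od y (iota k b) + od h b) ∧
      ∀ z : ZMod m, ¬ k ∣ z.val → od y' z = od y z := by
  classical
  have hk : 0 < k := Nat.pos_of_ne_zero (by
    rintro rfl; rw [zero_mul] at hkd; exact NeZero.ne m hkd.symm)
  let y' : ZMod m → ℤ := fun z => y z + if k ∣ z.val then h ((z.val / k : ℕ) : ZMod d) else 0
  have h1 : ∀ b : ZMod d, y' (iota k b) = y (iota k b) + h b := by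
    intro b
    simp only [y', iota_val hkd]
    rw [if_pos (dvd_mul_right k _), Nat.mul_div_cancel_left _ hk, ZMod.natCast_zmod_val]
  have h2 : ∀ z : ZMod m, ¬ k ∣ z.val → y' z = y z := by
    intro z hz
    simp only [y', if_neg hz, add_zero]
  refine ⟨y', ?_, ?_, ?_⟩
  · intro Q _ c
    rw [sum_split hkd, sum_split hkd (F := fun z => y z • c z)]
    simp only [h1, add_smul, sum_add_distrib]
    have h5 : ∑ z with ¬ k ∣ z.val, y' z • c z = ∑ z with ¬ k ∣ z.val, y z • c z := by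
      refine sum_congr rfl fun z hz => ?_
      rw [mem_filter] at hz
      rw [h2 z hz.2]
    rw [h5]
    abel
  · intro b
    unfold od
    rw [← iota_neg hkd, h1, h1]
    ring
  · intro z hz
    unfold od
    rw [h2 z hz, h2 (-z) (by rwa [dvd_neg_val (Dvd.intro d hkd)])]

lemma DP_iota {p k d : ℕ} [NeZero d] (hkd : k * d = m) {Q : Type*} [AddCommGroup Q]
    {c : ZMod m → Q} (hc : WD p c) : DP p (fun b : ZMod d => c (iota k b)) := by
  intro q d' hq hqp hqd a
  have h1 := hc.dist q (k * d') hq hqp (by rw [← hkd, ← hqd]; ring) (iota k a)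
  change ∑ i ∈ range q, c (iota k (a + (i : ZMod d) * (d' : ZMod d))) = c (iota k ((q : ZMod d) * a))
  rw [iota_natMul hkd, ← h1]
  refine sum_congr rfl fun i _ => ?_
  congr 1
  rw [iota_add hkd]
  congr 1
  have : (i : ZMod d) * (d' : ZMod d) = ((i * d' : ℕ) : ZMod d) := by push_cast; rfl
  rw [this, iota_natCast hkd]
  push_cast; ring

/-- the primes of `d` other than `p` -/
noncomputable def QL (d p : ℕ) : List ℕ := (d.primeFactors.erase p).toList

lemma mem_QL {d p q : ℕ} (hd : d ≠ 0) : q ∈ QL d p ↔ (q.Prime ∧ q ∣ d) ∧ q ≠ p := by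
  unfold QL
  rw [Finset.mem_toList, Finset.mem_erase, Nat.mem_primeFactors]
  tauto

/-- **One step.** -/
theorem grid_step {p : ℕ} (hp : p.Prime) (hp2 : p ≠ 2) {g d : ℕ} [NeZero d] (hgd : g * d = m)
    (hpd : p ∣ d) (hpg : ¬ p ∣ g) {y y' : ZMod m → ℤ} (hy : Rel y) (hyy : Eqp p y y')
    (hs : ∀ z : ZMod m, ¬ p ∣ z.val → Nat.gcd z.val m < g → od y' z = 0)
    (hN : (if 2 ∣ m then 2 else 1) * nm y < (p : ℤ) - 1) {b0 : ZMod d} (hb0 : IsUnit b0) :
    ∃ y'' : ZMod m → ℤ, Eqp p y y'' ∧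
      (∀ z : ZMod m, ¬ p ∣ z.val → Nat.gcd z.val m < g → od y'' z = 0) ∧
      (∀ b : ZMod d, IsUnit b → od y'' (iota g b) = od y' (iota g b) ∨ od y'' (iota g b) = 0) ∧
      od y'' (iota g b0) = 0 := by
  classical
  have hm := NeZero.ne m
  have hd0 := NeZero.ne d
  have hg0 : g ≠ 0 := by rintro rfl; rw [zero_mul] at hgd; exact hm hgd.symm
  have hP : ∀ q ∈ p :: QL d p, q.Prime ∧ q ∣ d := by
    intro q hq
    rcases List.mem_cons.mp hq with h | h
    · rw [h]; exact ⟨hp, hpd⟩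
    · exact ((mem_QL hd0).mp h).1
  have hnd : (p :: QL d p).Nodup := by
    rw [List.nodup_cons]
    exact ⟨fun h => ((mem_QL hd0).mp h).2 rfl, Finset.nodup_toList _⟩
  have hall : ∀ q, q.Prime → q ∣ d → q ∈ p :: QL d p := by
    intro q hq hqd
    by_cases h : q = p
    · rw [h]; simp
    · exact List.mem_cons_of_mem _ ((mem_QL hd0).mpr ⟨⟨hq, hqd⟩, h⟩)
  have hr : Nat.Coprime b0.val d := by
    have := (ZMod.isUnit_iff_coprime b0.val d).mp (by rwa [ZMod.natCast_zmod_val])
    exact this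
  obtain ⟨a, v, hG, hv, hpt⟩ := exists_base hd0 hr (p :: QL d p) hP hnd
  obtain ⟨v0, hv0, w0, hw0, rfl⟩ := hv
  set Q := QL d p with hQ
  set a1 := a + v0 * (d / p) with ha1
  have hnd' := List.nodup_cons.mp hnd
  have hG1 : GB d Q a1 := GB_step hd0 hp hpd hnd'.1 hG hv0
  have hPQ : ∀ q ∈ Q, q.Prime ∧ q ∣ d := fun q hq => hP q (by simp [hq])
  let F : ℕ → ℤ := fun z => od y' (iota g ((z : ℕ) : ZMod d))
  have hFper : ∀ x z, x ≡ z [MOD d] → F x = F z := by
    intro x z h
    simp only [F]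
    rw [(ZMod.natCast_eq_natCast_iff _ _ _).mpr h]
  have hV : VV (Q.map (sz d)) (fun w => F (pt d Q a1 w)) := by
    apply VV_of_ED d Q F a1
    intro T hT hdg
    exact ED_zero_of hp hgd hpd hpg hP hnd hall hT hdg hG hy hyy hs hN hv0
  obtain ⟨G, hGu, hGr⟩ := grid_rel (p := p) Q (fun q hq => ⟨hPQ q hq, fun h => hnd'.1 (h ▸ hq)⟩)
    hnd'.2 a1 (fun q hq => (hG1 q (hPQ q hq).1 (hPQ q hq).2).1 hq) F hFper hV
  let I : Finset (List ℕ) := bxs (Q.map (sz d))
  let q : List ℕ → ZMod d := fun w => ((pt d Q a1 w : ℕ) : ZMod d)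
  let H : ZMod d → ℤ := fun b => G b - ∑ w ∈ I, if b = q w then F (pt d Q a1 w) else 0
  obtain ⟨y'', h1, h2, h3⟩ := level_chg hgd y' H
  have hinj : ∀ w ∈ I, ∀ w' ∈ I, q w = q w' → w = w' := by
    intro w hw w' hw' h
    exact pt_inj Q hPQ hnd'.2 a1 a1 w w' ((mem_bxs _ _).mp hw) ((mem_bxs _ _).mp hw')
      (Nat.ModEq.refl _) ((ZMod.natCast_eq_natCast_iff _ _ _).mp h)
  have hpa1 : ¬ p ∣ a1 := (hG1 p hp hpd).2 hnd'.1
  have hneg : ∀ w ∈ I, ∀ w' ∈ I, q w ≠ - q w' := by
    intro w hw w' hw' h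
    have h4 : ((pt d Q a1 w + pt d Q a1 w' : ℕ) : ZMod d) = 0 := by
      push_cast
      change q w + q w' = 0
      rw [h]; ring
    rw [ZMod.natCast_eq_zero_iff] at h4
    have h5 : p ∣ pt d Q a1 w + pt d Q a1 w' := hpd.trans h4
    rw [pt_dvd hp hpd Q hPQ hnd'.1, add_comm, pt_dvd hp hpd Q hPQ hnd'.1] at h5
    have h6 : p ∣ 2 * a1 := by rw [two_mul]; exact h5
    rcases hp.dvd_mul.mp h6 with h7 | h7
    · exact hp2 ((Nat.prime_dvd_prime_iff_eq hp Nat.prime_two).mp h7)
    · exact hpa1 h7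
  have hFod : ∀ b : ZMod d, F b.val = od y' (iota g b) := by
    intro b
    simp only [F]
    rw [ZMod.natCast_zmod_val]
  -- the odd part of `H` at a unit
  have hsum : ∀ b : ZMod d, (∑ w ∈ I, if b = q w then F (pt d Q a1 w) else 0) =
      if ∃ w ∈ I, q w = b then od y' (iota g b) else 0 := by
    intro b
    by_cases hb : ∃ w ∈ I, q w = b
    · rw [if_pos hb]
      obtain ⟨w, hw, rfl⟩ := hb
      rw [Finset.sum_eq_single w]
      · rw [if_pos rfl]
      · intro w' hw' hne
        rw [if_neg (fun h => hne (hinj w' hw' w hw h.symm))]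
      · intro h; exact absurd hw h
    · rw [if_neg hb]
      apply sum_eq_zero
      intro w hw
      rw [if_neg (fun h => hb ⟨w, hw, h.symm⟩)]
  have hodH : ∀ b : ZMod d, IsUnit b → od H b = 0 ∨ od H b = - od y' (iota g b) := by
    intro b hb
    have e1 : od H b = - (∑ w ∈ I, if b = q w then F (pt d Q a1 w) else 0) +
        ∑ w ∈ I, if -b = q w then F (pt d Q a1 w) else 0 := by
      simp only [od, H]
      rw [hGu b hb, hGu (-b) hb.neg]; ring
    rw [e1, hsum b, hsum (-b)]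
    by_cases h4 : ∃ w ∈ I, q w = b
    · have h5 : ¬ ∃ w ∈ I, q w = -b := by
        rintro ⟨w', hw', hw''⟩
        obtain ⟨w, hw, hwb⟩ := h4
        apply hneg w hw w' hw'
        rw [hw'', hwb, neg_neg]
      rw [if_pos h4, if_neg h5]
      right; ring
    · rw [if_neg h4]
      by_cases h5 : ∃ w ∈ I, q w = -b
      · rw [if_pos h5, iota_neg hgd, od_neg]
        right; ring
      · rw [if_neg h5]
        left; ring
  refine ⟨y'', hyy.trans ?_, ?_, ?_, ?_⟩
  · intro A _ c hc
    rw [h1 A c]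
    have h4 := hGr A (fun b : ZMod d => c (iota g b)) (DP_iota hgd hc)
    have h5 : ∑ b : ZMod d, H b • c (iota g b) = 0 := by
      simp only [H, sub_smul, sum_sub_distrib]
      rw [← h4, sum_comb I q (fun w => F (pt d Q a1 w)) (fun b : ZMod d => c (iota g b))]
      exact sub_self _
    rw [h5, add_zero]
  · intro z hpz hz
    rw [h3 z, hs z hpz hz]
    intro hgz
    have := Nat.le_of_dvd (Nat.gcd_pos_of_pos_right _ (Nat.pos_of_ne_zero hm))
      (Nat.dvd_gcd hgz (Dvd.intro d hgd))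
    omega
  · intro b hb
    rw [h2 b]
    rcases hodH b hb with h | h
    · left; rw [h, add_zero]
    · right; rw [h]; ring
  · have hb : ∃ w ∈ I, q w = b0 := by
      refine ⟨w0, (mem_bxs _ _).mpr hw0, ?_⟩
      simp only [q]
      have h4 : pt d (p :: Q) a (v0 :: w0) = pt d Q a1 w0 := rfl
      rw [← h4, (ZMod.natCast_eq_natCast_iff _ _ _).mpr hpt, ZMod.natCast_zmod_val]
    have h5 : ¬ ∃ w ∈ I, q w = -b0 := by
      rintro ⟨w', hw', hw''⟩
      obtain ⟨w, hw, hwb⟩ := hb
      apply hneg w hw w' hw'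
      rw [hw'', hwb, neg_neg]
    have e1 : od H b0 = - (∑ w ∈ I, if b0 = q w then F (pt d Q a1 w) else 0) +
        ∑ w ∈ I, if -b0 = q w then F (pt d Q a1 w) else 0 := by
      simp only [od, H]
      rw [hGu b0 hb0, hGu (-b0) hb0.neg]; ring
    rw [h2 b0, e1, hsum b0, hsum (-b0), if_pos hb, if_neg h5]
    ring

/-- **Clearing a level.** -/
theorem grid_level {p : ℕ} (hp : p.Prime) (hp2 : p ≠ 2) {g d : ℕ} [NeZero d] (hgd : g * d = m)
    (hpd : p ∣ d) (hpg : ¬ p ∣ g) {y : ZMod m → ℤ} (hy : Rel y)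
    (hN : (if 2 ∣ m then 2 else 1) * nm y < (p : ℤ) - 1) : ∀ (n : ℕ) (y' : ZMod m → ℤ),
    Eqp p y y' → (∀ z : ZMod m, ¬ p ∣ z.val → Nat.gcd z.val m < g → od y' z = 0) →
    (∃ S : Finset (ZMod d), S.card = n ∧ ∀ b, IsUnit b → b ∉ S → od y' (iota g b) = 0) →
    ∃ y'' : ZMod m → ℤ, Eqp p y y'' ∧
      (∀ z : ZMod m, ¬ p ∣ z.val → Nat.gcd z.val m < g → od y'' z = 0) ∧
      ∀ b : ZMod d, IsUnit b → od y'' (iota g b) = 0
  | 0, y', h1, h2, ⟨S, hS, h3⟩ => by
    refine ⟨y', h1, h2, fun b hb => h3 b hb ?_⟩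
    rw [Finset.card_eq_zero.mp hS]
    exact notMem_empty b
  | n + 1, y', h1, h2, ⟨S, hS, h3⟩ => by
    classical
    obtain ⟨b0, hb0⟩ : S.Nonempty := Finset.card_pos.mp (by omega)
    by_cases hu : IsUnit b0
    · obtain ⟨y1, e1, e2, e3, e4⟩ := grid_step hp hp2 hgd hpd hpg hy h1 h2 hN hu
      refine grid_level hp hp2 hgd hpd hpg hy hN n y1 e1 e2 ⟨S.erase b0, ?_, ?_⟩
      · rw [card_erase_of_mem hb0, hS]; rfl
      · intro b hb hbS
        by_cases hbb : b = b0
        · rw [hbb]; exact e4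
        · rcases e3 b hb with h | h
          · rw [h]
            exact h3 b hb (fun h' => hbS (mem_erase.mpr ⟨hbb, h'⟩))
          · exact h
    · refine grid_level hp hp2 hgd hpd hpg hy hN n y' h1 h2 ⟨S.erase b0, ?_, ?_⟩
      · rw [card_erase_of_mem hb0, hS]; rfl
      · intro b hb hbS
        apply h3 b hb
        intro h'
        exact hbS (mem_erase.mpr ⟨fun h => hu (h ▸ hb), h'⟩)

/-- **Processing the levels.** -/
theorem grid_all {p : ℕ} (hp : p.Prime) (hp2 : p ≠ 2) (hpm : p ∣ m) {y : ZMod m → ℤ} (hy : Rel y)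
    (hN : (if 2 ∣ m then 2 else 1) * nm y < (p : ℤ) - 1) : ∀ g : ℕ, ∃ y' : ZMod m → ℤ,
    Eqp p y y' ∧ ∀ z : ZMod m, ¬ p ∣ z.val → Nat.gcd z.val m < g → od y' z = 0
  | 0 => ⟨y, fun _ _ _ _ => rfl, fun z _ h => absurd h (by omega)⟩
  | g + 1 => by
    obtain ⟨y', h1, h2⟩ := grid_all hp hp2 hpm hy hN g
    have hm := NeZero.ne m
    by_cases hg : g ∣ m ∧ ¬ p ∣ g
    · obtain ⟨⟨d, hd⟩, hpg⟩ := hg
      have hgd : g * d = m := hd.symm
      have hd0 : NeZero d := ⟨by rintro rfl; rw [mul_zero] at hgd; exact hm hgd.symm⟩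
      have hpd : p ∣ d := by
        rw [← hgd] at hpm
        exact (hp.dvd_mul.mp hpm).resolve_left hpg
      obtain ⟨y'', e1, e2, e3⟩ := grid_level hp hp2 hgd hpd hpg hy hN _ y' h1 h2
        ⟨univ, rfl, fun b _ h => absurd (mem_univ b) h⟩
      refine ⟨y'', e1, fun z hpz hz => ?_⟩
      rcases Nat.lt_succ_iff_lt_or_eq.mp hz with h | h
      · exact e2 z hpz h
      · obtain ⟨b, hb⟩ := exists_iota hgd (h ▸ Nat.gcd_dvd_left z.val m : g ∣ z.val)
        rw [← hb]
        apply e3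
        have hv : z.val = g * b.val := by rw [← hb, iota_val hgd]
        have hgg : Nat.gcd (g * b.val) (g * d) = g := by rw [hgd, ← hv, h]
        rw [Nat.gcd_mul_left] at hgg
        have hg0 : 0 < g := Nat.pos_of_ne_zero (by
          rintro rfl; rw [zero_mul] at hgd; exact hm hgd.symm)
        have hg' : Nat.gcd b.val d = 1 := by
          have : g * Nat.gcd b.val d = g * 1 := by rw [hgg, mul_one]
          exact Nat.eq_of_mul_eq_mul_left hg0 this
        have := (ZMod.isUnit_iff_coprime b.val d).mpr hg'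
        rwa [ZMod.natCast_zmod_val] at this
    · refine ⟨y', h1, fun z hpz hz => ?_⟩
      rcases Nat.lt_succ_iff_lt_or_eq.mp hz with h | h
      · exact h2 z hpz h
      · exfalso
        apply hg
        refine ⟨h ▸ Nat.gcd_dvd_right z.val m, fun hpg => hpz ?_⟩
        exact (h ▸ hpg : p ∣ Nat.gcd z.val m).trans (Nat.gcd_dvd_left _ _)

/-- **The entries which are prime to a large prime do not matter.** -/
theorem large_kill {p : ℕ} (hp : p.Prime) (hp2 : p ≠ 2) (hpm : p ∣ m) {y : ZMod m → ℤ}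
    (hy : Rel y) (hN : (if 2 ∣ m then 2 else 1) * nm y < (p : ℤ) - 1) {Q : Type} [AddCommGroup Q]
    {c : ZMod m → Q} (hc : OddDist c) : ∑ z with ¬ p ∣ z.val, y z • c z = 0 := by
  classical
  have hm := NeZero.ne m
  obtain ⟨y', h1, h2⟩ := grid_all hp hp2 hpm hy hN (m + 1)
  let c' : ZMod m → Q := fun z => if p ∣ z.val then 0 else c z
  have hpv : ∀ (q d : ℕ), q * d = m → q.Prime → q ≠ p → ∀ (a : ZMod m) (i : ℕ),
      (p ∣ (a + (i : ZMod m) * (d : ZMod m)).val ↔ p ∣ a.val) := by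
    intro q d hqd hq hqp a i
    have hpd : p ∣ d := by
      rw [← hqd] at hpm
      rcases hp.dvd_mul.mp hpm with h | h
      · exact absurd ((Nat.prime_dvd_prime_iff_eq hp hq).mp h).symm hqp
      · exact h
    have h3 : (a + (i : ZMod m) * (d : ZMod m)).val ≡ a.val + i * d [MOD p] := by
      apply Nat.ModEq.of_dvd hpm
      apply val_eq_modEq
      push_cast
      rw [ZMod.natCast_zmod_val]
    rw [h3.dvd_iff dvd_rfl]
    exact (Nat.dvd_add_iff_left (hpd.mul_left i)).symm
  have hW : WD p c' := by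
    refine ⟨fun a => ?_, fun a ha => ?_, fun q d hq hqp hqd a => ?_⟩
    · simp only [c', dvd_neg_val hpm]
      split_ifs
      · rw [neg_zero]
      · exact hc.neg a
    · simp only [c', if_pos ha]
    · simp only [c', hpv q d hqd hq hqp a]
      have h3 : p ∣ ((q : ZMod m) * a).val ↔ p ∣ a.val := by
        have h4 : ((q : ZMod m) * a).val ≡ q * a.val [MOD p] := by
          apply Nat.ModEq.of_dvd hpm
          apply val_eq_modEq
          push_cast
          rw [ZMod.natCast_zmod_val]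
        rw [h4.dvd_iff dvd_rfl]
        constructor
        · intro h
          rcases hp.dvd_mul.mp h with h | h
          · exact absurd ((Nat.prime_dvd_prime_iff_eq hp hq).mp h).symm hqp
          · exact h
        · intro h; exact h.mul_left q
      simp only [h3]
      split_ifs
      · exact sum_const_zero
      · exact hc.dist q d hq hqd a
  have h3 := h1 Q c' hW
  have h4 : ∑ z, y' z • c' z = 0 := by
    refine Finset.sum_involution (fun z _ => -z) ?_ ?_ (fun z _ => mem_univ _) (fun z _ => neg_neg z)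
    · intro z _
      by_cases hpz : p ∣ z.val
      · rw [hW.van z hpz, hW.neg, hW.van z hpz]; simp
      · have h5 : od y' z = 0 := by
          apply h2 z hpz
          have := Nat.le_of_dvd (Nat.pos_of_ne_zero hm) (Nat.gcd_dvd_right z.val m)
          omega
        have h6 : y' (-z) = y' z := by
          unfold od at h5
          omega
        rw [h6, hW.neg, smul_neg, add_neg_cancel]
    · intro z _ hne h
      apply hne
      have h5 : z + z = 0 := by
        nth_rewrite 2 [← h]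
        exact add_neg_cancel z
      have h6 : c' z = 0 := by
        simp only [c']
        split_ifs
        · rfl
        · exact hc.half z h5
      rw [h6, smul_zero]
  rw [h4] at h3
  rw [← h3, sum_filter]
  refine sum_congr rfl fun z _ => ?_
  simp only [c']
  by_cases hz : p ∣ z.val
  · rw [if_neg (not_not.mpr hz), if_pos hz, smul_zero]
  · rw [if_pos hz, if_neg hz]

end Run7.h919
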