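import Pool.Agent.Run7.h919.Lp6
import Pool.Agent.N993.ThreeP

/-!
Removing all the large primes; the transfer to the small part of the degree.
-/

namespace Run7.h919

open Finset Pool.Agent.H916R2 Pool.Agent.N992 Pool.Agent.N993

set_option linter.unusedSectionVars false

/-- the translate of the sawtooth is an odd distribution -/
lemma saw_oddDist {m : ℕ} [NeZero m] (t : (ZMod m)ˣ) :
    OddDist (fun a : ZMod m => saw ((t : ZMod m) * a)) := by
  refine ⟨fun a => by rw [mul_neg, saw_neg], fun a ha => ?_, fun p d _ hpd a => saw_dist_unit hpd t a⟩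
  apply saw_half
  rw [← mul_add, ha, mul_zero]

/-- Removing one large prime. -/
theorem drop_one {m d p : ℕ} [NeZero m] [NeZero d] (hp : p.Prime) (hp2 : p ≠ 2) (hpd : p * d = m)
    {y : ZMod m → ℤ} (hy : Rel y) (hN : (if 2 ∣ m then 2 else 1) * nm y < (p : ℤ) - 1) :
    Rel (fun b : ZMod d => y (iota p b)) ∧ ∀ (Q : Type) [AddCommGroup Q] (c : ZMod m → Q),
      OddDist c → ∑ a, y a • c a = ∑ b : ZMod d, y (iota p b) • c (iota p b) := by
  classical
  have hsum : ∀ (Q : Type) [AddCommGroup Q] (c : ZMod m → Q),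
      OddDist c → ∑ a, y a • c a = ∑ b : ZMod d, y (iota p b) • c (iota p b) := by
    intro Q _ c hc
    rw [sum_split hpd, large_kill hp hp2 (Dvd.intro d hpd) hy hN hc, add_zero]
  refine ⟨?_, hsum⟩
  intro t'
  obtain ⟨t, ht⟩ := ZMod.unitsMap_surjective (Dvd.intro_left p hpd : d ∣ m) t'
  have h1 := hsum ℤ _ (saw_oddDist t)
  simp only [smul_eq_mul] at h1
  rw [hy t] at h1
  have h3 : ∀ b : ZMod d, saw ((t : ZMod m) * iota p b) = p * saw ((t' : ZMod d) * b) := by
    intro b
    rw [unit_iota hpd, saw_iota hpd, ht]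
  have h4 : (p : ℤ) * ∑ b : ZMod d, y (iota p b) * saw ((t' : ZMod d) * b) = 0 := by
    rw [mul_sum, h1]
    refine sum_congr rfl fun b _ => ?_
    rw [h3]; ring
  exact (mul_eq_zero.mp h4).resolve_left (by exact_mod_cast hp.ne_zero)

/-- **Removing all the large primes.** -/
theorem drop_all : ∀ (n k m m0 : ℕ) [NeZero m] [NeZero m0], k = n → k * m0 = m →
    ∀ (y : ZMod m → ℤ) (M : ℤ), Rel y → nm y ≤ M →
    (∀ p : ℕ, p.Prime → p ∣ k → p ≠ 2 ∧ (if 2 ∣ m then 2 else 1) * M < (p : ℤ) - 1) →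
    ∃ y0 : ZMod m0 → ℤ, Rel y0 ∧ ∀ (Q : Type) [AddCommGroup Q] (c : ZMod m → Q),
      OddDist c → ∑ a, y a • c a = ∑ b : ZMod m0, y0 b • c (iota k b) := by
  intro n
  induction n using Nat.strong_induction_on with
  | _ n ih =>
  intro k m m0 _ _ hkn hkm y M hy hM hbig
  have hm : m ≠ 0 := NeZero.ne m
  have hm0 : m0 ≠ 0 := NeZero.ne m0
  have hk0 : k ≠ 0 := by rintro rfl; rw [zero_mul] at hkm; exact hm hkm.symm
  by_cases hk1 : k = 1
  · subst hk1
    rw [one_mul] at hkm
    subst hkm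
    refine ⟨y, hy, fun Q _ c _ => sum_congr rfl fun b _ => ?_⟩
    congr 2
    unfold iota
    rw [one_mul, ZMod.natCast_zmod_val]
  · have hp := Nat.minFac_prime hk1
    set p := k.minFac with hpdef
    obtain ⟨k', hk'⟩ : p ∣ k := Nat.minFac_dvd k
    have hk'0 : k' ≠ 0 := by rintro rfl; rw [mul_zero] at hk'; exact hk0 hk'
    have hNZ : NeZero (k' * m0) := ⟨Nat.mul_ne_zero hk'0 hm0⟩
    have hpd : p * (k' * m0) = m := by rw [← hkm, hk']; ring
    obtain ⟨hp2, hp3⟩ := hbig p hp (by rw [hk']; exact dvd_mul_right p k')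
    have hM0 : 0 ≤ M := le_trans (sum_nonneg fun _ _ => abs_nonneg _) hM
    have hN : (if 2 ∣ m then 2 else 1) * nm y < (p : ℤ) - 1 := by
      refine lt_of_le_of_lt ?_ hp3
      exact mul_le_mul_of_nonneg_left hM (by split_ifs <;> norm_num)
    obtain ⟨h1, h2⟩ := drop_one hp hp2 hpd hy hN
    have hk'lt : k' < n := by
      rw [← hkn, hk']
      have := hp.two_le
      have : 0 < k' := Nat.pos_of_ne_zero hk'0
      nlinarith
    obtain ⟨y0, h3, h4⟩ := ih k' hk'lt k' (k' * m0) m0 rfl rfl (fun b => y (iota p b)) M h1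
      ((nm_iota_le hpd y).trans hM) (by
        intro q hq hqk
        obtain ⟨h5, h6⟩ := hbig q hq (by rw [hk']; exact hqk.mul_left p)
        refine ⟨h5, lt_of_le_of_lt ?_ h6⟩
        apply mul_le_mul_of_nonneg_right _ hM0
        by_cases h7 : 2 ∣ k' * m0
        · rw [if_pos h7, if_pos (by rw [← hpd]; exact h7.mul_left p)]
        · rw [if_neg h7]
          split_ifs <;> norm_num)
    refine ⟨y0, h3, fun Q _ c hc => ?_⟩
    rw [h2 Q c hc, h4 Q _ (hc.comp_iota hpd)]
    refine sum_congr rfl fun b _ => ?_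
    rw [iota_comp hpd, ← hk']

/-- The functions killing the base kill everything generated by it. -/
lemma gen_sum {m : ℕ} [NeZero m] {B : Multiset (ZMod m) → Prop} {Q : Type} [AddCommGroup Q]
    {c : ZMod m → Q} (hc : OddDist c) (hB : ∀ s, B s → (s.map c).sum = 0) {s : Multiset (ZMod m)}
    (h : Generated m B s) : (s.map c).sum = 0 := by
  have hm : m ≠ 0 := NeZero.ne m
  have hc0 : c 0 = 0 := hc.half 0 (by rw [add_zero])
  induction h with
  | ofBase s hs => exact hB s hs
  | pair a ha =>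
    simp only [Multiset.insert_eq_cons, Multiset.map_cons, Multiset.map_singleton,
      Multiset.sum_cons, Multiset.sum_singleton, hc.neg]
    exact add_neg_cancel _
  | standard p hp hp2 hpm a ha =>
    have h1 := hc.dist p (m / p) hp (Nat.mul_div_cancel' hpm) a
    rw [Multiset.map_cons, Multiset.sum_cons, Multiset.map_map, hc.neg]
    have h2 : (Multiset.map (c ∘ fun i : ℕ => a + (i : ZMod m) * ((m / p : ℕ) : ZMod m))
        (Multiset.range p)).sum = ∑ i ∈ range p, c (a + (i : ZMod m) * ((m / p : ℕ) : ZMod m)) := rfl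
    rw [h2, h1]
    exact neg_add_cancel _
  | standardTwo hm2 a ha =>
    have h1 := hc.dist 2 (m / 2) Nat.prime_two (Nat.mul_div_cancel' hm2) a
    rw [sum_range_succ, sum_range_one] at h1
    have h2 : c ((m / 2 : ℕ) : ZMod m) = 0 := by
      apply hc.half
      rw [← Nat.cast_add, ← two_mul, Nat.mul_div_cancel' hm2, ZMod.natCast_self]
    simp only [Multiset.insert_eq_cons, Multiset.map_cons, Multiset.map_singleton,
      Multiset.sum_cons, Multiset.sum_singleton, hc.neg, h2]
    have e1 : a + ((0 : ℕ) : ZMod m) * ((m / 2 : ℕ) : ZMod m) = a := by simp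
    have e2 : a + ((1 : ℕ) : ZMod m) * ((m / 2 : ℕ) : ZMod m) = a + ((m / 2 : ℕ) : ZMod m) := by simp
    rw [e1, e2] at h1
    push_cast at h1
    rw [← h1]
    abel
  | join s t _ _ h1 h2 => rw [Multiset.map_add, Multiset.sum_add, h1, h2, add_zero]
  | cancel a s _ h1 =>
    rw [Multiset.map_cons, Multiset.map_cons, Multiset.sum_cons, Multiset.sum_cons, hc.neg] at h1
    rw [← h1]
    abel

/-- **The transfer to the small part of the degree.** -/
theorem transfer_small {m m0 k N : ℕ} [NeZero m] [NeZero m0] (hk : k * m0 = m)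
    (hbig : ∀ p : ℕ, p.Prime → p ∣ k → (if 2 ∣ m then 4 else 2) * N + 1 < p)
    {B : ∀ M : ℕ, NeZero M → Multiset (ZMod M) → Prop}
    (hBg : ∀ M (h : NeZero M) s, B M h s → (0 : ZMod M) ∉ s ∧ Even (Multiset.card s))
    (hBn : ∀ M (h : NeZero M) s, B M h s → B M h (s.map Neg.neg))
    (hBl : ∀ M M' (h : NeZero M) (h' : NeZero M') (j : ℕ), j * M = M' → ∀ s, B M h s →
      B M' h' (s.map (iota j : ZMod M → ZMod M')))
    {l : ℕ} (hl0 : NeZero (l * m0)) (hlm : NeZero (l * m))
    (hgen : ∀ s : Multiset (ZMod m0), IsHodge m0 s → s ≠ 0 →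
      Generated (l * m0) (B (l * m0) hl0) (s.map (iota l : ZMod m0 → ZMod (l * m0))))
    {s : Multiset (ZMod m)} (hs : IsHodge m s) (hne : s ≠ 0) (hN : Multiset.card s ≤ N) :
    Generated (l * m) (B (l * m) hlm) (s.map (iota l : ZMod m → ZMod (l * m))) := by
  classical
  have hcard : 1 ≤ N := by
    have := Multiset.card_pos.mpr hne
    omega
  set y : ZMod m → ℤ := fun a => ((s.count a : ℕ) : ℤ) with hy
  have hnm : nm y ≤ 2 * N := by
    refine (nm_count s).trans ?_
    have : ((Multiset.card s : ℕ) : ℤ) ≤ N := by exact_mod_cast hN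
    omega
  obtain ⟨y0, hy0, he⟩ := drop_all k k m m0 rfl hk y (2 * N) hs.rel hnm (by
    intro p hp hpk
    have h1 := hbig p hp hpk
    constructor
    · rintro rfl
      split_ifs at h1 <;> omega
    · split_ifs at h1 ⊢ <;> omega)
  obtain ⟨s0, hs0, he0⟩ := exists_hodge y0 hy0
  have hkN : k * (l * m0) = l * m := by rw [← hk]; ring
  set c := cQ (l * m) (B (l * m) hlm) with hc
  have hcD : OddDist c := cQ_oddDist
  have hsl : IsHodge (l * m) (s.map (iota l : ZMod m → ZMod (l * m))) := hs.iota rfl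
  have h1 := he _ (fun b : ZMod m => c (iota l b)) (hcD.comp_iota rfl)
  have h2 : ∀ b : ZMod m0, c (iota l (iota k b : ZMod m)) = c (iota k (iota l b : ZMod (l * m0))) := by
    intro b
    rw [iota_comp rfl, iota_comp hkN, mul_comm l k]
  simp only [h2] at h1
  have hcD0 : OddDist (fun d : ZMod (l * m0) => c (iota k d)) := hcD.comp_iota hkN
  have h3 := he0 _ (fun b : ZMod m0 => c (iota k (iota l b : ZMod (l * m0))))
    (hcD0.comp_iota (k := l) (m0 := m0) rfl)
  have h4 : (s0.map (fun b : ZMod m0 => c (iota k (iota l b : ZMod (l * m0))))).sum = 0 := by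
    by_cases h0 : s0 = 0
    · rw [h0, Multiset.map_zero, Multiset.sum_zero]
    · have h5 := gen_sum hcD0 (B := B (l * m0) hl0) (by
        intro s1 hs1
        have h6 := cQ_sum_eq_zero (Generated.ofBase (m := l * m) (base := B (l * m) hlm) _
          (hBl (l * m0) (l * m) hl0 hlm k hkN s1 hs1))
        rw [Multiset.map_map] at h6
        exact h6) (hgen s0 hs0 h0)
      rw [Multiset.map_map] at h5
      exact h5
  rw [h3, h4] at h1
  rw [hy, sum_count] at h1
  have h5 : ((s.map (iota l : ZMod m → ZMod (l * m))).map c).sum = 0 := by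
    rw [Multiset.map_map]; exact h1
  rw [hc, cQ_sum, QuotientAddGroup.eq_zero_iff] at h5
  refine generated_of_mem_LL (hBg _ hlm) (hBn _ hlm) hsl.1 hsl.2.1 ?_ h5
  intro h6
  exact hne (Multiset.map_eq_zero.mp h6)

end Run7.h919
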