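import Pool.Agent.Run7.h919.Pt

/-!
Relations vanish under all mixed differences.
-/

namespace Run7.h919

open Finset Pool.Agent.H916R2

/-- Iterated differences. -/
def ED (m : ℕ) : List (ℕ × ℕ × ℕ) → (ℕ → ℤ) → ℕ → ℤ
  | [], H, a => H a
  | t :: R, H, a => ED m R (fun y => H (y + t.2.1 * (m / t.1)) - H (y + t.2.2 * (m / t.1))) a

lemma VV_of_ED (m : ℕ) : ∀ (P : List ℕ) (H : ℕ → ℤ) (a : ℕ),
    (∀ R : List (ℕ × ℕ × ℕ), R.map Prod.fst = P →
      (∀ t ∈ R, t.2.1 < sz m t.1 ∧ t.2.2 < sz m t.1) → ED m R H a = 0) →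
    VV (P.map (sz m)) (fun v => H (pt m P a v))
  | [], H, a, h => h [] rfl (by simp)
  | l :: P, H, a, h => by
    intro i hi j hj
    have h1 := VV_of_ED m P (fun y => H (y + i * (m / l)) - H (y + j * (m / l))) a (by
      intro R hR hd
      exact h ((l, i, j) :: R) (by simp [hR]) (by
        intro t ht
        rcases List.mem_cons.mp ht with rfl | ht
        · exact ⟨hi, hj⟩
        · exact hd t ht))
    have e : (fun v => H (pt m (l :: P) a (i :: v)) - H (pt m (l :: P) a (j :: v))) =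
        fun v => H (pt m P a v + i * (m / l)) - H (pt m P a v + j * (m / l)) := by
      funext v
      simp only [pt, pt_add]
    rw [e]
    exact h1

lemma ED_zero (m : ℕ) : ∀ (R : List (ℕ × ℕ × ℕ)) (a : ℕ), ED m R (fun _ => 0) a = 0
  | [], _ => rfl
  | t :: R, a => by simp only [ED, sub_self]; exact ED_zero m R a

lemma ED_sub (m : ℕ) : ∀ (R : List (ℕ × ℕ × ℕ)) (H K : ℕ → ℤ) (a : ℕ),
    ED m R (fun y => H y - K y) a = ED m R H a - ED m R K a
  | [], _, _, _ => rfl
  | t :: R, H, K, a => by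
    simp only [ED]
    rw [← ED_sub m R]
    congr 1
    funext y; ring

lemma ED_smul (m : ℕ) (w : ℤ) : ∀ (R : List (ℕ × ℕ × ℕ)) (H : ℕ → ℤ) (a : ℕ),
    ED m R (fun y => w * H y) a = w * ED m R H a
  | [], _, _ => rfl
  | t :: R, H, a => by
    simp only [ED]
    rw [← ED_smul m w R]
    congr 1
    funext y; ring

lemma ED_add (m : ℕ) : ∀ (R : List (ℕ × ℕ × ℕ)) (H K : ℕ → ℤ) (a : ℕ),
    ED m R (fun y => H y + K y) a = ED m R H a + ED m R K a
  | [], _, _, _ => rfl
  | t :: R, H, K, a => by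
    simp only [ED]
    rw [← ED_add m R]
    congr 1
    funext y; ring

lemma ED_sum (m : ℕ) (R : List (ℕ × ℕ × ℕ)) {ι : Type*} (S : Finset ι) (H : ι → ℕ → ℤ) (a : ℕ) :
    ED m R (fun y => ∑ i ∈ S, H i y) a = ∑ i ∈ S, ED m R (H i) a := by
  classical
  induction S using Finset.induction_on with
  | empty => simp only [sum_empty]; exact ED_zero m R a
  | insert i S hi ih =>
    rw [sum_insert hi, ← ih, ← ED_add]
    congr 1
    funext y
    rw [sum_insert hi]

lemma ED_shift (m : ℕ) : ∀ (R : List (ℕ × ℕ × ℕ)) (H : ℕ → ℤ) (a s : ℕ),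
    ED m R (fun y => H (y + s)) a = ED m R H (a + s)
  | [], _, _, _ => rfl
  | t :: R, H, a, s => by
    simp only [ED]
    rw [← ED_shift m R]
    congr 1
    funext y
    congr 2 <;> ring

/-- differences of an invariant function vanish -/
lemma ED_inv (m p : ℕ) : ∀ (R : List (ℕ × ℕ × ℕ)) (K : ℕ → ℤ) (a : ℕ),
    (∀ z s, K (z + s * (m / p)) = K z) → p ∈ R.map Prod.fst → ED m R K a = 0
  | [], _, _, _, h => by simp at h
  | t :: R, K, a, hK, h => by
    by_cases hp : t.1 = p
    · simp only [ED, hp, hK, sub_self]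
      exact ED_zero m R a
    · refine ED_inv m p R _ a ?_ ?_
      · intro z s
        rw [show z + s * (m / p) + t.2.1 * (m / t.1) = z + t.2.1 * (m / t.1) + s * (m / p) by ring,
          show z + s * (m / p) + t.2.2 * (m / t.1) = z + t.2.2 * (m / t.1) + s * (m / p) by ring,
          hK, hK]
      · simp only [List.map_cons, List.mem_cons] at h
        rcases h with h | h
        · exact absurd h.symm hp
        · exact h

lemma ED_supp {m : ℕ} (hm : m ≠ 0) : ∀ (R : List (ℕ × ℕ × ℕ)) (H : ℕ → ℤ) (a : ℕ),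
    (∀ l ∈ R.map Prod.fst, l.Prime ∧ l ∣ m) → (R.map Prod.fst).Nodup →
    (∀ t ∈ R, t.2.1 < sz m t.1 ∧ t.2.2 < sz m t.1) → GB m (R.map Prod.fst) a →
    (∀ z, Nat.Coprime z m → H z = 0) → ED m R H a = 0
  | [], H, a, _, _, _, hG, hH => hH a (GB_nil hG)
  | t :: R, H, a, hl, hnd, hd, hG, hH => by
    simp only [ED]
    rw [ED_sub, ED_shift m R H a, ED_shift m R H a]
    have ht := hl t.1 (by simp)
    have hdt := hd t (by simp)
    rw [List.map_cons, List.nodup_cons] at hnd
    have h1 := ED_supp hm R H (a + t.2.1 * (m / t.1)) (fun l h => hl l (by simp [h])) hnd.2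
      (fun t h => hd t (by simp [h])) (GB_step hm ht.1 ht.2 hnd.1 hG hdt.1) hH
    have h2 := ED_supp hm R H (a + t.2.2 * (m / t.1)) (fun l h => hl l (by simp [h])) hnd.2
      (fun t h => hd t (by simp [h])) (GB_step hm ht.1 ht.2 hnd.1 hG hdt.2) hH
    rw [h1, h2, sub_self]

variable {m : ℕ} [NeZero m]

/-- The odd part. -/
def od (y : ZMod m → ℤ) : ZMod m → ℤ := fun z => y z - y (-z)

/-- `y` is orthogonal to the integral odd distributions supported on the units. -/
def Orth (y : ZMod m → ℤ) : Prop :=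
  ∀ C : ZMod m → ℤ, OddDist C → (∀ a, ¬ IsUnit a → C a = 0) → ∑ a, y a * C a = 0

/-- The test function of iterated differences. -/
def tf (R : List (ℕ × ℕ × ℕ)) (a : ℕ) (y : ZMod m) : ℤ :=
  ED m R (fun z => if (z : ZMod m) = y then 1 else 0) a

lemma ind_shift {p d : ℕ} (hp : 0 < p) (hpd : p * d = m) (z s : ℕ) (y : ZMod m) :
    ∑ t ∈ range p, (if ((z + s * d : ℕ) : ZMod m) = y + (t : ZMod m) * (d : ZMod m)
      then (1 : ℤ) else 0) =
    ∑ t ∈ range p, (if (z : ZMod m) = y + (t : ZMod m) * (d : ZMod m) then (1 : ℤ) else 0) := by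
  have h := Pool.Agent.Y2.coset_shift_mul (Q := ℤ) (m := m) (r := p) (d := d)
    (C := fun n => if (z : ZMod m) = (n : ZMod m) then 1 else 0) hp hpd (by
      intro x x' hx
      have : (x : ZMod m) = (x' : ZMod m) := (ZMod.natCast_eq_natCast_iff _ _ _).mpr hx
      simp only [this]) y.val ((p - 1) * s)
  simp only [Nat.cast_add, Nat.cast_mul, ZMod.natCast_zmod_val] at h
  rw [← h]
  refine sum_congr rfl fun t _ => ?_
  have hpd' : (p : ZMod m) * (d : ZMod m) = 0 := by
    rw [← Nat.cast_mul, hpd, ZMod.natCast_self]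
  have hp1 : (((p - 1 : ℕ)) : ZMod m) = (p : ZMod m) - 1 := by
    rw [Nat.cast_sub hp]; simp
  have e : (((z + s * d : ℕ) : ZMod m) = y + (t : ZMod m) * (d : ZMod m)) ↔
      ((z : ZMod m) = y + (((p - 1 : ℕ)) : ZMod m) * (s : ZMod m) * (d : ZMod m) +
        (t : ZMod m) * (d : ZMod m)) := by
    rw [hp1]
    push_cast
    constructor
    · intro h
      linear_combination h - (s : ZMod m) * hpd'
    · intro h
      linear_combination h + (s : ZMod m) * hpd'
  simp only [e]

lemma tf_sum {p d : ℕ} (hp : 0 < p) (hpd : p * d = m) {R : List (ℕ × ℕ × ℕ)} (a : ℕ)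
    (hR : p ∈ R.map Prod.fst) (y : ZMod m) :
    ∑ t ∈ range p, tf R a (y + (t : ZMod m) * (d : ZMod m)) = 0 := by
  unfold tf
  rw [← ED_sum]
  apply ED_inv m p R _ a _ hR
  intro z s
  have hd : m / p = d := by rw [← hpd, Nat.mul_div_cancel_left _ hp]
  rw [hd]
  exact ind_shift hp hpd z s y

lemma tf_unit {R : List (ℕ × ℕ × ℕ)} {a : ℕ} (hl : ∀ l ∈ R.map Prod.fst, l.Prime ∧ l ∣ m)
    (hnd : (R.map Prod.fst).Nodup) (hd : ∀ t ∈ R, t.2.1 < sz m t.1 ∧ t.2.2 < sz m t.1)
    (hG : GB m (R.map Prod.fst) a) {y : ZMod m} (hy : ¬ IsUnit y) : tf R a y = 0 := by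
  apply ED_supp (NeZero.ne m) R _ a hl hnd hd hG
  intro z hz
  rw [if_neg]
  rintro rfl
  exact hy ((ZMod.isUnit_iff_coprime z m).mpr hz)

/-- **Relations vanish under mixed differences.** -/
theorem VV_of_orth {P : List ℕ} (hP : ∀ l ∈ P, l.Prime ∧ l ∣ m)
    (hall : ∀ p, p.Prime → p ∣ m → p ∈ P) (hnd : P.Nodup) {y : ZMod m → ℤ} (ho : Orth y)
    {a : ℕ} (hG : GB m P a) :
    VV (P.map (sz m)) (fun v => od y ((pt m P a v : ℕ) : ZMod m)) := by
  apply VV_of_ED m P (fun z => od y ((z : ℕ) : ZMod m)) a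
  intro R hR hd
  subst hR
  have hsum : ED m R (fun z => od y ((z : ℕ) : ZMod m)) a = ∑ b, od y b * tf R a b := by
    have e : (fun z : ℕ => od y ((z : ℕ) : ZMod m)) =
        fun z : ℕ => ∑ b : ZMod m, od y b * (if (z : ZMod m) = b then 1 else 0) := by
      funext z
      simp
    rw [e, ED_sum]
    refine sum_congr rfl fun b _ => ?_
    rw [ED_smul]
    rfl
  have htf : ∀ b : ZMod m, ¬ IsUnit b → tf R a b = 0 := fun b hb => tf_unit hP hnd hd hG hb
  have hneg : ∀ b : ZMod m, ¬ IsUnit b → ¬ IsUnit (-b) := fun b hb h => hb (by simpa using h.neg)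
  rw [hsum]
  have h1 := ho (fun b => tf R a b - tf R a (-b)) ?_ ?_
  · rw [← h1]
    unfold od
    simp only [sub_mul, mul_sub, sum_sub_distrib]
    congr 1
    exact Fintype.sum_equiv (Equiv.neg _) _ _ fun b => by simp
  · constructor
    · intro b; simp
    · intro b hb
      have : -b = b := neg_eq_of_add_eq_zero_right hb
      simp only [this, sub_self]
    · intro p d hp hpd b
      have hpm : p ∣ m := Dvd.intro d hpd
      have hpR := hall p hp hpm
      have hnu : ¬ IsUnit ((p : ZMod m) * b) := by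
        intro h
        have h2 := isUnit_of_mul_isUnit_left h
        rw [ZMod.isUnit_iff_coprime] at h2
        exact hp.one_lt.ne' (Nat.Coprime.eq_one_of_dvd h2 hpm)
      rw [htf _ hnu, htf _ (hneg _ hnu), sub_self, sum_sub_distrib, tf_sum hp.pos hpd a hpR b,
        zero_sub, neg_eq_zero]
      have h3 := tf_sum hp.pos hpd a hpR (-b - (((p - 1 : ℕ)) : ZMod m) * (d : ZMod m))
      rw [← Finset.sum_range_reflect] at h3
      rw [← h3]
      refine sum_congr rfl fun i hi => ?_
      have hi' := mem_range.mp hi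
      congr 1
      have e : ((p - 1 : ℕ) : ZMod m) = ((p - 1 - i : ℕ) : ZMod m) + (i : ZMod m) := by
        rw [← Nat.cast_add]
        congr 1
        omega
      rw [e]
      ring
  · intro b hb
    rw [htf b hb, htf _ (hneg b hb), sub_self]

end Run7.h919
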