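import Pool.Agent.Run7.h919.Grid
import Pool.Agent.H916R2.Relations
import Pool.Agent.Y2.TD

/-!
The grid of residues prime to `m` which agree modulo `m / rad`.
-/

namespace Run7.h919

open Finset Pool.Agent.H916R2

/-- The number of residues prime to `m` in a coset of the subgroup of order `p`. -/
def sz (m p : ℕ) : ℕ := if p * p ∣ m then p else p - 1

/-- Normalisation of a base point at `p`. -/
def cd (m p a : ℕ) : Prop := (p * p ∣ m → ¬ p ∣ a) ∧ (¬ p * p ∣ m → p ∣ a + (p - 1) * (m / p))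

/-- Normalised at the primes in `P`, prime to the others. -/
def GB (m : ℕ) (P : List ℕ) (a : ℕ) : Prop :=
  ∀ p, p.Prime → p ∣ m → (p ∈ P → cd m p a) ∧ (p ∉ P → ¬ p ∣ a)

/-- The points of the grid. -/
def pt (m : ℕ) : List ℕ → ℕ → List ℕ → ℕ
  | [], a, _ => a
  | _ :: _, a, [] => a
  | l :: P, a, i :: v => pt m P (a + i * (m / l)) v

lemma pt_add (m : ℕ) : ∀ (P : List ℕ) (a s : ℕ) (v : List ℕ), pt m P (a + s) v = pt m P a v + s
  | [], a, s, v => by simp [pt]
  | l :: P, a, s, [] => by simp [pt]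
  | l :: P, a, s, i :: v => by
    simp only [pt]
    rw [show a + s + i * (m / l) = a + i * (m / l) + s by ring, pt_add m P _ s v]

lemma dvd_div_ne {m p l : ℕ} (hp : p.Prime) (hl : l.Prime) (hpm : p ∣ m) (hlm : l ∣ m)
    (hne : p ≠ l) : p ∣ m / l := by
  have hc : Nat.Coprime p l := (Nat.coprime_primes hp hl).mpr hne
  obtain ⟨k, hk⟩ := hlm
  rw [hk, Nat.mul_div_cancel_left _ hl.pos]
  rw [hk] at hpm
  exact hc.dvd_of_dvd_mul_left hpm

/-- the points agree modulo the other primes -/
lemma pt_dvd {m p : ℕ} (hp : p.Prime) (hpm : p ∣ m) : ∀ (P : List ℕ),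
    (∀ l ∈ P, l.Prime ∧ l ∣ m) → p ∉ P → ∀ (a t : ℕ) (v : List ℕ),
    (p ∣ pt m P a v + t ↔ p ∣ a + t)
  | [], _, _, a, t, v => by simp [pt]
  | l :: P, _, _, a, t, [] => by simp [pt]
  | l :: P, hP, hpP, a, t, i :: v => by
    simp only [pt]
    have hne : p ≠ l := fun h => hpP (by simp [h])
    have hl := hP l (by simp)
    rw [pt_dvd hp hpm P (fun l hl => hP l (by simp [hl])) (fun h => hpP (by simp [h])) _ t v,
      show a + i * (m / l) + t = a + t + i * (m / l) by ring]
    exact (Nat.dvd_add_iff_left ((dvd_div_ne hp hl.1 hpm hl.2 hne).mul_left i)).symm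

lemma coprime_of_primes {a m : ℕ} (h : ∀ p, p.Prime → p ∣ m → ¬ p ∣ a) : Nat.Coprime a m := by
  by_contra hcon
  obtain ⟨p, hp, h1, h2⟩ := Nat.Prime.not_coprime_iff_dvd.mp hcon
  exact h p hp h2 h1

lemma GB_nil {m a : ℕ} (h : GB m [] a) : Nat.Coprime a m :=
  coprime_of_primes fun p hp hpm => (h p hp hpm).2 (by simp)

/-- a normalised point and a digit -/
lemma cd_digit {m l : ℕ} (hm : m ≠ 0) (hl : l.Prime) (hlm : l ∣ m) {a i : ℕ} (h : cd m l a)
    (hi : i < sz m l) : ¬ l ∣ a + i * (m / l) := by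
  by_cases hll : l * l ∣ m
  · have h1 := h.1 hll
    have h2 : l ∣ m / l := by
      obtain ⟨k, hk⟩ := hll
      rw [hk, mul_assoc, Nat.mul_div_cancel_left _ hl.pos]
      exact dvd_mul_right l k
    intro h3
    exact h1 ((Nat.dvd_add_iff_left (h2.mul_left i)).mpr h3)
  · have h1 := h.2 hll
    have hi' : i < l - 1 := by rw [sz, if_neg hll] at hi; exact hi
    intro h2
    have h3 : l ∣ (l - 1 - i) * (m / l) := by
      have e : a + (l - 1) * (m / l) = a + i * (m / l) + (l - 1 - i) * (m / l) := by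
        rw [add_assoc, ← add_mul]
        congr 2
        omega
      rw [e] at h1
      exact (Nat.dvd_add_right h2).mp h1
    rcases hl.dvd_mul.mp h3 with h4 | h4
    · have := Nat.le_of_dvd (by omega) h4
      omega
    · apply hll
      obtain ⟨k, hk⟩ := h4
      refine ⟨k, ?_⟩
      have := Nat.div_mul_cancel hlm
      rw [← this, hk]; ring

lemma cd_shift {m p l : ℕ} (hp : p.Prime) (hl : l.Prime) (hpm : p ∣ m) (hlm : l ∣ m) (hne : p ≠ l)
    {a : ℕ} (i : ℕ) : cd m p (a + i * (m / l)) ↔ cd m p a := by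
  have h := (dvd_div_ne hp hl hpm hlm hne).mul_left i
  unfold cd
  rw [show a + i * (m / l) + (p - 1) * (m / p) = a + (p - 1) * (m / p) + i * (m / l) by ring,
    ← Nat.dvd_add_iff_left h, ← Nat.dvd_add_iff_left h]

lemma GB_step {m l : ℕ} (hm : m ≠ 0) {P : List ℕ} (hl : l.Prime) (hlm : l ∣ m) (hlP : l ∉ P)
    {a i : ℕ} (h : GB m (l :: P) a) (hi : i < sz m l) : GB m P (a + i * (m / l)) := by
  intro p hp hpm
  obtain ⟨h1, h2⟩ := h p hp hpm
  by_cases hpl : p = l
  · subst hpl
    exact ⟨fun h => absurd h hlP, fun _ => cd_digit hm hp hpm (h1 (by simp)) hi⟩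
  · refine ⟨fun h => ?_, fun h => ?_⟩
    · rw [cd_shift hp hl hpm hlm hpl]
      exact h1 (by simp [h])
    · have h3 := h2 (by simp [hpl, h])
      have h4 := (dvd_div_ne hp hl hpm hlm hpl).mul_left i
      intro h5
      exact h3 ((Nat.dvd_add_iff_left h4).mpr h5)

lemma coprime_pt {m : ℕ} (hm : m ≠ 0) : ∀ (P : List ℕ), (∀ l ∈ P, l.Prime ∧ l ∣ m) → P.Nodup →
    ∀ a, GB m P a → ∀ v, bx (P.map (sz m)) v → Nat.Coprime (pt m P a v) m
  | [], _, _, a, h, v, _ => by simpa [pt] using GB_nil h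
  | l :: P, hP, hnd, a, h, v, hv => by
    obtain ⟨i, hi, w, hw, rfl⟩ := hv
    have hl := hP l (by simp)
    rw [List.nodup_cons] at hnd
    exact coprime_pt hm P (fun l hl => hP l (by simp [hl])) hnd.2 _
      (GB_step hm hl.1 hl.2 hnd.1 h hi) w hw

/-- every residue prime to `m` is on a normalised grid -/
lemma exists_base {m : ℕ} (hm : m ≠ 0) {r : ℕ} (hr : Nat.Coprime r m) : ∀ (P : List ℕ),
    (∀ l ∈ P, l.Prime ∧ l ∣ m) → P.Nodup →
    ∃ a v, GB m P a ∧ bx (P.map (sz m)) v ∧ pt m P a v ≡ r [MOD m]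
  | [], _, _ => ⟨r, [], fun p hp hpm => ⟨by simp, fun _ h => by
      have := Nat.dvd_gcd h hpm
      rw [hr] at this
      exact hp.one_lt.ne' (Nat.dvd_one.mp this)⟩, rfl, Nat.ModEq.refl _⟩
  | l :: P, hP, hnd => by
    obtain ⟨a', v', h1, h2, h3⟩ := exists_base hm hr P (fun l hl => hP l (by simp [hl]))
      (List.nodup_cons.mp hnd).2
    have hl := hP l (by simp)
    have hlP := (List.nodup_cons.mp hnd).1
    have hla : ¬ l ∣ a' := (h1 l hl.1 hl.2).2 hlP
    have hex : ∃ i < sz m l, cd m l (a' + (l - i) * (m / l)) := by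
      by_cases hll : l * l ∣ m
      · refine ⟨0, by rw [sz, if_pos hll]; exact hl.1.pos, fun _ => ?_, fun h => absurd hll h⟩
        rw [Nat.sub_zero, Nat.mul_div_cancel' hl.2]
        intro h
        exact hla ((Nat.dvd_add_iff_left hl.2).mpr h)
      · have hF : Fact l.Prime := ⟨hl.1⟩
        have hu : ((m / l : ℕ) : ZMod l) ≠ 0 := by
          intro h
          rw [ZMod.natCast_eq_zero_iff] at h
          apply hll
          obtain ⟨k, hk⟩ := h
          refine ⟨k, ?_⟩
          have := Nat.div_mul_cancel hl.2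
          rw [← this, hk]; ring
        have ha : (a' : ZMod l) ≠ 0 := by
          intro h
          rw [ZMod.natCast_eq_zero_iff] at h
          exact hla h
        set j : ZMod l := (a' : ZMod l) * ((m / l : ℕ) : ZMod l)⁻¹ with hj
        have hj0 : j ≠ 0 := mul_ne_zero ha (inv_ne_zero hu)
        have hjv : 0 < j.val := Nat.pos_of_ne_zero fun h => hj0 ((ZMod.val_eq_zero j).mp h)
        have hjl := ZMod.val_lt j
        refine ⟨j.val - 1, by rw [sz, if_neg hll]; omega, fun h => absurd h hll, fun _ => ?_⟩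
        rw [← ZMod.natCast_eq_zero_iff]
        have e1 : (((l - (j.val - 1) : ℕ)) : ZMod l) = 1 - j := by
          rw [Nat.cast_sub (by omega), Nat.cast_sub (by omega)]
          simp
        have e2 : (((l - 1 : ℕ)) : ZMod l) = -1 := by
          rw [Nat.cast_sub hl.1.one_le]; simp
        push_cast [e1, e2]
        rw [hj]
        field_simp
        ring
    obtain ⟨i, hi, hcd⟩ := hex
    refine ⟨a' + (l - i) * (m / l), i :: v', ?_, ⟨i, hi, v', h2, rfl⟩, ?_⟩
    · intro p hp hpm
      by_cases hpl : p = l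
      · subst hpl
        exact ⟨fun _ => hcd, fun h => absurd (by simp) h⟩
      · obtain ⟨h4, h5⟩ := h1 p hp hpm
        refine ⟨fun h => ?_, fun h => ?_⟩
        · rw [cd_shift hp hl.1 hpm hl.2 hpl]
          apply h4
          simpa [hpl] using h
        · have h6 := (dvd_div_ne hp hl.1 hpm hl.2 hpl).mul_left (l - i)
          intro h7
          apply h5 (fun h8 => h (by simp [h8]))
          exact (Nat.dvd_add_iff_left h6).mpr h7
    · simp only [pt]
      have hil : i ≤ l := by
        have : sz m l ≤ l := by unfold sz; split_ifs <;> omega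
        omega
      have e : a' + (l - i) * (m / l) + i * (m / l) = a' + m := by
        rw [add_assoc, ← add_mul, Nat.sub_add_cancel hil, Nat.mul_div_cancel' hl.2]
      rw [e, pt_add]
      have : pt m P a' v' + m ≡ pt m P a' v' + 0 [MOD m] :=
        Nat.ModEq.add_left _ (by simp [Nat.ModEq])
      exact this.trans (by simpa using h3)

end Run7.h919
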