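import Pool.Agent.Run7.h919.Tw9

/-!
Relations for which some of the functionals are even: a distribution which detects a pair.
-/

set_option linter.unusedSectionVars false

namespace Run7.h919.Ra

open Finset Pool.Agent.N993 Pool.Agent.N993.Dat Pool.Agent.H916R2 Pool.Agent.N992 Run7.h919.Tw

/-! ### Pushing forward relations -/

/-- the image of a function on a lower level -/
def push {mT m0 : ℕ} [NeZero mT] (l : ℕ) (z : ZMod mT → ℤ) (b' : ZMod m0) : ℤ :=
  ∑ b : ZMod mT, if (iota l b : ZMod m0) = b' then z b else 0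

lemma push_sum {mT m0 : ℕ} [NeZero mT] [NeZero m0] (l : ℕ) (z : ZMod mT → ℤ) {Q : Type}
    [AddCommGroup Q] (F : ZMod m0 → Q) :
    ∑ b', push l z b' • F b' = ∑ b, z b • F (iota l b) := by
  classical
  unfold push
  simp only [sum_smul]
  rw [sum_comm]
  refine sum_congr rfl fun b _ => ?_
  rw [sum_eq_single (iota l b : ZMod m0)]
  · rw [if_pos rfl]
  · intro b' _ hb
    rw [if_neg (Ne.symm hb), zero_smul]
  · intro h; exact absurd (mem_univ _) h

lemma push_rel {mT m0 l : ℕ} [NeZero mT] [NeZero m0] (hl : l * mT = m0) {z : ZMod mT → ℤ}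
    (hz : Rel z) : Rel (push l z : ZMod m0 → ℤ) := by
  intro t
  have h1 := push_sum (m0 := m0) l z (fun b => saw ((t : ZMod m0) * b))
  simp only [smul_eq_mul] at h1
  rw [h1]
  have hd : mT ∣ m0 := ⟨l, by rw [mul_comm]; exact hl.symm⟩
  have h2 : ∀ b : ZMod mT, saw ((t : ZMod m0) * iota l b) =
      (l : ℤ) * saw (((ZMod.unitsMap hd t : (ZMod mT)ˣ) : ZMod mT) * b) := by
    intro b
    rw [unit_iota hl, saw_iota hl]
  rw [sum_congr rfl fun b _ => by rw [h2 b]]
  have h3 := hz (ZMod.unitsMap hd t)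
  have h4 : ∑ b, z b * ((l : ℤ) * saw (((ZMod.unitsMap hd t : (ZMod mT)ˣ) : ZMod mT) * b)) =
      (l : ℤ) * ∑ b, z b * saw (((ZMod.unitsMap hd t : (ZMod mT)ˣ) : ZMod mT) * b) := by
    rw [mul_sum]
    exact sum_congr rfl fun b _ => by ring
  rw [h4, h3, mul_zero]

lemma rel_add {m : ℕ} [NeZero m] {x y : ZMod m → ℤ} (hx : Rel x) (hy : Rel y) :
    Rel (fun a => x a + y a) := by
  intro t
  have h1 := hx t
  have h2 := hy t
  simp only [add_mul, sum_add_distrib]
  rw [h1, h2, add_zero]

section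

variable {ι : Type} [Fintype ι] [LinearOrder ι] {n : ι → ℕ} [∀ i, NeZero (n i)] {m0 : ℕ} [NeZero m0]
  {m : ℕ} [NeZero m]

variable {k : ℕ} {E : (∀ i, ZMod (n i)) ≃+* ZMod m0} {X : ZMod m → ZMod m0}

/-- the functional of a set -/
noncomputable def fw (n : ι → ℕ) [∀ i, NeZero (n i)] (E : (∀ i, ZMod (n i)) ≃+* ZMod m0) (X : ZMod m → ZMod m0)
    (y : ZMod m → ℤ) (T : Finset ι) : ℤ :=
  ∑ a : ZMod m, y a * W (cyc n) T.toList (pt (E.symm (X a)))

/-- the distribution kills the relations of the level of `T` -/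
def Kills (n : ι → ℕ) (m0 k : ℕ) {Q : Type} [AddCommGroup Q] (c : ZMod m → Q) (T : Finset ι) :
    Prop :=
  ∀ (mT l : ℕ) [NeZero mT], ∏ i ∈ T, n i = mT → l * mT = m0 →
    ∀ x : ZMod mT → ℤ, Rel x → ∑ b, x b • c (iota k (iota l b : ZMod m0)) = 0

lemma w_dist (hn : Adm' n) (h4 : ∀ i, n i ≠ 4) (hco : Pairwise (fun i j => (n i).Coprime (n j)))
    (hN : ∏ i, n i = m0) (E : (∀ i, ZMod (n i)) ≃+* ZMod m0) {T : Finset ι} (hT : T.Nonempty) :
    OddDist (fun b : ZMod m0 => ((W (cyc n) T.toList (pt (E.symm b)) : ℤ) : ZMod 2)) := by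
  have hβ : ∀ i, (cyc n).β i = 1 := fun i => by
    funext j
    change (if n i = 4 then unOf 2 (n j) else 1) = _
    rw [if_neg (h4 i)]; rfl
  have hD : (cyc n).IsD0 univ (W (cyc n) T.toList) := W_isD hβ _
  refine oddDist_pt hn h4 hco hN E (h := fun x => ((W (cyc n) T.toList x : ℤ) : ZMod 2))
    (hD.map (Int.castAddHom (ZMod 2))) ?_ ?_
  · intro x
    have h2 := congrFun (W_ty (D := cyc n) T.toList) x
    rw [T_triv (triv_int _), Pi.smul_apply] at h2
    rw [h2, zmod2_neg]
    rcases neg_one_pow_eq_or ℤ T.toList.length with h3 | h3 <;> rw [h3]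
    · rw [one_smul]
    · rw [neg_smul, one_smul]
      push_cast
      exact zmod2_neg _
  · obtain ⟨j, hj⟩ := hT
    change ((W (cyc n) T.toList (fun _ => none) : ℤ) : ZMod 2) = 0
    rw [W_van T.toList (mem_toList.mpr hj) rfl]
    rfl

lemma w_distX (h : Lev n m0 m k E X) {T : Finset ι} (hT : T.Nonempty) :
    OddDist (fun a : ZMod m => ((W (cyc n) T.toList (pt (E.symm (X a))) : ℤ) : ZMod 2)) :=
  h.hX2 (ZMod 2) zmod2_add _ (w_dist h.hn h.h4 h.hco h.hN E hT)

/-- the points of a lower level -/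
lemma w_low (h : Lev n m0 m k E X) {T T' : Finset ι} {mT l : ℕ} [NeZero mT]
    (hmT : ∏ i ∈ T, n i = mT) (hl : l * mT = m0) {i : ι} (hi : i ∈ T') (hiT : i ∉ T) (b : ZMod mT) :
    W (cyc n) T'.toList (pt (E.symm (iota l b : ZMod m0))) = 0 := by
  refine W_van T'.toList (mem_toList.mpr hi) ?_
  apply pt_of_not
  have hp : (n i).Prime := ((h.hn i).resolve_right (h.h4 i)).1
  have h1 : E.symm (iota l b : ZMod m0) = fun j => ((l * b.val : ℕ) : ZMod (n j)) := by
    rw [RingEquiv.symm_apply_eq, ← E_natCast E]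
    rfl
  have h2 : n i ∣ l := by
    have h3 : n i ∣ m0 := by rw [← h.hN]; exact dvd_prod_of_mem n (mem_univ i)
    have h4 : (n i).Coprime mT := by
      rw [← hmT]
      exact Nat.Coprime.prod_right fun j hj => h.hco (fun e => hiT (e ▸ hj))
    rw [← hl] at h3
    exact h4.dvd_of_dvd_mul_right h3
  rw [h1]
  have h3 : ((l * b.val : ℕ) : ZMod (n i)) = 0 := by
    rw [ZMod.natCast_eq_zero_iff]
    exact h2.mul_right _
  beta_reduce
  rw [h3]
  have : Fact (n i).Prime := ⟨hp⟩
  exact not_isUnit_zero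

/-- **The criterion.** -/
theorem Lev.main2 (h : Lev n m0 m k E X) {Q : Type} [AddCommGroup Q] {c : ZMod m → Q}
    (hc : OddDist c) (hk : k * m0 = m) {y : ZMod m → ℤ} (hy : Rel y)
    (hT : ∀ T : Finset ι, Even T.card → T.Nonempty → Kills n m0 k c T ∨ Even (fw n E X y T)) :
    ∑ a, y a • c a = 0 := by
  classical
  refine CharacterModule.eq_zero_of_character_apply fun φ0 => ?_
  let φ : Q →+ AddCircle (1 : ℚ) := φ0
  change φ _ = 0
  -- the combined distribution
  set w : Finset ι → ZMod m → ZMod 2 := fun T a =>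
    if T = ∅ then 0 else ((W (cyc n) T.toList (pt (E.symm (X a))) : ℤ) : ZMod 2) with hw
  have hwD : ∀ T, OddDist (w T) := by
    intro T
    by_cases hTe : T = ∅
    · have h1 : w T = fun _ => 0 := by
        funext a
        rw [hw]
        beta_reduce
        rw [if_pos hTe]
      rw [h1]
      exact oddDist_zero
    · have h1 : w T = fun a => ((W (cyc n) T.toList (pt (E.symm (X a))) : ℤ) : ZMod 2) := by
        funext a
        rw [hw]
        beta_reduce
        rw [if_neg hTe]
      rw [h1]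
      exact w_distX h (nonempty_iff_ne_empty.mpr hTe)
  have hC : OddDist (fun a : ZMod m => (φ (c a), fun T => w T a)) :=
    OddDist.prod (Pool.Agent.N998.oddDist_map hc φ) (OddDist.pi hwD)
  obtain ⟨x0, hx0, he⟩ := h.red _ _ hC _ hy
  have he1 : ∑ a, y a • φ (c a) = ∑ b, x0 b • φ (c (iota k b)) := by
    have h1 := congrArg Prod.fst he
    rw [Prod.fst_sum, Prod.fst_sum] at h1
    exact h1
  have he2 : ∀ T, ∑ a, y a • w T a = ∑ b, x0 b • w T (iota k b) := by
    intro T
    have h1 := congrFun (congrArg Prod.snd he) T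
    rw [Prod.snd_sum, Prod.snd_sum, Finset.sum_apply, Finset.sum_apply] at h1
    exact h1
  have hcD0 : OddDist (fun b : ZMod m0 => c (iota k b)) := hc.comp_iota hk
  have hcore := coreW h.hn h.h4 h.hco h.hN E hcD0 φ x0 hx0 (by
    intro T hTe
    by_cases hTn : T.Nonempty
    · rcases hT T hTe hTn with h1 | h2
      · left; exact fun mT l _ hmT hl => h1 mT l hmT hl
      · right
        have h3 := he2 T
        have hTne : T ≠ ∅ := hTn.ne_empty
        rw [even_iff_zmod] at h2 ⊢
        have h4 : ((fw n E X y T : ℤ) : ZMod 2) = ∑ a, y a • w T a := by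
          unfold fw
          push_cast
          refine sum_congr rfl fun a _ => ?_
          rw [hw]
          beta_reduce
          rw [if_neg hTne, zsmul_eq_mul]
        have h5 : ((∑ b : ZMod m0, x0 b * W (cyc n) T.toList (pt (E.symm b)) : ℤ) : ZMod 2) =
            ∑ b, x0 b • w T (iota k b) := by
          push_cast
          refine sum_congr rfl fun a _ => ?_
          rw [hw]
          beta_reduce
          rw [if_neg hTne, zsmul_eq_mul, h.hX1]
        rw [h5, ← h3, ← h4, h2]
    · left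
      intro mT l _ hmT hl x _
      rw [not_nonempty_iff_eq_empty] at hTn
      rw [hTn, prod_empty] at hmT
      subst hmT
      have h1 : ∀ b : ZMod 1, (iota l b : ZMod m0) = 0 := by
        intro b
        have : b = 0 := Subsingleton.elim _ _
        rw [this, iota_zero]
      have h2 : c (iota k (0 : ZMod m0)) = 0 := by
        rw [iota_zero]
        exact hc.half 0 (add_zero 0)
      refine sum_eq_zero fun b _ => ?_
      rw [h1, h2, smul_zero])
  rw [map_sum]
  have h6 : ∀ a : ZMod m, φ (y a • c a) = y a • φ (c a) :=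
    fun a => map_zsmul φ _ _
  rw [sum_congr rfl fun a _ => h6 a, he1, ← hcore, map_sum]
  exact sum_congr rfl fun b _ => (map_zsmul φ _ _).symm

/-- relations of the squarefree level -/
theorem Lev.main0 (h : Lev n m0 m k E X) {Q : Type} [AddCommGroup Q] {c : ZMod m0 → Q}
    (hc : OddDist c) {x : ZMod m0 → ℤ} (hx : Rel x)
    (hT : ∀ T : Finset ι, Even T.card → T.Nonempty →
      (∀ (mT l : ℕ) [NeZero mT], ∏ i ∈ T, n i = mT → l * mT = m0 →
        ∀ x : ZMod mT → ℤ, Rel x → ∑ b, x b • c (iota l b) = 0) ∨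
      Even (∑ b : ZMod m0, x b * W (cyc n) T.toList (pt (E.symm b)))) :
    ∑ a, x a • c a = 0 := by
  classical
  refine CharacterModule.eq_zero_of_character_apply fun φ0 => ?_
  let φ : Q →+ AddCircle (1 : ℚ) := φ0
  change φ _ = 0
  refine coreW h.hn h.h4 h.hco h.hN E hc φ x hx ?_
  intro T hTe
  by_cases hTn : T.Nonempty
  · exact hT T hTe hTn
  · left
    intro mT l _ hmT hl x _
    rw [not_nonempty_iff_eq_empty] at hTn
    rw [hTn, prod_empty] at hmT
    subst hmT
    have h1 : ∀ b : ZMod 1, (iota l b : ZMod m0) = 0 := by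
      intro b
      have : b = 0 := Subsingleton.elim _ _
      rw [this, iota_zero]
    refine sum_eq_zero fun b _ => ?_
    rw [h1, hc.half 0 (add_zero 0), smul_zero]

/-- the subsets of a pair -/
lemma exists_notMem {T T' : Finset ι} (hT : T.card = 2) (he : Even T'.card) (hn : T'.Nonempty)
    (hne : T' ≠ T) : ∃ i ∈ T', i ∉ T := by
  by_contra h
  push Not at h
  have h1 : T' ⊆ T := fun i hi => h i hi
  have h2 := card_le_card h1
  have h3 := card_pos.mpr hn
  obtain ⟨r, hr⟩ := he
  exact hne (eq_of_subset_of_card_le h1 (by omega))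

/-- **A test distribution for a pair.** -/
theorem Lev.pair (h : Lev n m0 m k E X) (hk : k * m0 = m) {y : ZMod m → ℤ} (hy : Rel y)
    {B : Type} [AddCommGroup B] {π : ZMod m → B} (hπ : OddDist π) (hπ0 : ∑ a, y a • π a = 0)
    {T : Finset ι} (hTc : T.card = 2)
    (hT : ∀ T' : Finset ι, Even T'.card → T'.Nonempty → T' ≠ T →
      Kills n m0 k π T' ∨ Even (fw n E X y T'))
    (htest : ∀ (mT l : ℕ) [NeZero mT], ∏ i ∈ T, n i = mT → l * mT = m0 → ∀ z : ZMod mT → ℤ, Rel z →
      ∑ b, z b • π (iota k (iota l b : ZMod m0)) = 0 → ∀ (Q : Type) [AddCommGroup Q]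
      (c : ZMod mT → Q), OddDist c → ∑ b, z b • c b = 0) :
    (∀ (Q : Type) [AddCommGroup Q] (c : ZMod m → Q), OddDist c → Kills n m0 k c T) ∨
      Even (fw n E X y T) := by
  classical
  have hTn : T.Nonempty := by rw [← card_pos]; omega
  have hmT0 : ∏ i ∈ T, n i ≠ 0 := prod_ne_zero_iff.mpr fun i _ => NeZero.ne (n i)
  have hNZ : NeZero (∏ i ∈ T, n i) := ⟨hmT0⟩
  obtain ⟨mT, hmT⟩ : ∃ mT, ∏ i ∈ T, n i = mT := ⟨_, rfl⟩
  rw [hmT] at hNZ
  have hlT : (∏ i ∈ univ \ T, n i) * mT = m0 := by
    rw [← hmT, ← h.hN]; exact prod_sdiff (subset_univ T)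
  obtain ⟨l, hl⟩ : ∃ l, l * mT = m0 := ⟨_, hlT⟩
  have huniq : ∀ (mT' l' : ℕ), ∏ i ∈ T, n i = mT' → l' * mT' = m0 → mT' = mT ∧ l' = l := by
    intro mT' l' h1 h2
    have h3 : mT' = mT := by rw [← h1, hmT]
    refine ⟨h3, ?_⟩
    apply Nat.eq_of_mul_eq_mul_right (Nat.pos_of_ne_zero (NeZero.ne mT))
    rw [hl, ← h3, h2]
  by_cases hz : ∀ z : ZMod mT → ℤ, Rel z →
      Even (∑ b : ZMod mT, z b * W (cyc n) T.toList (pt (E.symm (iota l b : ZMod m0))))
  · -- all relations are trivial
    left
    intro Q _ c hc mT' l' _ hmT' hl' z hz'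
    obtain ⟨rfl, rfl⟩ := huniq mT' l' hmT' hl'
    have hc0 : OddDist (fun b : ZMod m0 => c (iota k b)) := hc.comp_iota hk
    have h1 := Lev.main0 h hc0 (push_rel hl' hz') (by
      intro T' hTe' hTn'
      right
      have h2 := push_sum (m0 := m0) l' z (fun b => W (cyc n) T'.toList (pt (E.symm b)))
      simp only [smul_eq_mul] at h2
      rw [h2]
      by_cases hTT : T' = T
      · rw [hTT]; exact hz z hz'
      · obtain ⟨i, hi, hiT⟩ := exists_notMem hTc hTe' hTn' hTT
        rw [sum_congr rfl fun b _ => by rw [w_low h hmT hl' hi hiT b, mul_zero], sum_const_zero]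
        exact Even.zero)
    rw [push_sum (m0 := m0) l' z (fun b => c (iota k b))] at h1
    exact h1
  · right
    push Not at hz
    obtain ⟨z, hzr, hzo⟩ := hz
    -- the test is nonzero on this relation
    have hzπ : ∑ b, z b • π (iota k (iota l b : ZMod m0)) ≠ 0 := by
      intro h0
      apply hzo
      have h1 := htest mT l hmT hl z hzr h0 (ZMod 2)
        (fun b => ((W (cyc n) T.toList (pt (E.symm (iota l b : ZMod m0))) : ℤ) : ZMod 2))
        ((w_dist h.hn h.h4 h.hco h.hN E hTn).comp_iota hl)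
      rw [even_iff_zmod]
      push_cast
      rw [← h1]
      exact sum_congr rfl fun b _ => by rw [zsmul_eq_mul]
    by_contra hodd
    -- the combined distribution
    set w : Finset ι → ZMod m → ZMod 2 := fun T a =>
      if T = ∅ then 0 else ((W (cyc n) T.toList (pt (E.symm (X a))) : ℤ) : ZMod 2) with hw
    have hwD : ∀ T, OddDist (w T) := by
      intro T
      by_cases hTe : T = ∅
      · have h1 : w T = fun _ => 0 := by
          funext a
          rw [hw]
          beta_reduce
          rw [if_pos hTe]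
        rw [h1]
        exact oddDist_zero
      · have h1 : w T = fun a => ((W (cyc n) T.toList (pt (E.symm (X a))) : ℤ) : ZMod 2) := by
          funext a
          rw [hw]
          beta_reduce
          rw [if_neg hTe]
        rw [h1]
        exact w_distX h (nonempty_iff_ne_empty.mpr hTe)
    have hC : OddDist (fun a : ZMod m => (π a, fun T => w T a)) :=
      OddDist.prod hπ (OddDist.pi hwD)
    obtain ⟨x0, hx0, he⟩ := h.red _ _ hC _ hy
    have he1 : ∑ a, y a • π a = ∑ b, x0 b • π (iota k b) := by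
      have h1 := congrArg Prod.fst he
      rw [Prod.fst_sum, Prod.fst_sum] at h1
      exact h1
    have he2 : ∀ T, ∑ a, y a • w T a = ∑ b, x0 b • w T (iota k b) := by
      intro T
      have h1 := congrFun (congrArg Prod.snd he) T
      rw [Prod.snd_sum, Prod.snd_sum, Finset.sum_apply, Finset.sum_apply] at h1
      exact h1
    have hpar : ∀ T' : Finset ι, T'.Nonempty → ((fw n E X y T' : ℤ) : ZMod 2) =
        ((∑ b : ZMod m0, x0 b * W (cyc n) T'.toList (pt (E.symm b)) : ℤ) : ZMod 2) := by
      intro T' hTn'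
      have hTne : T' ≠ ∅ := hTn'.ne_empty
      have h4 : ((fw n E X y T' : ℤ) : ZMod 2) = ∑ a, y a • w T' a := by
        unfold fw
        push_cast
        refine sum_congr rfl fun a _ => ?_
        rw [hw]
        beta_reduce
        rw [if_neg hTne, zsmul_eq_mul]
      have h5 : ((∑ b : ZMod m0, x0 b * W (cyc n) T'.toList (pt (E.symm b)) : ℤ) : ZMod 2) =
          ∑ b, x0 b • w T' (iota k b) := by
        push_cast
        refine sum_congr rfl fun a _ => ?_
        rw [hw]
        beta_reduce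
        rw [if_neg hTne, zsmul_eq_mul, h.hX1]
      rw [h4, he2, h5]
    set x1 : ZMod m0 → ℤ := fun b => x0 b + push l z b with hx1
    have hx1r : Rel x1 := rel_add hx0 (push_rel hl hzr)
    have hπ0' : OddDist (fun b : ZMod m0 => π (iota k b)) := hπ.comp_iota hk
    have h1 := Lev.main0 h hπ0' hx1r (by
      intro T' hTe' hTn'
      have hsplit : ∑ b : ZMod m0, x1 b * W (cyc n) T'.toList (pt (E.symm b)) =
          ∑ b : ZMod m0, x0 b * W (cyc n) T'.toList (pt (E.symm b)) +
          ∑ b : ZMod mT, z b * W (cyc n) T'.toList (pt (E.symm (iota l b : ZMod m0))) := by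
        have h2 := push_sum (m0 := m0) l z (fun b => W (cyc n) T'.toList (pt (E.symm b)))
        simp only [smul_eq_mul] at h2
        rw [← h2, ← sum_add_distrib]
        refine sum_congr rfl fun b _ => ?_
        rw [hx1]; ring
      by_cases hTT : T' = T
      · right
        rw [hsplit, hTT]
        have h3 : ¬ Even (∑ b : ZMod m0, x0 b * W (cyc n) T.toList (pt (E.symm b))) := by
          rw [even_iff_zmod, ← hpar T hTn, ← even_iff_zmod]
          exact hodd
        exact (Int.not_even_iff_odd.mp h3).add_odd (Int.not_even_iff_odd.mp hzo)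
      · rcases hT T' hTe' hTn' hTT with h2 | h2
        · left
          intro mT' l' _ hmT' hl' x hx
          exact h2 mT' l' hmT' hl' x hx
        · right
          obtain ⟨i, hi, hiT⟩ := exists_notMem hTc hTe' hTn' hTT
          have h3 : ∑ b : ZMod mT, z b * W (cyc n) T'.toList (pt (E.symm (iota l b : ZMod m0))) =
              0 := by
            rw [sum_congr rfl fun b _ => by rw [w_low h hmT hl hi hiT b, mul_zero], sum_const_zero]
          rw [hsplit, h3, add_zero, even_iff_zmod, ← hpar T' hTn', ← even_iff_zmod]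
          exact h2)
    have h2 : ∑ b, x1 b • π (iota k b) = ∑ b, x0 b • π (iota k b) +
        ∑ b, z b • π (iota k (iota l b : ZMod m0)) := by
      rw [← push_sum (m0 := m0) l z (fun b => π (iota k b)), ← sum_add_distrib]
      refine sum_congr rfl fun b _ => ?_
      rw [hx1, add_smul]
    rw [h2, ← he1, hπ0, zero_add] at h1
    exact hzπ h1

end

end Run7.h919.Ra
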