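import Pool.Agent.Run7.h919.Ra1

/-!
Relations of odd level with few entries and test distributions for the pairs of primes.
-/

set_option linter.unusedSectionVars false

namespace Run7.h919.Ra

open Finset Pool.Agent.N993 Pool.Agent.N993.Dat Pool.Agent.H916R2 Pool.Agent.N992 Run7.h919.Tw

/-- A test distribution for the pair `p`, `q`: it vanishes on `y` and on the relations of the levels of
all other pairs, and it detects the relations of level `p * q`. -/
def HasTest (m : ℕ) [NeZero m] (y : ZMod m → ℤ) (p q : ℕ) : Prop :=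
  ∃ (B : Type) (_ : AddCommGroup B) (π : ZMod m → B), OddDist π ∧ ∑ a, y a • π a = 0 ∧
    (∀ (a b mT j : ℕ) [NeZero mT], a.Prime → b.Prime → a ≠ b → a * b = mT → j * mT = m →
      ({a, b} : Finset ℕ) ≠ {p, q} → ∀ z : ZMod mT → ℤ, Rel z → ∑ x, z x • π (iota j x) = 0) ∧
    (∀ (mT j : ℕ) [NeZero mT], p * q = mT → j * mT = m → ∀ z : ZMod mT → ℤ, Rel z →
      ∑ x, z x • π (iota j x) = 0 → ∀ (Q : Type) [AddCommGroup Q] (c : ZMod mT → Q), OddDist c →
      ∑ x, z x • c x = 0)

/-- **Relations of odd level with few entries and test distributions.** -/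
theorem few_zero {m N : ℕ} [NeZero m] (hodd : m % 2 = 1) {y : ZMod m → ℤ} (hy : Rel y)
    (hcard : (univ.filter (fun a => y a ≠ 0)).card ≤ N)
    (hbig : ∀ T ⊆ m.primeFactors, Even T.card → 4 ≤ T.card → Big N m.primeFactors T)
    (htest : ∀ p q : ℕ, p.Prime → q.Prime → p ≠ q → p ∣ m → q ∣ m → HasTest m y p q)
    {Q : Type} [AddCommGroup Q] {c : ZMod m → Q} (hc : OddDist c) : ∑ a, y a • c a = 0 := by
  classical
  have hm0 : m ≠ 0 := NeZero.ne m
  set S := m.primeFactors with hS
  have hSp : ∀ x ∈ S, x.Prime ∧ x % 2 = 1 ∧ x ∣ m := by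
    intro x hx
    have h1 := Nat.prime_of_mem_primeFactors hx
    have h2 := Nat.dvd_of_mem_primeFactors hx
    refine ⟨h1, ?_, h2⟩
    rw [← Nat.odd_iff] at hodd ⊢
    exact hodd.of_dvd_nat h2
  have hU : ∀ x ∈ S, (x.Prime ∧ x % 2 = 1) ∨ x = 4 := fun x hx =>
    Or.inl ⟨(hSp x hx).1, (hSp x hx).2.1⟩
  have hnz : ∀ i : Ix S, NeZero (nn S i) := fun i => ⟨(hSp i i.2).1.ne_zero⟩
  have hn : Adm' (nn S) := fun i => hU i i.2
  have h4 : ∀ i : Ix S, nn S i ≠ 4 := by
    intro i hi
    have h1 := (hSp i i.2).2.1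
    change (i : ℕ) = 4 at hi
    omega
  have hco : Pairwise (fun i j : Ix S => (nn S i).Coprime (nn S j)) := fun i j hij =>
    coprime_of (hU i i.2) (hU j j.2) (fun h => hij (Subtype.ext h))
  set m0 := ∏ i : Ix S, nn S i with hm0def
  have hm00 : m0 ≠ 0 := prod_ne_zero_iff.mpr fun i _ => (hnz i).out
  have hNZ0 : NeZero m0 := ⟨hm00⟩
  have hm0' : m0 = ∏ x ∈ S, x := by
    rw [hm0def]
    exact Finset.prod_coe_sort S (fun x => x)
  have hdvd : m0 ∣ m := by
    rw [hm0']
    apply Finset.prod_dvd_of_isRelPrime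
    · intro a ha b hb hab
      exact Nat.coprime_iff_isRelPrime.mp ((Nat.coprime_primes (hSp a ha).1 (hSp b hb).1).mpr hab)
    · intro x hx; exact (hSp x hx).2.2
  obtain ⟨k, hk⟩ := hdvd
  have hk' : k * m0 = m := by rw [mul_comm]; exact hk.symm
  have hall : ∀ p, p.Prime → p ∣ m → p ∣ m0 := by
    intro p hp hpm
    rw [hm0']
    exact dvd_prod_of_mem (fun x => x) (Nat.mem_primeFactors.mpr ⟨hp, hpm, hm0⟩)
  have hred : Red m m0 k := red_exists k m m0 k rfl hk' hall (fun h => by omega)
  obtain ⟨X, hX1, hX2⟩ := up_exists k k m m0 rfl hk' hodd hall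
  have hL : Lev (nn S) m0 m k (ZMod.prodEquivPi (nn S) hco).symm X :=
    ⟨hn, h4, hco, rfl, hred, hX1, hX2⟩
  set E := (ZMod.prodEquivPi (nn S) hco).symm with hE
  -- four elements
  have hfour : ∀ T : Finset (Ix S), Even T.card → 4 ≤ T.card → Even (fw (nn S) E X y T) := by
    intro T hTe hT4
    refine hL.even hy hcard hTe (by rw [← card_pos]; omega) ?_
    intro A hTA
    have hS' : ∀ T : Finset (Ix S), T.map (Function.Embedding.subtype _) ⊆ S := by
      intro T x hx
      rw [mem_map] at hx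
      obtain ⟨z, _, rfl⟩ := hx
      exact z.2
    have h1 := hbig (T.map (Function.Embedding.subtype _)) (hS' T) (by rw [card_map]; exact hTe)
      (by rw [card_map]; exact hT4)
    have h2 := h1 (A.map (Function.Embedding.subtype _)) (map_subset_map.mpr hTA) (hS' A)
    rw [card_map, card_map, prod_map] at h2
    exact h2
  refine Lev.main2 hL hc hk' hy ?_
  intro T hTe hTn
  by_cases hT4 : 4 ≤ T.card
  · right; exact hfour T hTe hT4
  have hT2 : T.card = 2 := by
    obtain ⟨r, hr⟩ := hTe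
    have := card_pos.mpr hTn
    omega
  obtain ⟨i, j, hij, rfl⟩ := card_eq_two.mp hT2
  have hij' : (i : ℕ) ≠ (j : ℕ) := fun h => hij (Subtype.ext h)
  obtain ⟨B, hB, π, hπ, hπ0, hπ1, hπ2⟩ := htest (i : ℕ) (j : ℕ) (hSp i i.2).1 (hSp j j.2).1 hij'
    (hSp i i.2).2.2 (hSp j j.2).2.2
  rcases Lev.pair hL hk' hy hπ hπ0 hT2 (by
    intro T' hTe' hTn' hTT
    by_cases hT4' : 4 ≤ T'.card
    · right; exact hfour T' hTe' hT4'
    · left
      have hT2' : T'.card = 2 := by
        obtain ⟨r, hr⟩ := hTe'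
        have := card_pos.mpr hTn'
        omega
      obtain ⟨i', j', hij1, rfl⟩ := card_eq_two.mp hT2'
      have hij1' : (i' : ℕ) ≠ (j' : ℕ) := fun h => hij1 (Subtype.ext h)
      intro mT l _ hmT hl z hz
      rw [prod_pair hij1] at hmT
      have h1 := hπ1 (i' : ℕ) (j' : ℕ) mT (k * l) (hSp i' i'.2).1 (hSp j' j'.2).1 hij1' hmT
        (by rw [mul_assoc, hl, hk']) (by
          intro h
          apply hTT
          have h2 : ({i', j'} : Finset (Ix S)).map (Function.Embedding.subtype _) =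
              ({i, j} : Finset (Ix S)).map (Function.Embedding.subtype _) := by
            rw [map_insert, map_singleton, map_insert, map_singleton]
            exact h
          exact map_injective _ h2) z hz
      rw [← h1]
      refine sum_congr rfl fun b _ => ?_
      rw [iota_comp hk'])
    (by
      intro mT l _ hmT hl z hz h0 Q _ c hc
      rw [prod_pair hij] at hmT
      refine hπ2 mT (k * l) hmT (by rw [mul_assoc, hl, hk']) z hz ?_ Q c hc
      rw [← h0]
      refine sum_congr rfl fun b _ => ?_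
      rw [iota_comp hk']) with h1 | h1
  · left; exact h1 Q c hc
  · right; exact h1

/-! ### The numerical condition -/

/-- The number of entries is small in comparison to any four odd prime factors. -/
def FourBound (m N : ℕ) : Prop :=
  ∀ T ⊆ m.primeFactors.erase 2, T.card = 4 →
    16 * ((if 2 ∣ m then 2 else 1) * N) < ∏ p ∈ T, (p - 1)

section

variable {S : Finset ℕ} (hS : ∀ p ∈ S, p.Prime ∧ p % 2 = 1)

include hS

/-- the remaining factors -/
lemma prod_tail : ∀ (n : ℕ) (A : Finset ℕ), A ⊆ S → A.card = n + 4 → ∃ T ⊆ A, T.card = 4 ∧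
    (n + 5).factorial * ∏ p ∈ T, hh p ≤ 120 * ∏ p ∈ A, hh p := by
  intro n
  induction n with
  | zero =>
    intro A _ hA
    exact ⟨A, Subset.refl A, hA, le_refl _⟩
  | succ n ih =>
    intro A hAS hA
    have hne : A.Nonempty := by rw [← card_pos]; omega
    set P := A.max' hne with hP
    have hPA : P ∈ A := max'_mem A hne
    obtain ⟨T, hTA, hTc, hT⟩ := ih (A.erase P) ((erase_subset _ _).trans hAS)
      (by rw [card_erase_of_mem hPA, hA]; rfl)
    refine ⟨T, hTA.trans (erase_subset _ _), hTc, ?_⟩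
    rw [← mul_prod_erase A hh hPA]
    -- the largest prime
    have hle : n + 6 ≤ hh P := by
      have h1 : A.image hh ⊆ (Icc 1 (hh P)).erase 4 := by
        intro b hb
        have hb4 : b ≠ 4 := fun h => hh_four hS hAS (h ▸ hb)
        have hb0 := hh_pos hS hAS b hb
        obtain ⟨a, ha, rfl⟩ := mem_image.mp hb
        rw [mem_erase, mem_Icc]
        refine ⟨hb4, hb0, ?_⟩
        have h2 := le_max' A a ha
        unfold hh
        omega
      have h2 := card_le_card h1
      rw [card_image_of_injOn (hh_inj hS hAS), hA] at h2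
      by_contra hlt
      push Not at hlt
      have h3 : (Icc 1 (hh P)).card = hh P := by rw [Nat.card_Icc]; omega
      by_cases h5 : 4 ≤ hh P
      · rw [card_erase_of_mem (mem_Icc.mpr ⟨by norm_num, h5⟩), h3] at h2
        omega
      · have h6 := card_le_card (erase_subset 4 (Icc 1 (hh P)))
        omega
    have h5 : (n + 1 + 5).factorial = (n + 6) * (n + 5).factorial := Nat.factorial_succ (n + 5)
    rw [h5]
    calc (n + 6) * (n + 5).factorial * ∏ p ∈ T, hh p
        = (n + 6) * ((n + 5).factorial * ∏ p ∈ T, hh p) := by ring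
      _ ≤ (n + 6) * (120 * ∏ p ∈ A.erase P, hh p) := Nat.mul_le_mul_left _ hT
      _ ≤ hh P * (120 * ∏ p ∈ A.erase P, hh p) := Nat.mul_le_mul_right _ hle
      _ = _ := by ring

lemma big_of_four {N : ℕ} (h : ∀ T ⊆ S, T.card = 4 → 16 * N < ∏ p ∈ T, (p - 1)) {T : Finset ℕ}
    (hT : 4 ≤ T.card) : Big N S T := by
  refine big_of_hh hS fun A hTA hAS => ?_
  have h1 := card_le_card hTA
  obtain ⟨n, hn⟩ : ∃ n, A.card = n + 4 := ⟨A.card - 4, by omega⟩
  obtain ⟨T0, hT0A, hT0c, hT0⟩ := prod_tail hS n A hAS hn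
  have h2 := h T0 (hT0A.trans hAS) hT0c
  rw [prod_hh hS (hT0A.trans hAS), hT0c] at h2
  have h3 : N < ∏ p ∈ T0, hh p := by omega
  set R := ∏ p ∈ T0, hh p with hR
  rw [hn]
  have h4 : n + 4 - 1 = n + 3 := by omega
  rw [h4]
  have h5 : 6 ≤ (T.card - 1).factorial := by
    have h6 : (3 : ℕ).factorial ≤ (T.card - 1).factorial := Nat.factorial_le (by omega)
    exact h6
  have h6 : (n + 5).factorial = (n + 5) * ((n + 4) * (n + 3).factorial) := by
    rw [Nat.factorial_succ (n + 4), Nat.factorial_succ (n + 3)]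
  have h7 : 20 * (n + 3).factorial ≤ (n + 5).factorial := by
    rw [h6, ← mul_assoc]
    refine Nat.mul_le_mul_right _ ?_
    have h8 : 5 ≤ n + 5 := by omega
    have h9 : 4 ≤ n + 4 := by omega
    exact Nat.mul_le_mul h8 h9
  have h8 : 20 * ((n + 3).factorial * R) ≤ 120 * ∏ p ∈ A, hh p := by
    calc 20 * ((n + 3).factorial * R) = (20 * (n + 3).factorial) * R := by ring
      _ ≤ (n + 5).factorial * R := Nat.mul_le_mul_right _ h7
      _ ≤ _ := hT0
  have h9 : (n + 3).factorial * R ≤ 6 * ∏ p ∈ A, hh p := by omega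
  have h10 : 0 < (n + 3).factorial := Nat.factorial_pos _
  calc N * (n + 3).factorial < R * (n + 3).factorial := Nat.mul_lt_mul_of_pos_right h3 h10
    _ = (n + 3).factorial * R := by ring
    _ ≤ 6 * ∏ p ∈ A, hh p := h9
    _ ≤ (T.card - 1).factorial * ∏ p ∈ A, hh p := Nat.mul_le_mul_right _ h5

end

end Run7.h919.Ra
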