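import Pool.Agent.Run7.h919.Ra2
import Pool.Agent.Run7.h365.TD.Str

/-!
The test distributions given by the Gauss sums modulo the primes of the degree.
-/

set_option linter.unusedSectionVars false

namespace Run7.h919.Ra

open Finset Pool.Agent.H916R2 Pool.Agent.H916K
open Run7.h365.TD (Ar PH vd lft lft_iota exists_h oddDist_pi sum_pi cast_D D_ne pow_order_low
  oddDist_PH oddDist_vd oddDist_smul comp_unit exists_nonsquare ne_zero_of_nonsquare two_even PH_mul
  PH_neg vd_neg)

/-- integral odd distributions vanish on the relations -/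
lemma int_zero {m : ℕ} [NeZero m] {g : ZMod m → ℤ} (hg : OddDist g) {z : ZMod m → ℤ} (hz : Rel z) :
    ∑ b, z b * g b = 0 := by
  have h1 := Pool.Agent.N998.rat_zero _ (Pool.Agent.N998.oddDist_map hg (Int.castAddHom ℚ)) z hz
  have h2 : ((∑ b, z b * g b : ℤ) : ℚ) = 0 := by
    rw [← h1]; push_cast; rfl
  exact_mod_cast h2

/-- the unit -/
lemma exists_unit {p M : ℕ} [NeZero M] (hp : p.Prime) (hp2 : p ≠ 2) (hpM : p ∣ M) :
    ∃ (w : (ZMod M)ˣ) (ν : ZMod p), ¬ IsSquare ν ∧ ZMod.castHom hpM (ZMod p) (w : ZMod M) = ν ∧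
      ∀ (r : ℕ) (hr : r ∣ M), r.Coprime p → ZMod.castHom hr (ZMod r) (w : ZMod M) = 1 := by
  have : Fact p.Prime := ⟨hp⟩
  obtain ⟨ν, hν⟩ := exists_nonsquare (p := p) hp2
  have hν0 := ne_zero_of_nonsquare hν
  have hM0 : M ≠ 0 := NeZero.ne M
  set M1 := M / p ^ M.factorization p with hM1
  have hMe : p ^ M.factorization p * M1 = M := Nat.ordProj_mul_ordCompl_eq_self M p
  have hcop : p.Coprime M1 := Nat.coprime_ordCompl hp hM0
  obtain ⟨x, hx1, hx2⟩ := Nat.chineseRemainder hcop ν.val 1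
  have hxp : (x : ZMod p) = ν := by
    have := (ZMod.natCast_eq_natCast_iff _ _ _).mpr hx1
    rw [this, ZMod.natCast_zmod_val]
  have hxc : x.Coprime M := by
    rw [← hMe]
    refine Nat.Coprime.mul_right (Nat.Coprime.pow_right _ ?_) ?_
    · rw [Nat.coprime_comm, Nat.Prime.coprime_iff_not_dvd hp]
      intro h
      apply hν0
      rw [← hxp, ZMod.natCast_eq_zero_iff]
      exact h
    · have h1 := hx2.gcd_eq
      rw [Nat.gcd_one_left] at h1
      exact h1
  refine ⟨ZMod.unitOfCoprime x hxc, ν, hν, ?_, ?_⟩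
  · rw [ZMod.coe_unitOfCoprime, map_natCast, hxp]
  · intro r hr hrp
    have h1 : r ∣ M1 := by
      have h2 : r ∣ p ^ M.factorization p * M1 := by rw [hMe]; exact hr
      exact (hrp.pow_right _).dvd_of_dvd_mul_left h2
    rw [ZMod.coe_unitOfCoprime, map_natCast]
    have h2 := (ZMod.natCast_eq_natCast_iff _ _ _).mpr (hx2.of_dvd h1)
    rw [h2, Nat.cast_one]

/-- **The test distributions.** -/
theorem hasTest_of_ar {m m' c0 d : ℕ} [NeZero m] [NeZero m'] (hc0 : c0 = 1 ∨ c0 = 2)
    (hm : c0 * m' = m) (hodd : m' % 2 = 1) (hd : ¬ 2 ∣ d) {s : Multiset (ZMod m)} (hA : Ar d m s)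
    {y : ZMod m' → ℤ} (hy : ∀ (B : Type) [AddCommGroup B] (π : ZMod m → B), OddDist π →
      (s.map π).sum = ∑ b, y b • π (iota c0 b)) {p q : ℕ} (hp : p.Prime) (hq : q.Prime)
    (hpq : p ≠ q) (hpm : p ∣ m') (hqm : q ∣ m') : HasTest m' y p q := by
  classical
  have hpF : Fact p.Prime := ⟨hp⟩
  have hqF : Fact q.Prime := ⟨hq⟩
  have hoddd : ∀ r : ℕ, r ∣ m' → r % 2 = 1 := by
    intro r hr
    rw [← Nat.odd_iff] at hodd ⊢
    exact hodd.of_dvd_nat hr
  have hp2 : p ≠ 2 := by
    rintro rfl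
    have := hoddd 2 hpm
    omega
  have hq2 : q ≠ 2 := by
    rintro rfl
    have := hoddd 2 hqm
    omega
  have hc00 : c0 ≠ 0 := by rcases hc0 with rfl | rfl <;> norm_num
  have hc0q : c0.Coprime q := by
    rcases hc0 with rfl | rfl
    · exact Nat.coprime_one_left q
    · exact (Nat.coprime_primes Nat.prime_two hq).mpr (Ne.symm hq2)
  have hcodd : ∀ r : ℕ, r ∣ m' → c0.Coprime r := by
    intro r hr
    rcases hc0 with rfl | rfl
    · exact Nat.coprime_one_left r
    · rw [Nat.coprime_two_left]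
      exact Nat.odd_iff.mpr (hoddd r hr)
  have hm0 : m ≠ 0 := NeZero.ne m
  have hm'm : m' ∣ m := ⟨c0, by rw [mul_comm]; exact hm.symm⟩
  -- the level
  obtain ⟨e, M, hMe, hqM⟩ : ∃ e M : ℕ, M * q ^ e = m ∧ q.Coprime M :=
    ⟨m.factorization q, m / q ^ m.factorization q, by
      rw [mul_comm]; exact Nat.ordProj_mul_ordCompl_eq_self m q, Nat.coprime_ordCompl hq hm0⟩
  have he : 0 < e := by
    rcases Nat.eq_zero_or_pos e with h | h
    · exfalso
      rw [h, pow_zero, mul_one] at hMe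
      have h1 : q ∣ M := by rw [hMe]; exact hqm.trans hm'm
      have h2 := Nat.Coprime.eq_one_of_dvd hqM h1
      exact hq.one_lt.ne' h2
    · exact h
  have hMm : M ∣ m := ⟨q ^ e, hMe.symm⟩
  have hMNZ : NeZero M := ⟨fun h => hm0 (by rw [← hMe, h, Nat.zero_mul])⟩
  have hdM : ∀ r : ℕ, r ∣ m → q.Coprime r → r ∣ M := by
    intro r hr hqr
    rw [← hMe] at hr
    exact ((hqr.symm).pow_right e).dvd_of_dvd_mul_right hr
  have hcM : c0 ∣ M := hdM c0 ⟨m', hm.symm⟩ hc0q.symm
  have hpM : p ∣ M := hdM p (hpm.trans hm'm) ((Nat.coprime_primes hq hp).mpr (Ne.symm hpq))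
  obtain ⟨w, ν, hν, hwν, hw1⟩ := exists_unit hp hp2 hpM
  obtain ⟨h, hh⟩ := exists_h hc0 hcM d w
  set f := orderOf (q : ZMod M) with hf
  set D := q ^ f - 1 with hD
  have hπ : OddDist (lft hMm D (PH q f h)) := oddDist_pi hMm hq hqM hMe hc00 w hh
  have hπ0 : (s.map (lft hMm D (PH q f h))).sum = 0 :=
    sum_pi hMm hq (hA.div hMm hq hqM hMe he hc00 hcM w hh)
  set π := lft hMm D (PH q f h) with hπdef
  have hfull : ∀ (mT j : ℕ) [NeZero mT], j * mT = m' → (c0 * j) * mT = m := by
    intro mT j _ hj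
    rw [mul_assoc, hj, hm]
  have hcomp : ∀ (mT j : ℕ) [NeZero mT] (_ : j * mT = m') (x : ZMod mT),
      π (iota c0 (iota j x : ZMod m')) = π (iota (c0 * j) x) := by
    intro mT j _ hj x
    rw [iota_comp hm]
  -- divisors of M
  have hk1 : ∀ r : ℕ, r ∣ M → r % 2 = 1 → ∃ k1 C1 : ℕ, k1 * r = M ∧ k1 = c0 * C1 := by
    intro r hr hr2
    obtain ⟨k1, hk1⟩ := hr
    have hcr : c0.Coprime r := by
      rcases hc0 with rfl | rfl
      · exact Nat.coprime_one_left r
      · rw [Nat.coprime_two_left]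
        exact Nat.odd_iff.mpr hr2
    have h1 : c0 ∣ k1 := by
      rw [hk1] at hcM
      exact hcr.dvd_of_dvd_mul_left hcM
    obtain ⟨C1, hC1⟩ := h1
    exact ⟨k1, C1, by rw [mul_comm]; exact hk1.symm, hC1⟩
  refine ⟨ZMod D, inferInstance, fun a => π (iota c0 a), hπ.comp_iota hm, ?_, ?_, ?_⟩
  · rw [← hy _ π hπ]; exact hπ0
  · -- the other pairs
    intro a b mT j _ ha hb hab habT hj hne z hz
    have hjm := hfull mT j hj
    have hS : ∑ x, z x • (fun a => π (iota c0 a)) (iota j x : ZMod m') =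
        ∑ x, z x • π (iota (c0 * j) x) :=
      sum_congr rfl fun x _ => by beta_reduce; rw [hcomp mT j hj x]
    rw [hS]
    have hmTm : mT ∣ m' := ⟨j, by rw [mul_comm]; exact hj.symm⟩
    have hmT2 := hoddd mT hmTm
    by_cases hqT : q ∣ mT
    · -- the pair contains `q`
      obtain ⟨r, hr, hrq, hrp, hrT⟩ : ∃ r : ℕ, r.Prime ∧ r ≠ q ∧ r ≠ p ∧ r * q = mT := by
        rw [← habT] at hqT
        rcases (Nat.Prime.dvd_mul hq).mp hqT with h1 | h1
        · have h2 := (Nat.prime_dvd_prime_iff_eq hq ha).mp h1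
          refine ⟨b, hb, fun h => hab (by rw [← h2, h]), fun h => hne ?_, ?_⟩
          · rw [← h2, h]; exact pair_comm q p
          · rw [h2, mul_comm]; exact habT
        · have h2 := (Nat.prime_dvd_prime_iff_eq hq hb).mp h1
          refine ⟨a, ha, fun h => hab (by rw [← h2, h]), fun h => hne ?_, ?_⟩
          · rw [← h2, h]
          · rw [h2]; exact habT
      have hrm' : r ∣ m' := (Dvd.intro q hrT).trans hmTm
      have hrM : r ∣ M := hdM r (hrm'.trans hm'm) ((Nat.coprime_primes hq hr).mpr (Ne.symm hrq))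
      obtain ⟨k1, C1, hk1r, hC1⟩ := hk1 r hrM (hoddd r hrm')
      have hrNZ : NeZero r := ⟨hr.ne_zero⟩
      obtain ⟨e', rfl⟩ : ∃ e', e = e' + 1 := ⟨e - 1, by omega⟩
      have hkk : c0 * j = k1 * q ^ e' := by
        apply Nat.eq_of_mul_eq_mul_right (Nat.mul_pos hr.pos hq.pos)
        rw [show c0 * j * (r * q) = m by rw [hrT, hjm], ← hMe, ← hk1r]; ring
      have hrT' : r ∣ mT := Dvd.intro q hrT
      have hlow := fun x : ZMod mT => lft_iota (M := M) (M0 := r) (m0 := mT) (q := q) (e := e')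
        (k := c0 * j) (C0 := d * C1) hMm hc00 hk1r (by rw [hC1]; ring) hkk hrT'
        (w := (w : ZMod M)) (w0 := 1) (hw1 r _ ((Nat.coprime_primes hr hp).mpr hrp)) hh f D x hjm
      have hzero : ∀ x : ZMod mT, π (iota (c0 * j) x) = 0 := by
        intro x
        rw [hπdef, hlow x]
        have h1 : ∀ t : ZMod r, PH q f (vd (1 : ZMod r)) t = 0 := by
          intro t
          unfold PH vd
          refine sum_eq_zero fun i _ => ?_
          rw [one_mul, sub_self, mul_zero]
        rw [h1, mul_zero, Int.cast_zero]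
      exact sum_eq_zero fun x _ => by rw [hzero x, smul_zero]
    · -- the pair does not contain `q`
      have hcopT : q.Coprime mT := (Nat.Prime.coprime_iff_not_dvd hq).mpr hqT
      have hTM : mT ∣ M := hdM mT (hmTm.trans hm'm) hcopT
      obtain ⟨k1, C1, hk1r, hC1⟩ := hk1 mT hTM hmT2
      have hkk : c0 * j = k1 * q ^ e := by
        apply Nat.eq_of_mul_eq_mul_right (Nat.pos_of_ne_zero (NeZero.ne mT))
        rw [hjm, ← hMe, ← hk1r]; ring
      have hd1 : mT ∣ M := Dvd.intro_left k1 hk1r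
      have hlow := fun x : ZMod mT => lft_iota (M := M) (M0 := mT) (m0 := mT) (q := q) (e := e)
        (k := c0 * j) (C0 := d * C1) hMm hc00 hk1r (by rw [hC1]; ring) hkk (dvd_refl mT)
        (w := (w : ZMod M)) (w0 := ZMod.castHom hd1 (ZMod mT) (w : ZMod M)) rfl hh f D x hjm
      set w0 : (ZMod mT)ˣ := ZMod.unitsMap hd1 w with hw0
      have hw0' : ZMod.castHom hd1 (ZMod mT) (w : ZMod M) = (w0 : ZMod mT) := by
        rw [hw0, ZMod.unitsMap_val]; rfl
      set R : (ZMod mT)ˣ := ZMod.unitOfCoprime (q ^ e) (Nat.Coprime.pow_left e hcopT) with hR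
      have hRc : (R : ZMod mT) = (q : ZMod mT) ^ e := by
        rw [hR, ZMod.coe_unitOfCoprime]; push_cast; rfl
      set g : ZMod mT → ℤ := fun x => ((d * C1 : ℕ) : ℤ) • PH q f (vd (w0 : ZMod mT)) ((R : ZMod mT) * x)
        with hg
      have hgD : OddDist g :=
        oddDist_smul (comp_unit (oddDist_PH hcopT (oddDist_vd w0)) R) _
      have hval : ∀ x : ZMod mT, π (iota (c0 * j) x) = ((g x : ℤ) : ZMod D) := by
        intro x
        rw [hπdef, hlow x, hw0', hg]
        have h1 : ZMod.castHom (dvd_refl mT) (ZMod mT) x = x := by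
          rw [ZMod.castHom_apply, ZMod.cast_id]
        rw [h1, hRc]
        rfl
      have h1 := int_zero hgD hz
      have h2 : ∑ x, z x • π (iota (c0 * j) x) = ((∑ x, z x * g x : ℤ) : ZMod D) := by
        push_cast
        refine sum_congr rfl fun x _ => ?_
        rw [hval, zsmul_eq_mul]
      rw [h2, h1, Int.cast_zero]
  · -- the pair itself
    intro mT j _ hpqT hj z hz h0 Q _ c hc
    subst hpqT
    have hjm := hfull (p * q) j hj
    have hS : ∑ x, z x • (fun a => π (iota c0 a)) (iota j x : ZMod m') =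
        ∑ x, z x • π (iota (c0 * j) x) :=
      sum_congr rfl fun x _ => by beta_reduce; rw [hcomp (p * q) j hj x]
    rw [hS] at h0
    obtain ⟨k1, C1, hk1r, hC1⟩ := hk1 p hpM (hoddd p hpm)
    obtain ⟨e', rfl⟩ : ∃ e', e = e' + 1 := ⟨e - 1, by omega⟩
    have hkk : c0 * j = k1 * q ^ e' := by
      apply Nat.eq_of_mul_eq_mul_right (Nat.mul_pos hp.pos hq.pos)
      rw [hjm, ← hMe, ← hk1r]; ring
    have hpq' : p ∣ p * q := dvd_mul_right p q
    have hlow := fun b => lft_iota (M := M) (M0 := p) (m0 := p * q) (q := q) (e := e')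
      (k := c0 * j) (C0 := d * C1) hMm hc00 hk1r (by rw [hC1]; ring) hkk hpq'
      (w := (w : ZMod M)) (w0 := ν) hwν hh f D b hjm
    set H : ZMod p → ℤ := fun u => ((d * C1 : ℕ) : ℤ) * PH q f (vd ν) ((q : ZMod p) ^ e' * u) with hH
    have hfp : (q : ZMod p) ^ f = 1 := pow_order_low hpM
    have hqp := pq_ne (p := p) (q := q) hpq
    have hν0 := ne_zero_of_nonsquare hν
    have hsum : ((q : ℤ) ^ f - 1) ∣ ∑ u, ∑ v, two hpq z u v * H u := by
      rw [← cast_D hq.pos]
      apply (ZMod.intCast_zmod_eq_zero_iff_dvd _ _).mp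
      rw [← h0]
      rw [sum_two hpq (fun b => z b • π (iota (c0 * j) b))]
      push_cast
      refine sum_congr rfl fun u _ => sum_congr rfl fun v _ => ?_
      simp only [two]
      rw [hπdef, hlow, zsmul_eq_mul]
      have h3 : ZMod.castHom hpq' (ZMod p) ((ee hpq).symm (u, v)) = u := by
        have h4 : ∀ z : ZMod (p * q), ZMod.castHom hpq' (ZMod p) z = (ee hpq z).1 := by
          intro z
          conv_lhs => rw [← ZMod.natCast_zmod_val z]
          conv_rhs => rw [← ZMod.natCast_zmod_val z]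
          rw [map_natCast, ee_natCast]
        rw [h4, RingEquiv.apply_symm_apply]
      rw [h3, hH]
    have hneg : ∀ u, H (-u) = - H u := by
      intro u
      simp only [hH]
      have h4 : (q : ZMod p) ^ e' * -u = -((q : ZMod p) ^ e' * u) := mul_neg _ _
      rw [h4, PH_neg (vd_neg hν0), mul_neg]
    have hC1odd : C1 % 2 = 1 := by
      -- `M = c0 * C1 * p` and `M` divides `c0 * m'`
      have h1 : c0 * (C1 * p) = M := by rw [← hk1r, hC1]; ring
      have h2 : C1 * p ∣ m' := by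
        have h3 : c0 * (C1 * p) ∣ c0 * m' := by rw [h1, hm]; exact hMm
        exact (mul_dvd_mul_iff_left hc00).mp h3
      exact hoddd C1 ((Dvd.intro p rfl).trans h2)
    have hpodd : ¬ (2 : ℤ) ∣ ((d * C1 : ℕ) : ℤ) := by
      intro h3
      have h4 : 2 ∣ d * C1 := by exact_mod_cast h3
      rcases (Nat.Prime.dvd_mul Nat.prime_two).mp h4 with h5 | h5
      · exact hd h5
      · omega
    have h6 := two_even hp2 hq2 hpq (rel_two hpq hz) (D_ne hq hqM) hneg hν
      (k := (q : ZMod p) ^ (e' + 1)) (pow_ne_zero _ hqp) hpodd (by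
        intro u
        simp only [hH]
        have h7 : (q : ZMod p) ^ e' * ((q : ZMod p) * u) = (q : ZMod p) * ((q : ZMod p) ^ e' * u) := by
          ring
        rw [h7, PH_mul hfp, pow_succ]
        have h8 : (q : ZMod p) * ((q : ZMod p) ^ e' * u) = (q : ZMod p) ^ e' * (q : ZMod p) * u := by
          ring
        rw [h8]
        ring) hsum (two_d2 hpq hc)
    rw [sum_two hpq (fun b => z b • c b)]
    exact h6

end Run7.h919.Ra
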