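import Pool.Agent.Run7.h919.Ra3

/-!
Rational characters with few entries: the structure theorem.
-/

set_option linter.unusedSectionVars false

namespace Run7.h919.Ra

open Finset Pool.Agent.H916R2 Run7.h919.Tw
open Run7.h365.TD (Ar)

/-- **The structure theorem.** Let `m` be odd or twice an odd number, and let `s` be a Hodge character
of degree `m` which satisfies the condition `Ar` given by the Gauss sums modulo the primes dividing the
degree. If the number of entries is small in comparison to any four odd prime factors of `m`, then `s`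
is generated by the pairs and the standard characters. -/
theorem generated_of_ar {m R : ℕ} [NeZero m] (h4 : ¬ 4 ∣ m) (hR : ¬ 2 ∣ R) {s : Multiset (ZMod m)}
    (hF : FourBound m (Multiset.card s)) (hs : IsHodge m s) (hne : s ≠ 0) (hA : Ar R m s) :
    Generated m (fun _ => False) s := by
  classical
  set N := Multiset.card s with hN
  have hm : m ≠ 0 := NeZero.ne m
  have hsum : ∀ (Q : Type) [AddCommGroup Q] (c : ZMod m → Q), OddDist c → (s.map c).sum = 0 := by
    intro Q _ c hc
    by_cases h2 : 2 ∣ m
    · obtain ⟨m', rfl⟩ := h2
      have hm' : m' ≠ 0 := by rintro rfl; exact hm rfl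
      have hNZ : NeZero m' := ⟨hm'⟩
      have hodd : m' % 2 = 1 := by
        by_contra h5
        apply h4
        obtain ⟨e, he⟩ : 2 ∣ m' := by omega
        exact ⟨e, by omega⟩
      have hSp : ∀ x ∈ m'.primeFactors, x.Prime ∧ x % 2 = 1 := by
        intro x hx
        have h1 := Nat.prime_of_mem_primeFactors hx
        have h2 := Nat.dvd_of_mem_primeFactors hx
        refine ⟨h1, ?_⟩
        rw [← Nat.odd_iff] at hodd ⊢
        exact hodd.of_dvd_nat h2
      set y : ZMod m' → ℤ := ev2 (fun a : ZMod (2 * m') => ((s.count a : ℕ) : ℤ)) with hy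
      have hyr : Rel y := ev2_rel hodd hs.rel
      have hyc : (univ.filter (fun b => y b ≠ 0)).card ≤ 2 * N := ev2_card (card_count_le le_rfl)
      have hys : ∀ (B : Type) [AddCommGroup B] (π : ZMod (2 * m') → B), OddDist π →
          (s.map π).sum = ∑ b, y b • π (iota 2 b) := by
        intro B _ π hπ
        rw [← sum_count s π]
        exact (ev2_sum hodd hπ (fun a => ((s.count a : ℕ) : ℤ))).symm
      rw [hys Q c hc]
      refine few_zero (c := fun b => c (iota 2 b)) hodd hyr hyc ?_ ?_ (hc.comp_iota rfl)
      · intro T _ _ hT4
        refine big_of_four hSp ?_ hT4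
        intro T hT hTc
        have h1 := hF T (fun x hx => by
          have h2 := hT hx
          rw [mem_erase]
          refine ⟨?_, Nat.mem_primeFactors.mpr ⟨(hSp x h2).1,
            (Nat.dvd_of_mem_primeFactors h2).mul_left 2, hm⟩⟩
          rintro rfl
          have := (hSp 2 h2).2
          omega) hTc
        rw [if_pos (dvd_mul_right 2 m')] at h1
        exact h1
      · intro p q hp hq hpq hpm hqm
        exact hasTest_of_ar (Or.inr rfl) rfl hodd hR hA hys hp hq hpq hpm hqm
    · have hodd : m % 2 = 1 := by omega
      have hSp : ∀ x ∈ m.primeFactors, x.Prime ∧ x % 2 = 1 := by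
        intro x hx
        have h1 := Nat.prime_of_mem_primeFactors hx
        have h2 := Nat.dvd_of_mem_primeFactors hx
        refine ⟨h1, ?_⟩
        rw [← Nat.odd_iff] at hodd ⊢
        exact hodd.of_dvd_nat h2
      have hi : ∀ b : ZMod m, (iota 1 b : ZMod m) = b := by
        intro b
        unfold iota
        rw [one_mul, ZMod.natCast_zmod_val]
      set y : ZMod m → ℤ := fun a => ((s.count a : ℕ) : ℤ) with hy
      have hys : ∀ (B : Type) [AddCommGroup B] (π : ZMod m → B), OddDist π →
          (s.map π).sum = ∑ b, y b • π (iota 1 b) := by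
        intro B _ π _
        rw [← sum_count s π]
        exact sum_congr rfl fun b _ => by rw [hi]
      rw [← sum_count s c]
      refine few_zero hodd hs.rel (card_count_le le_rfl) ?_ ?_ hc
      · intro T _ _ hT4
        refine big_of_four hSp ?_ hT4
        intro T hT hTc
        have h1 := hF T (fun x hx => by
          have h2' := hT hx
          rw [mem_erase]
          refine ⟨?_, h2'⟩
          rintro rfl
          have := (hSp 2 h2').2
          omega) hTc
        rw [if_neg h2, one_mul] at h1
        exact h1
      · intro p q hp hq hpq hpm hqm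
        exact hasTest_of_ar (Or.inl rfl) (one_mul m) hodd hR hA hys hp hq hpq hpm hqm
  have h1 := hsum _ (cQ m (fun _ => False)) (cQ_oddDist (base := fun _ => False))
  rw [cQ_sum, QuotientAddGroup.eq_zero_iff] at h1
  exact generated_of_mem_LL (fun _ h => h.elim) (fun _ h => h.elim) hs.1 hs.2.1 hne h1

/-- four odd primes -/
theorem fourBound_of_lt {m N : ℕ} (hN : (if 2 ∣ m then 2 else 1) * N < 30) : FourBound m N := by
  intro T hT hTc
  have hS : ∀ p ∈ m.primeFactors.erase 2, p.Prime ∧ p % 2 = 1 := by
    intro x hx
    rw [mem_erase] at hx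
    have h1 := Nat.prime_of_mem_primeFactors hx.2
    exact ⟨h1, h1.eq_two_or_odd.resolve_left hx.1⟩
  have h1 := fact_le_hh4 hS hT
  rw [hTc] at h1
  rw [prod_hh hS hT, hTc]
  have h2 : (4 + 1).factorial = 120 := rfl
  rw [h2] at h1
  have h3 : (2 : ℕ) ^ 4 = 16 := by norm_num
  rw [h3]
  omega

theorem fourBound_of_card {m N : ℕ} (h : (m.primeFactors.erase 2).card ≤ 3) : FourBound m N := by
  intro T hT hTc
  have := card_le_card hT
  omega

end Run7.h919.Ra
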