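import Pool.Agent.Run7.h919.Ra1

/-!
The sets with an even number of elements detect everything, also for degrees divisible by four.
-/

set_option linter.unusedSectionVars false

namespace Run7.h919.Ra

open Finset Pool.Agent.N993 Pool.Agent.N993.Dat Pool.Agent.H916R2 Pool.Agent.N992 Run7.h919.Tw

section core

variable {ι : Type} [Fintype ι] [LinearOrder ι] {n : ι → ℕ} [∀ i, NeZero (n i)] {N : ℕ} [NeZero N]

theorem coreE (hn : Adm' n) (hco : Pairwise (fun i j => (n i).Coprime (n j)))
    (hN : ∏ i, n i = N) (E : (∀ i, ZMod (n i)) ≃+* ZMod N) {Q : Type} [AddCommGroup Q]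
    {c : ZMod N → Q} (hc : OddDist c)
    (hT : ∀ T : Finset ι, Even T.card → ∀ (mT l : ℕ) [NeZero mT], ∏ i ∈ T, n i = mT → l * mT = N →
      ∀ x : ZMod mT → ℤ, Rel x → ∑ b, x b • c (iota l b) = 0) (x : ZMod N → ℤ) (hx : Rel x) :
    ∑ b, x b • c b = 0 := by
  classical
  refine CharacterModule.eq_zero_of_character_apply fun φ0 => ?_
  let φ : Q →+ AddCircle (1 : ℚ) := φ0
  change φ _ = 0
  let D := cyc n
  have hsupp : ∀ x : D.Pt, D.Supp univ x := fun x i hi => absurd (mem_univ i) hi
  -- the distribution with values in the circle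
  have hcφ : OddDist (fun a => φ (c a)) := Pool.Agent.N998.oddDist_map hc φ
  set f : D.Pt → AddCircle (1 : ℚ) := fun x => φ (c (E (emb x))) with hf
  have hfD : D.IsD0 univ f := (isD0_of_oddDist hn hco hN E hcφ).1
  have hfo : ∀ x, f (D.act D.c x) = - f x := fun x => (isD0_of_oddDist hn hco hN E hcφ).2 x
  -- lift to the rational numbers
  let π : ℚ →+ AddCircle (1 : ℚ) := QuotientAddGroup.mk' (AddSubgroup.zmultiples (1 : ℚ))
  have hπ : ∀ q : ℚ, π q = (q : AddCircle (1 : ℚ)) := fun q => rfl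
  obtain ⟨ft, hft, hft'⟩ : ∃ g : D.Pt → ℚ, D.IsD0 univ g ∧ ∀ x, π (g x) = f x := by
    let _ := D.trivAct ℚ
    let _ := D.trivAct (AddCircle (1 : ℚ))
    obtain ⟨g, hg, hg'⟩ := Dat.exists_lift (D := D) univ π (fun _ _ => rfl)
      (QuotientAddGroup.mk'_surjective _) (f := f) hfD
    exact ⟨g, hg, fun x => hg' x (hsupp x)⟩
  have hker : ∀ q : ℚ, π q = 0 → ∃ k : ℤ, q = k := by
    intro q hq
    rw [hπ, AddCircle.coe_eq_zero_iff] at hq
    obtain ⟨k, hk⟩ := hq
    exact ⟨k, by rw [← hk]; simp⟩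
  have hint : ∀ k : ℤ, π (k : ℚ) = 0 := by
    intro k
    rw [hπ, AddCircle.coe_eq_zero_iff]
    exact ⟨k, by simp⟩
  -- the integral distribution
  have hν0 : ∀ x, ∃ k : ℤ, ft x + ft (D.act D.c x) = k := by
    intro x
    apply hker
    rw [map_add, hft', hft', hfo, add_neg_cancel]
  choose ν hν using hν0
  have hνD : D.IsD0 univ ν := by
    apply Dat.IsD0.of_cast
    have h1 : D.IsD0 univ (fun x => ft x + ft (D.act D.c x)) := hft.add (hft.act D.c)
    have h2 : (fun x => ft x + ft (D.act D.c x)) = fun x => (ν x : ℚ) := funext hν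
    rwa [h2] at h1
  have hνT : ∀ x, ν (D.act D.c x) = ν x := by
    intro x
    have h1 := hν x
    have h2 := hν (D.act D.c x)
    rw [Dat.act_c_c] at h2
    have : ((ν (D.act D.c x) : ℤ) : ℚ) = ν x := by rw [← h1, ← h2]; ring
    exact_mod_cast this
  -- the weights
  let X := (∀ i, ZMod (n i))ˣ
  let σ : X → D.Pt → ℤ := fun t x => saw (E ((t : ∀ i, ZMod (n i)) * emb x))
  have hσD : ∀ t, D.IsD0 univ (σ t) := by
    intro t
    have h1 := (isD0_of_oddDist hn hco hN E
      (saw_oddDist' (Units.mapEquiv E.toMulEquiv t))).1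
    have h2 : (fun x : D.Pt => saw (((Units.mapEquiv E.toMulEquiv t : (ZMod N)ˣ) : ZMod N) *
        E (emb x))) = σ t := by
      funext x
      change saw (E t * E (emb x)) = saw (E (t * emb x))
      rw [map_mul]
    rw [h2] at h1
    exact h1
  have hσo : ∀ t x, σ t (D.act D.c x) = - σ t x := by
    intro t x
    have h1 := (isD0_of_oddDist hn hco hN E
      (saw_oddDist' (Units.mapEquiv E.toMulEquiv t))).2 x
    have h2 : ∀ x : D.Pt, saw (((Units.mapEquiv E.toMulEquiv t : (ZMod N)ˣ) : ZMod N) *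
        E (emb x)) = σ t x := by
      intro x
      change saw (E t * E (emb x)) = saw (E (t * emb x))
      rw [map_mul]
    rw [h2, h2] at h1
    exact h1
  -- the subsets in the set `TT`
  have himgT : ∀ T : Finset ι, Even T.card → D.Img 1 T ν := by
    intro T hTT
    have hmT0 : ∏ i ∈ T, n i ≠ 0 := prod_ne_zero_iff.mpr fun i _ => NeZero.ne (n i)
    have : NeZero (∏ i ∈ T, n i) := ⟨hmT0⟩
    have hlT : (∏ i ∈ univ \ T, n i) * (∏ i ∈ T, n i) = N := by
      rw [← hN]; exact prod_sdiff (subset_univ T)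
    obtain ⟨w, hw⟩ := exists_weights_T hco hN E (c := c) T rfl hlT (hT T hTT _ _ rfl hlT) φ
    set ht : D.Pt → ℚ := fun x => ∑ t : X, ((σ t x : ℤ) : ℚ) * w t with hht
    have hhtD : D.IsD0 univ ht := by
      apply Dat.IsD0.sum
      intro t _
      exact (hσD t).cast.map (AddMonoidHom.mulRight (w t))
    have hhto : ∀ x, ht (D.act D.c x) = - ht x := by
      intro x
      rw [hht]
      beta_reduce
      rw [← sum_neg_distrib]
      refine sum_congr rfl fun t _ => ?_
      rw [hσo]; push_cast; ring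
    have hk0 : ∀ x, ∃ k : ℤ, D.Supp T x → ft x - ht x = k := by
      intro x
      by_cases hx : D.Supp T x
      · have h1 : π (ft x - ht x) = 0 := by
          rw [map_sub, sub_eq_zero, hft']
          exact hw x hx
        obtain ⟨k, hk⟩ := hker _ h1
        exact ⟨k, fun _ => hk⟩
      · exact ⟨0, fun h => absurd h hx⟩
    choose k hkk using hk0
    refine ⟨k, ?_, ?_⟩
    · change D.IsD0 T k
      apply Dat.IsD0.of_cast
      intro i hi x hx h0
      have h1 := (hft.sub hhtD) i (mem_univ i) x (hsupp x) h0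
      beta_reduce at h1 ⊢
      rw [← hkk _ (hx.act _), ← hkk _ (hx.act _), ← h1]
      exact sum_congr rfl fun u _ => (hkk _ (hx.update hi _)).symm
    · intro x hx
      change ν x = k x + 1 * k (D.act D.c x)
      have h1 := hkk x hx
      have h2 := hkk _ (hx.act D.c)
      have h3 := hν x
      rw [hhto] at h2
      have h4 : ((ν x : ℤ) : ℚ) = k x + 1 * k (D.act D.c x) := by
        rw [← h1, ← h2, ← h3]; ring
      exact_mod_cast h4
  -- the main theorem on systems
  have hfree : ∀ i, (cyc n).c i ≠ 1 := fun i => neg_one_ne_one (hn i)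
  obtain ⟨k, hkD, hk2⟩ := Dat.detect hfree univ 1 (by norm_num) ν hνD (fun x _ => by
    change ν (D.act D.c x) = 1 * ν x
    rw [hνT, one_mul]) (by
    intro T' _ hcard
    apply himgT
    by_contra h1
    rw [Nat.not_even_iff_odd] at h1
    rw [h1.neg_one_pow] at hcard
    norm_num at hcard)
  have hkD0 : D.IsD0 univ k := hkD
  have hk3 : ∀ x, D.Supp univ x → ν x = k x + k (D.act D.c x) := by
    intro x hx
    have := hk2 x hx
    change ν x = k x + 1 * k (D.act D.c x) at this
    rw [this, one_mul]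
  set h : D.Pt → ℚ := fun x => ft x - (k x : ℚ) with hh
  have hhD : D.IsD0 univ h := hft.sub hkD0.cast
  have hho : ∀ x, D.Supp univ x → h (D.act D.c x) = - h x := by
    intro x hx
    have h1 := hν x
    have h2 := hk3 x hx
    rw [h2] at h1
    push_cast at h1
    change ft (D.act D.c x) - (k (D.act D.c x) : ℚ) = -(ft x - (k x : ℚ))
    linear_combination h1
  have hdist := oddDist_ext hn hco univ hN 1 (fun i hi => absurd (mem_univ i) hi)
    (fun i _ => Nat.coprime_one_left _) hhD hho
  have hrat := Pool.Agent.N998.rat_zero _ hdist x hx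
  -- conclusion
  set a : ZMod N → ∀ i, ZMod (n i) := fun b i => ((1 * b.val : ℕ) : ZMod (n i)) with ha
  have hio : ∀ b : ZMod N, b = E (a b) := by
    intro b
    rw [ha]
    have e1 := E_natCast E (1 * b.val)
    rw [← e1, one_mul, ZMod.natCast_zmod_val]
  have h1 : ∀ b : ZMod N, φ (c b) = π (Pool.Agent.N993.ext ft (a b)) := by
    intro b
    conv_lhs => rw [hio b]
    have e1 := c_eq_ext hn hco hN E hcφ (a b)
    refine e1.trans ?_
    rw [← ext_map]
    congr 1
    funext y
    exact (hft' y).symm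
  have h2 : ∀ b : ZMod N, Pool.Agent.N993.ext h (a b) = Pool.Agent.N993.ext ft (a b) -
      ((Pool.Agent.N993.ext k (a b) : ℤ) : ℚ) := by
    intro b
    rw [hh, ext_sub]
    congr 1
    exact ext_map (Int.castRingHom ℚ).toAddMonoidHom k (a b)
  have h3 : ∑ b, (x b : ℚ) * Pool.Agent.N993.ext ft (a b) =
      ((∑ b, x b * Pool.Agent.N993.ext k (a b) : ℤ) : ℚ) := by
    have h4 : ∑ b, (x b : ℚ) * Pool.Agent.N993.ext h (a b) = 0 := hrat
    simp only [h2, mul_sub, sum_sub_distrib] at h4
    rw [sub_eq_zero] at h4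
    rw [h4]; push_cast; rfl
  rw [map_sum]
  have h5 : ∀ b : ZMod N, φ (x b • c b) = π ((x b : ℚ) * Pool.Agent.N993.ext ft (a b)) := by
    intro b
    rw [map_zsmul, h1, ← map_zsmul, zsmul_eq_mul]
  simp only [h5]
  rw [← map_sum, h3, hint]

end core

end Run7.h919.Ra
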