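import Pool.Agent.Run7.h919.Ra5

/-!
Elimination of the pairs by test distributions.
-/

set_option linter.unusedSectionVars false

namespace Run7.h919.Ra

open Finset Pool.Agent.N993 Pool.Agent.N993.Dat Pool.Agent.H916R2 Pool.Agent.N992 Run7.h919.Tw

section

variable {ι : Type} [Fintype ι] [LinearOrder ι] {n : ι → ℕ} [∀ i, NeZero (n i)] {m0 : ℕ} [NeZero m0]
  {m : ℕ} [NeZero m] {k : ℕ}

/-- A test distribution for the pair `T` and the function `y`. -/
def TestFor (n : ι → ℕ) (m0 k : ℕ) (y : ZMod m → ℤ) (T : Finset ι) : Prop :=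
  ∃ (B : Type) (_ : AddCommGroup B) (π : ZMod m → B), OddDist π ∧ ∑ a, y a • π a = 0 ∧
    (∀ T' : Finset ι, T'.card = 2 → T' ≠ T → Kills n m0 k π T') ∧
    (∀ (mT l : ℕ) [NeZero mT], ∏ i ∈ T, n i = mT → l * mT = m0 → ∀ z : ZMod mT → ℤ, Rel z →
      ∑ b, z b • π (iota k (iota l b : ZMod m0)) = 0 → ∀ (Q : Type) [AddCommGroup Q]
      (c : ZMod mT → Q), OddDist c → ∑ b, z b • c b = 0)

/-- **Elimination.** -/
theorem elim_tests (hN : ∏ i, n i = m0) (hk : k * m0 = m) {y : ZMod m → ℤ}
    (h0 : ∀ (Q : Type) [AddCommGroup Q] (c : ZMod m → Q), OddDist c →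
      (∀ T : Finset ι, T.card = 2 → Kills n m0 k c T) → ∑ a, y a • c a = 0)
    (htest : ∀ T : Finset ι, T.card = 2 → TestFor n m0 k y T) :
    ∀ (F : Finset (Finset ι)) (Q : Type) [AddCommGroup Q] (c : ZMod m → Q), OddDist c →
      (∀ T : Finset ι, T.card = 2 → T ∉ F → Kills n m0 k c T) → ∑ a, y a • c a = 0 := by
  classical
  intro F
  induction F using Finset.induction_on with
  | empty =>
    intro Q _ c hc hT
    exact h0 Q c hc fun T hT2 => hT T hT2 (notMem_empty T)
  | insert T0 F hT0 ih =>
    intro Q _ c hc hT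
    by_cases hT02 : T0.card = 2
    swap
    · refine ih Q c hc fun T hT2 hTF => hT T hT2 fun h => ?_
      rcases mem_insert.mp h with h1 | h1
      · exact hT02 (h1 ▸ hT2)
      · exact hTF h1
    obtain ⟨B, hB, π, hπ, hπ0, hπ1, hπ2⟩ := htest T0 hT02
    have hmT0 : ∏ i ∈ T0, n i ≠ 0 := prod_ne_zero_iff.mpr fun i _ => NeZero.ne (n i)
    have hNZ : NeZero (∏ i ∈ T0, n i) := ⟨hmT0⟩
    obtain ⟨mT, hmT⟩ : ∃ mT, ∏ i ∈ T0, n i = mT := ⟨_, rfl⟩
    rw [hmT] at hNZ
    have hlT : (∏ i ∈ univ \ T0, n i) * mT = m0 := by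
      rw [← hmT, ← hN]; exact prod_sdiff (subset_univ T0)
    obtain ⟨l, hl⟩ : ∃ l, l * mT = m0 := ⟨_, hlT⟩
    have hU : OddDist (fun a : ZMod m => (c a, π a)) := OddDist.prod hc hπ
    let Fh : (ZMod mT → ℤ) →+ Q × B :=
      { toFun := fun z => ∑ b, z b • ((c (iota k (iota l b : ZMod m0)),
          π (iota k (iota l b : ZMod m0))) : Q × B)
        map_zero' := by simp
        map_add' := by
          intro x y
          simp only [Pi.add_apply, add_smul, sum_add_distrib] }
    let R : AddSubgroup (ZMod mT → ℤ) :=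
      { carrier := {z | Rel z}
        zero_mem' := by intro t; simp
        add_mem' := by
          intro a b ha hb
          exact rel_add ha hb
        neg_mem' := by
          intro a ha t
          have h1 := ha t
          simp only [Pi.neg_apply, neg_mul, sum_neg_distrib]
          rw [h1, neg_zero] }
    set K : AddSubgroup (Q × B) := R.map Fh with hK
    have hU' : OddDist (fun a : ZMod m => QuotientAddGroup.mk' K (c a, π a)) :=
      Pool.Agent.N998.oddDist_map hU (QuotientAddGroup.mk' K)
    have h1 := ih _ _ hU' (by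
      intro T hT2 hTF
      intro mT' l' _ hmT' hl' z hz
      have h2 : ∑ b, z b • QuotientAddGroup.mk' K (c (iota k (iota l' b : ZMod m0)),
          π (iota k (iota l' b : ZMod m0))) = QuotientAddGroup.mk' K
          (∑ b, z b • ((c (iota k (iota l' b : ZMod m0)),
            π (iota k (iota l' b : ZMod m0))) : Q × B)) := by
        rw [map_sum]
        exact sum_congr rfl fun b _ => (map_zsmul _ _ _).symm
      change ∑ b, z b • QuotientAddGroup.mk' K (c (iota k (iota l' b : ZMod m0)),
          π (iota k (iota l' b : ZMod m0))) = 0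
      rw [h2]
      by_cases hTT : T = T0
      · subst hTT
        have h3 : mT' = mT := by rw [← hmT', hmT]
        subst h3
        have h4 : l' = l := by
          apply Nat.eq_of_mul_eq_mul_right (Nat.pos_of_ne_zero (NeZero.ne mT'))
          rw [hl, hl']
        subst h4
        rw [QuotientAddGroup.mk'_apply, QuotientAddGroup.eq_zero_iff, hK]
        exact ⟨z, hz, rfl⟩
      · have h3 := hT T hT2 (by
          intro h
          rcases mem_insert.mp h with h4 | h4
          · exact hTT h4
          · exact hTF h4) mT' l' hmT' hl' z hz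
        have h4 := hπ1 T hT2 hTT mT' l' hmT' hl' z hz
        have h5 : ∑ b, z b • ((c (iota k (iota l' b : ZMod m0)),
            π (iota k (iota l' b : ZMod m0))) : Q × B) = 0 := by
          refine Prod.ext ?_ ?_
          · rw [Prod.fst_sum]; exact h3
          · rw [Prod.snd_sum]; exact h4
        rw [h5, map_zero])
    have h2 : ∑ a, y a • QuotientAddGroup.mk' K (c a, π a) =
        QuotientAddGroup.mk' K (∑ a, y a • ((c a, π a) : Q × B)) := by
      rw [map_sum]
      exact sum_congr rfl fun b _ => (map_zsmul _ _ _).symm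
    rw [h2, QuotientAddGroup.mk'_apply, QuotientAddGroup.eq_zero_iff, hK] at h1
    obtain ⟨z, hz, hze⟩ := h1
    have hz' : Rel z := hz
    have e1 := congrArg Prod.fst hze
    have e2 := congrArg Prod.snd hze
    have e3 : ∑ b, z b • c (iota k (iota l b : ZMod m0)) = ∑ a, y a • c a := by
      have h3 : (Fh z).1 = ∑ b, z b • c (iota k (iota l b : ZMod m0)) := by
        change (∑ b, z b • ((c (iota k (iota l b : ZMod m0)),
          π (iota k (iota l b : ZMod m0))) : Q × B)).1 = _
        rw [Prod.fst_sum]; rfl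
      rw [← h3, e1, Prod.fst_sum]; rfl
    have e4 : ∑ b, z b • π (iota k (iota l b : ZMod m0)) = 0 := by
      have h3 : (Fh z).2 = ∑ b, z b • π (iota k (iota l b : ZMod m0)) := by
        change (∑ b, z b • ((c (iota k (iota l b : ZMod m0)),
          π (iota k (iota l b : ZMod m0))) : Q × B)).2 = _
        rw [Prod.snd_sum]; rfl
      rw [← h3, e2, Prod.snd_sum, ← hπ0]; rfl
    rw [← e3]
    exact hπ2 mT l hmT hl z hz' e4 Q (fun b => c (iota k (iota l b : ZMod m0)))
      ((hc.comp_iota hk).comp_iota hl)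

/-- **Elimination, at most three components.** -/
theorem zero_of_tests (hn : Adm' n) (hco : Pairwise (fun i j => (n i).Coprime (n j)))
    (hN : ∏ i, n i = m0) (E : (∀ i, ZMod (n i)) ≃+* ZMod m0) (hk : k * m0 = m)
    (hred : Red m m0 k) (hcard : Fintype.card ι ≤ 3) {y : ZMod m → ℤ} (hy : Rel y)
    (htest : ∀ T : Finset ι, T.card = 2 → TestFor n m0 k y T)
    {Q : Type} [AddCommGroup Q] {c : ZMod m → Q} (hc : OddDist c) : ∑ a, y a • c a = 0 := by
  classical
  refine elim_tests hN hk ?_ htest univ Q c hc (fun T _ h => absurd (mem_univ T) h)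
  intro Q _ c hc hT
  obtain ⟨x0, hx0, he⟩ := hred _ _ hc _ hy
  rw [he]
  refine coreE hn hco hN E (c := fun b => c (iota k b)) (hc.comp_iota hk) ?_ x0 hx0
  intro T hTe mT l _ hmT hl z hz
  by_cases hTn : T.Nonempty
  · have hT2 : T.card = 2 := by
      obtain ⟨r, hr⟩ := hTe
      have h1 := card_pos.mpr hTn
      have h2 := card_le_univ T
      omega
    exact hT T hT2 mT l hmT hl z hz
  · rw [not_nonempty_iff_eq_empty] at hTn
    rw [hTn, prod_empty] at hmT
    subst hmT
    have h1 : ∀ b : ZMod 1, (iota l b : ZMod m0) = 0 := by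
      intro b
      have : b = 0 := Subsingleton.elim _ _
      rw [this, iota_zero]
    refine sum_eq_zero fun b _ => ?_
    rw [h1, iota_zero, hc.half 0 (add_zero 0), smul_zero]

end

end Run7.h919.Ra
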