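import Pool.Agent.Run7.h919.Ra6
import Pool.Agent.Run7.h919.Ra3
import Pool.Agent.Run7.h365.TD.Fo

/-!
Test distributions for degrees divisible by four.
-/

set_option linter.unusedSectionVars false

namespace Run7.h919.Ra

open Finset Pool.Agent.H916R2 Pool.Agent.H916K
open Run7.h365.TD (Ar PH vd lft lft_iota_gen oddDist_lft sum_pi cast_D D_ne pow_order pow_order_low
  oddDist_PH oddDist_vd oddDist_smul oddDist_add oddDist_div comp_unit exists_nonsquare
  ne_zero_of_nonsquare two_even PH_mul PH_neg vd_neg vd_cast chi4 chi4_mul chi4_unit PH_chi4 row_one)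

section low

variable {M M0 k1 : ℕ} [NeZero M] [NeZero M0]

lemma val_iota' (hk1 : k1 * M0 = M) (y : ZMod M0) : ((iota k1 y : ZMod M).val : ℤ) = k1 * y.val := by
  have hk10 : 0 < k1 := Nat.pos_of_ne_zero (by rintro rfl; exact NeZero.ne M (by rw [← hk1]; simp))
  unfold iota
  rw [ZMod.val_natCast, Nat.mod_eq_of_lt]
  · push_cast; rfl
  · rw [← hk1]; exact Nat.mul_lt_mul_of_pos_left (ZMod.val_lt y) hk10

lemma vd_iota (hk1 : k1 * M0 = M) (hd : M0 ∣ M) (w : ZMod M) (y : ZMod M0) :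
    vd w (iota k1 y) = (k1 : ℤ) * vd (ZMod.castHom hd (ZMod M0) w) y := by
  have hwm : w * iota k1 y = iota k1 (ZMod.castHom hd (ZMod M0) w * y) := by
    have h1 : w = ((w.val : ℕ) : ZMod M) := (ZMod.natCast_zmod_val w).symm
    have h2 : ZMod.castHom hd (ZMod M0) w = ((w.val : ℕ) : ZMod M0) := by
      conv_lhs => rw [h1]
      rw [map_natCast]
    rw [h2, iota_natMul hk1]
    conv_lhs => rw [h1]
  unfold vd
  rw [hwm, val_iota' hk1, val_iota' hk1]
  ring

lemma vd_cast_low {c : ℕ} (hc : c ∣ M) (w x : ZMod M) :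
    ((vd w x : ℤ) : ZMod c) = (ZMod.castHom hc (ZMod c) w - 1) * ZMod.castHom hc (ZMod c) x := by
  have h1 := congrArg (ZMod.castHom hc (ZMod c)) (vd_cast w x)
  rw [map_intCast, map_sub, map_mul] at h1
  rw [h1]; ring

lemma vd_one (y : ZMod M0) : vd (1 : ZMod M0) y = 0 := by
  unfold vd
  rw [one_mul, sub_self]

end low

/-- units with given residues -/
lemma exists_unit2 {c M1 M : ℕ} [NeZero M] (hcop : c.Coprime M1) (hM : c * M1 = M) {t : ℕ}
    (ht : t.Coprime c) : ∃ w : (ZMod M)ˣ,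
      (∀ (r : ℕ) (hr : r ∣ M), r ∣ c → ZMod.castHom hr (ZMod r) (w : ZMod M) = (t : ZMod r)) ∧
      ∀ (r : ℕ) (hr : r ∣ M), r ∣ M1 → ZMod.castHom hr (ZMod r) (w : ZMod M) = 1 := by
  obtain ⟨x, hx1, hx2⟩ := Nat.chineseRemainder hcop t 1
  have hxc : x.Coprime M := by
    rw [← hM]
    refine Nat.Coprime.mul_right ?_ ?_
    · have h1 := hx1.gcd_eq
      unfold Nat.Coprime at ht ⊢
      rw [h1, ht]
    · have h1 := hx2.gcd_eq
      rw [Nat.gcd_one_left] at h1
      exact h1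
  refine ⟨ZMod.unitOfCoprime x hxc, ?_, ?_⟩
  · intro r hr hrc
    rw [ZMod.coe_unitOfCoprime, map_natCast]
    exact (ZMod.natCast_eq_natCast_iff _ _ _).mpr (hx1.of_dvd hrc)
  · intro r hr hrc
    rw [ZMod.coe_unitOfCoprime, map_natCast]
    have h2 := (ZMod.natCast_eq_natCast_iff _ _ _).mpr (hx2.of_dvd hrc)
    rw [h2, Nat.cast_one]

section pi

variable {M m q e : ℕ} [NeZero M] [NeZero m] {h : ZMod M → ℤ}

/-- the distribution given by the prime `q` -/
noncomputable def pi (hM : M ∣ m) (q : ℕ) (h : ZMod M → ℤ) : ZMod m → ZMod (q ^ orderOf (q : ZMod M) - 1) :=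
  lft hM (q ^ orderOf (q : ZMod M) - 1) (PH q (orderOf (q : ZMod M)) h)

lemma pi_dist (hM : M ∣ m) (hq : q.Prime) (hqM : q.Coprime M) (hm : M * q ^ e = m)
    (hh : OddDist h) : OddDist (pi hM q h) := by
  refine oddDist_lft hq hqM hm hM (oddDist_PH hqM hh) fun x => ?_
  rw [PH_mul pow_order, cast_D hq.pos]
  exact ⟨h ((q : ZMod M) * x), by ring⟩

/-- the levels prime to `q` -/
lemma pi_kill (hM : M ∣ m) (hq : q.Prime) (hqM : q.Coprime M) (hm : M * q ^ e = m)
    (hh : OddDist h) {mT j : ℕ} [NeZero mT] (hj : j * mT = m) (hqT : q.Coprime mT)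
    {z : ZMod mT → ℤ} (hz : Rel z) : ∑ x, z x • pi hM q h (iota j x) = 0 := by
  have hTM : mT ∣ M := by
    have h1 : mT ∣ M * q ^ e := by rw [hm, ← hj]; exact dvd_mul_left _ _
    exact ((hqT.symm).pow_right e).dvd_of_dvd_mul_right h1
  obtain ⟨k1, hk1⟩ := hTM
  have hk1' : k1 * mT = M := by rw [mul_comm]; exact hk1.symm
  have hjj : j = k1 * q ^ e := by
    apply Nat.eq_of_mul_eq_mul_right (Nat.pos_of_ne_zero (NeZero.ne mT))
    rw [hj, ← hm, ← hk1']; ring
  set g : ZMod mT → ℤ := fun y => h (iota k1 y) with hg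
  have hgD : OddDist g := hh.comp_iota hk1'
  set f := orderOf (q : ZMod M) with hf
  have hlow := fun x : ZMod mT => lft_iota_gen (M := M) (M0 := mT) (m0 := mT) (q := q) (e := e)
    (k := j) (C := 1) (g := g) hM hk1' hjj (dvd_refl mT) (fun y => by rw [hg, one_mul]) f
    (q ^ f - 1) x
  set R : (ZMod mT)ˣ := ZMod.unitOfCoprime (q ^ e) (Nat.Coprime.pow_left e hqT) with hR
  have hRc : (R : ZMod mT) = (q : ZMod mT) ^ e := by
    rw [hR, ZMod.coe_unitOfCoprime]; push_cast; rfl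
  set G : ZMod mT → ℤ := fun x => PH q f g ((R : ZMod mT) * x) with hG
  have hGD : OddDist G := comp_unit (oddDist_PH hqT hgD) R
  have hval : ∀ x : ZMod mT, pi hM q h (iota j x) = ((G x : ℤ) : ZMod (q ^ f - 1)) := by
    intro x
    unfold pi
    rw [hlow x, hG]
    have h1 : ZMod.castHom (dvd_refl mT) (ZMod mT) x = x := by
      rw [ZMod.castHom_apply, ZMod.cast_id]
    rw [h1, one_mul]
    beta_reduce
    rw [hRc]
  have h1 := int_zero hGD hz
  have h2 : ∑ x, z x • pi hM q h (iota j x) = ((∑ x, z x * G x : ℤ) : ZMod (q ^ f - 1)) := by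
    push_cast
    refine sum_congr rfl fun x _ => ?_
    rw [hval, zsmul_eq_mul]
  rw [h2, h1, Int.cast_zero]

/-- the values on the level `r * q` -/
lemma pi_low (hM : M ∣ m) (hq : q.Prime) (hm : M * q ^ (e + 1) = m)
    {r k1 mT j : ℕ} [NeZero mT] [NeZero r] (hrT : r * q = mT) (hj : j * mT = m) (hk1 : k1 * r = M)
    {C : ℤ} {g : ZMod r → ℤ} (hlow : ∀ y : ZMod r, h (iota k1 y) = C * g y) (x : ZMod mT) :
    pi hM q h (iota j x) =
      ((C * PH q (orderOf (q : ZMod M)) g ((q : ZMod r) ^ e *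
        ZMod.castHom (Dvd.intro q hrT) (ZMod r) x) : ℤ) :
        ZMod (q ^ orderOf (q : ZMod M) - 1)) := by
  have hjj : j = k1 * q ^ e := by
    apply Nat.eq_of_mul_eq_mul_right (Nat.pos_of_ne_zero (NeZero.ne mT))
    rw [hj, ← hm, ← hk1, ← hrT]; ring
  exact lft_iota_gen (M := M) (M0 := r) (m0 := mT) (q := q) (e := e) (k := j) hM hk1 hjj
    (Dvd.intro q hrT) hlow _ _ x

lemma pi_zero (hM : M ∣ m) (hq : q.Prime) (hm : M * q ^ (e + 1) = m)
    {r k1 mT j : ℕ} [NeZero mT] [NeZero r] (hrT : r * q = mT) (hj : j * mT = m) (hk1 : k1 * r = M)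
    (hlow : ∀ y : ZMod r, h (iota k1 y) = 0) (z : ZMod mT → ℤ) :
    ∑ x, z x • pi hM q h (iota j x) = 0 := by
  refine sum_eq_zero fun x _ => ?_
  rw [pi_low hM hq hm hrT hj hk1 (C := 0) (g := fun _ => 0) (fun y => by rw [hlow, zero_mul]) x,
    zero_mul, Int.cast_zero, smul_zero]

/-- two odd primes -/
lemma pi_two {p : ℕ} (hp : p.Prime) (hp2 : p ≠ 2) (hq2 : q ≠ 2) (hpq : p ≠ q) (hM : M ∣ m)
    (hq : q.Prime) (hqM : q.Coprime M) (hm : M * q ^ (e + 1) = m) {k1 mT j : ℕ} [NeZero mT]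
    (hpT : p * q = mT) (hj : j * mT = m) (hk1 : k1 * p = M) {C : ℤ} (hC : ¬ 2 ∣ C) {ν : ZMod p}
    (hν : ¬ IsSquare ν) (hlow : ∀ y : ZMod p, h (iota k1 y) = C * vd ν y) {z : ZMod mT → ℤ}
    (hz : Rel z) (h0 : ∑ x, z x • pi hM q h (iota j x) = 0) {Q : Type} [AddCommGroup Q]
    {c : ZMod mT → Q} (hc : OddDist c) : ∑ x, z x • c x = 0 := by
  have hpF : Fact p.Prime := ⟨hp⟩
  have hqF : Fact q.Prime := ⟨hq⟩
  subst hpT
  have hpM : p ∣ M := Dvd.intro_left k1 hk1
  set f := orderOf (q : ZMod M) with hf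
  set H : ZMod p → ℤ := fun u => C * PH q f (vd ν) ((q : ZMod p) ^ e * u) with hH
  have hfp : (q : ZMod p) ^ f = 1 := pow_order_low hpM
  have hqp := pq_ne (p := p) (q := q) hpq
  have hν0 := ne_zero_of_nonsquare hν
  have hsum : ((q : ℤ) ^ f - 1) ∣ ∑ u, ∑ v, two hpq z u v * H u := by
    rw [← cast_D hq.pos]
    apply (ZMod.intCast_zmod_eq_zero_iff_dvd _ _).mp
    rw [← h0]
    rw [sum_two hpq (fun b => z b • pi hM q h (iota j b))]
    push_cast
    refine sum_congr rfl fun u _ => sum_congr rfl fun v _ => ?_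
    simp only [two]
    rw [pi_low hM hq hm rfl hj hk1 hlow, zsmul_eq_mul]
    have h3 : ZMod.castHom (Dvd.intro q rfl) (ZMod p) ((ee hpq).symm (u, v)) = u := by
      have h4 : ∀ z : ZMod (p * q), ZMod.castHom (Dvd.intro q rfl) (ZMod p) z = (ee hpq z).1 := by
        intro z
        conv_lhs => rw [← ZMod.natCast_zmod_val z]
        conv_rhs => rw [← ZMod.natCast_zmod_val z]
        rw [map_natCast, ee_natCast]
      rw [h4, RingEquiv.apply_symm_apply]
    rw [h3]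
  have hneg : ∀ u, H (-u) = - H u := by
    intro u
    simp only [hH]
    have h4 : (q : ZMod p) ^ e * -u = -((q : ZMod p) ^ e * u) := mul_neg _ _
    rw [h4, PH_neg (vd_neg hν0), mul_neg]
  have h6 := two_even hp2 hq2 hpq (rel_two hpq hz) (D_ne hq hqM) hneg hν
    (k := (q : ZMod p) ^ (e + 1)) (pow_ne_zero _ hqp) hC (by
      intro u
      simp only [hH]
      have h7 : (q : ZMod p) ^ e * ((q : ZMod p) * u) = (q : ZMod p) * ((q : ZMod p) ^ e * u) := by
        ring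
      rw [h7, PH_mul hfp, pow_succ]
      have h8 : (q : ZMod p) * ((q : ZMod p) ^ e * u) = (q : ZMod p) ^ e * (q : ZMod p) * u := by
        ring
      rw [h8]
      ring) hsum (two_d2 hpq hc)
  rw [sum_two hpq (fun b => z b • c b)]
  exact h6

/-- four and an odd prime -/
lemma pi_four (hq2 : q ≠ 2) (hM : M ∣ m) (hq : q.Prime) (hqM : q.Coprime M)
    (hm : M * q ^ (e + 1) = m) {k1 mT j : ℕ} [NeZero mT] (hpT : 4 * q = mT) (hj : j * mT = m)
    (hk1 : k1 * 4 = M) {C : ℤ} (hC : ¬ 2 ∣ C) (hlow : ∀ y : ZMod 4, h (iota k1 y) = C * chi4 y)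
    {z : ZMod mT → ℤ} (hz : Rel z) (h0 : ∑ x, z x • pi hM q h (iota j x) = 0) {Q : Type}
    [AddCommGroup Q] {c : ZMod mT → Q} (hc : OddDist c) : ∑ x, z x • c x = 0 := by
  have hqF : Fact q.Prime := ⟨hq⟩
  subst hpT
  have h4M : 4 ∣ M := Dvd.intro_left k1 hk1
  set f := orderOf (q : ZMod M) with hf
  have hε := chi4_unit (q := q) h4M hqM
  have hf4 : (q : ZMod 4) ^ f = 1 := pow_order_low h4M
  set ε := chi4 (q : ZMod 4) with hεdef
  set E : ℤ := ∑ j ∈ range f, (ε * q) ^ j with hE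
  have hpow : ∀ i : ℕ, chi4 ((q : ZMod 4) ^ i) = chi4 (q : ZMod 4) ^ i := by
    intro i
    induction i with
    | zero => rw [pow_zero, pow_zero]; rfl
    | succ i ih => rw [pow_succ, pow_succ, chi4_mul, ih]
  have hεf : ε ^ f = 1 := by
    rw [hεdef, ← hpow, hf4]; rfl
  have hDE : (q : ℤ) ^ f - 1 = E * (ε * q - 1) := by
    rw [hE, geom_sum_mul, mul_pow, hεf, one_mul]
  have hD := D_ne (M := M) hq hqM
  rw [← hf, hDE] at hD
  have hE0 : E ≠ 0 := left_ne_zero_of_mul hD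
  have hεq : ε * q - 1 ≠ 0 := right_ne_zero_of_mul hD
  set X : ZMod 4 → ZMod q → ℤ := fr hq2 z with hX
  have hrel : Rel4 X := rel_four hq2 hz
  have hpow4 : chi4 ((q : ZMod 4) ^ e) = 1 ∨ chi4 ((q : ZMod 4) ^ e) = -1 := by
    rw [hpow]
    rcases hε with h' | h' <;> rw [← hεdef, h']
    · left; exact one_pow e
    · exact neg_one_pow_eq_or ℤ e
  set η := chi4 ((q : ZMod 4) ^ e) with hη
  have hsum : ((q : ℤ) ^ f - 1) ∣ C * (E * (η * ∑ v, y4 X 1 v)) := by
    rw [← cast_D hq.pos]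
    apply (ZMod.intCast_zmod_eq_zero_iff_dvd _ _).mp
    rw [← h0, sum_fr hq2 (fun b => z b • pi hM q h (iota j b))]
    have hterm : ∀ u v, fr hq2 (fun b => z b • pi hM q h (iota j b)) u v =
        ((X u v * (C * (E * (η * chi4 u))) : ℤ) : ZMod (q ^ f - 1)) := by
      intro u v
      simp only [fr, hX]
      rw [pi_low hM hq hm rfl hj hk1 hlow]
      have h3 : ZMod.castHom (Dvd.intro q rfl) (ZMod 4) ((ef hq2).symm (u, v)) = u := by
        have h4 : ∀ z : ZMod (4 * q), ZMod.castHom (Dvd.intro q rfl) (ZMod 4) z = (ef hq2 z).1 := by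
          intro z
          conv_lhs => rw [← ZMod.natCast_zmod_val z]
          conv_rhs => rw [← ZMod.natCast_zmod_val z]
          rw [map_natCast, ef_natCast]
        rw [h4, RingEquiv.apply_symm_apply]
      have hPH : PH q f chi4 ((q : ZMod 4) ^ e * u) = E * (η * chi4 u) := by
        rw [PH_chi4 hf4 hε, chi4_mul]
      rw [h3, hPH, zsmul_eq_mul, ← Int.cast_mul]
    have hZ : C * (E * (η * ∑ v, y4 X 1 v)) = ∑ u, ∑ v, X u v * (C * (E * (η * chi4 u))) := by
      have h3 : ∑ v, y4 X 1 v = ∑ v, X 1 v - ∑ v, X 3 v := by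
        rw [← sum_neg (fun v => X 3 v), ← sum_sub_distrib]
        rfl
      rw [sum_four, h3]
      simp only [← sum_mul]
      have c0 : chi4 0 = 0 := rfl
      have c1 : chi4 1 = 1 := rfl
      have c2 : chi4 2 = 0 := rfl
      have c3 : chi4 3 = -1 := rfl
      rw [c0, c1, c2, c3]
      ring
    rw [sum_congr rfl fun u _ => sum_congr rfl fun v _ => hterm u v, hZ]
    push_cast
    rfl
  have hrow := row_one hrel hq2
  rw [← hεdef] at hrow
  have hB : 2 ∣ B4 X := by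
    rw [hDE] at hsum
    have e1 : C * (E * (η * ∑ v, y4 X 1 v)) = E * (C * (η * ∑ v, y4 X 1 v)) := by ring
    rw [e1] at hsum
    have e2 := (mul_dvd_mul_iff_left hE0).1 hsum
    obtain ⟨t, ht⟩ := e2
    have e3 : C * η * (ε * B4 X) = 2 * t := by
      apply mul_left_cancel₀ hεq
      linear_combination (C * η) * (-hrow) + 2 * ht
    have e4 : (2 : ℤ) ∣ C * (η * (ε * B4 X)) := ⟨t, by rw [← e3]; ring⟩
    have e5 := (Int.prime_two.dvd_mul.1 e4).resolve_left hC
    rcases hpow4 with h3 | h3 <;> rcases hε with h4 | h4 <;> rw [h3, h4] at e5 <;> omega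
  have h6 := even_four hq2 hrel hB (fr_d4 hq2 hc)
  rw [sum_fr hq2 (fun b => z b • c b)]
  exact h6

end pi

end Run7.h919.Ra
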