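import Pool.Agent.Run7.h919.Ra7
import Pool.Agent.Run7.h919.Ra4

/-!
Rational characters of degrees divisible by four with at most two odd prime factors.
-/

set_option linter.unusedSectionVars false

namespace Run7.h919.Ra

open Finset Pool.Agent.H916R2 Pool.Agent.H916K
open Run7.h365.TD (Ar PH vd lft sum_pi exists_nonsquare ne_zero_of_nonsquare oddDist_vd oddDist_smul
  oddDist_add oddDist_div chi4)

/-- the components of the degree -/
def Ok (m a : ℕ) : Prop := a = 4 ∨ (a.Prime ∧ a ≠ 2 ∧ a ∣ m)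

/-- a test distribution, with numbers -/
def HasTest4 (m : ℕ) [NeZero m] (s : Multiset (ZMod m)) (u v : ℕ) : Prop :=
  ∃ (B : Type) (_ : AddCommGroup B) (π : ZMod m → B), OddDist π ∧ (s.map π).sum = 0 ∧
    (∀ (a b mT j : ℕ) [NeZero mT], Ok m a → Ok m b → a ≠ b → a * b = mT → j * mT = m →
      ({a, b} : Finset ℕ) ≠ {u, v} → ∀ z : ZMod mT → ℤ, Rel z → ∑ x, z x • π (iota j x) = 0) ∧
    (∀ (mT j : ℕ) [NeZero mT], u * v = mT → j * mT = m → ∀ z : ZMod mT → ℤ, Rel z →
      ∑ x, z x • π (iota j x) = 0 → ∀ (Q : Type) [AddCommGroup Q] (c : ZMod mT → Q), OddDist c →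
      ∑ x, z x • c x = 0)

/-- the construction from a function on the level prime to `q` -/
lemma hasTest4_of {m : ℕ} [NeZero m] {s : Multiset (ZMod m)} {M q e u : ℕ} [NeZero M] (hM : M ∣ m)
    (hq : q.Prime) (hq2 : q ≠ 2) (hqM : q.Coprime M) (hm : M * q ^ (e + 1) = m) {h : ZMod M → ℤ}
    (hh : OddDist h)
    (hs : ((q : ℤ) ^ orderOf (q : ZMod M) - 1) ∣
      (s.map fun a => PH q (orderOf (q : ZMod M)) h (ZMod.castHom hM (ZMod M) a)).sum)
    (hlow : ∀ (r k1 : ℕ) [NeZero r], Ok m r → r ≠ q → r ≠ u → k1 * r = M →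
      ∀ y : ZMod r, h (iota k1 y) = 0)
    (hdet : ∀ (mT j : ℕ) [NeZero mT], u * q = mT → j * mT = m → ∀ z : ZMod mT → ℤ, Rel z →
      ∑ x, z x • pi hM q h (iota j x) = 0 → ∀ (Q : Type) [AddCommGroup Q] (c : ZMod mT → Q),
      OddDist c → ∑ x, z x • c x = 0) : HasTest4 m s u q := by
  refine ⟨_, inferInstance, pi hM q h, pi_dist hM hq hqM hm hh, sum_pi hM hq hs, ?_, hdet⟩
  intro a b mT j _ ha hb hab habT hj hne z hz
  by_cases hqT : q ∣ mT
  · obtain ⟨r, hr, hrq, hru, hrT⟩ : ∃ r : ℕ, Ok m r ∧ r ≠ q ∧ r ≠ u ∧ r * q = mT := by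
      have hq4 : ¬ q ∣ 4 := by
        intro h1
        have h2 : q ∣ 2 ^ 2 := h1
        exact hq2 ((Nat.prime_dvd_prime_iff_eq hq Nat.prime_two).mp (hq.dvd_of_dvd_pow h2))
      have hok : ∀ t, Ok m t → q ∣ t → q = t := by
        intro t ht hqt
        rcases ht with rfl | ⟨ht, _, _⟩
        · exact absurd hqt hq4
        · exact (Nat.prime_dvd_prime_iff_eq hq ht).mp hqt
      rw [← habT] at hqT
      rcases (Nat.Prime.dvd_mul hq).mp hqT with h1 | h1
      · have h2 := hok a ha h1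
        refine ⟨b, hb, fun h => hab (by rw [← h2, h]), fun h => hne ?_, ?_⟩
        · rw [← h2, h]; exact pair_comm q u
        · rw [h2, mul_comm]; exact habT
      · have h2 := hok b hb h1
        refine ⟨a, ha, fun h => hab (by rw [← h2, h]), fun h => hne ?_, ?_⟩
        · rw [← h2, h]
        · rw [h2]; exact habT
    have hr0 : r ≠ 0 := by
      rintro rfl
      rw [Nat.zero_mul] at hrT
      exact NeZero.ne mT hrT.symm
    have hrNZ : NeZero r := ⟨hr0⟩
    have hrq' : q.Coprime r := by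
      rw [Nat.Prime.coprime_iff_not_dvd hq]
      intro h1
      rcases hr with rfl | ⟨hr1, _, _⟩
      · have h2 : q ∣ 2 ^ 2 := h1
        exact hq2 ((Nat.prime_dvd_prime_iff_eq hq Nat.prime_two).mp (hq.dvd_of_dvd_pow h2))
      · exact hrq ((Nat.prime_dvd_prime_iff_eq hq hr1).mp h1).symm
    have hrM : r ∣ M := by
      have h1 : r ∣ M * q ^ (e + 1) := by
        rw [hm, ← hj, ← hrT]
        exact (dvd_mul_right r q).mul_left j
      exact ((hrq'.symm).pow_right (e + 1)).dvd_of_dvd_mul_right h1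
    obtain ⟨k1, hk1⟩ := hrM
    have hk1' : k1 * r = M := by rw [mul_comm]; exact hk1.symm
    exact pi_zero hM hq hm hrT hj hk1' (hlow r k1 hr hrq hru hk1') z
  · exact pi_kill hM hq hqM hm hh hj ((Nat.Prime.coprime_iff_not_dvd hq).mpr hqT) hz

/-- **The test distributions, degrees divisible by four.** -/
theorem hasTest4 {m d : ℕ} [NeZero m] (h4 : 4 ∣ m) (hd : ¬ 2 ∣ d) {s : Multiset (ZMod m)}
    (hA : Ar d m s) {u q : ℕ} (hu : Ok m u) (hq : q.Prime) (hq2 : q ≠ 2) (hqm : q ∣ m)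
    (huq : u ≠ q) : HasTest4 m s u q := by
  classical
  have hm0 : m ≠ 0 := NeZero.ne m
  obtain ⟨e, M, hMe, hqM⟩ : ∃ e M : ℕ, M * q ^ e = m ∧ q.Coprime M :=
    ⟨m.factorization q, m / q ^ m.factorization q, by
      rw [mul_comm]; exact Nat.ordProj_mul_ordCompl_eq_self m q, Nat.coprime_ordCompl hq hm0⟩
  have he : e ≠ 0 := by
    intro h
    rw [h, pow_zero, mul_one] at hMe
    have h1 : q ∣ M := by rw [hMe]; exact hqm
    exact hq.one_lt.ne' (Nat.Coprime.eq_one_of_dvd hqM h1)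
  obtain ⟨e', rfl⟩ : ∃ e', e = e' + 1 := ⟨e - 1, by omega⟩
  have hMm : M ∣ m := ⟨q ^ (e' + 1), hMe.symm⟩
  have hMNZ : NeZero M := ⟨fun h => hm0 (by rw [← hMe, h, Nat.zero_mul])⟩
  have hM0 : M ≠ 0 := NeZero.ne M
  have hdM : ∀ r : ℕ, r ∣ m → q.Coprime r → r ∣ M := by
    intro r hr hqr
    rw [← hMe] at hr
    exact ((hqr.symm).pow_right (e' + 1)).dvd_of_dvd_mul_right hr
  have hq4 : q.Coprime 4 := by
    have h1 : q.Coprime (2 ^ 2) := ((Nat.coprime_primes hq Nat.prime_two).mpr hq2).pow_right 2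
    exact h1
  have h4M : 4 ∣ M := hdM 4 h4 hq4
  -- the even part
  obtain ⟨c, M1, hcM1, hcop, hM1, a, hca⟩ : ∃ c M1 : ℕ, c * M1 = M ∧ c.Coprime M1 ∧ ¬ 2 ∣ M1 ∧
      ∃ a, c = 2 ^ a := by
    refine ⟨2 ^ M.factorization 2, M / 2 ^ M.factorization 2,
      Nat.ordProj_mul_ordCompl_eq_self M 2, ?_, ?_, _, rfl⟩
    · exact Nat.Coprime.pow_left _ (Nat.coprime_ordCompl Nat.prime_two hM0)
    · exact (Nat.Prime.coprime_iff_not_dvd Nat.prime_two).mp
        (Nat.coprime_ordCompl Nat.prime_two hM0)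
  have hc0 : c ≠ 0 := by rw [hca]; positivity
  have hcM : c ∣ M := ⟨M1, hcM1.symm⟩
  have hcz : (c : ℤ) ≠ 0 := by exact_mod_cast hc0
  have h4c : 4 ∣ c := by
    have h1 : Nat.Coprime 4 M1 := by
      have h2 : Nat.Coprime (2 ^ 2) M1 :=
        Nat.Coprime.pow_left 2 ((Nat.Prime.coprime_iff_not_dvd Nat.prime_two).mpr hM1)
      exact h2
    rw [← hcM1] at h4M
    exact h1.dvd_of_dvd_mul_right h4M
  have hodd_c : ∀ r : ℕ, r.Prime → r ≠ 2 → r.Coprime c := by
    intro r hr hr2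
    rw [hca]
    exact ((Nat.coprime_primes hr Nat.prime_two).mpr hr2).pow_right a
  have hoddM1 : ∀ r : ℕ, r.Prime → r ≠ 2 → r ∣ M → r ∣ M1 := by
    intro r hr hr2 hrM
    rw [← hcM1] at hrM
    exact (hodd_c r hr hr2).dvd_of_dvd_mul_left hrM
  have hprododd : ∀ x : ℕ, ¬ 2 ∣ x → ¬ (2 : ℤ) ∣ ((d * x : ℕ) : ℤ) := by
    intro x hx h3
    have h4 : 2 ∣ d * x := by exact_mod_cast h3
    rcases (Nat.Prime.dvd_mul Nat.prime_two).mp h4 with h5 | h5
    · exact hd h5
    · exact hx h5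
  rcases hu with rfl | ⟨hp, hp2, hpm⟩
  · -- four and `q`
    have ht1 : Nat.Coprime (c - 1) c := by
      have h1 : 1 ≤ c := Nat.pos_of_ne_zero hc0
      have h2 := Nat.coprime_self_sub_right h1
      rw [Nat.coprime_comm] at h2 ⊢
      exact (Nat.coprime_self_sub_right h1).mpr (Nat.coprime_one_right c)
    have ht2 : Nat.Coprime 5 c := by
      rw [hca]; exact Nat.Coprime.pow_right a (by norm_num)
    obtain ⟨w1, hw1c, hw1o⟩ := exists_unit2 hcop hcM1 ht1
    obtain ⟨w2, hw2c, hw2o⟩ := exists_unit2 hcop hcM1 ht2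
    have key : ∀ x : ZMod M, (c : ℤ) ∣ 2 * vd (w1 : ZMod M) x + 1 * vd (w2 : ZMod M) x := by
      intro x
      rw [← ZMod.intCast_zmod_eq_zero_iff_dvd]
      push_cast
      rw [vd_cast_low hcM, vd_cast_low hcM, hw1c c hcM (dvd_refl c), hw2c c hcM (dvd_refl c)]
      have h1 : ((c - 1 : ℕ) : ZMod c) = -1 := by
        rw [Nat.cast_sub (Nat.pos_of_ne_zero hc0), ZMod.natCast_self]; simp
      rw [h1]
      push_cast
      ring
    choose h0 hh0 using key
    set h : ZMod M → ℤ := fun x => (d : ℤ) * h0 x with hhdef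
    have hh : ∀ x, (c : ℤ) * h x = (d : ℤ) * (2 * vd (w1 : ZMod M) x + 1 * vd (w2 : ZMod M) x) := by
      intro x
      simp only [hhdef]
      rw [hh0 x]; ring
    have hodd : OddDist h := by
      refine oddDist_div hcz ?_ hh
      exact oddDist_smul (oddDist_add (oddDist_smul (oddDist_vd w1) 2)
        (oddDist_smul (oddDist_vd w2) 1)) d
    refine hasTest4_of hMm hq hq2 hqM hMe hodd
      (hA.div2 hMm hq hqM hMe (Nat.succ_pos e') hc0 hcM w1 w2 2 1 hh) ?_ ?_
    · intro r k1 _ hr hrq hr4 hk1 y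
      obtain ⟨hr1, hr2, _⟩ := hr.resolve_left hr4
      have hrM : r ∣ M := Dvd.intro_left k1 hk1
      apply mul_left_cancel₀ hcz
      rw [hh, vd_iota hk1 hrM, vd_iota hk1 hrM, hw1o r hrM (hoddM1 r hr1 hr2 hrM),
        hw2o r hrM (hoddM1 r hr1 hr2 hrM), vd_one]
      ring
    · intro mT j _ hpT hj z hz hz0 Q _ cc hcc
      obtain ⟨k1, hk1⟩ := h4M
      have hk1' : k1 * 4 = M := by rw [mul_comm]; exact hk1.symm
      refine pi_four hq2 hMm hq hqM hMe hpT hj hk1' (hprododd M1 hM1) ?_ hz hz0 hcc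
      intro y
      have h4M' : 4 ∣ M := Dvd.intro_left k1 hk1'
      apply mul_left_cancel₀ hcz
      rw [hh, vd_iota hk1' h4M', vd_iota hk1' h4M', hw1c 4 h4M' h4c, hw2c 4 h4M' h4c]
      have h1 : ((c - 1 : ℕ) : ZMod 4) = 3 := by
        rw [Nat.cast_sub (Nat.pos_of_ne_zero hc0), (ZMod.natCast_eq_zero_iff c 4).2 h4c]
        decide
      have h2 : ((5 : ℕ) : ZMod 4) = 1 := by decide
      rw [h1, h2, vd_one]
      have e5 : ∀ y : ZMod 4, 2 * vd (3 : ZMod 4) y = 4 * chi4 y := by decide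
      have e6 := e5 y
      have e7 : (k1 : ℤ) * 4 = c * M1 := by
        have h3 : k1 * 4 = c * M1 := by rw [hk1', hcM1]
        exact_mod_cast h3
      push_cast
      linear_combination ((d : ℤ) * k1) * e6 + ((d : ℤ) * chi4 y) * e7
  · -- two odd primes
    have hpM : u ∣ M := hdM u hpm ((Nat.coprime_primes hq hp).mpr (Ne.symm huq))
    have huNZ : NeZero u := ⟨hp.ne_zero⟩
    obtain ⟨w, ν, hν, hwν, hw1⟩ := exists_unit hp hp2 hpM
    have key : ∀ x : ZMod M, (c : ℤ) ∣ 1 * vd (w : ZMod M) x + 0 * vd (w : ZMod M) x := by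
      intro x
      rw [← ZMod.intCast_zmod_eq_zero_iff_dvd]
      push_cast
      rw [vd_cast_low hcM, hw1 c hcM (hodd_c u hp hp2).symm]
      ring
    choose h0 hh0 using key
    set h : ZMod M → ℤ := fun x => (d : ℤ) * h0 x with hhdef
    have hh : ∀ x, (c : ℤ) * h x = (d : ℤ) * (1 * vd (w : ZMod M) x + 0 * vd (w : ZMod M) x) := by
      intro x
      simp only [hhdef]
      rw [hh0 x]; ring
    have hodd : OddDist h := by
      refine oddDist_div hcz ?_ hh
      exact oddDist_smul (oddDist_add (oddDist_smul (oddDist_vd w) 1)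
        (oddDist_smul (oddDist_vd w) 0)) d
    refine hasTest4_of hMm hq hq2 hqM hMe hodd
      (hA.div2 hMm hq hqM hMe (Nat.succ_pos e') hc0 hcM w w 1 0 hh) ?_ ?_
    · intro r k1 _ hr hrq hru hk1 y
      have hrM : r ∣ M := Dvd.intro_left k1 hk1
      have hrp : r.Coprime u := by
        rcases hr with rfl | ⟨hr1, _, _⟩
        · have h1 : Nat.Coprime (2 ^ 2) u :=
            Nat.Coprime.pow_left 2 ((Nat.coprime_primes Nat.prime_two hp).mpr (Ne.symm hp2))
          exact h1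
        · exact (Nat.coprime_primes hr1 hp).mpr hru
      apply mul_left_cancel₀ hcz
      rw [hh, vd_iota hk1 hrM, hw1 r hrM hrp, vd_one]
      ring
    · intro mT j _ hpT hj z hz hz0 Q _ cc hcc
      obtain ⟨C1, hC1⟩ := hoddM1 u hp hp2 hpM
      have hk1' : (c * C1) * u = M := by rw [← hcM1, hC1]; ring
      have hC1' : ¬ 2 ∣ C1 := fun h5 => hM1 (by rw [hC1]; exact h5.mul_left u)
      refine pi_two hp hp2 hq2 huq hMm hq hqM hMe hpT hj hk1' (hprododd C1 hC1') hν ?_ hz hz0 hcc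
      intro y
      apply mul_left_cancel₀ hcz
      rw [hh, vd_iota hk1' hpM, hwν]
      push_cast
      ring

/-- **The structure theorem, degrees divisible by four.** -/
theorem generated_four {m R : ℕ} [NeZero m] (h4 : 4 ∣ m) (hcard : (m.primeFactors.erase 2).card ≤ 2)
    (hR : ¬ 2 ∣ R) {s : Multiset (ZMod m)} (hs : IsHodge m s) (hne : s ≠ 0) (hA : Ar R m s) :
    Generated m (fun _ => False) s := by
  classical
  have hm : m ≠ 0 := NeZero.ne m
  set S : Finset ℕ := insert 4 (m.primeFactors.erase 2) with hS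
  have hSok : ∀ x ∈ S, Ok m x := by
    intro x hx
    rcases mem_insert.mp hx with h | h
    · exact Or.inl h
    · rw [mem_erase] at h
      exact Or.inr ⟨Nat.prime_of_mem_primeFactors h.2, h.1, Nat.dvd_of_mem_primeFactors h.2⟩
  have hU : ∀ x ∈ S, (x.Prime ∧ x % 2 = 1) ∨ x = 4 := by
    intro x hx
    rcases hSok x hx with h | ⟨h, h2, _⟩
    · exact Or.inr h
    · exact Or.inl ⟨h, h.eq_two_or_odd.resolve_left h2⟩
  have hnz : ∀ i : Pool.Agent.N993.Ix S, NeZero (Pool.Agent.N993.nn S i) := fun i => by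
    refine ⟨?_⟩
    change (i : ℕ) ≠ 0
    rcases hU i i.2 with h | h
    · exact h.1.ne_zero
    · omega
  have hn : Pool.Agent.N993.Adm' (Pool.Agent.N993.nn S) := fun i => hU i i.2
  have hco : Pairwise (fun i j : Pool.Agent.N993.Ix S =>
      (Pool.Agent.N993.nn S i).Coprime (Pool.Agent.N993.nn S j)) := fun i j hij =>
    Pool.Agent.N993.coprime_of (hU i i.2) (hU j j.2) (fun h => hij (Subtype.ext h))
  set m0 := ∏ i : Pool.Agent.N993.Ix S, Pool.Agent.N993.nn S i with hm0def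
  have hm00 : m0 ≠ 0 := prod_ne_zero_iff.mpr fun i _ => (hnz i).out
  have hNZ0 : NeZero m0 := ⟨hm00⟩
  have hm0' : m0 = ∏ x ∈ S, x := by
    rw [hm0def]
    exact Finset.prod_coe_sort S (fun x => x)
  have hdvd : m0 ∣ m := by
    rw [hm0']
    apply Finset.prod_dvd_of_isRelPrime
    · intro a ha b hb hab
      exact Nat.coprime_iff_isRelPrime.mp (Pool.Agent.N993.coprime_of (hU a ha) (hU b hb) hab)
    · intro x hx
      rcases hSok x hx with h | ⟨_, _, h⟩
      · rw [h]; exact h4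
      · exact h
  obtain ⟨k, hk⟩ := hdvd
  have hk' : k * m0 = m := by rw [mul_comm]; exact hk.symm
  have h4S : 4 ∈ S := mem_insert_self _ _
  have h4m0 : 4 ∣ m0 := by rw [hm0']; exact dvd_prod_of_mem (fun x => x) h4S
  have hall : ∀ p, p.Prime → p ∣ m → p ∣ m0 := by
    intro p hp hpm
    by_cases hp2 : p = 2
    · rw [hp2]; exact (by norm_num : 2 ∣ 4).trans h4m0
    · rw [hm0']
      exact dvd_prod_of_mem (fun x => x) (mem_insert_of_mem (mem_erase.mpr
        ⟨hp2, Nat.mem_primeFactors.mpr ⟨hp, hpm, hm⟩⟩))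
  have hred : Red m m0 k := red_exists k m m0 k rfl hk' hall (fun _ => h4m0)
  have hc3 : Fintype.card (Pool.Agent.N993.Ix S) ≤ 3 := by
    have h1 : Fintype.card (Pool.Agent.N993.Ix S) = S.card := Fintype.card_coe S
    rw [h1]
    exact (card_insert_le _ _).trans (by omega)
  set y : ZMod m → ℤ := fun a => ((s.count a : ℕ) : ℤ) with hy
  have hsum : ∀ (Q : Type) [AddCommGroup Q] (c : ZMod m → Q), OddDist c → (s.map c).sum = 0 := by
    intro Q _ c hc
    rw [← sum_count s c]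
    refine zero_of_tests hn hco rfl (ZMod.prodEquivPi (Pool.Agent.N993.nn S) hco).symm hk' hred hc3
      hs.rel ?_ hc
    intro T hT2
    -- one of the two elements is an odd prime
    obtain ⟨i, j, hij, hTij, hj4⟩ : ∃ i j : Pool.Agent.N993.Ix S, i ≠ j ∧ T = {i, j} ∧
        (j : ℕ) ≠ 4 := by
      obtain ⟨i, j, hij, hT⟩ := card_eq_two.mp hT2
      by_cases h : (j : ℕ) = 4
      · refine ⟨j, i, hij.symm, by rw [hT]; exact pair_comm i j, ?_⟩
        intro h5
        exact hij (Subtype.ext (by rw [h5, h]))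
      · exact ⟨i, j, hij, hT, h⟩
    obtain ⟨hj1, hj2, hj3⟩ := (hSok j j.2).resolve_left hj4
    have hij' : (i : ℕ) ≠ (j : ℕ) := fun h => hij (Subtype.ext h)
    obtain ⟨B, hB, π, hπ, hπ0, hπ1, hπ2⟩ := hasTest4 h4 hR hA (hSok i i.2) hj1 hj2 hj3 hij'
    refine ⟨B, hB, π, hπ, ?_, ?_, ?_⟩
    · rw [sum_count s π]; exact hπ0
    · intro T' hT2' hTT mT l _ hmT hl z hz
      obtain ⟨i', j', hij1, rfl⟩ := card_eq_two.mp hT2'
      have hij1' : (i' : ℕ) ≠ (j' : ℕ) := fun h => hij1 (Subtype.ext h)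
      rw [prod_pair hij1] at hmT
      have h1 := hπ1 (i' : ℕ) (j' : ℕ) mT (k * l) (hSok i' i'.2) (hSok j' j'.2) hij1' hmT
        (by rw [mul_assoc, hl, hk']) (by
          intro h
          apply hTT
          rw [hTij]
          have h2 : ({i', j'} : Finset (Pool.Agent.N993.Ix S)).map (Function.Embedding.subtype _) =
              ({i, j} : Finset (Pool.Agent.N993.Ix S)).map (Function.Embedding.subtype _) := by
            rw [map_insert, map_singleton, map_insert, map_singleton]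
            exact h
          exact map_injective _ h2) z hz
      rw [← h1]
      refine sum_congr rfl fun b _ => ?_
      rw [iota_comp hk']
    · intro mT l _ hmT hl z hz h0 Q _ c hc
      rw [hTij, prod_pair hij] at hmT
      refine hπ2 mT (k * l) hmT (by rw [mul_assoc, hl, hk']) z hz ?_ Q c hc
      rw [← h0]
      refine sum_congr rfl fun b _ => ?_
      rw [iota_comp hk']
  have h1 := hsum _ (cQ m (fun _ => False)) (cQ_oddDist (base := fun _ => False))
  rw [cQ_sum, QuotientAddGroup.eq_zero_iff] at h1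
  exact generated_of_mem_LL (fun _ h => h.elim) (fun _ h => h.elim) hs.1 hs.2.1 hne h1

end Run7.h919.Ra
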