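import Pool.Agent.N993.Det

/-!
Systems of functions with distribution relations: an explicit operator which lifts a system with
values in a module to a system with values in an induced module, under the norm.
-/

set_option linter.unusedSectionVars false

namespace Run7.h919.Tw

open Finset Pool.Agent.N993 Pool.Agent.N993.Dat

variable {ι : Type} [DecidableEq ι] {D : Dat ι}

/-! ### Auxiliary maps -/

/-- exchange of two induced modules -/
def swp (D : Dat ι) (i s : ι) {A : Type} [AddCommGroup A] :
    D.Ind i (D.Ind s A) →+ D.Ind s (D.Ind i A) where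
  toFun h := ⟨fun u => ⟨fun v => (h.ev v).ev u⟩⟩
  map_zero' := rfl
  map_add' _ _ := rfl

section

variable {A : Type} [AddCommGroup A] [DistribMulAction D.GG A]

omit [DistribMulAction D.GG A] in
lemma swp_ev (i s : ι) (h : D.Ind i (D.Ind s A)) (u : D.G s) (v : D.G i) :
    ((swp D i s h).ev u).ev v = (h.ev v).ev u := rfl

lemma swp_smul (i s : ι) (b : D.GG) (h : D.Ind i (D.Ind s A)) :
    swp D i s (b • h) = b • swp D i s h := rfl

/-- forgetting a coordinate -/
def er {A : Type} (s : ι) (f : D.Pt → A) : D.Pt → A := fun x => f (Function.update x s none)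

omit [AddCommGroup A] [DistribMulAction D.GG A] in
lemma er_apply (s : ι) (f : D.Pt → A) (x : D.Pt) : er s f x = f (Function.update x s none) := rfl

omit [AddCommGroup A] [DistribMulAction D.GG A] in
lemma er_none {s : ι} (f : D.Pt → A) {x : D.Pt} (h : x s = none) : er s f x = f x := by
  rw [er_apply, update_none_eq h]

lemma indMap_smul {B : Type} [AddCommGroup B] [DistribMulAction D.GG B] (i : ι) (π : A →+ B)
    (hπ : ∀ (b : D.GG) a, π (b • a) = b • π a) (b : D.GG) (h : D.Ind i A) :
    D.indMap i π (b • h) = b • D.indMap i π h := by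
  apply Ind.ext
  funext u
  rw [indMap_apply, ind_smul, ind_smul, hπ, indMap_apply]

lemma sgl_ev (i : ι) (a : A) (u : D.G i) : (D.sgl i a).ev u = if u = 1 then a else 0 := rfl

end

/-! ### The operator -/

/-- The lifting operator for the coordinates in the list. -/
def lft : List ι → ∀ (i : ι) {A : Type} [AddCommGroup A] [DistribMulAction D.GG A],
    (D.Pt → A) → D.Pt → D.Ind i A
  | [], i, _, _, _, f => fun x => D.sgl i (f x)
  | s :: R, i, _, _, _, f =>
      D.glue s (lft R i (er s f))
        ((fun x => swp D i s (lft R i (D.un s f) x)) +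
          lft R s (D.T (D.α s) (lft R i (er s f)) - lft R i (D.T (D.α s) (er s f))))

lemma lft_nil (i : ι) {A : Type} [AddCommGroup A] [DistribMulAction D.GG A] (f : D.Pt → A) :
    lft [] i f = fun x => D.sgl i (f x) := rfl

lemma lft_cons (s : ι) (R : List ι) (i : ι) {A : Type} [AddCommGroup A] [DistribMulAction D.GG A]
    (f : D.Pt → A) : lft (s :: R) i f =
      D.glue s (lft R i (er s f))
        ((fun x => swp D i s (lft R i (D.un s f) x)) +
          lft R s (D.T (D.α s) (lft R i (er s f)) - lft R i (D.T (D.α s) (er s f)))) := rfl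

lemma lft_cons_none {s : ι} (R : List ι) (i : ι) {A : Type} [AddCommGroup A]
    [DistribMulAction D.GG A] (f : D.Pt → A) {x : D.Pt} (hx : x s = none) :
    lft (s :: R) i f x = lft R i (er s f) x := by
  rw [lft_cons, glue_none hx]

lemma lft_cons_some {s : ι} (R : List ι) (i : ι) {A : Type} [AddCommGroup A]
    [DistribMulAction D.GG A] (f : D.Pt → A) {x : D.Pt} {u : D.G s} (hx : x s = some u) :
    lft (s :: R) i f x =
      (swp D i s (lft R i (D.un s f) (Function.update x s none))).ev u +
      (lft R s (D.T (D.α s) (lft R i (er s f)) - lft R i (D.T (D.α s) (er s f)))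
        (Function.update x s none)).ev u := by
  rw [lft_cons, glue_some hx]; rfl

lemma lft_sub (R : List ι) : ∀ (i : ι) {A : Type} [AddCommGroup A] [DistribMulAction D.GG A]
    (f g : D.Pt → A), lft R i (f - g) = lft R i f - lft R i g := by
  induction R with
  | nil =>
    intro i A _ _ f g
    funext x
    apply Ind.ext
    funext u
    change (if u = 1 then f x - g x else 0) = (if u = 1 then f x else 0) - (if u = 1 then g x else 0)
    split_ifs
    · rfl
    · rw [sub_zero]
  | cons s R ih =>
    intro i A _ _ f g
    rw [lft_cons, lft_cons, lft_cons, ← glue_sub]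
    have e1 : er s (f - g) = er s f - er s g := rfl
    have e2 : D.un s (f - g) = D.un s f - D.un s g := rfl
    rw [e1, e2, ih i, ih i, T_sub, T_sub, ih i]
    have e3 : D.T (D.α s) (lft R i (er s f)) - D.T (D.α s) (lft R i (er s g)) -
        (lft R i (D.T (D.α s) (er s f)) - lft R i (D.T (D.α s) (er s g))) =
        (D.T (D.α s) (lft R i (er s f)) - lft R i (D.T (D.α s) (er s f))) -
        (D.T (D.α s) (lft R i (er s g)) - lft R i (D.T (D.α s) (er s g))) := by abel
    rw [e3, ih s]
    congr 1
    have e4 : (fun x => swp D i s ((lft R i (D.un s f) - lft R i (D.un s g)) x)) =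
        (fun x => swp D i s (lft R i (D.un s f) x)) - (fun x => swp D i s (lft R i (D.un s g) x)) := by
      funext x
      exact map_sub _ _ _
    rw [e4]
    abel

lemma lft_zero (R : List ι) (i : ι) {A : Type} [AddCommGroup A] [DistribMulAction D.GG A] :
    lft R i (0 : D.Pt → A) = 0 := by
  have h := lft_sub (D := D) R i (0 : D.Pt → A) 0
  rw [sub_self, sub_self] at h
  exact h

/-- the operator is natural -/
lemma lft_map (R : List ι) : ∀ (i : ι) {A B : Type} [AddCommGroup A] [AddCommGroup B]
    [DistribMulAction D.GG A] [DistribMulAction D.GG B] (π : A →+ B)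
    (_ : ∀ (b : D.GG) a, π (b • a) = b • π a) (f : D.Pt → A) (x : D.Pt),
    lft R i (fun x => π (f x)) x = D.indMap i π (lft R i f x) := by
  induction R with
  | nil =>
    intro i A B _ _ _ _ π hπ f x
    apply Ind.ext
    funext u
    change (if u = 1 then π (f x) else 0) = π (if u = 1 then f x else 0)
    split_ifs
    · rfl
    · rw [map_zero]
  | cons s R ih =>
    intro i A B _ _ _ _ π hπ f x
    cases hx : x s with
    | none =>
      rw [lft_cons_none R i _ hx, lft_cons_none R i _ hx]
      exact ih i π hπ (er s f) x
    | some u =>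
      rw [lft_cons_some R i _ hx, lft_cons_some R i _ hx, map_add]
      have e1 : D.un s (fun x => π (f x)) = fun x => D.indMap s π (D.un s f x) := rfl
      have e2 : lft R i (er s (fun x => π (f x))) = fun x => D.indMap i π (lft R i (er s f) x) :=
        funext fun x => ih i π hπ (er s f) x
      have e3 : lft R i (D.T (D.α s) (er s (fun x => π (f x)))) =
          fun x => D.indMap i π (lft R i (D.T (D.α s) (er s f)) x) := by
        have e4 : D.T (D.α s) (er s (fun x => π (f x))) = fun x => π (D.T (D.α s) (er s f) x) := by
          funext x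
          rw [T_apply, T_apply, hπ]; rfl
        rw [e4]
        exact funext fun x => ih i π hπ _ x
      have e5 : D.T (D.α s) (fun x => D.indMap i π (lft R i (er s f) x)) -
          (fun x => D.indMap i π (lft R i (D.T (D.α s) (er s f)) x)) =
          fun x => D.indMap i π ((D.T (D.α s) (lft R i (er s f)) -
            lft R i (D.T (D.α s) (er s f))) x) := by
        funext x
        rw [Pi.sub_apply, Pi.sub_apply, map_sub, T_apply, T_apply, indMap_smul i π hπ]
      rw [e1, ih i (D.indMap s π) (indMap_smul s π hπ) (D.un s f), e2, e3, e5,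
        ih s (D.indMap i π) (indMap_smul i π hπ)]
      rfl

/-- the operator lifts -/
lemma nrm_lft (R : List ι) : ∀ (i : ι) {A : Type} [AddCommGroup A] [DistribMulAction D.GG A]
    (f : D.Pt → A) (x : D.Pt), D.nrm i (lft R i f x) = f x := by
  induction R with
  | nil => intro i A _ _ f x; exact nrm_sgl i (f x)
  | cons s R ih =>
    intro i A _ _ f x
    cases hx : x s with
    | none => rw [lft_cons_none R i _ hx, ih, er_none f hx]
    | some u =>
      rw [lft_cons_some R i _ hx, map_add]
      set y := Function.update x s none with hy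
      have e1 : D.nrm i ((swp D i s (lft R i (D.un s f) y)).ev u) = f x := by
        have h1 : D.nrm i ((swp D i s (lft R i (D.un s f) y)).ev u) =
            (D.nrm i (lft R i (D.un s f) y)).ev u := by
          rw [nrm_apply, nrm_apply, ind_sum]; rfl
        rw [h1, ih, un_ev, hy, Function.update_idem, ← hx, Function.update_eq_self]
      set d := D.T (D.α s) (lft R i (er s f)) - lft R i (D.T (D.α s) (er s f)) with hd
      have e2 : D.nrm i ((lft R s d y).ev u) = 0 := by
        have h1 : D.nrm i ((lft R s d y).ev u) = (D.indMap s (D.nrm i) (lft R s d y)).ev u := rfl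
        have h2 : (fun x => D.nrm i (d x)) = 0 := by
          funext x
          rw [hd, Pi.sub_apply, map_sub, ih, T_apply, nrm_smul, ih, T_apply, sub_self]; rfl
        rw [h1, ← lft_map R s (D.nrm i) (nrm_smul i), h2, lft_zero]; rfl
      rw [e1, e2, add_zero]

/-- locality -/
lemma lft_congr (R : List ι) : ∀ (i : ι) {A : Type} [AddCommGroup A] [DistribMulAction D.GG A]
    {f g : D.Pt → A} (_ : D.EqS R.toFinset f g), D.EqS R.toFinset (lft R i f) (lft R i g) := by
  induction R with
  | nil =>
    intro i A _ _ f g h x hx
    change D.sgl i (f x) = D.sgl i (g x)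
    rw [h x hx]
  | cons s R ih =>
    intro i A _ _ f g h x hx
    rw [List.toFinset_cons] at h hx
    have e0 : D.EqS R.toFinset (er s f) (er s g) := fun x hx => by
      rw [er_apply, er_apply]
      apply h
      intro j hj
      by_cases hjs : j = s
      · subst hjs; rw [Function.update_self]
      · rw [Function.update_of_ne hjs]
        exact hx j (fun h' => hj (mem_insert_of_mem h'))
    cases hxs : x s with
    | none =>
      rw [lft_cons_none R i _ hxs, lft_cons_none R i _ hxs]
      exact ih i e0 x (hx.of_insert hxs)
    | some u =>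
      have hy := hx.update_none
      rw [lft_cons_some R i _ hxs, lft_cons_some R i _ hxs, ih i h.un _ hy,
        ih s (((ih i e0).T (D.α s)).sub (ih i (e0.T (D.α s)))) _ hy]

/-- the operator preserves the distribution relations -/
lemma isD_lft (R : List ι) : ∀ (_ : R.Nodup) (_ : ∀ s ∈ R, D.β s = 1) (i : ι) {A : Type}
    [AddCommGroup A] [DistribMulAction D.GG A] {f : D.Pt → A} (_ : D.IsD R.toFinset f),
    D.IsD R.toFinset (lft R i f) := by
  induction R with
  | nil => intro _ _ i A _ _ f _ j hj; simp at hj
  | cons s R ih =>
    intro hnd hβ i A _ _ f hf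
    rw [List.nodup_cons] at hnd
    have hs : s ∉ R.toFinset := fun h => hnd.1 (List.mem_toFinset.mp h)
    have hβR : ∀ s ∈ R, D.β s = 1 := fun t ht => hβ t (List.mem_cons_of_mem _ ht)
    rw [List.toFinset_cons] at hf ⊢
    have e0 : D.EqS R.toFinset f (er s f) := fun x hx => (er_none f (hx s hs)).symm
    have hf0 : D.IsD R.toFinset (er s f) := e0.isD (hf.mono (subset_insert _ _))
    have h0 : D.IsD R.toFinset (lft R i (er s f)) := ih hnd.2 hβR i hf0
    have h1 : D.IsD R.toFinset (fun x => swp D i s (lft R i (D.un s f) x)) :=
      (ih hnd.2 hβR i (hf.un hs)).comp (swp D i s) (swp_smul i s)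
    have h2 : D.IsD R.toFinset
        (lft R s (D.T (D.α s) (lft R i (er s f)) - lft R i (D.T (D.α s) (er s f)))) :=
      ih hnd.2 hβR s ((h0.T _).sub (ih hnd.2 hβR i (hf0.T _)))
    rw [lft_cons]
    refine isD_glue hs h0 (h1.add h2) ?_
    intro x hx
    rw [Pi.add_apply, map_add, nrm_lft, hβ s (List.mem_cons_self ..), T_one]
    have e1 : D.nrm s (swp D i s (lft R i (D.un s f) x)) =
        D.indMap i (D.nrm s) (lft R i (D.un s f) x) := by
      apply Ind.ext
      funext v
      rw [nrm_apply, ind_sum]; rfl
    have e2 : D.EqS R.toFinset (fun x => D.nrm s (D.un s f x))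
        (D.T (D.α s) (er s f) - er s f) := by
      intro x hx
      have h3 := hf.rel (hx.mono (subset_insert _ _)) (hx s hs)
      rw [hβ s (List.mem_cons_self ..), T_one] at h3
      change D.nrm s (D.un s f x) = _
      rw [h3, Pi.sub_apply, (e0.T (D.α s)) x hx, e0 x hx]
    rw [e1, ← lft_map R i (D.nrm s) (nrm_smul s), lft_congr R i e2 x hx, lft_sub]
    simp only [Pi.sub_apply]
    abel

/-- vanishing is preserved -/
lemma lft_van (R : List ι) (j : ι) : ∀ (i : ι) {A : Type} [AddCommGroup A]
    [DistribMulAction D.GG A] {f : D.Pt → A} (_ : ∀ x : D.Pt, x j = none → f x = 0) (x : D.Pt)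
    (_ : x j = none), lft R i f x = 0 := by
  induction R with
  | nil =>
    intro i A _ _ f hf x hx
    rw [lft_nil]
    beta_reduce
    rw [hf x hx]
    apply Ind.ext
    funext u
    change (if u = 1 then (0 : A) else 0) = 0
    split_ifs <;> rfl
  | cons s R ih =>
    intro i A _ _ f hf x hx
    have her : ∀ x : D.Pt, x j = none → er s f x = 0 := by
      intro x hx
      rw [er_apply]
      apply hf
      by_cases hjs : j = s
      · subst hjs; rw [Function.update_self]
      · rw [Function.update_of_ne hjs]; exact hx
    cases hxs : x s with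
    | none =>
      rw [lft_cons_none R i _ hxs]
      exact ih i her x hx
    | some u =>
      have hjs : j ≠ s := by rintro rfl; rw [hx] at hxs; cases hxs
      have hy : (Function.update x s none) j = none := by
        rw [Function.update_of_ne hjs]; exact hx
      rw [lft_cons_some R i _ hxs]
      have h1 : lft R i (D.un s f) (Function.update x s none) = 0 := by
        refine ih i ?_ _ hy
        intro z hz
        apply Ind.ext
        funext v
        rw [un_ev, hf _ (by rw [Function.update_of_ne hjs]; exact hz)]; rfl
      have h2 : lft R s (D.T (D.α s) (lft R i (er s f)) - lft R i (D.T (D.α s) (er s f)))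
          (Function.update x s none) = 0 := by
        refine ih s ?_ _ hy
        intro z hz
        rw [Pi.sub_apply, T_apply, ih i her _ (act_apply_none hz), smul_zero,
          ih i (fun z hz => by rw [T_apply, her _ (act_apply_none hz), smul_zero]) z hz, sub_zero]
      rw [h1, h2, map_zero]
      change (0 : D.Ind i A) + 0 = 0
      rw [add_zero]

end Run7.h919.Tw
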