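import Pool.Agent.Run7.h919.Tw1

/-!
The size of the lifted systems.
-/

set_option linter.unusedSectionVars false

namespace Run7.h919.Tw

open Finset Pool.Agent.N993 Pool.Agent.N993.Dat

variable {ι : Type} [DecidableEq ι] [Fintype ι] {D : Dat ι}

/-- a size function on a module -/
structure Mass (D : Dat ι) (A : Type) [AddCommGroup A] [DistribMulAction D.GG A] where
  μ : A → ℕ
  zero : μ 0 = 0
  add : ∀ a b, μ (a + b) ≤ μ a + μ b
  neg : ∀ a, μ (-a) = μ a
  smul : ∀ (b : D.GG) (a : A), μ (b • a) = μ a

/-- the support of a point -/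
def spp (x : D.Pt) : Finset ι := univ.filter (fun i => x i ≠ none)

lemma mem_spp {x : D.Pt} {i : ι} : i ∈ spp x ↔ x i ≠ none := by
  unfold spp; rw [mem_filter]; exact ⟨fun h => h.2, fun h => ⟨mem_univ _, h⟩⟩

lemma spp_act (b : D.GG) (x : D.Pt) : spp (D.act b x) = spp x := by
  ext i
  rw [mem_spp, mem_spp, not_iff_not]
  exact act_eq_none

lemma spp_update_some (x : D.Pt) (i : ι) (u : D.G i) :
    spp (Function.update x i (some u)) = insert i (spp x) := by
  ext j
  rw [mem_spp, mem_insert, mem_spp]
  by_cases h : j = i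
  · subst h; rw [Function.update_self]; simp
  · rw [Function.update_of_ne h]
    constructor
    · intro h'; exact Or.inr h'
    · rintro (h' | h')
      · exact absurd h' h
      · exact h'

lemma spp_update_none (x : D.Pt) (i : ι) :
    spp (Function.update x i none) = (spp x).erase i := by
  ext j
  rw [mem_spp, mem_erase, mem_spp]
  by_cases h : j = i
  · subst h; rw [Function.update_self]; simp
  · rw [Function.update_of_ne h]
    exact ⟨fun h' => ⟨h, h'⟩, fun h' => h'.2⟩

lemma none_of_spp {x : D.Pt} {S : Finset ι} (h : spp x = S) {i : ι} (hi : i ∉ S) : x i = none := by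
  by_contra h'
  exact hi (h ▸ mem_spp.mpr h')

section

variable {A : Type} [AddCommGroup A] [DistribMulAction D.GG A]

lemma Mass.sub (M : Mass D A) (a b : A) : M.μ (a - b) ≤ M.μ a + M.μ b := by
  rw [sub_eq_add_neg]
  refine (M.add _ _).trans ?_
  rw [M.neg]

/-- the size function of an induced module -/
def Mass.ind (M : Mass D A) (i : ι) : Mass D (D.Ind i A) where
  μ h := ∑ u : D.G i, M.μ (h.ev u)
  zero := by
    refine sum_eq_zero fun u _ => ?_
    rw [ind_zero, M.zero]
  add h k := by
    rw [← sum_add_distrib]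
    exact sum_le_sum fun u _ => M.add _ _
  neg h := sum_congr rfl fun u _ => M.neg _
  smul b h := by
    have h1 : ∀ u, M.μ ((b • h).ev u) = M.μ (h.ev (b i * u)) := fun u => by
      rw [ind_smul, M.smul]
    rw [sum_congr rfl fun u _ => h1 u]
    exact Fintype.sum_equiv (Equiv.mulLeft (b i)) _ _ (fun u => rfl)

lemma Mass.ind_μ (M : Mass D A) (i : ι) (h : D.Ind i A) :
    (M.ind i).μ h = ∑ u : D.G i, M.μ (h.ev u) := rfl

/-- the size of the part with support `S` -/
def mA (M : Mass D A) (S : Finset ι) (f : D.Pt → A) : ℕ :=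
  ∑ x ∈ univ.filter (fun x => spp x = S), M.μ (f x)

variable (M : Mass D A)

lemma mA_congr {S : Finset ι} {f g : D.Pt → A} (h : ∀ x, spp x = S → f x = g x) :
    mA M S f = mA M S g := sum_congr rfl fun x hx => by rw [h x (mem_filter.mp hx).2]

lemma mA_T (b : D.GG) (S : Finset ι) (f : D.Pt → A) : mA M S (D.T b f) = mA M S f := by
  unfold mA
  refine sum_nbij' (fun x => D.act b x) (fun y => D.act b⁻¹ y) ?_ ?_ ?_ ?_ ?_
  · intro x hx
    rw [mem_filter] at hx ⊢
    exact ⟨mem_univ _, by rw [spp_act]; exact hx.2⟩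
  · intro x hx
    rw [mem_filter] at hx ⊢
    exact ⟨mem_univ _, by rw [spp_act]; exact hx.2⟩
  · intro x _; exact act_inv_act b x
  · intro x _; exact act_act_inv b x
  · intro x _
    rw [T_apply, M.smul]

lemma mA_add (S : Finset ι) (f g : D.Pt → A) : mA M S (f + g) ≤ mA M S f + mA M S g := by
  unfold mA
  rw [← sum_add_distrib]
  exact sum_le_sum fun x _ => M.add _ _

lemma mA_sub (S : Finset ι) (f g : D.Pt → A) : mA M S (f - g) ≤ mA M S f + mA M S g := by
  unfold mA
  rw [← sum_add_distrib]
  exact sum_le_sum fun x _ => M.sub _ _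

lemma mA_er {s : ι} {S : Finset ι} (hs : s ∉ S) (f : D.Pt → A) :
    mA M S (er s f) = mA M S f :=
  mA_congr M fun x hx => er_none f (none_of_spp hx hs)

lemma mA_un {s : ι} {S : Finset ι} (hs : s ∉ S) (f : D.Pt → A) :
    mA (M.ind s) S (D.un s f) = mA M (insert s S) f := by
  unfold mA
  have hmaps : ∀ x ∈ univ.filter (fun x : D.Pt => spp x = insert s S),
      Function.update x s none ∈ univ.filter (fun x : D.Pt => spp x = S) := by
    intro x hx
    rw [mem_filter] at hx ⊢
    refine ⟨mem_univ _, ?_⟩
    rw [spp_update_none, hx.2, erase_insert hs]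
  rw [← sum_fiberwise_of_maps_to hmaps]
  refine sum_congr rfl fun x hx => ?_
  have hx2 := (mem_filter.mp hx).2
  have hxs : x s = none := none_of_spp hx2 hs
  rw [Mass.ind_μ]
  symm
  have himg : (univ.filter (fun x' : D.Pt => spp x' = insert s S)).filter
      (fun x' => Function.update x' s none = x) =
      univ.image (fun u : D.G s => Function.update x s (some u)) := by
    ext y
    rw [mem_filter, mem_filter, mem_image]
    constructor
    · rintro ⟨⟨_, h1⟩, h2⟩
      cases hy : y s with
      | none =>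
        exfalso
        have : s ∈ spp y := by rw [h1]; exact mem_insert_self _ _
        exact (mem_spp.mp this) hy
      | some u =>
        refine ⟨u, mem_univ _, ?_⟩
        rw [← h2, Function.update_idem, ← hy, Function.update_eq_self]
    · rintro ⟨u, _, rfl⟩
      refine ⟨⟨mem_univ _, ?_⟩, ?_⟩
      · rw [spp_update_some, hx2]
      · rw [Function.update_idem, update_none_eq hxs]
  rw [himg, sum_image]
  · rfl
  · intro u _ v _ h
    have h1 := congrFun h s
    beta_reduce at h1
    rw [Function.update_self, Function.update_self] at h1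
    exact Option.some_injective _ h1

lemma mA_glue_none {s : ι} {S : Finset ι} (hs : s ∉ S) (g0 : D.Pt → A) (g1 : D.Pt → D.Ind s A) :
    mA M S (D.glue s g0 g1) = mA M S g0 :=
  mA_congr M fun x hx => glue_none (none_of_spp hx hs)

lemma mA_glue_some {s : ι} {S : Finset ι} (hs : s ∉ S) (g0 : D.Pt → A) (g1 : D.Pt → D.Ind s A) :
    mA M (insert s S) (D.glue s g0 g1) = mA (M.ind s) S g1 := by
  rw [← mA_un M hs]
  refine mA_congr _ fun x hx => ?_
  apply Ind.ext
  funext u
  rw [un_ev, glue_update (none_of_spp hx hs)]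

lemma mA_swp (i s : ι) (S : Finset ι) (h : D.Pt → D.Ind i (D.Ind s A)) :
    mA ((M.ind i).ind s) S (fun x => swp D i s (h x)) = mA ((M.ind s).ind i) S h := by
  unfold mA
  refine sum_congr rfl fun x _ => ?_
  rw [Mass.ind_μ, Mass.ind_μ]
  simp only [Mass.ind_μ, swp_ev]
  exact sum_comm

lemma mA_sgl (i : ι) (S : Finset ι) (f : D.Pt → A) :
    mA (M.ind i) S (fun x => D.sgl i (f x)) = mA M S f := by
  unfold mA
  refine sum_congr rfl fun x _ => ?_
  rw [Mass.ind_μ, sum_eq_single 1]
  · rw [sgl_ev, if_pos rfl]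
  · intro u _ hu
    rw [sgl_ev, if_neg hu, M.zero]
  · intro h; exact absurd (mem_univ _) h

end

/-! ### The constants -/

/-- `2 ^ n * n!` -/
def cc (n : ℕ) : ℕ := 2 ^ n * n.factorial

omit [Fintype ι] in
lemma cc_conv (B : Finset ι) :
    ∑ B1 ∈ B.powerset, 2 * (cc B1.card * cc (B \ B1).card) = cc (B.card + 1) := by
  have h1 : ∀ B1 ∈ B.powerset, 2 * (cc B1.card * cc (B \ B1).card) =
      (fun j => 2 * (cc j * cc (B.card - j))) B1.card := by
    intro B1 hB1
    rw [card_sdiff_of_subset (mem_powerset.mp hB1)]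
  rw [sum_congr rfl h1, sum_powerset_apply_card (fun j => 2 * (cc j * cc (B.card - j)))]
  have h2 : ∀ j ∈ range (B.card + 1), B.card.choose j • (2 * (cc j * cc (B.card - j))) =
      2 ^ (B.card + 1) * B.card.factorial := by
    intro j hj
    have hj' : j ≤ B.card := by rw [mem_range] at hj; omega
    have h3 := Nat.choose_mul_factorial_mul_factorial hj'
    have h4 : 2 ^ B.card = 2 ^ j * 2 ^ (B.card - j) := by
      rw [← pow_add]; congr 1; omega
    unfold cc
    rw [smul_eq_mul, ← h3, pow_succ, h4]
    ring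
  rw [sum_congr rfl h2, sum_const, card_range, smul_eq_mul]
  unfold cc
  rw [Nat.factorial_succ]
  ring

omit [Fintype ι] in
lemma conv_powerset (U : Finset ι) (F : Finset ι → Finset ι → ℕ) :
    ∑ B1 ∈ U.powerset, ∑ B2 ∈ (U \ B1).powerset, F B1 B2 =
      ∑ B ∈ U.powerset, ∑ B1 ∈ B.powerset, F B1 (B \ B1) := by
  have h1 : ∀ B1 ∈ U.powerset, ∑ B2 ∈ (U \ B1).powerset, F B1 B2 =
      ∑ B ∈ U.powerset.filter (fun B => B1 ⊆ B), F B1 (B \ B1) := by
    intro B1 hB1
    rw [mem_powerset] at hB1
    refine sum_nbij' (fun B2 => B1 ∪ B2) (fun B => B \ B1) ?_ ?_ ?_ ?_ ?_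
    · intro B2 hB2
      rw [mem_powerset] at hB2
      rw [mem_filter, mem_powerset]
      exact ⟨union_subset hB1 (hB2.trans sdiff_subset), subset_union_left⟩
    · intro B hB
      rw [mem_filter, mem_powerset] at hB
      rw [mem_powerset]
      exact sdiff_subset_sdiff hB.1 (Subset.refl _)
    · intro B2 hB2
      rw [mem_powerset] at hB2
      have hd : Disjoint B1 B2 := by
        rw [disjoint_left]
        intro a ha ha'
        exact (mem_sdiff.mp (hB2 ha')).2 ha
      exact union_sdiff_cancel_left hd
    · intro B hB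
      rw [mem_filter] at hB
      exact union_sdiff_of_subset hB.2
    · intro B2 hB2
      rw [mem_powerset] at hB2
      have hd : Disjoint B1 B2 := by
        rw [disjoint_left]
        intro a ha ha'
        exact (mem_sdiff.mp (hB2 ha')).2 ha
      rw [union_sdiff_cancel_left hd]
  rw [sum_congr rfl h1]
  refine sum_comm' ?_
  intro B1 B
  rw [mem_filter, mem_powerset, mem_powerset, mem_powerset]
  constructor
  · rintro ⟨_, h2, h3⟩; exact ⟨h3, h2⟩
  · rintro ⟨h3, h2⟩; exact ⟨h3.trans h2, h2, h3⟩

/-- **The size of the lifted system.** -/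
theorem mass_lft (R : List ι) : ∀ (_ : R.Nodup) (i : ι) {A : Type} [AddCommGroup A]
    [DistribMulAction D.GG A] (M : Mass D A) (f : D.Pt → A) (S : Finset ι),
    mA (M.ind i) S (lft R i f) ≤
      ∑ B ∈ (S ∩ R.toFinset).powerset, cc B.card * mA M (S \ B) f := by
  induction R with
  | nil =>
    intro _ i A _ _ M f S
    have h1 : S ∩ ([] : List ι).toFinset = ∅ := by simp
    rw [h1, powerset_empty, sum_singleton, card_empty, sdiff_empty]
    have h2 : mA (M.ind i) S (lft [] i f) = mA M S f := mA_sgl M i S f
    rw [h2]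
    simp [cc]
  | cons s R ih =>
    intro hnd i A _ _ M f S
    rw [List.nodup_cons] at hnd
    have hsR : s ∉ R.toFinset := fun h => hnd.1 (List.mem_toFinset.mp h)
    have h0 : ∀ C : Finset ι, s ∉ C → mA (M.ind i) C (lft R i (er s f)) ≤
        ∑ B ∈ (C ∩ R.toFinset).powerset, cc B.card * mA M (C \ B) f := by
      intro C hC
      refine (ih hnd.2 i M (er s f) C).trans (le_of_eq ?_)
      refine sum_congr rfl fun B _ => ?_
      rw [mA_er M (fun h => hC (mem_sdiff.mp h).1)]
    by_cases hs : s ∈ S
    · set C := S.erase s with hCdef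
      have hsC : s ∉ C := notMem_erase _ _
      have hSC : S = insert s C := (insert_erase hs).symm
      set U := C ∩ R.toFinset with hU
      have hsU : s ∉ U := fun h => hsC (mem_inter.mp h).1
      set d := D.T (D.α s) (lft R i (er s f)) - lft R i (D.T (D.α s) (er s f)) with hd
      have h1 : mA ((M.ind i).ind s) C (fun x => swp D i s (lft R i (D.un s f) x)) ≤
          ∑ B ∈ U.powerset, cc B.card * mA M (insert s (C \ B)) f := by
        rw [mA_swp]
        refine (ih hnd.2 i (M.ind s) (D.un s f) C).trans (le_of_eq ?_)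
        refine sum_congr rfl fun B _ => ?_
        rw [mA_un M (fun h => hsC (mem_sdiff.mp h).1)]
      have h2 : ∀ C' : Finset ι, s ∉ C' → mA (M.ind i) C' d ≤
          ∑ B ∈ (C' ∩ R.toFinset).powerset, 2 * (cc B.card * mA M (C' \ B) f) := by
        intro C' hC'
        refine (mA_sub _ _ _ _).trans ?_
        rw [mA_T]
        have h3 : mA (M.ind i) C' (lft R i (D.T (D.α s) (er s f))) ≤
            ∑ B ∈ (C' ∩ R.toFinset).powerset, cc B.card * mA M (C' \ B) f := by
          refine (ih hnd.2 i M _ C').trans (le_of_eq ?_)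
          refine sum_congr rfl fun B _ => ?_
          rw [mA_T, mA_er M (fun h => hC' (mem_sdiff.mp h).1)]
        refine (add_le_add (h0 C' hC') h3).trans (le_of_eq ?_)
        rw [← mul_sum]
        ring
      have h3 : mA ((M.ind i).ind s) C (lft R s d) ≤
          ∑ B ∈ U.powerset, cc (B.card + 1) * mA M (C \ B) f := by
        refine (ih hnd.2 s (M.ind i) d C).trans ?_
        have h4 : ∀ B1 ∈ U.powerset, cc B1.card * mA (M.ind i) (C \ B1) d ≤
            ∑ B2 ∈ (U \ B1).powerset,
              2 * (cc B1.card * cc B2.card) * mA M (C \ (B1 ∪ B2)) f := by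
          intro B1 hB1
          refine (Nat.mul_le_mul_left _ (h2 (C \ B1) (fun h => hsC (mem_sdiff.mp h).1))).trans
            (le_of_eq ?_)
          have h5 : (C \ B1) ∩ R.toFinset = U \ B1 := by
            rw [hU]
            ext a
            simp only [mem_inter, mem_sdiff]
            tauto
          rw [h5, mul_sum]
          refine sum_congr rfl fun B2 _ => ?_
          rw [sdiff_sdiff_left]
          ring_nf
          rfl
        refine (sum_le_sum h4).trans (le_of_eq ?_)
        rw [conv_powerset U (fun B1 B2 =>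
          2 * (cc B1.card * cc B2.card) * mA M (C \ (B1 ∪ B2)) f)]
        refine sum_congr rfl fun B hB => ?_
        rw [← cc_conv B, sum_mul]
        refine sum_congr rfl fun B1 hB1 => ?_
        rw [union_sdiff_of_subset (mem_powerset.mp hB1)]
      rw [hSC, lft_cons, mA_glue_some (M.ind i) hsC]
      have h4 : insert s C ∩ (s :: R).toFinset = insert s U := by
        rw [List.toFinset_cons, ← insert_inter_distrib]
      rw [h4, sum_powerset_insert hsU]
      refine (mA_add _ _ _ _).trans (add_le_add (h1.trans (le_of_eq ?_)) (h3.trans (le_of_eq ?_)))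
      · refine sum_congr rfl fun B hB => ?_
        have hsB : s ∉ B := fun h => hsU (mem_powerset.mp hB h)
        rw [insert_sdiff_of_notMem _ hsB]
      · refine sum_congr rfl fun B hB => ?_
        have hsB : s ∉ B := fun h => hsU (mem_powerset.mp hB h)
        rw [card_insert_of_notMem hsB]
        congr 2
        ext a
        simp only [mem_sdiff, mem_insert, not_or]
        constructor
        · rintro ⟨h5, h6⟩
          exact ⟨Or.inr h5, fun h => hsC (h ▸ h5), h6⟩
        · rintro ⟨h5, h6, h7⟩
          exact ⟨h5.resolve_left h6, h7⟩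
    · have h1 : S ∩ (s :: R).toFinset = S ∩ R.toFinset := by
        rw [List.toFinset_cons, inter_insert_of_notMem hs]
      rw [lft_cons, mA_glue_none (M.ind i) hs, h1]
      exact h0 S hs

end Run7.h919.Tw
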