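import Pool.Agent.Run7.h919.Tw2

/-!
The small systems attached to ordered sets of indices.
-/

set_option linter.unusedSectionVars false

namespace Run7.h919.Tw

open Finset Pool.Agent.N993 Pool.Agent.N993.Dat

variable {ι : Type} [DecidableEq ι] [Fintype ι] {D : Dat ι}

/-- The system attached to an ordered set of indices. -/
noncomputable def W (D : Dat ι) : List ι → D.Pt → ℤ
  | [] => fun x => if spp x = ∅ then 1 else 0
  | p :: T => D.glue p 0 (lft (univ.erase p).toList p (W D T) +
      ((-1) ^ (T.length + 1) : ℤ) • D.T D.c (lft (univ.erase p).toList p (W D T)))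

lemma W_nil (x : D.Pt) : W D [] x = if spp x = ∅ then 1 else 0 := rfl

lemma W_cons (p : ι) (T : List ι) : W D (p :: T) =
    D.glue p 0 (lft (univ.erase p).toList p (W D T) +
      ((-1) ^ (T.length + 1) : ℤ) • D.T D.c (lft (univ.erase p).toList p (W D T))) := rfl

omit [Fintype ι] in
lemma sgn_sq (n : ℕ) : ((-1) ^ n : ℤ) * (-1) ^ n = 1 := by
  rw [← pow_add, ← two_mul, pow_mul]; norm_num

/-- the type -/
lemma W_ty (T : List ι) : D.T D.c (W D T) = ((-1) ^ T.length : ℤ) • W D T := by
  cases T with
  | nil =>
    funext x
    rw [T_apply, List.length_nil, pow_zero, one_smul, W_nil, W_nil, spp_act]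
    rfl
  | cons p T =>
    rw [W_cons, T_glue, T_zero, T_add, T_zsmul, T_c_T_c, ← glue_zsmul, smul_zero, smul_add,
      smul_smul, List.length_cons, sgn_sq, one_smul, add_comm]

lemma nrm_lftT (R : List ι) (p : ι) (f : D.Pt → ℤ) (x : D.Pt) :
    D.nrm p (D.T D.c (lft R p f) x) = D.T D.c f x := by
  have h1 := congrFun (T_nrm p D.c (lft R p f)) x
  rw [← h1]
  congr 1
  funext y
  exact nrm_lft R p f y

lemma lft_isD_erase (hβ : ∀ i, D.β i = 1) (p : ι) {f : D.Pt → ℤ} (hf : D.IsD univ f) :
    D.IsD (univ.erase p) (lft (univ.erase p).toList p f) := by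
  have h1 := isD_lft (D := D) (univ.erase p).toList (nodup_toList _) (fun s _ => hβ s) p (f := f)
    (hf.mono (subset_univ _))
  rwa [toList_toFinset] at h1

/-- the relations -/
lemma W_isD (hβ : ∀ i, D.β i = 1) (T : List ι) : D.IsD univ (W D T) := by
  induction T with
  | nil =>
    intro i _ x _ _
    have h1 : ∀ u : D.G i, W D [] (Function.update x i (some u)) = 0 := by
      intro u
      rw [W_nil, spp_update_some, if_neg (insert_ne_empty _ _)]
    rw [sum_congr rfl fun u _ => h1 u, sum_const_zero, W_nil, W_nil, spp_act, spp_act]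
    exact (sub_self _).symm
  | cons p T ih =>
    have h1 := lft_isD_erase hβ p ih
    rw [W_cons, ← insert_erase (mem_univ p)]
    refine isD_glue (notMem_erase p univ) IsD.zero ?_ ?_
    · rw [insert_erase (mem_univ p)]
      exact h1.add ((h1.T _).zsmul _)
    · intro x _
      rw [insert_erase (mem_univ p), T_zero, T_zero, sub_self, Pi.add_apply, Pi.smul_apply,
        map_add, map_zsmul, nrm_lft, nrm_lftT, W_ty, Pi.smul_apply, smul_smul, pow_succ]
      have h2 := sgn_sq T.length
      have h3 : ((-1) ^ T.length * -1 * (-1) ^ T.length : ℤ) = -1 := by linear_combination -h2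
      rw [h3, neg_smul, one_smul, add_neg_cancel]

/-- the support -/
lemma W_van (T : List ι) : ∀ {j : ι} (_ : j ∈ T) {x : D.Pt} (_ : x j = none), W D T x = 0 := by
  induction T with
  | nil => intro j hj; simp at hj
  | cons p T ih =>
    intro j hj x hx
    rw [W_cons]
    cases hp : x p with
    | none => rw [glue_none hp]; rfl
    | some u =>
      have hjp : j ≠ p := by rintro rfl; rw [hx] at hp; cases hp
      have hjT : j ∈ T := (List.mem_cons.mp hj).resolve_left hjp
      have hy : (Function.update x p none) j = none := by
        rw [Function.update_of_ne hjp]; exact hx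
      have h1 : ∀ z : D.Pt, z j = none → lft (univ.erase p).toList p (W D T) z = 0 := fun z hz =>
        lft_van _ j p (fun x hx => ih hjT hx) z hz
      rw [glue_some hp, Pi.add_apply, Pi.smul_apply, T_apply, h1 _ hy, h1 _ (act_apply_none hy),
        smul_zero, smul_zero, add_zero]
      rfl

/-! ### The size -/

/-- the absolute value -/
def MZ (D : Dat ι) : Mass D ℤ where
  μ := Int.natAbs
  zero := rfl
  add := Int.natAbs_add_le
  neg := Int.natAbs_neg
  smul := fun _ _ => rfl

section

variable {A : Type} [AddCommGroup A] [DistribMulAction D.GG A]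

lemma mA_sign (M : Mass D A) (k : ℕ) (S : Finset ι) (f : D.Pt → A) :
    mA M S (((-1) ^ k : ℤ) • f) = mA M S f := by
  unfold mA
  refine sum_congr rfl fun x _ => ?_
  rw [Pi.smul_apply]
  rcases neg_one_pow_eq_or ℤ k with h | h <;> rw [h]
  · rw [one_smul]
  · rw [neg_smul, one_smul, M.neg]

end

lemma mA_W_zero {T : List ι} {S : Finset ι} (h : ¬ T.toFinset ⊆ S) : mA (MZ D) S (W D T) = 0 := by
  unfold mA
  refine sum_eq_zero fun x hx => ?_
  obtain ⟨j, hj, hjS⟩ := not_subset.mp h
  rw [W_van T (List.mem_toFinset.mp hj) (none_of_spp (mem_filter.mp hx).2 hjS)]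
  exact (MZ D).zero

/-- the recursion for the size -/
lemma mA_W_cons (p : ι) (T : List ι) {C : Finset ι} (hp : p ∉ C) :
    mA (MZ D) (insert p C) (W D (p :: T)) ≤
      2 * ∑ B ∈ C.powerset, cc B.card * mA (MZ D) (C \ B) (W D T) := by
  rw [W_cons, mA_glue_some (MZ D) hp]
  refine (mA_add _ _ _ _).trans ?_
  rw [mA_sign, mA_T, two_mul]
  have h1 := mass_lft (univ.erase p).toList (nodup_toList _) p (MZ D) (W D T) C
  have h2 : C ∩ (univ.erase p).toList.toFinset = C := by
    rw [toList_toFinset, inter_eq_left]
    intro a ha
    exact mem_erase.mpr ⟨fun h => hp (h ▸ ha), mem_univ _⟩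
  rw [h2] at h1
  exact add_le_add h1 h1

lemma fact_sum (k r : ℕ) :
    (k + 1) * ∑ j ∈ range (r + 1), r.choose j * (j.factorial * (r + k - j).factorial) =
      (r + k + 1).factorial := by
  induction r with
  | zero => simp [Nat.factorial_succ]
  | succ r ih =>
    rw [sum_range_succ']
    have h1 : ∀ i ∈ range (r + 1), (r + 1).choose (i + 1) *
        ((i + 1).factorial * (r + 1 + k - (i + 1)).factorial) =
        (r + 1) * (r.choose i * (i.factorial * (r + k - i).factorial)) := by
      intro i _
      have h2 := Nat.add_one_mul_choose_eq r i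
      have h3 : r + 1 + k - (i + 1) = r + k - i := by omega
      rw [h3, Nat.factorial_succ]
      calc _ = ((r + 1).choose (i + 1) * (i + 1)) * (i.factorial * (r + k - i).factorial) := by ring
        _ = _ := by rw [← h2]; ring
    rw [sum_congr rfl h1, ← mul_sum, mul_add, ← mul_assoc, mul_comm (k + 1) (r + 1), mul_assoc, ih]
    have h4 : r + 1 + k + 1 = (r + k + 1) + 1 := by ring
    rw [h4, Nat.factorial_succ (r + k + 1), Nat.choose_zero_right, Nat.factorial_zero]
    have h5 : r + 1 + k - 0 = r + k + 1 := by omega
    rw [h5]
    ring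

/-- **The size of the systems.** -/
theorem W_mass : ∀ (T : List ι) (_ : T.Nodup) (_ : T ≠ []) (S : Finset ι) (_ : T.toFinset ⊆ S),
    (T.length - 1).factorial * mA (MZ D) S (W D T) ≤ 2 ^ S.card * (S.card - 1).factorial := by
  intro T
  induction T with
  | nil => intro _ h; exact absurd rfl h
  | cons p T ih =>
    intro hnd _ S hS
    rw [List.nodup_cons] at hnd
    have hpS : p ∈ S := hS (List.mem_toFinset.mpr (List.mem_cons_self ..))
    set C := S.erase p with hC
    have hpC : p ∉ C := notMem_erase _ _
    have hSC : S = insert p C := (insert_erase hpS).symm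
    have hcard : S.card = C.card + 1 := by rw [hSC, card_insert_of_notMem hpC]
    have hrec := mA_W_cons (D := D) p T hpC
    rw [← hSC] at hrec
    rw [hcard, Nat.add_sub_cancel]
    by_cases hT : T = []
    · subst hT
      rw [List.length_singleton, Nat.sub_self, Nat.factorial_zero, one_mul]
      refine hrec.trans ?_
      have h1 : ∀ B ∈ C.powerset, cc B.card * mA (MZ D) (C \ B) (W D []) =
          if B = C then cc C.card else 0 := by
        intro B hB
        by_cases hBC : B = C
        · rw [if_pos hBC, hBC, sdiff_self]
          have h2 : mA (MZ D) (∅ : Finset ι) (W D []) = 1 := by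
            unfold mA
            have h3 : univ.filter (fun x : D.Pt => spp x = ∅) = {fun _ => none} := by
              ext x
              rw [mem_filter, mem_singleton]
              constructor
              · rintro ⟨_, h⟩
                funext i
                exact none_of_spp h (notMem_empty _)
              · rintro rfl
                refine ⟨mem_univ _, ?_⟩
                ext i
                rw [mem_spp]; simp
            rw [h3, sum_singleton, W_nil]
            have h4 : spp (fun _ => none : D.Pt) = ∅ := by
              ext i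
              rw [mem_spp]; simp
            rw [if_pos h4]; rfl
          change cc C.card * mA (MZ D) (∅ : Finset ι) (W D []) = _
          rw [h2, mul_one]
        · rw [if_neg hBC]
          have hne : C \ B ≠ ∅ := by
            intro h
            exact hBC (Subset.antisymm (mem_powerset.mp hB) (sdiff_eq_empty_iff_subset.mp h))
          have h2 : mA (MZ D) (C \ B) (W D []) = 0 := by
            unfold mA
            refine sum_eq_zero fun x hx => ?_
            rw [W_nil, (mem_filter.mp hx).2, if_neg hne]; rfl
          rw [h2, mul_zero]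
      rw [sum_congr rfl h1, sum_ite_eq', if_pos (mem_powerset.mpr (Subset.refl C))]
      unfold cc
      rw [pow_succ]
      apply le_of_eq
      ring
    · have ih' := ih hnd.2 hT
      obtain ⟨k, hk⟩ : ∃ k, T.length = k + 1 := by
        cases T with
        | nil => exact absurd rfl hT
        | cons a T => exact ⟨T.length, rfl⟩
      have hTC : T.toFinset ⊆ C := by
        intro a ha
        rw [hC, mem_erase]
        refine ⟨?_, hS (by rw [List.toFinset_cons]; exact mem_insert_of_mem ha)⟩
        rintro rfl
        exact hnd.1 (List.mem_toFinset.mp ha)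
      have hTcard : T.toFinset.card = k + 1 := by rw [List.toFinset_card_of_nodup hnd.2, hk]
      obtain ⟨r, hr⟩ : ∃ r, C.card = r + (k + 1) := by
        have := card_le_card hTC
        rw [hTcard] at this
        exact ⟨C.card - (k + 1), by omega⟩
      rw [hk, Nat.add_sub_cancel] at ih'
      rw [List.length_cons, hk, Nat.add_sub_cancel, Nat.factorial_succ]
      have h1 : ∑ B ∈ C.powerset, cc B.card * mA (MZ D) (C \ B) (W D T) =
          ∑ B ∈ (C \ T.toFinset).powerset, cc B.card * mA (MZ D) (C \ B) (W D T) := by
        symm
        refine sum_subset (powerset_mono.mpr sdiff_subset) ?_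
        intro B hB hB'
        rw [mem_powerset] at hB hB'
        rw [mA_W_zero, mul_zero]
        intro h2
        apply hB'
        intro a ha
        rw [mem_sdiff]
        refine ⟨hB ha, fun h3 => ?_⟩
        exact (mem_sdiff.mp (h2 h3)).2 ha
      have h2 : ∀ B ∈ (C \ T.toFinset).powerset,
          k.factorial * (cc B.card * mA (MZ D) (C \ B) (W D T)) ≤
            2 ^ C.card * (B.card.factorial * (r + k - B.card).factorial) := by
        intro B hB
        rw [mem_powerset] at hB
        have hBC : B ⊆ C := hB.trans sdiff_subset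
        have hTB : T.toFinset ⊆ C \ B := by
          intro a ha
          rw [mem_sdiff]
          exact ⟨hTC ha, fun h => (mem_sdiff.mp (hB h)).2 ha⟩
        have h3 := ih' (C \ B) hTB
        have h4 : (C \ B).card = C.card - B.card := card_sdiff_of_subset hBC
        have h5 : B.card ≤ r := by
          have := card_le_card hB
          rw [card_sdiff_of_subset hTC, hTcard, hr] at this
          omega
        have h6 : (C \ B).card - 1 = r + k - B.card := by rw [h4, hr]; omega
        rw [h6] at h3
        calc k.factorial * (cc B.card * mA (MZ D) (C \ B) (W D T))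
            = cc B.card * (k.factorial * mA (MZ D) (C \ B) (W D T)) := by ring
          _ ≤ cc B.card * (2 ^ (C \ B).card * (r + k - B.card).factorial) :=
              Nat.mul_le_mul_left _ h3
          _ = 2 ^ C.card * (B.card.factorial * (r + k - B.card).factorial) := by
              have h7 : 2 ^ C.card = 2 ^ B.card * 2 ^ (C \ B).card := by
                rw [← pow_add, h4]
                congr 1
                have := card_le_card hBC
                omega
              rw [h7]
              unfold cc
              ring
      calc (k + 1) * k.factorial * mA (MZ D) S (W D (p :: T))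
          ≤ (k + 1) * k.factorial * (2 * ∑ B ∈ C.powerset, cc B.card * mA (MZ D) (C \ B) (W D T)) :=
            Nat.mul_le_mul_left _ hrec
        _ = 2 * ((k + 1) * ∑ B ∈ (C \ T.toFinset).powerset,
              k.factorial * (cc B.card * mA (MZ D) (C \ B) (W D T))) := by
            rw [h1, ← mul_sum]; ring
        _ ≤ 2 * ((k + 1) * ∑ B ∈ (C \ T.toFinset).powerset,
              2 ^ C.card * (B.card.factorial * (r + k - B.card).factorial)) := by
            refine Nat.mul_le_mul_left _ (Nat.mul_le_mul_left _ (sum_le_sum h2))
        _ = 2 ^ (C.card + 1) * ((k + 1) * ∑ B ∈ (C \ T.toFinset).powerset,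
              (fun j => j.factorial * (r + k - j).factorial) B.card) := by
            rw [← mul_sum]; ring
        _ = 2 ^ (C.card + 1) * C.card.factorial := by
            rw [sum_powerset_apply_card (fun j => j.factorial * (r + k - j).factorial)]
            have h8 : (C \ T.toFinset).card = r := by
              rw [card_sdiff_of_subset hTC, hTcard, hr]; omega
            rw [h8]
            simp only [smul_eq_mul]
            rw [fact_sum k r, hr]
            congr 2

/-! ### The classes -/

/-- The top class of a set of indices. -/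
theorem top_class (hfree : ∀ i, D.c i ≠ 1) (hβ : ∀ i, D.β i = 1) : ∀ (T : List ι) (_ : T.Nodup)
    (f : D.Pt → ℤ) (_ : D.IsD T.toFinset f) (_ : D.Ty ((-1) ^ T.length) T.toFinset f)
    (_ : ∀ U, U ⊂ T.toFinset → D.Img ((-1) ^ T.length) U f),
    D.Img ((-1) ^ T.length) T.toFinset f ∨ D.Img ((-1) ^ T.length) T.toFinset (f - W D T) := by
  intro T
  induction T with
  | nil =>
    intro _ f _ _ _
    rw [List.length_nil, pow_zero, List.toFinset_nil]
    have hO : ∀ x : D.Pt, D.Supp ∅ x → x = fun _ => none := fun x hx =>
      funext fun i => hx i (notMem_empty _)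
    have hO' : D.Supp ∅ (fun _ => none : D.Pt) := fun _ _ => rfl
    have h4 : spp (fun _ => none : D.Pt) = ∅ := by
      ext i
      rw [mem_spp]; simp
    have key : ∀ g : D.Pt → ℤ, (∃ k : ℤ, g (fun _ => none) = 2 * k) → D.Img 1 ∅ g := by
      rintro g ⟨k, hk⟩
      refine ⟨fun _ => k, fun i hi => absurd hi (notMem_empty _), ?_⟩
      intro x hx
      rw [hO x hx, hk]
      change 2 * k = k + (1 : ℤ) • k
      rw [one_smul]; ring
    rcases Int.even_or_odd' (f (fun _ => none)) with ⟨k, hk | hk⟩
    · left; exact key f ⟨k, hk⟩
    · right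
      refine key _ ⟨k, ?_⟩
      rw [Pi.sub_apply, hk, W_nil, if_pos h4]; ring
  | cons p T ih =>
    intro hnd f hf hty hU
    rw [List.nodup_cons] at hnd
    have hp : p ∉ T.toFinset := fun h => hnd.1 (List.mem_toFinset.mp h)
    rw [List.toFinset_cons] at hf hty hU ⊢
    have hθ := sgn_sq (p :: T).length
    have hneg : -((-1) ^ (p :: T).length : ℤ) = (-1) ^ T.length := by
      rw [List.length_cons, pow_succ]; ring
    obtain ⟨g0, hg0, hg0'⟩ := hU T.toFinset (ssubset_insert hp)
    obtain ⟨g1, hg1, hg1'⟩ := tt hfree T.toFinset (D.Ind p ℤ) (hT_ind p (hfree p)) _ hθ (D.un p f)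
      (hf.un hp) hty.un
    have hd1 : D.IsD T.toFinset (dlt p g0 g1) := dlt_isD hg0 hg1
    have hd2 := dlt_ty hp hθ hf hg0' hg1'
    rw [hneg] at hd2
    have hd3 : ∀ U, U ⊂ T.toFinset → D.Img ((-1) ^ T.length) U (dlt p g0 g1) := by
      intro U hUT
      have hpU : p ∉ U := fun h => hp (hUT.subset h)
      have h1 := img_dlt hfree hpU hθ (hg0.mono hUT.subset) (hg0'.mono hUT.subset)
        (hg1.mono hUT.subset) (hg1'.mono hUT.subset)
        (hU (insert p U) ⟨insert_subset_insert _ hUT.subset, fun h => hUT.2 (by
          intro a ha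
          have h2 := h (mem_insert_of_mem ha)
          rcases mem_insert.mp h2 with h3 | h3
          · exact absurd (h3 ▸ ha) hp
          · exact h3)⟩)
      rwa [hneg] at h1
    rcases ih hnd.2 _ hd1 hd2 hd3 with h1 | h1
    · left
      refine glue_img hp hθ hg0 hg0' hg1 hg1' ?_
      rw [hneg]
      exact h1
    · right
      set L := lft (univ.erase p).toList p (W D T) with hL
      have hLD : D.IsD T.toFinset L :=
        (lft_isD_erase hβ p (W_isD hβ T)).mono fun a ha =>
          mem_erase.mpr ⟨fun h => hp (h ▸ ha), mem_univ _⟩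
      have hW : W D (p :: T) = D.glue p 0 (L + ((-1) ^ (p :: T).length : ℤ) • D.T D.c L) := rfl
      refine glue_img hp hθ hg0 ?_ (g1 := g1 - L) (hg1.sub hLD) ?_ ?_
      · intro x hx
        rw [Pi.sub_apply, hW, glue_none (hx p hp)]
        change f x - 0 = _
        rw [sub_zero]
        exact hg0' x hx
      · intro x hx
        have h2 : D.un p (f - W D (p :: T)) x = D.un p f x -
            (L + ((-1) ^ (p :: T).length : ℤ) • D.T D.c L) x := by
          apply Ind.ext
          funext u
          rw [ind_sub, un_ev, un_ev, Pi.sub_apply, hW, glue_update (hx p hp)]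
        rw [h2, hg1' x hx, T_sub, smul_sub]
        simp only [Pi.add_apply, Pi.sub_apply]
        abel
      · rw [hneg]
        refine h1.congr (EqS.of_eq ?_)
        unfold dlt
        funext x
        simp only [Pi.sub_apply, map_sub]
        rw [hL, nrm_lft]
        ring

end Run7.h919.Tw
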