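import Pool.Agent.Run7.h919.Tw3

/-!
Elimination of the classes, and the counting argument.
-/

set_option linter.unusedSectionVars false

namespace Run7.h919.Tw

open Finset Pool.Agent.N993 Pool.Agent.N993.Dat

variable {ι : Type} [DecidableEq ι] [Fintype ι] {D : Dat ι}

lemma even_of_one_eq {n : ℕ} (h : (1 : ℤ) = (-1) ^ n) : Even n := by
  by_contra h1
  rw [Nat.not_even_iff_odd] at h1
  rw [h1.neg_one_pow] at h
  norm_num at h

/-- **Elimination.** -/
theorem elim (hfree : ∀ i, D.c i ≠ 1) (hβ : ∀ i, D.β i = 1) : ∀ (n : ℕ) (ν : D.Pt → ℤ)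
    (_ : D.IsD univ ν) (_ : D.Ty 1 univ ν)
    (_ : ∃ B : Finset (Finset ι), B.card ≤ n ∧ ∀ T, Even T.card → ¬ D.Img 1 T ν → T ∈ B),
    ∃ L : List (Finset ι), (∀ T ∈ L, Even T.card ∧ ¬ D.Img 1 T ν) ∧
      D.Img 1 univ (ν - (L.map (fun T => W D T.toList)).sum) := by
  classical
  intro n
  induction n with
  | zero =>
    rintro ν hν hty ⟨B, hB, hB'⟩
    refine ⟨[], by simp, ?_⟩
    rw [List.map_nil, List.sum_nil, sub_zero]
    refine detect hfree univ 1 (by norm_num) ν hν hty ?_
    intro T _ hT
    by_contra h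
    have h1 := hB' T (even_of_one_eq hT) h
    rw [card_eq_zero.mp (Nat.le_zero.mp hB)] at h1
    exact notMem_empty _ h1
  | succ n ih =>
    rintro ν hν hty ⟨B, hB, hB'⟩
    set Bad := univ.filter (fun T : Finset ι => Even T.card ∧ ¬ D.Img 1 T ν) with hBad
    by_cases he : Bad.Nonempty
    · obtain ⟨T, hT, hmin⟩ := exists_min_image Bad card he
      rw [hBad, mem_filter] at hT
      obtain ⟨_, hTe, hTn⟩ := hT
      have hpow : ((-1) ^ T.toList.length : ℤ) = 1 := by
        rw [length_toList, hTe.neg_one_pow]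
      have hsub : ∀ U, U ⊂ T.toList.toFinset → D.Img 1 U ν := by
        intro U hU
        rw [toList_toFinset] at hU
        refine detect hfree U 1 (by norm_num) ν (hν.mono (subset_univ _))
          (hty.mono (subset_univ _)) ?_
        intro T' hT' hT'e
        by_contra h
        have h1 := hmin T' (by
          rw [hBad, mem_filter]
          exact ⟨mem_univ _, even_of_one_eq hT'e, h⟩)
        have h2 := card_lt_card hU
        have h3 := card_le_card hT'
        omega
      have h1 := top_class hfree hβ T.toList (nodup_toList _) ν (hν.mono (subset_univ _))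
        (by rw [hpow]; exact hty.mono (subset_univ _)) (by rw [hpow]; exact hsub)
      rw [hpow, toList_toFinset] at h1
      have h2 : D.Img 1 T (ν - W D T.toList) := h1.resolve_left hTn
      set ν' := ν - W D T.toList with hν'
      have hν'D : D.IsD univ ν' := hν.sub (W_isD hβ _)
      have hWty : D.Ty 1 univ (W D T.toList) := by
        intro x _
        rw [W_ty, hpow]; rfl
      have hν'T : D.Ty 1 univ ν' := hty.sub hWty
      have hback : ∀ T', ¬ D.Img 1 T' ν' → ¬ D.Img 1 T' ν := by
        intro T' hT' h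
        by_cases hsub : T ⊆ T'
        · exact hTn (h.mono hsub)
        · apply hT'
          refine h.congr ?_
          intro x hx
          obtain ⟨j, hj, hjT'⟩ := not_subset.mp hsub
          rw [hν', Pi.sub_apply, W_van T.toList (mem_toList.mpr hj) (hx j hjT'), sub_zero]
      obtain ⟨L, hL, hL'⟩ := ih ν' hν'D hν'T ⟨B.erase T, by
          rw [card_erase_of_mem (hB' T hTe hTn)]; omega, by
          intro T' hT'e hT'
          rw [mem_erase]
          refine ⟨?_, hB' T' hT'e (hback T' hT')⟩
          rintro rfl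
          exact hT' h2⟩
      refine ⟨T :: L, ?_, ?_⟩
      · intro T' hT'
        rcases List.mem_cons.mp hT' with h | h
        · rw [h]; exact ⟨hTe, hTn⟩
        · exact ⟨(hL T' h).1, hback T' (hL T' h).2⟩
      · rw [List.map_cons, List.sum_cons, ← sub_sub]
        exact hL'
    · refine ⟨[], by simp, ?_⟩
      rw [List.map_nil, List.sum_nil, sub_zero]
      refine detect hfree univ 1 (by norm_num) ν hν hty ?_
      intro T _ hT
      by_contra h
      exact he ⟨T, by rw [hBad, mem_filter]; exact ⟨mem_univ _, even_of_one_eq hT, h⟩⟩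

/-! ### Counting -/

lemma card_spp (A : Finset ι) :
    (univ.filter (fun x : D.Pt => spp x = A)).card = ∏ i ∈ A, Fintype.card (D.G i) := by
  classical
  have h1 : univ.filter (fun x : D.Pt => spp x = A) =
      Fintype.piFinset (fun i => if i ∈ A then (univ : Finset (Option (D.G i))).erase none
        else {none}) := by
    ext x
    rw [mem_filter, Fintype.mem_piFinset]
    constructor
    · rintro ⟨_, h⟩ i
      by_cases hi : i ∈ A
      · rw [if_pos hi, mem_erase]
        exact ⟨mem_spp.mp (h ▸ hi), mem_univ _⟩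
      · rw [if_neg hi, mem_singleton]
        exact none_of_spp h hi
    · intro h
      refine ⟨mem_univ _, ?_⟩
      ext i
      rw [mem_spp]
      have h2 := h i
      by_cases hi : i ∈ A
      · rw [if_pos hi, mem_erase] at h2
        exact ⟨fun _ => hi, fun _ => h2.1⟩
      · rw [if_neg hi, mem_singleton] at h2
        exact ⟨fun h3 => absurd h2 h3, fun h3 => absurd h3 hi⟩
  rw [h1, Fintype.card_piFinset]
  have h2 : ∀ i, ((if i ∈ A then (univ : Finset (Option (D.G i))).erase none
        else {none}).card : ℕ) = if i ∈ A then Fintype.card (D.G i) else 1 := by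
    intro i
    by_cases hi : i ∈ A
    · rw [if_pos hi, if_pos hi, card_erase_of_mem (mem_univ _), card_univ, Fintype.card_option]
      rfl
    · rw [if_neg hi, if_neg hi, card_singleton]
  rw [prod_congr rfl fun i _ => h2 i, prod_ite_mem, univ_inter]

lemma exists_act {x y : D.Pt} (h : spp y = spp x) : ∃ b : D.GG, D.act b x = y := by
  refine ⟨fun i => match y i, x i with
    | some v, some u => v * u⁻¹
    | _, _ => 1, ?_⟩
  funext i
  cases hx : x i with
  | none =>
    rw [act_apply_none hx]
    by_contra h1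
    have h2 : i ∈ spp y := mem_spp.mpr (Ne.symm h1)
    rw [h] at h2
    exact mem_spp.mp h2 hx
  | some u =>
    have h2 : i ∈ spp y := by rw [h, mem_spp, hx]; simp
    cases hy : y i with
    | none => exact absurd hy (mem_spp.mp h2)
    | some v =>
      rw [act_apply_some hx, hx, hy]
      change some (v * u⁻¹ * u) = some v
      rw [inv_mul_cancel_right]

/-- the average over the group -/
lemma avg (w : D.Pt → ℤ) (x : D.Pt) :
    (∑ b : D.GG, (w (D.act b x)).natAbs) * ∏ i ∈ spp x, Fintype.card (D.G i) =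
      Fintype.card D.GG * mA (MZ D) (spp x) w := by
  rw [← card_spp]
  have h1 : ∀ y ∈ univ.filter (fun y : D.Pt => spp y = spp x),
      ∑ b : D.GG, (w (D.act b y)).natAbs = ∑ b : D.GG, (w (D.act b x)).natAbs := by
    intro y hy
    obtain ⟨b', rfl⟩ := exists_act (mem_filter.mp hy).2
    refine Fintype.sum_equiv (Equiv.mulRight b') _ _ fun b => ?_
    rw [act_act]; rfl
  have h2 : ∑ y ∈ univ.filter (fun y : D.Pt => spp y = spp x), ∑ b : D.GG,
      (w (D.act b y)).natAbs = (∑ b : D.GG, (w (D.act b x)).natAbs) *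
        (univ.filter (fun y : D.Pt => spp y = spp x)).card := by
    rw [sum_congr rfl h1, sum_const, smul_eq_mul, mul_comm]
  rw [← h2, sum_comm]
  have h3 : ∀ b : D.GG, ∑ y ∈ univ.filter (fun y : D.Pt => spp y = spp x),
      (w (D.act b y)).natAbs = mA (MZ D) (spp x) w := by
    intro b
    rw [← mA_T (MZ D) b]
    rfl
  rw [sum_congr rfl fun b _ => h3 b, sum_const, card_univ, smul_eq_mul]

/-- **A good translate exists.** -/
theorem exists_shift {N : ℕ} (Y : D.Pt → ℤ) (hY : (univ.filter (fun x => Y x ≠ 0)).card ≤ N)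
    (w : D.Pt → ℤ) (hw : ∀ x, Y x ≠ 0 →
      N * mA (MZ D) (spp x) w < ∏ i ∈ spp x, Fintype.card (D.G i)) :
    ∃ b : D.GG, ∀ x, Y x ≠ 0 → w (D.act b x) = 0 := by
  classical
  by_contra hcon
  push Not at hcon
  set F : D.Pt → ℕ := fun x => ∑ b : D.GG, (w (D.act b x)).natAbs with hF
  have hF1 : ∀ x, Y x ≠ 0 → N * F x < Fintype.card D.GG := by
    intro x hx
    have h1 := avg w x
    have h2 := hw x hx
    have h3 : N * F x * ∏ i ∈ spp x, Fintype.card (D.G i) <
        Fintype.card D.GG * ∏ i ∈ spp x, Fintype.card (D.G i) := by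
      calc N * F x * ∏ i ∈ spp x, Fintype.card (D.G i)
          = N * (F x * ∏ i ∈ spp x, Fintype.card (D.G i)) := by ring
        _ = Fintype.card D.GG * (N * mA (MZ D) (spp x) w) := by
            have h4 : F x * ∏ i ∈ spp x, Fintype.card (D.G i) =
              Fintype.card D.GG * mA (MZ D) (spp x) w := h1
            rw [h4]; ring
        _ < _ := Nat.mul_lt_mul_of_pos_left h2 Fintype.card_pos
    exact lt_of_mul_lt_mul_right h3 (Nat.zero_le _)
  set Z := univ.filter (fun x : D.Pt => Y x ≠ 0) with hZ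
  have h1 : Fintype.card D.GG ≤ ∑ x ∈ Z, F x := by
    have h2 : ∀ b : D.GG, 1 ≤ ∑ x ∈ Z, (w (D.act b x)).natAbs := by
      intro b
      obtain ⟨x, hx, hx'⟩ := hcon b
      have h3 : 1 ≤ (w (D.act b x)).natAbs := Nat.one_le_iff_ne_zero.mpr (Int.natAbs_ne_zero.mpr hx')
      refine h3.trans ?_
      exact single_le_sum (f := fun x => (w (D.act b x)).natAbs) (fun _ _ => Nat.zero_le _)
        (by rw [hZ, mem_filter]; exact ⟨mem_univ _, hx⟩)
    calc Fintype.card D.GG = ∑ _b : D.GG, 1 := by rw [sum_const, card_univ]; simp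
      _ ≤ ∑ b : D.GG, ∑ x ∈ Z, (w (D.act b x)).natAbs := sum_le_sum fun b _ => h2 b
      _ = ∑ x ∈ Z, F x := by rw [sum_comm]
  have hZne : Z.Nonempty := by
    obtain ⟨x, hx, _⟩ := hcon 1
    exact ⟨x, by rw [hZ, mem_filter]; exact ⟨mem_univ _, hx⟩⟩
  have h2 : N * ∑ x ∈ Z, F x < Z.card * Fintype.card D.GG := by
    rw [mul_sum, ← smul_eq_mul Z.card, ← sum_const]
    exact sum_lt_sum_of_nonempty hZne fun x hx => hF1 x (mem_filter.mp hx).2
  have h3 : N * Fintype.card D.GG < N * Fintype.card D.GG :=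
    calc N * Fintype.card D.GG ≤ N * ∑ x ∈ Z, F x := Nat.mul_le_mul_left _ h1
      _ < Z.card * Fintype.card D.GG := h2
      _ ≤ N * Fintype.card D.GG := Nat.mul_le_mul_right _ hY
  exact lt_irrefl _ h3

/-- **Evenness.** -/
theorem even_of_shift (hfree : ∀ i, D.c i ≠ 1) {Y : D.Pt → ℤ}
    (hpar : ∀ k : D.Pt → ℤ, D.IsD univ k → Even (∑ x, Y x * (k x + k (D.act D.c x))))
    {w : D.Pt → ℤ} (hw : D.IsD univ w) (hty : D.Ty 1 univ w) {b : D.GG}
    (hb : ∀ x, Y x ≠ 0 → w (D.act b x) = 0) : Even (∑ x, Y x * w x) := by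
  obtain ⟨k, hk, hk'⟩ := coh (triv_int D) hfree (by norm_num) hw hty b
  have hsupp : ∀ x : D.Pt, D.Supp univ x := fun x i hi => absurd (mem_univ i) hi
  have h1 := hpar k hk
  have h2 : ∀ x, w (D.act b x) - w x = k x + k (D.act D.c x) := by
    intro x
    have h3 := hk' x (hsupp x)
    rw [Pi.sub_apply, T_triv (triv_int D), Pi.add_apply, Pi.smul_apply, one_smul,
      T_triv (triv_int D)] at h3
    exact h3
  have h3 : ∑ x, Y x * (k x + k (D.act D.c x)) = - ∑ x, Y x * w x := by
    rw [← sum_neg_distrib]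
    refine sum_congr rfl fun x _ => ?_
    rw [← h2 x]
    by_cases hx : Y x = 0
    · rw [hx]; ring
    · rw [hb x hx]; ring
  rw [h3] at h1
  exact even_neg.mp h1

end Run7.h919.Tw
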