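import Pool.Agent.Run7.h919.Tw4
import Pool.Agent.N993.CoreG

/-!
The core theorem: relations of squarefree odd level.
-/

set_option linter.unusedSectionVars false

namespace Run7.h919.Tw

open Finset Pool.Agent.N993 Pool.Agent.N993.Dat Pool.Agent.H916R2 Pool.Agent.N992

variable {ι : Type} [Fintype ι] [LinearOrder ι] {n : ι → ℕ} [∀ i, NeZero (n i)] {N : ℕ} [NeZero N]

lemma ext_pt (h4 : ∀ i, n i ≠ 4) {A : Type} [AddCommGroup A] (f : (cyc n).Pt → A)
    (a : ∀ i, ZMod (n i)) : Pool.Agent.N993.ext f a = f (pt a) := by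
  classical
  unfold Pool.Agent.N993.ext
  rw [dif_neg]
  rintro ⟨i, hi, _⟩
  exact h4 i hi

lemma sumW_isD {D : Dat ι} (hβ : ∀ i, D.β i = 1) (L : List (Finset ι)) :
    D.IsD univ (L.map (fun T => W D T.toList)).sum := by
  induction L with
  | nil => exact IsD.zero
  | cons T L ih =>
    rw [List.map_cons, List.sum_cons]
    exact (W_isD hβ _).add ih

lemma sumW_ty {D : Dat ι} (L : List (Finset ι)) (hL : ∀ T ∈ L, Even T.card) (x : D.Pt) :
    (L.map (fun T => W D T.toList)).sum (D.act D.c x) = (L.map (fun T => W D T.toList)).sum x := by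
  induction L with
  | nil => rfl
  | cons T L ih =>
    rw [List.map_cons, List.sum_cons, Pi.add_apply, Pi.add_apply,
      ih (fun T hT => hL T (List.mem_cons_of_mem _ hT))]
    congr 1
    have h1 := congrFun (W_ty (D := D) T.toList) x
    rw [length_toList, (hL T (List.mem_cons_self ..)).neg_one_pow, one_smul,
      T_triv (triv_int D)] at h1
    exact h1

lemma sumW_even {D : Dat ι} {κ : Type} [Fintype κ] (x : κ → ℤ) (q : κ → D.Pt)
    (L : List (Finset ι)) (hL : ∀ T ∈ L, Even (∑ b, x b * W D T.toList (q b))) :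
    Even (∑ b, x b * (L.map (fun T => W D T.toList)).sum (q b)) := by
  induction L with
  | nil => simp
  | cons T L ih =>
    have h1 : ∀ b, x b * (List.map (fun T => W D T.toList) (T :: L)).sum (q b) =
        x b * W D T.toList (q b) + x b * (L.map (fun T => W D T.toList)).sum (q b) := by
      intro b
      rw [List.map_cons, List.sum_cons, Pi.add_apply, mul_add]
    rw [sum_congr rfl fun b _ => h1 b, sum_add_distrib]
    exact (hL T (List.mem_cons_self ..)).add (ih fun T hT => hL T (List.mem_cons_of_mem _ hT))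

theorem coreW (hn : Adm' n) (h4 : ∀ i, n i ≠ 4) (hco : Pairwise (fun i j => (n i).Coprime (n j)))
    (hN : ∏ i, n i = N) (E : (∀ i, ZMod (n i)) ≃+* ZMod N) {Q : Type} [AddCommGroup Q]
    {c : ZMod N → Q} (hc : OddDist c) (φ : Q →+ AddCircle (1 : ℚ)) (x : ZMod N → ℤ) (hx : Rel x)
    (hT : ∀ T : Finset ι, Even T.card →
      (∀ (mT l : ℕ) [NeZero mT], ∏ i ∈ T, n i = mT → l * mT = N →
        ∀ x : ZMod mT → ℤ, Rel x → ∑ b, x b • c (iota l b) = 0) ∨
      Even (∑ b : ZMod N, x b * W (cyc n) T.toList (pt (E.symm b)))) :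
    φ (∑ b, x b • c b) = 0 := by
  classical
  let D := cyc n
  have hfree : ∀ i, D.c i ≠ 1 := fun i => neg_one_ne_one (hn i)
  have hβ : ∀ i, D.β i = 1 := fun i => by
    funext j
    change (if n i = 4 then unOf 2 (n j) else 1) = _
    rw [if_neg (h4 i)]; rfl
  have hsupp : ∀ x : D.Pt, D.Supp univ x := fun x i hi => absurd (mem_univ i) hi
  -- the distribution with values in the circle
  have hcφ : OddDist (fun a => φ (c a)) := Pool.Agent.N998.oddDist_map hc φ
  set f : D.Pt → AddCircle (1 : ℚ) := fun x => φ (c (E (emb x))) with hf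
  have hfD : D.IsD0 univ f := (isD0_of_oddDist hn hco hN E hcφ).1
  have hfo : ∀ x, f (D.act D.c x) = - f x := fun x => (isD0_of_oddDist hn hco hN E hcφ).2 x
  -- lift to the rational numbers
  let π : ℚ →+ AddCircle (1 : ℚ) := QuotientAddGroup.mk' (AddSubgroup.zmultiples (1 : ℚ))
  have hπ : ∀ q : ℚ, π q = (q : AddCircle (1 : ℚ)) := fun q => rfl
  obtain ⟨ft, hft, hft'⟩ : ∃ g : D.Pt → ℚ, D.IsD0 univ g ∧ ∀ x, π (g x) = f x := by
    let _ := D.trivAct ℚ
    let _ := D.trivAct (AddCircle (1 : ℚ))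
    obtain ⟨g, hg, hg'⟩ := Dat.exists_lift (D := D) univ π (fun _ _ => rfl)
      (QuotientAddGroup.mk'_surjective _) (f := f) hfD
    exact ⟨g, hg, fun x => hg' x (hsupp x)⟩
  have hker : ∀ q : ℚ, π q = 0 → ∃ k : ℤ, q = k := by
    intro q hq
    rw [hπ, AddCircle.coe_eq_zero_iff] at hq
    obtain ⟨k, hk⟩ := hq
    exact ⟨k, by rw [← hk]; simp⟩
  have hint : ∀ k : ℤ, π (k : ℚ) = 0 := by
    intro k
    rw [hπ, AddCircle.coe_eq_zero_iff]
    exact ⟨k, by simp⟩
  -- the integral distribution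
  have hν0 : ∀ x, ∃ k : ℤ, ft x + ft (D.act D.c x) = k := by
    intro x
    apply hker
    rw [map_add, hft', hft', hfo, add_neg_cancel]
  choose ν hν using hν0
  have hνD : D.IsD0 univ ν := by
    apply Dat.IsD0.of_cast
    have h1 : D.IsD0 univ (fun x => ft x + ft (D.act D.c x)) := hft.add (hft.act D.c)
    have h2 : (fun x => ft x + ft (D.act D.c x)) = fun x => (ν x : ℚ) := funext hν
    rwa [h2] at h1
  have hνT : ∀ x, ν (D.act D.c x) = ν x := by
    intro x
    have h1 := hν x
    have h2 := hν (D.act D.c x)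
    rw [Dat.act_c_c] at h2
    have : ((ν (D.act D.c x) : ℤ) : ℚ) = ν x := by rw [← h1, ← h2]; ring
    exact_mod_cast this
  -- the weights
  let X := (∀ i, ZMod (n i))ˣ
  let σ : X → D.Pt → ℤ := fun t x => saw (E ((t : ∀ i, ZMod (n i)) * emb x))
  have hσD : ∀ t, D.IsD0 univ (σ t) := by
    intro t
    have h1 := (isD0_of_oddDist hn hco hN E
      (saw_oddDist' (Units.mapEquiv E.toMulEquiv t))).1
    have h2 : (fun x : D.Pt => saw (((Units.mapEquiv E.toMulEquiv t : (ZMod N)ˣ) : ZMod N) *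
        E (emb x))) = σ t := by
      funext x
      change saw (E t * E (emb x)) = saw (E (t * emb x))
      rw [map_mul]
    rw [h2] at h1
    exact h1
  have hσo : ∀ t x, σ t (D.act D.c x) = - σ t x := by
    intro t x
    have h1 := (isD0_of_oddDist hn hco hN E
      (saw_oddDist' (Units.mapEquiv E.toMulEquiv t))).2 x
    have h2 : ∀ x : D.Pt, saw (((Units.mapEquiv E.toMulEquiv t : (ZMod N)ˣ) : ZMod N) *
        E (emb x)) = σ t x := by
      intro x
      change saw (E t * E (emb x)) = saw (E (t * emb x))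
      rw [map_mul]
    rw [h2, h2] at h1
    exact h1
  -- the subsets of the first kind
  have himgT : ∀ T : Finset ι, (∀ (mT l : ℕ) [NeZero mT], ∏ i ∈ T, n i = mT → l * mT = N →
      ∀ x : ZMod mT → ℤ, Rel x → ∑ b, x b • c (iota l b) = 0) → D.Img 1 T ν := by
    intro T hTT
    have hmT0 : ∏ i ∈ T, n i ≠ 0 := prod_ne_zero_iff.mpr fun i _ => NeZero.ne (n i)
    have : NeZero (∏ i ∈ T, n i) := ⟨hmT0⟩
    have hlT : (∏ i ∈ univ \ T, n i) * (∏ i ∈ T, n i) = N := by
      rw [← hN]; exact prod_sdiff (subset_univ T)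
    obtain ⟨w, hw⟩ := exists_weights_T hco hN E (c := c) T rfl hlT (hTT _ _ rfl hlT) φ
    set ht : D.Pt → ℚ := fun x => ∑ t : X, ((σ t x : ℤ) : ℚ) * w t with hht
    have hhtD : D.IsD0 univ ht := by
      apply Dat.IsD0.sum
      intro t _
      exact (hσD t).cast.map (AddMonoidHom.mulRight (w t))
    have hhto : ∀ x, ht (D.act D.c x) = - ht x := by
      intro x
      rw [hht]
      beta_reduce
      rw [← sum_neg_distrib]
      refine sum_congr rfl fun t _ => ?_
      rw [hσo]; push_cast; ring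
    have hk0 : ∀ x, ∃ k : ℤ, D.Supp T x → ft x - ht x = k := by
      intro x
      by_cases hx : D.Supp T x
      · have h1 : π (ft x - ht x) = 0 := by
          rw [map_sub, sub_eq_zero, hft']
          exact hw x hx
        obtain ⟨k, hk⟩ := hker _ h1
        exact ⟨k, fun _ => hk⟩
      · exact ⟨0, fun h => absurd h hx⟩
    choose k hkk using hk0
    refine ⟨k, ?_, ?_⟩
    · change D.IsD0 T k
      apply Dat.IsD0.of_cast
      intro i hi x hx h0
      have h1 := (hft.sub hhtD) i (mem_univ i) x (hsupp x) h0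
      beta_reduce at h1 ⊢
      rw [← hkk _ (hx.act _), ← hkk _ (hx.act _), ← h1]
      exact sum_congr rfl fun u _ => (hkk _ (hx.update hi _)).symm
    · intro x hx
      change ν x = k x + 1 * k (D.act D.c x)
      have h1 := hkk x hx
      have h2 := hkk _ (hx.act D.c)
      have h3 := hν x
      rw [hhto] at h2
      have h4 : ((ν x : ℤ) : ℚ) = k x + 1 * k (D.act D.c x) := by
        rw [← h1, ← h2, ← h3]; ring
      exact_mod_cast h4
  -- elimination
  obtain ⟨L, hL, k, hkD, hk2⟩ := elim (D := D) hfree hβ (univ : Finset (Finset ι)).card ν hνD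
    (fun x _ => by
      change ν (D.act D.c x) = 1 * ν x
      rw [hνT, one_mul]) ⟨univ, le_rfl, fun T _ _ => mem_univ _⟩
  set w : D.Pt → ℤ := (L.map (fun T => W D T.toList)).sum with hw
  have hwD : D.IsD0 univ w := sumW_isD hβ L
  have hwT : ∀ x, w (D.act D.c x) = w x := sumW_ty L fun T hT => (hL T hT).1
  have hwE : Even (∑ b : ZMod N, x b * w (pt (E.symm b))) := by
    refine sumW_even x (fun b => pt (E.symm b)) L fun T hTL => ?_
    obtain ⟨h1, h2⟩ := hL T hTL
    rcases hT T h1 with h3 | h3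
    · exact absurd (himgT T h3) h2
    · exact h3
  have hkD0 : D.IsD0 univ k := hkD
  have hk3 : ∀ x, ν x = w x + (k x + k (D.act D.c x)) := by
    intro x
    have h1 := hk2 x (hsupp x)
    change ν x - w x = k x + 1 * k (D.act D.c x) at h1
    linear_combination h1
  set h : D.Pt → ℚ := fun x => ft x - (k x : ℚ) - (w x : ℚ) * (1 / 2) with hh
  have hhD : D.IsD0 univ h :=
    (hft.sub hkD0.cast).sub (hwD.cast.map (AddMonoidHom.mulRight (1 / 2 : ℚ)))
  have hho : ∀ x, D.Supp univ x → h (D.act D.c x) = - h x := by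
    intro x _
    have h1 := hν x
    have h2 := hk3 x
    rw [h2] at h1
    push_cast at h1
    change ft (D.act D.c x) - (k (D.act D.c x) : ℚ) - (w (D.act D.c x) : ℚ) * (1 / 2) =
      -(ft x - (k x : ℚ) - (w x : ℚ) * (1 / 2))
    rw [hwT]
    linear_combination h1
  have hdist := oddDist_ext hn hco univ hN 1 (fun i hi => absurd (mem_univ i) hi)
    (fun i _ => Nat.coprime_one_left _) hhD hho
  have hrat := Pool.Agent.N998.rat_zero _ hdist x hx
  -- conclusion
  have hio : ∀ b : ZMod N, (fun i => ((1 * b.val : ℕ) : ZMod (n i))) = E.symm b := by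
    intro b
    rw [RingEquiv.eq_symm_apply, ← E_natCast E (1 * b.val), one_mul, ZMod.natCast_zmod_val]
  have h1 : ∀ b : ZMod N, φ (c b) = π (ft (pt (E.symm b))) := by
    intro b
    have e1 := c_eq_ext hn hco hN E hcφ (E.symm b)
    rw [RingEquiv.apply_symm_apply] at e1
    rw [e1, ext_pt h4, hft']
  have h3 : ∑ b, (x b : ℚ) * ft (pt (E.symm b)) = ((∑ b, x b * k (pt (E.symm b)) : ℤ) : ℚ) +
      ((∑ b, x b * w (pt (E.symm b)) : ℤ) : ℚ) * (1 / 2) := by
    have h5 : ∑ b, (x b : ℚ) * Pool.Agent.N993.ext h (fun i => ((1 * b.val : ℕ) : ZMod (n i))) = 0 := hrat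
    have h6 : ∀ b : ZMod N, (x b : ℚ) * Pool.Agent.N993.ext h (fun i => ((1 * b.val : ℕ) : ZMod (n i))) =
        (x b : ℚ) * ft (pt (E.symm b)) - (x b : ℚ) * k (pt (E.symm b)) -
          (x b : ℚ) * w (pt (E.symm b)) * (1 / 2) := by
      intro b
      rw [hio, ext_pt h4, hh]
      ring
    rw [sum_congr rfl fun b _ => h6 b, sum_sub_distrib, sum_sub_distrib, ← sum_mul] at h5
    push_cast
    linear_combination h5
  obtain ⟨q, hq⟩ := hwE
  have h5 : ∀ b : ZMod N, φ (x b • c b) = π ((x b : ℚ) * ft (pt (E.symm b))) := by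
    intro b
    rw [map_zsmul, h1, ← map_zsmul, zsmul_eq_mul]
  rw [map_sum, sum_congr rfl fun b _ => h5 b, ← map_sum, h3, hq]
  have h6 : ((∑ b, x b * k (pt (E.symm b)) : ℤ) : ℚ) + ((q + q : ℤ) : ℚ) * (1 / 2) =
      ((∑ b, x b * k (pt (E.symm b)) + q : ℤ) : ℚ) := by
    push_cast; ring
  rw [h6, hint]

end Run7.h919.Tw
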