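import Pool.Agent.Run7.h919.Tw5

/-!
Distributions with values in a group of exponent two, from the squarefree level to the full level.
-/

set_option linter.unusedSectionVars false

namespace Run7.h919.Tw

open Finset Pool.Agent.N993 Pool.Agent.N993.Dat Pool.Agent.H916R2 Pool.Agent.N992

section

variable {ι : Type} [Fintype ι] [LinearOrder ι] {n : ι → ℕ} [∀ i, NeZero (n i)] {N : ℕ} [NeZero N]

/-- a system with values in a group of exponent two gives a distribution -/
lemma oddDist_pt (hn : Adm' n) (h4 : ∀ i, n i ≠ 4) (hco : Pairwise (fun i j => (n i).Coprime (n j)))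
    (hN : ∏ i, n i = N) (E : (∀ i, ZMod (n i)) ≃+* ZMod N) {Q : Type} [AddCommGroup Q]
    {h : (cyc n).Pt → Q} (hD : (cyc n).IsD0 univ h)
    (hodd : ∀ x, h ((cyc n).act (cyc n).c x) = - h x) (h0 : h (fun _ => none) = 0) :
    OddDist (fun b : ZMod N => h (pt (E.symm b))) := by
  have hp : ∀ i, (n i).Prime ∧ n i % 2 = 1 := fun i => (hn i).resolve_right (h4 i)
  have hNodd : N % 2 = 1 := by
    rw [← hN, ← Nat.odd_iff]
    refine Finset.prod_induction _ Odd (fun a b => Odd.mul) odd_one fun i _ => ?_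
    exact Nat.odd_iff.mpr (hp i).2
  refine ⟨?_, ?_, ?_⟩
  · intro a
    rw [map_neg, pt_neg, hodd]
  · intro a ha
    have h2 : IsUnit ((2 : ℕ) : ZMod N) := by
      rw [ZMod.isUnit_iff_coprime, Nat.coprime_two_left]
      exact Nat.odd_iff.mpr hNodd
    have ha0 : a = 0 := by
      have h3 : ((2 : ℕ) : ZMod N) * a = ((2 : ℕ) : ZMod N) * 0 := by
        rw [mul_zero, ← ha]; push_cast; ring
      exact h2.mul_left_cancel h3
    rw [ha0, map_zero]
    have h3 : (pt (0 : ∀ i, ZMod (n i)) : (cyc n).Pt) = fun _ => none := by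
      funext i
      exact pt_of_not (not_isUnit_zero hn)
    rw [h3]; exact h0
  · intro p d hpp hpd a
    obtain ⟨i, hpi⟩ : ∃ i, p ∣ n i := by
      have h1 : p ∣ ∏ i, n i := by rw [hN]; exact ⟨d, hpd.symm⟩
      obtain ⟨i, _, hi⟩ := (Nat.Prime.prime hpp).exists_mem_finset_dvd h1
      exact ⟨i, hi⟩
    obtain rfl : p = n i := (Nat.prime_dvd_prime_iff_eq hpp (hp i).1).mp hpi
    set M := ∏ l ∈ univ.erase i, n l with hM
    have hNM : n i * M = N := by rw [hM, Finset.mul_prod_erase univ n (mem_univ i), hN]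
    obtain rfl : d = M := Nat.eq_of_mul_eq_mul_left hpp.pos (hpd.trans hNM.symm)
    have hcop : (n i).Coprime M :=
      Nat.Coprime.prod_right fun l hl => hco (Finset.ne_of_mem_erase hl).symm
    have hfact : Fact (n i).Prime := ⟨hpp⟩
    have hMu : IsUnit ((M : ℕ) : ZMod (n i)) := by
      rw [ZMod.isUnit_iff_coprime]; exact hcop.symm
    set x := E.symm a with hx
    have hax : a = E x := by rw [hx, RingEquiv.apply_symm_apply]
    have hterm : ∀ k : ℕ, E.symm (a + (k : ZMod N) * (M : ZMod N)) =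
        Function.update x i (x i + (k : ZMod (n i)) * (M : ZMod (n i))) := by
      intro k
      rw [RingEquiv.symm_apply_eq, hax]
      have e1 : (k : ZMod N) * (M : ZMod N) = ((k * M : ℕ) : ZMod N) := by push_cast; rfl
      rw [e1, E_natCast E, ← map_add]
      congr 1
      funext l
      by_cases hl : l = i
      · subst hl
        rw [Function.update_self, Pi.add_apply]; push_cast; rfl
      · rw [Function.update_of_ne hl, Pi.add_apply]
        have : ((k * M : ℕ) : ZMod (n l)) = 0 := by
          rw [ZMod.natCast_eq_zero_iff]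
          exact (Finset.dvd_prod_of_mem n (Finset.mem_erase.mpr ⟨hl, mem_univ l⟩)).mul_left k
        rw [this, add_zero]
    have hsum : ∑ k ∈ range (n i), h (pt (E.symm (a + (k : ZMod N) * (M : ZMod N)))) =
        ∑ j : ZMod (n i), h (pt (Function.update x i j)) := by
      simp only [hterm]
      refine sum_bij (fun k _ => x i + (k : ZMod (n i)) * (M : ZMod (n i))) (fun _ _ => mem_univ _)
        ?_ ?_ (fun _ _ => rfl)
      · intro k hk k' hk' h
        have h3 : (k : ZMod (n i)) = (k' : ZMod (n i)) := hMu.mul_right_cancel (add_left_cancel h)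
        rw [ZMod.natCast_eq_natCast_iff'] at h3
        rwa [Nat.mod_eq_of_lt (mem_range.mp hk), Nat.mod_eq_of_lt (mem_range.mp hk')] at h3
      · intro j _
        obtain ⟨u, hu⟩ := hMu
        refine ⟨((j - x i) * (u⁻¹ : (ZMod (n i))ˣ)).val, mem_range.mpr (ZMod.val_lt _), ?_⟩
        rw [ZMod.natCast_zmod_val, ← hu, mul_assoc, Units.inv_mul, mul_one, add_sub_cancel]
    have hsupp : (cyc n).Supp univ (pt x) := fun i hi => absurd (mem_univ i) hi
    have h1 := sum_update_prime hn hD (mem_univ i) hpp hsupp 1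
    simp only [Dat.act_one] at h1
    rw [hsum, h1]
    have h2 : E.symm (((n i : ℕ) : ZMod N) * a) = (n i) • x := by
      rw [RingEquiv.symm_apply_eq, map_nsmul, ← hax, nsmul_eq_mul]
    rw [h2, pt_smul_alpha hn hco]

end

/-! ### Powers of primes -/

/-- division by `q` if possible, and reduction -/
def dn (q m' : ℕ) {m : ℕ} (a : ZMod m) : ZMod m' :=
  if q ∣ a.val then ((a.val / q : ℕ) : ZMod m') else ((a.val : ℕ) : ZMod m')

lemma dn_of_dvd {q m' m : ℕ} (hq : 0 < q) (hm : q * m' = m) (z : ℕ) :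
    dn q m' (((q * z : ℕ) : ZMod m)) = (z : ZMod m') := by
  unfold dn
  rw [ZMod.val_natCast]
  have h1 : (q * z) % m = q * (z % m') := by rw [← hm, Nat.mul_mod_mul_left]
  rw [h1, if_pos (dvd_mul_right _ _), Nat.mul_div_cancel_left _ hq, ZMod.natCast_mod]

lemma dn_of_not {q m' m : ℕ} (hm : q * m' = m) {z : ℕ} (hz : ¬ q ∣ z) :
    dn q m' ((z : ℕ) : ZMod m) = (z : ZMod m') := by
  unfold dn
  rw [ZMod.val_natCast]
  have hqm : q ∣ m := ⟨m', hm.symm⟩
  rw [if_neg (by rwa [Nat.dvd_mod_iff hqm])]
  have h1 : m' ∣ m := ⟨q, by rw [mul_comm]; exact hm.symm⟩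
  have h2 : z % m ≡ z [MOD m'] := (Nat.mod_modEq z m).of_dvd h1
  exact (ZMod.natCast_eq_natCast_iff _ _ _).mpr h2

lemma sum_range_zmod {p : ℕ} [NeZero p] {Q : Type} [AddCommGroup Q] (F : ZMod p → Q) :
    ∑ i ∈ range p, F (i : ZMod p) = ∑ j : ZMod p, F j := by
  refine sum_nbij' (fun i => (i : ZMod p)) (fun j => j.val) ?_ ?_ ?_ ?_ ?_
  · intro i _; exact mem_univ _
  · intro j _; exact mem_range.mpr (ZMod.val_lt j)
  · intro i hi
    exact ZMod.val_cast_of_lt (mem_range.mp hi)
  · intro j _; exact ZMod.natCast_zmod_val j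
  · intro i _; rfl

lemma sum_range_mul {p q : ℕ} [NeZero p] (hq : q.Coprime p) {Q : Type} [AddCommGroup Q]
    (F : ZMod p → Q) : ∑ i ∈ range p, F ((i * q : ℕ) : ZMod p) = ∑ i ∈ range p, F (i : ZMod p) := by
  have h1 : ∑ i ∈ range p, F ((i * q : ℕ) : ZMod p) = ∑ j : ZMod p, F (j * (q : ZMod p)) := by
    rw [← sum_range_zmod (fun j : ZMod p => F (j * (q : ZMod p)))]
    refine sum_congr rfl fun i _ => ?_
    push_cast; rfl
  rw [h1, sum_range_zmod]
  have hu : IsUnit ((q : ℕ) : ZMod p) := by rw [ZMod.isUnit_iff_coprime]; exact hq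
  obtain ⟨u, hu⟩ := hu
  rw [← hu]
  exact Fintype.sum_equiv u.mulRight _ _ fun j => rfl

lemma nsmul_odd {Q : Type} [AddCommGroup Q] (h2 : ∀ x : Q, x + x = 0) {q : ℕ} (hq : q % 2 = 1)
    (x : Q) : q • x = x := by
  obtain ⟨k, hk⟩ : ∃ k, q = 2 * k + 1 := ⟨q / 2, by omega⟩
  rw [hk, add_smul, one_smul, mul_comm, mul_smul, two_smul, h2, smul_zero, zero_add]

/-- one step -/
lemma OddDist.up {q m' m : ℕ} (hq : q.Prime) (hm : q * m' = m) (hqm : q ∣ m') (hodd : m % 2 = 1)
    [NeZero m] [NeZero m'] {Q : Type} [AddCommGroup Q] (h2 : ∀ x : Q, x + x = 0) {c : ZMod m' → Q}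
    (hc : OddDist c) : OddDist (fun a : ZMod m => c (dn q m' a)) := by
  have hm' : m' ≠ 0 := NeZero.ne m'
  have hqodd : q % 2 = 1 := by
    rcases hq.eq_two_or_odd with h | h
    · subst h; omega
    · exact h
  refine ⟨?_, ?_, ?_⟩
  · intro a
    rw [← hc.neg]
    congr 1
    set z := a.val with hz
    have hzm : z ≤ m := (ZMod.val_lt a).le
    have ha : a = ((z : ℕ) : ZMod m) := (ZMod.natCast_zmod_val a).symm
    have hna : -a = ((m - z : ℕ) : ZMod m) := by
      rw [ha, Nat.cast_sub hzm, ZMod.natCast_self, zero_sub]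
    rw [hna, ha]
    by_cases hd : q ∣ z
    · obtain ⟨z1, hz1⟩ := hd
      have h1 : z1 ≤ m' := by
        rw [hz1, ← hm] at hzm
        exact Nat.le_of_mul_le_mul_left hzm hq.pos
      have h3 : m - z = q * (m' - z1) := by rw [Nat.mul_sub, hm, ← hz1]
      rw [h3, dn_of_dvd hq.pos hm, hz1, dn_of_dvd hq.pos hm, Nat.cast_sub h1, ZMod.natCast_self,
        zero_sub]
    · have h3 : ¬ q ∣ m - z := by
        intro h
        apply hd
        have h4 : q ∣ m := ⟨m', hm.symm⟩
        exact (Nat.dvd_sub_iff_right hzm h4).mp h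
      rw [dn_of_not hm h3, dn_of_not hm hd, Nat.cast_sub hzm]
      have h4 : ((m : ℕ) : ZMod m') = 0 := by
        rw [ZMod.natCast_eq_zero_iff, ← hm]; exact dvd_mul_left _ _
      rw [h4, zero_sub]
  · intro a ha
    have h3 : IsUnit ((2 : ℕ) : ZMod m) := by
      rw [ZMod.isUnit_iff_coprime, Nat.coprime_two_left]
      exact Nat.odd_iff.mpr hodd
    have ha0 : a = 0 := by
      have h4 : ((2 : ℕ) : ZMod m) * a = ((2 : ℕ) : ZMod m) * 0 := by
        rw [mul_zero, ← ha]; push_cast; ring
      exact h3.mul_left_cancel h4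
    have h5 : dn q m' (0 : ZMod m) = 0 := by
      have := dn_of_dvd hq.pos hm 0
      simpa using this
    rw [ha0]
    change c (dn q m' (0 : ZMod m)) = 0
    rw [h5]
    exact hc.half 0 (add_zero 0)
  · intro p d hp hpd a
    set z := a.val with hz
    have ha : a = ((z : ℕ) : ZMod m) := (ZMod.natCast_zmod_val a).symm
    have hterm : ∀ k : ℕ, a + (k : ZMod m) * (d : ZMod m) = ((z + k * d : ℕ) : ZMod m) := by
      intro k; rw [ha]; push_cast; rfl
    have hrhs : ((p : ℕ) : ZMod m) * a = ((p * z : ℕ) : ZMod m) := by rw [ha]; push_cast; rfl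
    simp only [hterm, hrhs]
    by_cases hpq : p = q
    · subst hpq
      have hdm : d = m' := Nat.eq_of_mul_eq_mul_left hp.pos (hpd.trans hm.symm)
      subst hdm
      rw [dn_of_dvd hp.pos hm]
      obtain ⟨e, he⟩ := hqm
      by_cases hd : p ∣ z
      · obtain ⟨z1, hz1⟩ := hd
        have h1 : ∀ k : ℕ, c (dn p d ((z + k * d : ℕ) : ZMod m)) =
            c ((z1 : ZMod d) + (k : ZMod d) * (e : ZMod d)) := by
          intro k
          have h3 : z + k * d = p * (z1 + k * e) := by rw [hz1, he]; ring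
          rw [h3, dn_of_dvd hp.pos hm]
          congr 1
          push_cast; rfl
        rw [sum_congr rfl fun k _ => h1 k, hc.dist p e hp he.symm, hz1]
        congr 1
        push_cast; rfl
      · have h1 : ∀ k : ℕ, c (dn p d ((z + k * d : ℕ) : ZMod m)) = c (z : ZMod d) := by
          intro k
          have h3 : ¬ p ∣ z + k * d := by
            intro h
            apply hd
            have h4 : p ∣ k * d := by rw [he]; exact ⟨k * e, by ring⟩
            exact (Nat.dvd_add_left h4).mp h
          rw [dn_of_not hm h3]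
          congr 1
          push_cast
          rw [ZMod.natCast_self, mul_zero, add_zero]
        rw [sum_congr rfl fun k _ => h1 k, sum_const, card_range, nsmul_odd h2 hqodd]
    · have hcop : Nat.Coprime q p := (Nat.coprime_primes hq hp).mpr (Ne.symm hpq)
      have hqd : q ∣ d := by
        have h1 : q ∣ p * d := by rw [hpd, ← hm]; exact dvd_mul_right _ _
        exact hcop.dvd_of_dvd_mul_left h1
      obtain ⟨d', hd'⟩ := hqd
      have hpd' : p * d' = m' := by
        apply Nat.eq_of_mul_eq_mul_left hq.pos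
        rw [hm, ← hpd, hd']; ring
      have hNZ : NeZero p := ⟨hp.ne_zero⟩
      by_cases hd : q ∣ z
      · obtain ⟨z1, hz1⟩ := hd
        have h1 : ∀ k : ℕ, c (dn q m' ((z + k * d : ℕ) : ZMod m)) =
            c ((z1 : ZMod m') + (k : ZMod m') * (d' : ZMod m')) := by
          intro k
          have h3 : z + k * d = q * (z1 + k * d') := by rw [hz1, hd']; ring
          rw [h3, dn_of_dvd hq.pos hm]
          congr 1
          push_cast; rfl
        have h3 : p * z = q * (p * z1) := by rw [hz1]; ring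
        rw [sum_congr rfl fun k _ => h1 k, hc.dist p d' hp hpd', h3, dn_of_dvd hq.pos hm]
        congr 1
        push_cast; rfl
      · have h3 : ¬ q ∣ p * z := fun h => hd (hcop.dvd_of_dvd_mul_left h)
        rw [dn_of_not hm h3]
        set F : ZMod p → Q := fun j => c ((z : ZMod m') + ((j.val : ℕ) : ZMod m') * (d' : ZMod m'))
          with hF
        have hFn : ∀ k : ℕ, F (k : ZMod p) = c ((z : ZMod m') + (k : ZMod m') * (d' : ZMod m')) := by
          intro k
          rw [hF]
          beta_reduce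
          congr 2
          rw [ZMod.val_natCast, ← Nat.cast_mul, ← Nat.cast_mul]
          apply (ZMod.natCast_eq_natCast_iff _ _ _).mpr
          rw [← hpd']
          exact Nat.ModEq.mul_right' d' (Nat.mod_modEq k p)
        have h1 : ∀ k : ℕ, c (dn q m' ((z + k * d : ℕ) : ZMod m)) = F ((k * q : ℕ) : ZMod p) := by
          intro k
          have h4 : ¬ q ∣ z + k * d := by
            intro h
            apply hd
            have h5 : q ∣ k * d := by rw [hd']; exact ⟨k * d', by ring⟩
            exact (Nat.dvd_add_left h5).mp h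
          rw [dn_of_not hm h4, hFn]
          congr 1
          rw [hd']
          push_cast; ring
        rw [sum_congr rfl fun k _ => h1 k, sum_range_mul hcop, sum_congr rfl fun k _ => hFn k,
          hc.dist p d' hp hpd']
        congr 1
        push_cast; rfl

/-- **The map from the full level to the squarefree level.** -/
theorem up_exists : ∀ (t k m m0 : ℕ) [NeZero m] [NeZero m0], k = t → k * m0 = m → m % 2 = 1 →
    (∀ p, p.Prime → p ∣ m → p ∣ m0) → ∃ X : ZMod m → ZMod m0, (∀ b : ZMod m0, X (iota k b) = b) ∧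
      ∀ (Q : Type) [AddCommGroup Q], (∀ x : Q, x + x = 0) → ∀ c : ZMod m0 → Q, OddDist c →
        OddDist (fun a => c (X a)) := by
  intro t
  induction t using Nat.strong_induction_on with
  | _ t ih =>
  intro k m m0 _ _ hkt hkm hodd hall
  have hm : m ≠ 0 := NeZero.ne m
  have hm0 : m0 ≠ 0 := NeZero.ne m0
  have hk0 : k ≠ 0 := by rintro rfl; rw [zero_mul] at hkm; exact hm hkm.symm
  by_cases hk1 : k = 1
  · subst hk1
    rw [one_mul] at hkm
    subst hkm
    refine ⟨id, ?_, ?_⟩
    · intro b
      unfold iota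
      rw [one_mul, ZMod.natCast_zmod_val]; rfl
    · intro Q _ _ c hc
      exact hc
  · set q := k.minFac with hqdef
    have hq : q.Prime := Nat.minFac_prime hk1
    obtain ⟨k', hk'⟩ := Nat.minFac_dvd k
    rw [← hqdef] at hk'
    have hk'0 : k' ≠ 0 := by rintro rfl; rw [mul_zero] at hk'; exact hk0 hk'
    have hNZ : NeZero (k' * m0) := ⟨Nat.mul_ne_zero hk'0 hm0⟩
    have hqm : q * (k' * m0) = m := by rw [← hkm, hk']; ring
    have hqm0 : q ∣ m0 := hall q hq (by rw [← hqm]; exact dvd_mul_right _ _)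
    have hdvd : k' * m0 ∣ m := by rw [← hqm]; exact dvd_mul_left _ _
    have hodd' : (k' * m0) % 2 = 1 := by
      rw [← Nat.odd_iff] at hodd ⊢
      exact hodd.of_dvd_nat hdvd
    have hlt : k' < t := by
      rw [← hkt, hk']
      have := hq.two_le
      have : 0 < k' := Nat.pos_of_ne_zero hk'0
      nlinarith
    obtain ⟨X, hX1, hX2⟩ := ih k' hlt k' (k' * m0) m0 rfl rfl hodd'
      (fun p hp hpd => hall p hp (hpd.trans hdvd))
    refine ⟨fun a => X (dn q (k' * m0) a), ?_, ?_⟩
    · intro b
      have h1 : (iota k b : ZMod m) = ((q * (k' * b.val) : ℕ) : ZMod m) := by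
        unfold iota
        rw [hk']; congr 1; ring
      change X (dn q (k' * m0) (iota k b : ZMod m)) = b
      rw [h1, dn_of_dvd hq.pos hqm]
      exact hX1 b
    · intro Q _ h2 c hc
      exact OddDist.up hq hqm (hqm0.mul_left k') hodd h2 (hX2 Q h2 c hc)

end Run7.h919.Tw
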