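import Pool.Agent.Run7.h919.Tw6

/-!
The relations with few entries: the level.
-/

set_option linter.unusedSectionVars false

namespace Run7.h919.Tw

open Finset Pool.Agent.N993 Pool.Agent.N993.Dat Pool.Agent.H916R2 Pool.Agent.N992

lemma zmod2_add (x : ZMod 2) : x + x = 0 := by
  revert x; decide

lemma zmod2_neg (x : ZMod 2) : -x = x := by
  revert x; decide

lemma even_iff_zmod (a : ℤ) : Even a ↔ ((a : ℤ) : ZMod 2) = 0 := by
  rw [ZMod.intCast_zmod_eq_zero_iff_dvd a 2, even_iff_two_dvd]; rfl

lemma OddDist.prod {m : ℕ} {A B : Type} [AddCommGroup A] [AddCommGroup B] {c : ZMod m → A}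
    {d : ZMod m → B} (hc : OddDist c) (hd : OddDist d) : OddDist (fun a => (c a, d a)) where
  neg a := by rw [hc.neg, hd.neg]; rfl
  half a ha := by rw [hc.half a ha, hd.half a ha]; rfl
  dist p e hp hpe a := by
    refine Prod.ext ?_ ?_
    · rw [Prod.fst_sum]; exact hc.dist p e hp hpe a
    · rw [Prod.snd_sum]; exact hd.dist p e hp hpe a

lemma OddDist.pi {m : ℕ} {κ : Type} {A : Type} [AddCommGroup A] {c : κ → ZMod m → A}
    (hc : ∀ t, OddDist (c t)) : OddDist (fun a t => c t a) where
  neg a := by funext t; exact (hc t).neg a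
  half a ha := by funext t; exact (hc t).half a ha
  dist p e hp hpe a := by
    funext t
    rw [Finset.sum_apply]; exact (hc t).dist p e hp hpe a

lemma oddDist_zero {m : ℕ} {A : Type} [AddCommGroup A] : OddDist (fun _ : ZMod m => (0 : A)) where
  neg a := by rw [neg_zero]
  half a ha := rfl
  dist p e hp hpe a := by rw [sum_const_zero]

section

variable {ι : Type} [Fintype ι] [LinearOrder ι] {n : ι → ℕ} [∀ i, NeZero (n i)] {m0 : ℕ} [NeZero m0]
  {m : ℕ} [NeZero m]

/-- The data of the map from the full level to the points. -/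
structure Lev (n : ι → ℕ) [∀ i, NeZero (n i)] (m0 m k : ℕ) [NeZero m0] [NeZero m]
    (E : (∀ i, ZMod (n i)) ≃+* ZMod m0) (X : ZMod m → ZMod m0) : Prop where
  hn : Adm' n
  h4 : ∀ i, n i ≠ 4
  hco : Pairwise (fun i j => (n i).Coprime (n j))
  hN : ∏ i, n i = m0
  red : Red m m0 k
  hX1 : ∀ b : ZMod m0, X (iota k b) = b
  hX2 : ∀ (Q : Type) [AddCommGroup Q], (∀ x : Q, x + x = 0) → ∀ c : ZMod m0 → Q, OddDist c →
    OddDist (fun a => c (X a))

variable {k : ℕ} {E : (∀ i, ZMod (n i)) ≃+* ZMod m0} {X : ZMod m → ZMod m0}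

lemma Lev.mod2 (h : Lev n m0 m k E X) {g : (cyc n).Pt → ℤ} (hg : (cyc n).IsD univ g)
    (hinv : ∀ x, ((g ((cyc n).act (cyc n).c x) : ℤ) : ZMod 2) = g x)
    (h0 : ((g (fun _ => none) : ℤ) : ZMod 2) = 0) :
    OddDist (fun a : ZMod m => ((g (pt (E.symm (X a))) : ℤ) : ZMod 2)) := by
  have hD : (cyc n).IsD0 univ g := hg
  have h1 := oddDist_pt h.hn h.h4 h.hco h.hN E (h := fun x => ((g x : ℤ) : ZMod 2))
    (hD.map (Int.castAddHom (ZMod 2))) (fun x => by rw [hinv, zmod2_neg]) h0
  exact h.hX2 (ZMod 2) zmod2_add _ h1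

lemma Lev.par (h : Lev n m0 m k E X) {y : ZMod m → ℤ} (hy : Rel y) {g : (cyc n).Pt → ℤ}
    (hg : (cyc n).IsD univ g) :
    Even (∑ a, y a * (g (pt (E.symm (X a))) + g ((cyc n).act (cyc n).c (pt (E.symm (X a)))))) := by
  set g2 : (cyc n).Pt → ℤ := fun x => g x + g ((cyc n).act (cyc n).c x) with hg2
  have hgD : (cyc n).IsD0 univ g := hg
  have hg2D : (cyc n).IsD0 univ g2 := hgD.add (hgD.act (cyc n).c)
  have hO : (cyc n).act (cyc n).c (fun _ => none) = fun _ => none := by
    funext i; exact act_apply_none rfl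
  have h1 := h.mod2 (g := g2) hg2D (fun x => by
    rw [hg2]
    beta_reduce
    rw [Dat.act_c_c, add_comm]) (by
    rw [hg2]
    beta_reduce
    rw [hO]; push_cast; exact zmod2_add _)
  obtain ⟨x0, hx0, he⟩ := h.red _ _ h1 y hy
  simp only [h.hX1] at he
  set g3 : (cyc n).Pt → ℤ := fun x => g x - g ((cyc n).act (cyc n).c x) with hg3
  have hg3D : (cyc n).IsD0 univ g3 := hgD.sub (hgD.act (cyc n).c)
  have h2 := oddDist_pt h.hn h.h4 h.hco h.hN E (h := g3) hg3D
    (fun x => by rw [hg3]; beta_reduce; rw [Dat.act_c_c]; ring)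
    (by rw [hg3]; beta_reduce; rw [hO, sub_self])
  have h3 := Pool.Agent.N998.rat_zero _
    (Pool.Agent.N998.oddDist_map h2 (Int.castAddHom ℚ)) x0 hx0
  have h4 : ∑ b, x0 b * g3 (pt (E.symm b)) = 0 := by
    have h5 : ((∑ b, x0 b * g3 (pt (E.symm b)) : ℤ) : ℚ) = 0 := by
      rw [← h3]; push_cast; rfl
    exact_mod_cast h5
  have h5 : Even (∑ b, x0 b * g2 (pt (E.symm b))) := by
    have h6 : ∑ b, x0 b * g2 (pt (E.symm b)) = 2 *
        ∑ b, x0 b * g ((cyc n).act (cyc n).c (pt (E.symm b))) := by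
      have h7 : ∑ b, x0 b * g2 (pt (E.symm b)) = ∑ b, x0 b * g3 (pt (E.symm b)) + 2 *
        ∑ b, x0 b * g ((cyc n).act (cyc n).c (pt (E.symm b))) := by
        rw [mul_sum, ← sum_add_distrib]
        refine sum_congr rfl fun b _ => ?_
        rw [hg2, hg3]
        ring
      rw [h7, h4, zero_add]
    rw [h6]
    exact even_two_mul _
  rw [even_iff_zmod] at h5 ⊢
  have h6 : ((∑ a, y a * g2 (pt (E.symm (X a))) : ℤ) : ZMod 2) =
      ∑ a, y a • ((g2 (pt (E.symm (X a))) : ℤ) : ZMod 2) := by
    push_cast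
    exact sum_congr rfl fun a _ => by rw [zsmul_eq_mul]
  have h7 : ((∑ b, x0 b * g2 (pt (E.symm b)) : ℤ) : ZMod 2) =
      ∑ b, x0 b • ((g2 (pt (E.symm b)) : ℤ) : ZMod 2) := by
    push_cast
    exact sum_congr rfl fun a _ => by rw [zsmul_eq_mul]
  change ((∑ a, y a * g2 (pt (E.symm (X a))) : ℤ) : ZMod 2) = 0
  rw [h6, he, ← h7, h5]

/-- the functionals are even on relations with few entries -/
lemma Lev.even (h : Lev n m0 m k E X) {y : ZMod m → ℤ} (hy : Rel y) {N : ℕ}
    (hs : (univ.filter (fun a => y a ≠ 0)).card ≤ N)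
    {T : Finset ι} (hTe : Even T.card) (hTn : T.Nonempty)
    (hbd : ∀ A : Finset ι, T ⊆ A → N * (2 ^ A.card * (A.card - 1).factorial) <
      (T.card - 1).factorial * ∏ i ∈ A, (n i - 1)) :
    Even (∑ a : ZMod m, y a * W (cyc n) T.toList (pt (E.symm (X a)))) := by
  classical
  have hfree : ∀ i, (cyc n).c i ≠ 1 := fun i => neg_one_ne_one (h.hn i)
  have hβ : ∀ i, (cyc n).β i = 1 := fun i => by
    funext j
    change (if n i = 4 then unOf 2 (n j) else 1) = _
    rw [if_neg (h.h4 i)]; rfl
  set q : ZMod m → (cyc n).Pt := fun a => pt (E.symm (X a)) with hq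
  set Y : (cyc n).Pt → ℤ := fun x => ∑ a ∈ univ.filter (fun a => q a = x), y a with hY
  have hYsum : ∀ g : (cyc n).Pt → ℤ, ∑ x, Y x * g x = ∑ a, y a * g (q a) := by
    intro g
    rw [← sum_fiberwise_of_maps_to (s := univ) (t := univ) (g := q) (fun _ _ => mem_univ _)]
    refine sum_congr rfl fun x _ => ?_
    rw [hY]
    beta_reduce
    rw [sum_mul]
    refine sum_congr rfl fun a ha => ?_
    rw [(mem_filter.mp ha).2]
  have hYcard : (univ.filter (fun x => Y x ≠ 0)).card ≤ N := by
    have h1 : univ.filter (fun x => Y x ≠ 0) ⊆ (univ.filter (fun a => y a ≠ 0)).image q := by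
      intro x hx
      have h2 := (mem_filter.mp hx).2
      obtain ⟨a, ha, ha'⟩ := exists_ne_zero_of_sum_ne_zero h2
      rw [mem_image]
      exact ⟨a, mem_filter.mpr ⟨mem_univ _, ha'⟩, (mem_filter.mp ha).2⟩
    exact (card_le_card h1).trans (card_image_le.trans hs)
  have hcardG : ∀ i, Fintype.card ((cyc n).G i) = n i - 1 := by
    intro i
    have hp : (n i).Prime := ((h.hn i).resolve_right (h.h4 i)).1
    have : Fact (n i).Prime := ⟨hp⟩
    exact ZMod.card_units (n i)
  have hpos : ∀ A : Finset ι, 0 < ∏ i ∈ A, (n i - 1) := by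
    intro A
    refine prod_pos fun i _ => ?_
    have hp : (n i).Prime := ((h.hn i).resolve_right (h.h4 i)).1
    have := hp.two_le
    omega
  have hTl : T.toList ≠ [] := by
    intro h1
    rw [toList_eq_nil] at h1
    exact hTn.ne_empty h1
  have hpow : ((-1) ^ T.toList.length : ℤ) = 1 := by
    rw [length_toList, hTe.neg_one_pow]
  obtain ⟨b, hb⟩ := exists_shift Y hYcard (W (cyc n) T.toList) (by
    intro x _
    rw [prod_congr rfl fun i _ => hcardG i]
    by_cases hTx : T ⊆ spp x
    · have h1 := W_mass (D := cyc n) T.toList (nodup_toList _) hTl (spp x)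
        (by rw [toList_toFinset]; exact hTx)
      rw [length_toList] at h1
      have h2 := hbd (spp x) hTx
      have h3 : (T.card - 1).factorial * (N * mA (MZ (cyc n)) (spp x) (W (cyc n) T.toList)) <
          (T.card - 1).factorial * ∏ i ∈ spp x, (n i - 1) := by
        calc (T.card - 1).factorial * (N * mA (MZ (cyc n)) (spp x) (W (cyc n) T.toList))
            = N * ((T.card - 1).factorial * mA (MZ (cyc n)) (spp x) (W (cyc n) T.toList)) := by
              ring
          _ ≤ N * (2 ^ (spp x).card * ((spp x).card - 1).factorial) := Nat.mul_le_mul_left _ h1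
          _ < _ := h2
      exact lt_of_mul_lt_mul_left h3 (Nat.zero_le _)
    · rw [mA_W_zero (by rw [toList_toFinset]; exact hTx), mul_zero]
      exact hpos _)
  have h1 := even_of_shift (D := cyc n) hfree (Y := Y) (fun g hg => by
      have h2 := h.par hy hg
      rw [hYsum (fun x => g x + g ((cyc n).act (cyc n).c x))]
      exact h2) (W_isD hβ T.toList) (by
      intro x _
      rw [W_ty, hpow]; rfl) hb
  rw [hYsum] at h1
  exact h1

/-- **Relations with few entries.** -/
theorem Lev.main (h : Lev n m0 m k E X) {Q : Type} [AddCommGroup Q] {c : ZMod m → Q}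
    (hc : OddDist c) (hk : k * m0 = m) {y : ZMod m → ℤ} (hy : Rel y) {N : ℕ}
    (hs : (univ.filter (fun a => y a ≠ 0)).card ≤ N)
    (hT : ∀ T : Finset ι, Even T.card → T.Nonempty →
      (∀ (mT l : ℕ) [NeZero mT], ∏ i ∈ T, n i = mT → l * mT = m0 →
        ∀ x : ZMod mT → ℤ, Rel x → ∑ b, x b • c (iota k (iota l b : ZMod m0)) = 0) ∨
      (∀ A : Finset ι, T ⊆ A → N * (2 ^ A.card * (A.card - 1).factorial) <
        (T.card - 1).factorial * ∏ i ∈ A, (n i - 1))) :
    ∑ a, y a • c a = 0 := by
  classical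
  refine CharacterModule.eq_zero_of_character_apply fun φ0 => ?_
  let φ : Q →+ AddCircle (1 : ℚ) := φ0
  change φ _ = 0
  have hβ : ∀ i, (cyc n).β i = 1 := fun i => by
    funext j
    change (if n i = 4 then unOf 2 (n j) else 1) = _
    rw [if_neg (h.h4 i)]; rfl
  -- the combined distribution
  set w : Finset ι → ZMod m → ZMod 2 := fun T a =>
    if T = ∅ then 0 else ((W (cyc n) T.toList (pt (E.symm (X a))) : ℤ) : ZMod 2) with hw
  have hwD : ∀ T, OddDist (w T) := by
    intro T
    by_cases hTe : T = ∅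
    · have h1 : w T = fun _ => 0 := by
        funext a
        rw [hw]
        beta_reduce
        rw [if_pos hTe]
      rw [h1]
      exact oddDist_zero
    · have h1 : w T = fun a => ((W (cyc n) T.toList (pt (E.symm (X a))) : ℤ) : ZMod 2) := by
        funext a
        rw [hw]
        beta_reduce
        rw [if_neg hTe]
      rw [h1]
      refine h.mod2 (W_isD hβ _) ?_ ?_
      · intro x
        have h2 := congrFun (W_ty (D := cyc n) T.toList) x
        rw [T_triv (triv_int _), Pi.smul_apply] at h2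
        rw [h2]
        rcases neg_one_pow_eq_or ℤ T.toList.length with h3 | h3 <;> rw [h3]
        · rw [one_smul]
        · rw [neg_smul, one_smul]
          push_cast
          exact zmod2_neg _
      · obtain ⟨j, hj⟩ := nonempty_iff_ne_empty.mpr hTe
        rw [W_van T.toList (mem_toList.mpr hj) rfl]
        rfl
  have hC : OddDist (fun a : ZMod m => (φ (c a), fun T => w T a)) :=
    OddDist.prod (Pool.Agent.N998.oddDist_map hc φ) (OddDist.pi hwD)
  obtain ⟨x0, hx0, he⟩ := h.red _ _ hC _ hy
  have he1 : ∑ a, y a • φ (c a) = ∑ b, x0 b • φ (c (iota k b)) := by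
    have h1 := congrArg Prod.fst he
    rw [Prod.fst_sum, Prod.fst_sum] at h1
    exact h1
  have he2 : ∀ T, ∑ a, y a • w T a = ∑ b, x0 b • w T (iota k b) := by
    intro T
    have h1 := congrFun (congrArg Prod.snd he) T
    rw [Prod.snd_sum, Prod.snd_sum, Finset.sum_apply, Finset.sum_apply] at h1
    exact h1
  have hcD0 : OddDist (fun b : ZMod m0 => c (iota k b)) := hc.comp_iota hk
  have hcore := coreW h.hn h.h4 h.hco h.hN E hcD0 φ x0 hx0 (by
    intro T hTe
    by_cases hTn : T.Nonempty
    · rcases hT T hTe hTn with h1 | h1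
      · left; exact h1
      · right
        have h2 := h.even hy hs hTe hTn h1
        have h3 := he2 T
        have hTne : T ≠ ∅ := hTn.ne_empty
        rw [even_iff_zmod] at h2 ⊢
        have h4 : ((∑ a : ZMod m, y a *
            W (cyc n) T.toList (pt (E.symm (X a))) : ℤ) : ZMod 2) =
            ∑ a, y a • w T a := by
          push_cast
          refine sum_congr rfl fun a _ => ?_
          rw [hw]
          beta_reduce
          rw [if_neg hTne, zsmul_eq_mul]
        have h5 : ((∑ b : ZMod m0, x0 b * W (cyc n) T.toList (pt (E.symm b)) : ℤ) : ZMod 2) =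
            ∑ b, x0 b • w T (iota k b) := by
          push_cast
          refine sum_congr rfl fun a _ => ?_
          rw [hw]
          beta_reduce
          rw [if_neg hTne, zsmul_eq_mul, h.hX1]
        rw [h5, ← h3, ← h4, h2]
    · left
      intro mT l _ hmT hl x _
      rw [not_nonempty_iff_eq_empty] at hTn
      rw [hTn, prod_empty] at hmT
      subst hmT
      have h1 : ∀ b : ZMod 1, (iota l b : ZMod m0) = 0 := by
        intro b
        have : b = 0 := Subsingleton.elim _ _
        rw [this, iota_zero]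
      have h2 : c (iota k (0 : ZMod m0)) = 0 := by
        rw [iota_zero]
        exact hc.half 0 (add_zero 0)
      refine sum_eq_zero fun b _ => ?_
      rw [h1, h2, smul_zero])
  rw [map_sum]
  have h6 : ∀ a : ZMod m, φ (y a • c a) = y a • φ (c a) :=
    fun a => map_zsmul φ _ _
  rw [sum_congr rfl fun a _ => h6 a, he1, ← hcore, map_sum]
  exact sum_congr rfl fun b _ => (map_zsmul φ _ _).symm

end

end Run7.h919.Tw
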