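import Pool.Agent.Run7.h919.Tw7
import Pool.Agent.N993.ThreeP

/-!
The relations with few entries: sets of primes.
-/

set_option linter.unusedSectionVars false

namespace Run7.h919.Tw

open Finset Pool.Agent.N993 Pool.Agent.N993.Dat Pool.Agent.H916R2 Pool.Agent.N992

/-- The bound for a set `T` of primes inside `S`. -/
def Big (N : ℕ) (S T : Finset ℕ) : Prop :=
  ∀ A : Finset ℕ, T ⊆ A → A ⊆ S → N * (2 ^ A.card * (A.card - 1).factorial) <
    (T.card - 1).factorial * ∏ p ∈ A, (p - 1)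

/-- The relations of odd level with few entries are killed. -/
theorem kill_few {m N : ℕ} [NeZero m] (hodd : m % 2 = 1)
    (h : ∀ T ⊆ m.primeFactors, Even T.card → T.Nonempty → Good T ∨ Big N m.primeFactors T) :
    ∃ l : ℕ, l ≠ 0 ∧ ∀ (M : ℕ) [NeZero M] (j : ℕ), j * (l * m) = M → ∀ (Q : Type) [AddCommGroup Q]
      (c : ZMod M → Q), OddDist c → (∀ s, FourBase M s → (s.map c).sum = 0) →
      ∀ y : ZMod m → ℤ, Rel y → (univ.filter (fun a => y a ≠ 0)).card ≤ N →
      ∑ a, y a • c (iota (j * l) a) = 0 := by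
  classical
  have hm0 : m ≠ 0 := NeZero.ne m
  set S := m.primeFactors with hS
  have hSp : ∀ x ∈ S, x.Prime ∧ x % 2 = 1 ∧ x ∣ m := by
    intro x hx
    have h1 := Nat.prime_of_mem_primeFactors hx
    have h2 := Nat.dvd_of_mem_primeFactors hx
    refine ⟨h1, ?_, h2⟩
    rw [← Nat.odd_iff] at hodd ⊢
    exact hodd.of_dvd_nat h2
  have hU : ∀ x ∈ S, (x.Prime ∧ x % 2 = 1) ∨ x = 4 := fun x hx =>
    Or.inl ⟨(hSp x hx).1, (hSp x hx).2.1⟩
  have hnz : ∀ i : Ix S, NeZero (nn S i) := fun i => ⟨(hSp i i.2).1.ne_zero⟩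
  have hn : Adm' (nn S) := fun i => hU i i.2
  have h4 : ∀ i : Ix S, nn S i ≠ 4 := by
    intro i hi
    have h1 := (hSp i i.2).2.1
    change (i : ℕ) = 4 at hi
    omega
  have hco : Pairwise (fun i j : Ix S => (nn S i).Coprime (nn S j)) := fun i j hij =>
    coprime_of (hU i i.2) (hU j j.2) (fun h => hij (Subtype.ext h))
  set m0 := ∏ i : Ix S, nn S i with hm0def
  have hm00 : m0 ≠ 0 := prod_ne_zero_iff.mpr fun i _ => (hnz i).out
  have hNZ0 : NeZero m0 := ⟨hm00⟩
  have hm0' : m0 = ∏ x ∈ S, x := by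
    rw [hm0def]
    exact Finset.prod_coe_sort S (fun x => x)
  have hdvd : m0 ∣ m := by
    rw [hm0']
    apply Finset.prod_dvd_of_isRelPrime
    · intro a ha b hb hab
      exact Nat.coprime_iff_isRelPrime.mp ((Nat.coprime_primes (hSp a ha).1 (hSp b hb).1).mpr hab)
    · intro x hx; exact (hSp x hx).2.2
  obtain ⟨k, hk⟩ := hdvd
  have hk' : k * m0 = m := by rw [mul_comm]; exact hk.symm
  have hall : ∀ p, p.Prime → p ∣ m → p ∣ m0 := by
    intro p hp hpm
    rw [hm0']
    exact dvd_prod_of_mem (fun x => x) (Nat.mem_primeFactors.mpr ⟨hp, hpm, hm0⟩)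
  have hred : Red m m0 k := red_exists k m m0 k rfl hk' hall (fun h => by omega)
  obtain ⟨X, hX1, hX2⟩ := up_exists k k m m0 rfl hk' hodd hall
  have hL : Lev (nn S) m0 m k (ZMod.prodEquivPi (nn S) hco).symm X :=
    ⟨hn, h4, hco, rfl, hred, hX1, hX2⟩
  -- the multipliers
  set F := S.powerset.filter (fun T => Good T) with hF
  choose l hl0 hl using fun (T : Finset ℕ) (hT : T ∈ F) => (mem_filter.mp hT).2
  set L : ℕ := ∏ T ∈ F.attach, l T.1 T.2 with hLdef
  have hL0 : L ≠ 0 := prod_ne_zero_iff.mpr fun T _ => hl0 T.1 T.2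
  have hlL : ∀ T (hT : T ∈ F), l T hT ∣ L := fun T hT =>
    dvd_prod_of_mem (fun T : {x // x ∈ F} => l T.1 T.2) (mem_attach F ⟨T, hT⟩)
  refine ⟨L, hL0, ?_⟩
  intro M _ j hM Q _ c hc hkill y hy hcard
  have hM' : j * L * m = M := by rw [← hM]; ring
  have hc1 : OddDist (fun a : ZMod m => c (iota (j * L) a)) := hc.comp_iota hM'
  refine hL.main hc1 hk' hy hcard ?_
  intro T hTe hTn
  set T' : Finset ℕ := T.map (Function.Embedding.subtype _) with hT'
  have hT'S : T' ⊆ S := by
    intro x hx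
    rw [hT', mem_map] at hx
    obtain ⟨z, _, rfl⟩ := hx
    exact z.2
  have hT'c : T'.card = T.card := card_map _
  rcases h T' hT'S (by rw [hT'c]; exact hTe) (by rw [hT']; exact hTn.map) with h1 | h1
  · left
    intro mT l' _ hmT hl' x hx
    have hTF : T' ∈ F := by rw [hF, mem_filter, mem_powerset]; exact ⟨hT'S, h1⟩
    obtain ⟨e, he⟩ := hlL T' hTF
    have hmT' : ∏ x ∈ T', x = mT := by
      rw [hT', prod_map]; exact hmT
    have h2 := hl T' hTF (j * e * k * l') M mT hmT' (by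
      rw [← hM, he, ← hk', ← hl']; ring) Q c hc hkill x hx
    rw [← h2]
    refine sum_congr rfl fun b _ => ?_
    rw [iota_comp (m := m) hk', iota_comp hM']
    congr 3
    rw [he]; ring
  · right
    intro A hTA
    have h2 := h1 (A.map (Function.Embedding.subtype _)) (map_subset_map.mpr hTA) (by
      intro x hx
      rw [mem_map] at hx
      obtain ⟨z, _, rfl⟩ := hx
      exact z.2)
    rw [card_map, hT'c, prod_map] at h2
    exact h2

/-- From killing to generation. -/
theorem gen_of_kill {m l N : ℕ} [NeZero m] (hl0 : l ≠ 0)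
    (h : ∀ (M : ℕ) [NeZero M], l * m = M → ∀ (Q : Type) [AddCommGroup Q]
      (c : ZMod M → Q), OddDist c → (∀ s, FourBase M s → (s.map c).sum = 0) →
      ∀ s : Multiset (ZMod m), IsHodge m s → Multiset.card s ≤ N →
      (s.map (fun a => c (iota l a))).sum = 0) :
    ∃ _ : NeZero (l * m), ∀ s : Multiset (ZMod m), IsHodge m s → s ≠ 0 → Multiset.card s ≤ N →
      Generated (l * m) (FourBase (l * m)) (s.map fun a => ((l * a.val : ℕ) : ZMod (l * m))) := by
  have hlm : NeZero (l * m) := ⟨Nat.mul_ne_zero hl0 (NeZero.ne m)⟩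
  refine ⟨hlm, fun s hs hne hcard => ?_⟩
  have hsl : IsHodge (l * m) (s.map (iota l : ZMod m → ZMod (l * m))) := hs.iota rfl
  have h1 := h (l * m) rfl _ (cQ (l * m) (FourBase (l * m))) cQ_oddDist (by
    intro s0 hs0
    exact cQ_sum_eq_zero (Generated.ofBase (m := l * m) (base := FourBase (l * m)) s0 hs0))
    s hs hcard
  have h4 : ((s.map (iota l : ZMod m → ZMod (l * m))).map
      (cQ (l * m) (FourBase (l * m)))).sum = 0 := by
    rw [Multiset.map_map]; exact h1
  rw [cQ_sum, QuotientAddGroup.eq_zero_iff] at h4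
  refine generated_of_mem_LL ?_ ?_ hsl.1 hsl.2.1 ?_ h4
  · rintro s (hs | hs)
    · exact Pool.Agent.Y2.Cv.base_good s hs
    · exact ⟨hs.1.1, hs.1.2.1⟩
  · rintro s (hs | hs)
    · exact Or.inl (Pool.Agent.Y2.Cv.base_neg s hs)
    · exact Or.inr hs.neg
  · intro h5
    exact hne (Multiset.map_eq_zero.mp h5)

lemma card_count_le {m N : ℕ} [NeZero m] {s : Multiset (ZMod m)} (hs : Multiset.card s ≤ N) :
    (univ.filter (fun a : ZMod m => ((s.count a : ℕ) : ℤ) ≠ 0)).card ≤ N := by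
  have h1 : univ.filter (fun a : ZMod m => ((s.count a : ℕ) : ℤ) ≠ 0) ⊆ s.toFinset := by
    intro a ha
    have h2 := (mem_filter.mp ha).2
    rw [Multiset.mem_toFinset, ← Multiset.count_ne_zero]
    exact_mod_cast h2
  exact (card_le_card h1).trans ((Multiset.toFinset_card_le s).trans hs)

/-- **The theorem for odd degrees, with conditions on sets of primes.** -/
theorem main_sets {m N : ℕ} [NeZero m] (hodd : m % 2 = 1)
    (h : ∀ T ⊆ m.primeFactors, Even T.card → T.Nonempty → Good T ∨ Big N m.primeFactors T) :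
    ∃ l : ℕ, ∃ _ : NeZero (l * m), ∀ s : Multiset (ZMod m), IsHodge m s → s ≠ 0 →
      Multiset.card s ≤ N →
      Generated (l * m) (FourBase (l * m)) (s.map fun a => ((l * a.val : ℕ) : ZMod (l * m))) := by
  obtain ⟨l, hl0, hl⟩ := kill_few hodd h
  refine ⟨l, gen_of_kill hl0 ?_⟩
  intro M _ hM Q _ c hc hk s hs hcard
  have h1 := hl M 1 (by rw [one_mul]; exact hM) Q c hc hk _ hs.rel (card_count_le hcard)
  rw [one_mul] at h1
  rw [← sum_count s (fun a => c (iota l a))]
  exact h1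

end Run7.h919.Tw
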