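import Pool.Agent.Run7.h919.Tw8

/-!
The numerical conditions, and the degrees twice an odd number.
-/

set_option linter.unusedSectionVars false

namespace Run7.h919.Tw

open Finset Pool.Agent.N993 Pool.Agent.N993.Dat Pool.Agent.H916R2 Pool.Agent.N992

/-! ### Products of different numbers -/

lemma fact_le_prod : ∀ (n : ℕ) (B : Finset ℕ), B.card = n → (∀ b ∈ B, 0 < b) →
    n.factorial ≤ ∏ b ∈ B, b := by
  intro n
  induction n with
  | zero =>
    intro B hB _
    rw [card_eq_zero.mp hB, prod_empty]; rfl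
  | succ n ih =>
    intro B hB hpos
    have hne : B.Nonempty := by rw [← card_pos]; omega
    set M := B.max' hne with hM
    have hMB : M ∈ B := max'_mem B hne
    have hle : n + 1 ≤ M := by
      have h1 : B ⊆ Icc 1 M := fun b hb => mem_Icc.mpr ⟨hpos b hb, le_max' B b hb⟩
      have h2 := card_le_card h1
      rw [Nat.card_Icc, hB] at h2
      omega
    have h1 := ih (B.erase M) (by rw [card_erase_of_mem hMB, hB]; rfl)
      (fun b hb => hpos b (mem_of_mem_erase hb))
    rw [← mul_prod_erase B (fun b => b) hMB, Nat.factorial_succ]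
    exact Nat.mul_le_mul hle h1

lemma fact_le_prod4 : ∀ (n : ℕ) (B : Finset ℕ), B.card = n → (∀ b ∈ B, 0 < b) → 4 ∉ B →
    (n + 1).factorial ≤ 4 * ∏ b ∈ B, b := by
  intro n
  induction n with
  | zero =>
    intro B hB _ _
    rw [card_eq_zero.mp hB, prod_empty]; norm_num
  | succ n ih =>
    intro B hB hpos h4
    have hne : B.Nonempty := by rw [← card_pos]; omega
    set M := B.max' hne with hM
    have hMB : M ∈ B := max'_mem B hne
    by_cases hle : n + 2 ≤ M
    · have h1 := ih (B.erase M) (by rw [card_erase_of_mem hMB, hB]; rfl)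
        (fun b hb => hpos b (mem_of_mem_erase hb)) (fun h => h4 (mem_of_mem_erase h))
      rw [← mul_prod_erase B (fun b => b) hMB, Nat.factorial_succ]
      calc (n + 1 + 1) * (n + 1).factorial ≤ M * (4 * ∏ b ∈ B.erase M, b) :=
            Nat.mul_le_mul hle h1
        _ = _ := by ring
    · have h1 : B ⊆ (Icc 1 M).erase 4 := fun b hb => by
        rw [mem_erase, mem_Icc]
        exact ⟨fun h => h4 (h ▸ hb), hpos b hb, le_max' B b hb⟩
      have h2 := card_le_card h1
      rw [hB] at h2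
      have h3 : M ≤ 3 := by
        by_contra h5
        rw [card_erase_of_mem (mem_Icc.mpr ⟨by norm_num, by omega⟩), Nat.card_Icc] at h2
        omega
      have h5 : n + 1 ≤ 3 := by
        have h6 := card_le_card (erase_subset 4 (Icc 1 M))
        rw [Nat.card_Icc] at h6
        omega
      have h6 := fact_le_prod (n + 1) B hB hpos
      rw [Nat.factorial_succ]
      exact Nat.mul_le_mul (by omega) h6

/-- half of `p - 1` -/
def hh (p : ℕ) : ℕ := (p - 1) / 2

section

variable {S : Finset ℕ} (hS : ∀ p ∈ S, p.Prime ∧ p % 2 = 1)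

include hS

lemma hh_inj {A : Finset ℕ} (hA : A ⊆ S) : Set.InjOn hh A := by
  intro p hp q hq h
  have h1 := (hS p (hA hp)).2
  have h2 := (hS q (hA hq)).2
  unfold hh at h
  omega

lemma prod_hh {A : Finset ℕ} (hA : A ⊆ S) : ∏ p ∈ A, (p - 1) = 2 ^ A.card * ∏ p ∈ A, hh p := by
  rw [← prod_const, ← prod_mul_distrib]
  refine prod_congr rfl fun p hp => ?_
  have h1 := (hS p (hA hp)).2
  unfold hh
  omega

lemma hh_pos {A : Finset ℕ} (hA : A ⊆ S) : ∀ b ∈ A.image hh, 0 < b := by
  intro b hb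
  obtain ⟨p, hp, rfl⟩ := mem_image.mp hb
  have h1 := hS p (hA hp)
  have h2 := h1.1.two_le
  have h3 := h1.2
  unfold hh
  omega

lemma hh_four {A : Finset ℕ} (hA : A ⊆ S) : 4 ∉ A.image hh := by
  intro hb
  obtain ⟨p, hp, h⟩ := mem_image.mp hb
  have h1 := hS p (hA hp)
  have h3 := h1.2
  unfold hh at h
  have h4 : p = 9 := by omega
  subst h4
  exact absurd h1.1 (by norm_num)

lemma prod_hh_image {A : Finset ℕ} (hA : A ⊆ S) : ∏ p ∈ A, hh p = ∏ b ∈ A.image hh, b :=
  (prod_image (f := fun b => b) (hh_inj hS hA)).symm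

lemma fact_le_hh {A : Finset ℕ} (hA : A ⊆ S) : A.card.factorial ≤ ∏ p ∈ A, hh p := by
  rw [prod_hh_image hS hA]
  exact fact_le_prod _ _ (card_image_of_injOn (hh_inj hS hA)) (hh_pos hS hA)

lemma fact_le_hh4 {A : Finset ℕ} (hA : A ⊆ S) : (A.card + 1).factorial ≤ 4 * ∏ p ∈ A, hh p := by
  rw [prod_hh_image hS hA]
  exact fact_le_prod4 _ _ (card_image_of_injOn (hh_inj hS hA)) (hh_pos hS hA) (hh_four hS hA)

lemma big_of_hh {N : ℕ} {T : Finset ℕ} (h : ∀ A : Finset ℕ, T ⊆ A → A ⊆ S →
    N * (A.card - 1).factorial < (T.card - 1).factorial * ∏ p ∈ A, hh p) : Big N S T := by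
  intro A hTA hAS
  rw [prod_hh hS hAS]
  have h1 := Nat.mul_lt_mul_of_pos_left (h A hTA hAS) (pow_pos (by norm_num : 0 < 2) A.card)
  calc N * (2 ^ A.card * (A.card - 1).factorial) = 2 ^ A.card * (N * (A.card - 1).factorial) := by
        ring
    _ < 2 ^ A.card * ((T.card - 1).factorial * ∏ p ∈ A, hh p) := h1
    _ = _ := by ring

/-- at least four primes -/
lemma big_four {N : ℕ} (hN : N < 30) {T : Finset ℕ} (hT : 4 ≤ T.card) : Big N S T := by
  refine big_of_hh hS fun A hTA hAS => ?_
  have h1 := card_le_card hTA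
  obtain ⟨n, hn⟩ : ∃ n, A.card = n + 1 := ⟨A.card - 1, by omega⟩
  have h2 := fact_le_hh4 hS hAS
  rw [hn] at h2 ⊢
  rw [Nat.add_sub_cancel]
  have h3 : 6 ≤ (T.card - 1).factorial := by
    have h4 : (3 : ℕ).factorial ≤ (T.card - 1).factorial := Nat.factorial_le (by omega)
    exact h4
  rw [Nat.factorial_succ, Nat.factorial_succ] at h2
  have h5 : 20 ≤ (n + 1 + 1) * (n + 1) := by
    have h6 : 5 ≤ n + 1 + 1 := by omega
    have h7 : 4 ≤ n + 1 := by omega
    exact Nat.mul_le_mul h6 h7
  have h6 : 0 < n.factorial := Nat.factorial_pos n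
  have h7 : 20 * n.factorial ≤ 4 * ∏ p ∈ A, hh p := by
    calc 20 * n.factorial ≤ ((n + 1 + 1) * (n + 1)) * n.factorial := Nat.mul_le_mul_right _ h5
      _ = (n + 1 + 1) * ((n + 1) * n.factorial) := by ring
      _ ≤ _ := h2
  have h8 : 6 * ∏ p ∈ A, hh p ≤ (T.card - 1).factorial * ∏ p ∈ A, hh p := Nat.mul_le_mul_right _ h3
  have h9 : N * n.factorial ≤ 29 * n.factorial := Nat.mul_le_mul_right _ (by omega)
  omega

/-- a large prime -/
lemma big_large {N : ℕ} {T : Finset ℕ} {P : ℕ} (hP : P ∈ T) (hPN : 2 * N + 1 < P) :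
    Big N S T := by
  refine big_of_hh hS fun A hTA hAS => ?_
  have hPA := hTA hP
  have h1 := fact_le_hh hS ((erase_subset P A).trans hAS)
  rw [card_erase_of_mem hPA] at h1
  rw [← mul_prod_erase A hh hPA]
  have h2 : N < hh P := by
    have h3 := (hS P (hAS hPA)).2
    unfold hh
    omega
  have h3 : 1 ≤ (T.card - 1).factorial := Nat.factorial_pos _
  calc N * (A.card - 1).factorial < hh P * (A.card - 1).factorial :=
        Nat.mul_lt_mul_of_pos_right h2 (Nat.factorial_pos _)
    _ ≤ hh P * ∏ p ∈ A.erase P, hh p := Nat.mul_le_mul_left _ h1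
    _ ≤ (T.card - 1).factorial * (hh P * ∏ p ∈ A.erase P, hh p) := by
        exact Nat.le_mul_of_pos_left _ h3

/-- two large primes -/
lemma big_pair {N : ℕ} {p q : ℕ} (hpq : p ≠ q) (h : 16 * N < (p - 1) * (q - 1)) :
    Big N S {p, q} := by
  refine big_of_hh hS fun A hTA hAS => ?_
  have hp : p ∈ A := hTA (mem_insert_self _ _)
  have hq : q ∈ A := hTA (mem_insert_of_mem (mem_singleton_self _))
  have hq' : q ∈ A.erase p := mem_erase.mpr ⟨hpq.symm, hq⟩
  have h1 := fact_le_hh4 hS (((erase_subset q (A.erase p)).trans (erase_subset p A)).trans hAS)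
  rw [card_erase_of_mem hq', card_erase_of_mem hp] at h1
  have h2 : 2 ≤ A.card := by
    rw [← card_pair hpq]; exact card_le_card hTA
  have h3 : A.card - 1 - 1 + 1 = A.card - 1 := by omega
  rw [h3] at h1
  rw [← mul_prod_erase A hh hp, ← mul_prod_erase (A.erase p) hh hq', card_pair hpq]
  set R := ∏ x ∈ (A.erase p).erase q, hh x with hR
  have h4 : 4 * N < hh p * hh q := by
    have h5 := (hS p (hAS hp)).2
    have h6 := (hS q (hAS hq)).2
    have h7 : p - 1 = 2 * hh p := by unfold hh; omega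
    have h8 : q - 1 = 2 * hh q := by unfold hh; omega
    rw [h7, h8] at h
    have h9 : 2 * hh p * (2 * hh q) = 4 * (hh p * hh q) := by ring
    omega
  have h5 : 0 < R := by
    have h6 : 0 < 4 * R := lt_of_lt_of_le (Nat.factorial_pos _) h1
    omega
  have h6 : (2 - 1).factorial = 1 := rfl
  rw [h6, one_mul]
  calc N * (A.card - 1).factorial ≤ N * (4 * R) := Nat.mul_le_mul_left _ h1
    _ = (4 * N) * R := by ring
    _ < (hh p * hh q) * R := Nat.mul_lt_mul_of_pos_right h4 h5
    _ = _ := by ring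

end

/-! ### Twice an odd number -/

/-- the reduction to the even residues -/
def ev2 {m' : ℕ} [NeZero (2 * m')] (y : ZMod (2 * m') → ℤ) (b : ZMod m') : ℤ :=
  ∑ a : ZMod (2 * m'), if 2 ∣ a.val then (if b = ((a.val / 2 : ℕ) : ZMod m') then y a else 0)
    else (if b = ((a.val : ℕ) : ZMod m') then y a else 0) -
      (if b = (((a.val + m') / 2 : ℕ) : ZMod m') then y a else 0)

lemma ev2_sum {m' : ℕ} [NeZero m'] [NeZero (2 * m')] (hodd : m' % 2 = 1) {Q : Type}
    [AddCommGroup Q] {c : ZMod (2 * m') → Q} (hc : OddDist c) (y : ZMod (2 * m') → ℤ) :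
    ∑ b, ev2 y b • c (iota 2 b) = ∑ a, y a • c a := by
  classical
  have hterm : ∀ a : ZMod (2 * m'), y a • c a = ∑ b : ZMod m',
      (if 2 ∣ a.val then (if b = ((a.val / 2 : ℕ) : ZMod m') then y a else 0)
        else (if b = ((a.val : ℕ) : ZMod m') then y a else 0) -
        (if b = (((a.val + m') / 2 : ℕ) : ZMod m') then y a else 0)) • c (iota 2 b) := by
    intro a
    have hpick : ∀ r : ZMod m', ∑ b : ZMod m', (if b = r then y a else 0) • c (iota 2 b) =
        y a • c (iota 2 r) := by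
      intro r
      rw [sum_eq_single r]
      · rw [if_pos rfl]
      · intro b _ hb; rw [if_neg hb, zero_smul]
      · intro h; exact absurd (mem_univ _) h
    by_cases h2 : 2 ∣ a.val
    · simp only [if_pos h2]
      rw [hpick, iota_natCast rfl, Nat.mul_div_cancel' h2, ZMod.natCast_zmod_val]
    · simp only [if_neg h2, sub_smul]
      rw [sum_sub_distrib, hpick, hpick, iota_natCast rfl, iota_natCast rfl]
      have h3 : 2 ∣ a.val + m' := by omega
      rw [Nat.mul_div_cancel' h3]
      have h4 := hc.dist 2 m' Nat.prime_two rfl a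
      rw [sum_range_succ, sum_range_one] at h4
      have h5 : a + ((0 : ℕ) : ZMod (2 * m')) * ((m' : ℕ) : ZMod (2 * m')) = a := by
        push_cast; ring
      have h6 : a + ((1 : ℕ) : ZMod (2 * m')) * ((m' : ℕ) : ZMod (2 * m')) =
          ((a.val + m' : ℕ) : ZMod (2 * m')) := by
        push_cast
        rw [ZMod.natCast_zmod_val]; ring
      have h7 : ((2 : ℕ) : ZMod (2 * m')) * a = ((2 * a.val : ℕ) : ZMod (2 * m')) := by
        push_cast
        rw [ZMod.natCast_zmod_val]
      rw [h5, h6, h7] at h4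
      rw [← h4, ← smul_sub, add_sub_cancel_right]
  rw [sum_congr rfl fun a _ => hterm a, sum_comm]
  refine sum_congr rfl fun b _ => ?_
  unfold ev2
  rw [sum_smul]

lemma ev2_rel {m' : ℕ} [NeZero m'] [NeZero (2 * m')] (hodd : m' % 2 = 1)
    {y : ZMod (2 * m') → ℤ} (hy : Rel y) : Rel (ev2 y) := by
  intro t
  have hdvd : m' ∣ 2 * m' := dvd_mul_left _ _
  obtain ⟨t', ht'⟩ := ZMod.unitsMap_surjective hdvd t
  have h1 := ev2_sum hodd (saw_oddDist' t') y
  have h2 : ∑ a, y a • saw ((t' : ZMod (2 * m')) * a) = 0 := by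
    rw [← hy t']
    exact sum_congr rfl fun a _ => by rw [smul_eq_mul]
  rw [h2] at h1
  have h3 : ∀ b : ZMod m', saw ((t' : ZMod (2 * m')) * iota 2 b) =
      ((2 : ℕ) : ℤ) * saw ((t : ZMod m') * b) := by
    intro b
    rw [unit_iota rfl, saw_iota rfl, ht']
  have h4 : ((2 : ℕ) : ℤ) * ∑ b, ev2 y b * saw ((t : ZMod m') * b) = 0 := by
    rw [mul_sum, ← h1]
    refine sum_congr rfl fun b _ => ?_
    rw [h3, smul_eq_mul]; ring
  have h5 : ((2 : ℕ) : ℤ) ≠ 0 := by norm_num
  exact (mul_eq_zero.mp h4).resolve_left h5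

lemma ev2_card {m' N : ℕ} [NeZero m'] [NeZero (2 * m')] {y : ZMod (2 * m') → ℤ}
    (hy : (univ.filter (fun a => y a ≠ 0)).card ≤ N) :
    (univ.filter (fun b => ev2 y b ≠ 0)).card ≤ 2 * N := by
  classical
  set Z := univ.filter (fun a => y a ≠ 0) with hZ
  have h1 : univ.filter (fun b => ev2 y b ≠ 0) ⊆
      Z.image (fun a => if 2 ∣ a.val then ((a.val / 2 : ℕ) : ZMod m') else ((a.val : ℕ) : ZMod m')) ∪
      Z.image (fun a => (((a.val + m') / 2 : ℕ) : ZMod m')) := by
    intro b hb
    have h2 := (mem_filter.mp hb).2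
    unfold ev2 at h2
    obtain ⟨a, _, ha⟩ := exists_ne_zero_of_sum_ne_zero h2
    rw [mem_union, mem_image, mem_image]
    by_cases hd : 2 ∣ a.val
    · rw [if_pos hd] at ha
      left
      by_cases h3 : b = ((a.val / 2 : ℕ) : ZMod m')
      · rw [if_pos h3] at ha
        exact ⟨a, mem_filter.mpr ⟨mem_univ _, ha⟩, by rw [if_pos hd, h3]⟩
      · rw [if_neg h3] at ha; exact absurd rfl ha
    · rw [if_neg hd] at ha
      by_cases h3 : b = ((a.val : ℕ) : ZMod m')
      · left
        have h4 : y a ≠ 0 := by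
          intro h5
          rw [h5] at ha
          simp at ha
        exact ⟨a, mem_filter.mpr ⟨mem_univ _, h4⟩, by rw [if_neg hd, h3]⟩
      · right
        rw [if_neg h3] at ha
        by_cases h5 : b = (((a.val + m') / 2 : ℕ) : ZMod m')
        · have h4 : y a ≠ 0 := by
            intro h6
            rw [h6] at ha
            simp at ha
          exact ⟨a, mem_filter.mpr ⟨mem_univ _, h4⟩, h5.symm⟩
        · rw [if_neg h5] at ha
          simp at ha
  refine (card_le_card h1).trans ((card_union_le _ _).trans ?_)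
  have h2 := card_image_le (s := Z) (f := fun a => if 2 ∣ a.val then ((a.val / 2 : ℕ) : ZMod m')
    else ((a.val : ℕ) : ZMod m'))
  have h3 := card_image_le (s := Z) (f := fun a : ZMod (2 * m') => (((a.val + m') / 2 : ℕ) : ZMod m'))
  omega

end Run7.h919.Tw
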